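import Pool.Agent.U596.KS3

/-! The entrance laws: uniformity, law of large numbers; invariant sets and their affine images. -/

set_option autoImplicit false

namespace Pool.Agent.U596.KF

open Finset Filter Topology Pool.Agent.Y964.LW Pool.Agent.U596.TP Pool.Agent.U596.TR
open Pool.Agent.H499R2.CO (Tz)
open Pool.Agent.H499R2.ND (Dn Td Phi Phi_continuous phi_cdf Inv HD)
open Pool.Agent.H499R2.LT (od od_add Dn_iff)
open Pool.Agent.H499R2.HL (bk bo nu rr nu_pos rr_pos sqrt_rr)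
open scoped Classical

theorem llnV {V : ℕ → ℕ → Prop} {f : ℕ → ℕ → ℝ} {α σ δ : ℝ} (hσ : 0 < σ) (hδ0 : 0 ≤ δ) (hδ1 : δ ≤ 1)
    (hT : KFr {((fun n => ∃ k, V k n), δ)})
    (h1 : ∀ x, KFr {((fun n : ℕ => ∃ k, V k n ∧ f k n ≤ thr α σ x (Real.log n)), δ * Phi x)}) {η : ℝ} (hη : 0 < η) :
    KFr {((fun n : ℕ => ∃ k, V k n ∧ |f k n - α * Real.log n| ≤ η * Real.log n), δ)} := by
  apply KFr_sandwich
  intro ε hε
  obtain ⟨x0, hx0⟩ := (Phi_top.eventually (lt_mem_nhds (show 1 - ε / 2 < 1 by linarith))).exists_forall_of_atTop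
  obtain ⟨y0, hy0⟩ := (Phi_bot.eventually (gt_mem_nhds (show (0 : ℝ) < ε / 2 by linarith))).exists_forall_of_atBot
  obtain ⟨x, hx⟩ : ∃ x : ℝ, x = max 1 (max x0 (-y0)) := ⟨_, rfl⟩
  have hx1 : 1 ≤ x := by rw [hx]; exact le_max_left _ _
  have hxa : Phi (x) > 1 - ε / 2 := hx0 x (by rw [hx]; exact (le_max_left _ _).trans (le_max_right _ _))
  have hxb : Phi (-x) < ε / 2 := hy0 (-x) (by
    have : -y0 ≤ x := by rw [hx]; exact (le_max_right _ _).trans (le_max_right _ _)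
    linarith)
  have h3 := KFr_diff (h1 (-x)) (h1 x) (fun n h => by
    obtain ⟨k, hk, h4⟩ := h
    exact ⟨k, hk, h4.trans (thr_mono hσ (by linarith))⟩)
  have hev : ∀ᶠ n : ℕ in Filter.atTop, (x * σ / η) ^ 2 ≤ Real.log n :=
    (Real.tendsto_log_atTop.comp tendsto_natCast_atTop_atTop).eventually_ge_atTop _
  obtain ⟨n1, hn1⟩ := Filter.eventually_atTop.1 hev
  refine ⟨_, _, _, _, n1, h3, hT, ?_, ?_, fun n hn => ⟨?_, ?_⟩⟩
  · have h5 : δ * (1 - Phi x + Phi (-x)) ≤ 1 * ε := by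
      apply mul_le_mul hδ1 (by linarith) _ zero_le_one
      have : Phi x ≤ 1 := Phi_mono.ge_of_tendsto Phi_top x
      have : 0 ≤ Phi (-x) := Phi_mono.le_of_tendsto Phi_bot (-x)
      linarith
    linarith
  · linarith
  · rintro ⟨⟨k, hk, h4⟩, h5⟩
    refine ⟨k, hk, ?_⟩
    have h6 : ¬ f k n ≤ thr α σ (-x) (Real.log n) := fun h => h5 ⟨k, hk, h⟩
    push Not at h6
    have hL := hn1 n hn
    have hL0 : 0 ≤ Real.log n := le_trans (sq_nonneg _) hL
    have h7 : x * (σ * Real.sqrt (Real.log n)) ≤ η * Real.log n := by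
      have h8 : x * σ / η ≤ Real.sqrt (Real.log n) := by
        rw [← Real.sqrt_sq (show 0 ≤ x * σ / η by positivity)]
        exact Real.sqrt_le_sqrt hL
      rw [div_le_iff₀ hη] at h8
      have h9 := mul_le_mul_of_nonneg_right h8 (Real.sqrt_nonneg (Real.log n))
      have h10 : Real.sqrt (Real.log n) * η * Real.sqrt (Real.log n) = η * Real.log n := by
        rw [mul_right_comm, Real.mul_self_sqrt hL0]; ring
      rw [h10] at h9
      linarith
    unfold thr at h4 h6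
    rw [abs_le]
    constructor <;> linarith
  · rintro ⟨k, hk, _⟩
    exact ⟨k, hk⟩


/-- invariant sets of integers of sign `s`, uniformly -/
theorem inv_side {s : ℤ} (hs : s = 1 ∨ s = -1) :
    KFr {P | ∃ (S : Set ℤ) (δ : ℝ), Inv 1 S ∧ HasD s S δ ∧ P = ((fun n : ℕ => s * (n : ℤ) ∈ S), δ)} := by
  refine (KFr_of hs (UEv_inv 1 hs)).mono ?_
  rintro P ⟨S, δ, h1, h2, rfl⟩
  obtain ⟨l, _, _, hl⟩ := Pool.Agent.H499R2.ND.dens_side (d := 1) odd_one
    (Int.isCoprime_iff_gcd_eq_one.2 (by norm_num)) hs h1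
  have h3 : HasD s S l := Pool.Agent.H499R2.ND.HD_ncard hs hl
  have h4 : δ = l := tendsto_nhds_unique h2 h3
  exact ⟨S, δ, h1, by rw [h4]; exact hl, rfl⟩

/-- the laws of the entrance time, uniformly in the level -/
theorem entr_laws {s : ℤ} (hs : s = 1 ∨ s = -1) {F : Finset ℤ} (hF : ∀ y ∈ F, y % 2 = 1) {B : ℕ} (hB : Bd F B)
    {δ : ℝ} (hE : Dn (fun n : ℕ => ∃ k : ℕ, Pool.Agent.W26.HN.E F k (s * n)) δ) :
    (∀ (m : ℕ) (a : ℤ), 1 ≤ m →
      KFr {P | ∃ x : ℝ, P = ((fun n : ℕ => ∃ k : ℕ, Pool.Agent.W26.HN.E F k (s * n) ∧ ((k : ℝ) ≤ bk x (Real.log n) ∧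
        (k : ℤ) ≡ a [ZMOD m])), δ / m * Phi x)}) ∧
    ∀ η : ℝ, 0 < η → KFr {((fun n : ℕ => ∃ k : ℕ, Pool.Agent.W26.HN.E F k (s * n) ∧
      |(k : ℝ) - 2 / Real.log (4 / 3) * Real.log n| ≤ η * Real.log n), δ)} := by
  obtain ⟨h0, h1, hT, hlaw⟩ := entr_k hs hF hB hE
  have hrr := rr_pos
  have hl3 : 0 < Real.log 3 := Real.log_pos (by norm_num)
  refine ⟨fun m a hm => ?_, fun η hη => ?_⟩
  · obtain ⟨-, h2, h3⟩ := hlaw m a 0 hm
    have hm1 : (1 : ℝ) ≤ m := by exact_mod_cast hm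
    refine KFr_polya (F := fun x n => ∃ k : ℕ, Pool.Agent.W26.HN.E F k (s * n) ∧ ((k : ℝ) ≤ bk x (Real.log n) ∧
        (k : ℤ) ≡ a [ZMOD m]))
      (G := fun n => ∃ k : ℕ, Pool.Agent.W26.HN.E F k (s * n) ∧ (k : ℤ) ≡ a [ZMOD m]) (d := δ / m)
      (by positivity) (div_le_one_of_le₀ (h1.trans hm1) (by positivity)) Phi_continuous Phi_mono Phi_bot Phi_top
      ?_ ?_ h2 (fun x => (h3 x).2)
    · rintro x y n hxy ⟨k, hk, h4, h5⟩
      refine ⟨k, hk, h4.trans ?_, h5⟩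
      rw [bk_thr, bk_thr]
      exact thr_mono (by positivity) hxy
    · rintro x n ⟨k, hk, h4, h5⟩
      exact ⟨k, hk, h5⟩
  · refine llnV (V := fun k n => Pool.Agent.W26.HN.E F k (s * n)) (f := fun k _ => (k : ℝ)) (σ := Real.log 3 * rr)
      (by positivity) h0 h1 hT (fun x => ?_) hη
    refine KFr_congr 0 ((hlaw 1 0 0 le_rfl).2.2 x).2 (fun n _ => exists_congr fun k => and_congr_right fun _ => ?_)
      (by simp)
    rw [← bk_thr]
    simp [Int.modEq_one]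

end Pool.Agent.U596.KF
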