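import Pool.Agent.U596.TP9
import Pool.Agent.H499R2.NDCor

/-! Sets of positive integers invariant under the Collatz map. -/

set_option autoImplicit false

namespace Pool.Agent.U596.TP

open Filter Topology Pool.Agent.H499R2.ND Finset Pool.Agent.W41 Pool.Agent.W41.FU

/-- the Collatz map on the natural numbers -/
def Cn (n : ℕ) : ℕ := if n % 2 = 0 then n / 2 else 3 * n + 1

/-- the set of integers that belongs to a set of natural numbers -/
def toZ (S : Set ℕ) : Set ℤ := {x | 0 < x ∧ x.toNat ∈ S}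

theorem Cn_pos {n : ℕ} (hn : 1 ≤ n) : 1 ≤ Cn n := by
  unfold Cn
  split_ifs <;> omega

theorem toZ_inv {S : Set ℕ} (hS : ∀ n : ℕ, 1 ≤ n → (n ∈ S ↔ Cn n ∈ S)) : Inv 1 (toZ S) := by
  intro x
  unfold toZ
  simp only [Set.mem_setOf_eq]
  by_cases hx : 0 < x
  · obtain ⟨n, rfl⟩ : ∃ n : ℕ, x = n := ⟨x.toNat, by omega⟩
    have hn : 1 ≤ n := by omega
    have h1 := hS n hn
    have h2 := hS (Cn n) (Cn_pos hn)
    by_cases hp : n % 2 = 0
    · have e : Td 1 (n : ℤ) = ((n / 2 : ℕ) : ℤ) := by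
        unfold Td
        rw [if_pos (by omega)]
        omega
      have e2 : Cn n = n / 2 := by unfold Cn; rw [if_pos hp]
      rw [e]
      simp only [Int.toNat_natCast]
      rw [e2] at h1
      constructor
      · rintro ⟨_, h⟩; exact ⟨by omega, h1.1 h⟩
      · rintro ⟨_, h⟩; exact ⟨by omega, h1.2 h⟩
    · have e : Td 1 (n : ℤ) = (((3 * n + 1) / 2 : ℕ) : ℤ) := by
        unfold Td
        rw [if_neg (by omega)]
        omega
      have e2 : Cn n = 3 * n + 1 := by unfold Cn; rw [if_neg hp]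
      have e3 : Cn (3 * n + 1) = (3 * n + 1) / 2 := by unfold Cn; rw [if_pos (by omega)]
      rw [e]
      simp only [Int.toNat_natCast]
      rw [e2, e3] at h2
      rw [e2] at h1
      constructor
      · rintro ⟨_, h⟩; exact ⟨by omega, h2.1 (h1.1 h)⟩
      · rintro ⟨_, h⟩; exact ⟨by omega, h1.2 (h2.2 h)⟩
  · have h1 : ¬ 0 < Td 1 x := by
      unfold Td
      split_ifs <;> omega
    constructor
    · rintro ⟨h, _⟩; exact absurd h hx
    · rintro ⟨h, _⟩; exact absurd h h1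

theorem toZ_density {S : Set ℕ} (hS : ∀ n : ℕ, 1 ≤ n → (n ∈ S ↔ Cn n ∈ S)) : ∃ δ : ℝ, HD 1 (toZ S) δ ∧
    Tendsto (fun N : ℕ => ({n : ℕ | 1 ≤ n ∧ n ≤ N ∧ n ∈ S}.ncard : ℝ) / N) atTop (𝓝 δ) := by
  obtain ⟨δ, -, -, h⟩ := dens_side (d := 1) odd_one (by norm_num) (Or.inl rfl : (1 : ℤ) = 1 ∨ (1 : ℤ) = -1) (toZ_inv hS)
  refine ⟨δ, h, ?_⟩
  refine (HD_ncard (Or.inl rfl) h).congr fun N => ?_
  have e : {n : ℤ | 0 < 1 * n ∧ 1 * n ≤ N ∧ n ∈ toZ S} = (fun n : ℕ => (n : ℤ)) '' {n : ℕ | 1 ≤ n ∧ n ≤ N ∧ n ∈ S} := by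
    ext x
    simp only [Set.mem_setOf_eq, Set.mem_image, toZ]
    constructor
    · rintro ⟨h1, h2, h3, h4⟩
      exact ⟨x.toNat, ⟨by omega, by omega, h4⟩, by omega⟩
    · rintro ⟨n, ⟨h1, h2, h3⟩, rfl⟩
      refine ⟨by omega, by omega, by omega, ?_⟩
      simpa using h3
  rw [e, Set.ncard_image_of_injective _ Nat.cast_injective]

theorem bal_toZ (S : Set ℕ) (δ : ℝ) {n : ℕ} (hn : 1 ≤ n) :
    bal 1 (toZ S) δ ((n : ℕ) : ℤ) = S.indicator (fun _ => (1 : ℝ)) n - δ := by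
  classical
  unfold bal ind toZ
  by_cases h : n ∈ S
  · rw [Set.indicator_of_mem h, if_pos]
    simp only [one_mul, Set.mem_setOf_eq]
    exact ⟨by omega, by simpa using h⟩
  · rw [Set.indicator_of_notMem h, if_neg]
    simp only [one_mul, Set.mem_setOf_eq, not_and]
    intro _
    simpa using h

end Pool.Agent.U596.TP
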