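import Pool.Agent.U596.TR6
import Pool.Agent.U596.TP10

/-! The class of the basic events for the Collatz map on the positive integers. -/

set_option autoImplicit false

namespace Pool.Agent.U596.TR

open Finset Filter Topology
open Pool.Agent.Y964.LW
open Pool.Agent.U596.TP
open Pool.Agent.H499R2.CO (Tz)
open Pool.Agent.H499R2.ND (Dn Tn Td Phi Phi_continuous phi_cdf Bas CC BasC Inv HD)
open Pool.Agent.H499R2.LT (odn od od_nat Td_nat law_one law_oneC ocn oC_nat Dn_sum Dn_iff)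
open Pool.Agent.H499R2.HL (H H_two H_of_two H_unique odn_two bk bo nu rr nu_pos rr_pos sqrt_rr law_k law_o)
open scoped Classical

theorem UEv_ext {R : ℕ} {s : ℤ} {PP : Set ((ℕ → Prop) × ℝ)} (h : UEv R s PP) :
    UEv R s {Q | ∃ P ∈ PP, Q.2 = P.2 ∧ ∀ n, 1 ≤ n → (Q.1 n ↔ P.1 n)} := by
  intro K η hη
  obtain ⟨N1, h1⟩ := h K η hη
  refine ⟨N1, fun Y hY Q hQ => ?_⟩
  obtain ⟨P, hP, e1, e2⟩ := hQ
  obtain ⟨g1, g2, g3⟩ := h1 Y hY P hP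
  rw [e1]
  refine ⟨g1, g2, fun b => ?_⟩
  obtain ⟨Q', l, u1, u2, u3, u4, u5, u6⟩ := g3 b
  refine ⟨Q', l, u1, u2, u3, u4, u5, fun n hn h2 h3 => ?_⟩
  obtain ⟨v1, v2⟩ := u6 n hn h2 h3
  exact ⟨fun hb hP' => v1 hb ((e2 n hn).1 hP'), fun hb hQ => (e2 n hn).2 (v2 hb hQ)⟩

/-- the event for the Collatz time -/
def EvC (m : ℕ) (x : ℝ) (a b : ℕ) (n : ℕ) : Prop :=
  ∃ l : ℕ, (Cn^[l] n = 1 ∧ ∀ i < l, Cn^[i] n ≠ 1) ∧ (l : ℝ) ≤ bc x (Real.log n) ∧ l % m = a ∧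
    ((Finset.range l).filter (fun i => Cn^[i] n % 2 = 1)).card % m = b

theorem EvC_iff {m : ℕ} {x : ℝ} {a b : ℕ} (ha : a < m) (hb : b < m) {n : ℕ} (hn : 1 ≤ n) :
    EvC m x a b n ↔ ∃ k, H k n ∧ (((k + odn k n : ℕ) : ℝ) ≤ bc x (Real.log n) ∧
        ((k + odn k n : ℕ) : ℤ) ≡ ((a : ℕ) : ℤ) [ZMOD m] ∧ (odn k n : ℤ) ≡ ((b : ℕ) : ℤ) [ZMOD m]) := by
  have hmod : ∀ u v : ℕ, v < m → (((u : ℕ) : ℤ) ≡ ((v : ℕ) : ℤ) [ZMOD m] ↔ u % m = v) := by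
    intro u v hv
    rw [Int.natCast_modEq_iff]
    unfold Nat.ModEq
    rw [Nat.mod_eq_of_lt hv]
  have hC : ∀ i, Cn^[i] n = CC^[i] n := fun i => rfl
  constructor
  · rintro ⟨l, h1, h2, h3, h4⟩
    obtain ⟨k, hk, rfl⟩ := (hitC hn).1 h1
    refine ⟨k, hk, h2, (hmod _ _ ha).2 h3, (hmod _ _ hb).2 ?_⟩
    have h5 := ocn_run k n
    unfold ocn at h5
    rw [← h5]
    exact h4
  · rintro ⟨k, hk, h2, h3, h4⟩
    refine ⟨k + odn k n, (hitC hn).2 ⟨k, hk, rfl⟩, h2, (hmod _ _ ha).1 h3, ?_⟩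
    have h5 := ocn_run k n
    unfold ocn at h5
    have h6 := (hmod _ _ hb).1 h4
    rw [← h5] at h6
    exact h6

/-- THE COUNTING LEMMA FOR THE COLLATZ MAP. -/
theorem collatz : ∃ δ : ℝ, 0 < δ ∧ δ ≤ 1 ∧ (δ = 1 ↔ ∀ n : ℕ, 1 ≤ n → ∃ k : ℕ, Cn^[k] n = 1) ∧
    Dn (fun n => ∃ k : ℕ, Cn^[k] n = 1) δ ∧
    ∀ (m : ℕ) (X : Finset ℝ), 1 ≤ m →
      UEv 2 1 {Q | (∃ (S : Set ℕ) (d : ℝ), (∀ n, 1 ≤ n → (n ∈ S ↔ Cn n ∈ S)) ∧
          Tendsto (fun N : ℕ => ({n : ℕ | 1 ≤ n ∧ n ≤ N ∧ n ∈ S}.ncard : ℝ) / N) atTop (𝓝 d) ∧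
          Q = ((fun n => n ∈ S), d)) ∨
        (∃ x ∈ X, ∃ a b : ℕ, a < m ∧ b < m ∧ Q = (EvC m x a b, δ / (m : ℝ) ^ 2 * Phi x))} := by
  obtain ⟨δ, h0, h1, h2, h3, h4⟩ := laws
  have hbas : ∀ n, (∃ k : ℕ, Cn^[k] n = 1) ↔ ∃ k : ℕ, Tn^[k] n = 1 := fun n => (BasC n).symm
  refine ⟨δ, h0, h1, ?_, ?_, fun m X hm => ?_⟩
  · rw [h2]
    exact forall_congr' fun n => forall_congr' fun _ => (hbas n).symm
  · exact Dn_iff (fun n _ => (hbas n).symm) h3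
  · have t1 := UEv_inv 2 (s := 1) (Or.inl rfl)
    have t2 := UEv_finite (R := 2) (s := 1) (X ×ˢ (Finset.range m ×ˢ Finset.range m))
      (fun j => (EvC m j.1 j.2.1 j.2.2, δ / (m : ℝ) ^ 2 * Phi j.1)) (fun j hj => by
        rw [mem_product, mem_product, mem_range, mem_range] at hj
        refine UEv_congr (h4 m j.2.1 j.2.2 j.1 hm).2.1 (fun n hn => ?_) rfl
        exact EvC_iff hj.2.1 hj.2.2 hn)
    have t3 := UEv_ext (t1.union t2)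
    intro K η hη
    obtain ⟨N1, h5⟩ := t3 K η hη
    refine ⟨N1, fun Y hY Q hQ => h5 Y hY Q ?_⟩
    rcases hQ with ⟨S, d, hS, hd, rfl⟩ | ⟨x, hx, a, b, ha, hb, rfl⟩
    · obtain ⟨d', g1, g2⟩ := toZ_density hS
      have e : d' = d := tendsto_nhds_unique g2 hd
      refine ⟨((fun n : ℕ => (1 : ℤ) * (n : ℤ) ∈ toZ S), d'), Or.inl ⟨toZ S, d', toZ_inv hS, g1, rfl⟩, e.symm, ?_⟩
      intro n hn
      show n ∈ S ↔ (1 : ℤ) * (n : ℤ) ∈ Pool.Agent.U596.TP.toZ S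
      unfold Pool.Agent.U596.TP.toZ
      simp only [Set.mem_setOf_eq, one_mul, Int.toNat_natCast]
      constructor
      · intro h; exact ⟨by omega, h⟩
      · exact fun h => h.2
    · refine ⟨(EvC m x a b, δ / (m : ℝ) ^ 2 * Phi x), Or.inr ⟨(x, a, b), ?_, rfl⟩, rfl, fun n _ => Iff.rfl⟩
      rw [mem_product, mem_product, mem_range, mem_range]
      exact ⟨hx, ha, hb⟩

end Pool.Agent.U596.TR
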