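import Pool.Agent.U596.TP6

/-! Bilinear sums over primes in two dyadic ranges. -/

set_option autoImplicit false

namespace Pool.Agent.U596.TP

open Pool.Agent.H320R2.PD Pool.Agent.H499R2.ND Finset Pool.Agent.H499R2.CO Pool.Agent.W41.FU Pool.Agent.W41
  Pool.Agent.W41.MU Pool.Agent.H376R2.MR

/-- the primes in `[M, 2M)` -/
def Pr (M : ℕ) : Finset ℕ := (Ico M (2 * M)).filter Nat.Prime

theorem mem_Pr {M p : ℕ} : p ∈ Pr M ↔ M ≤ p ∧ p < 2 * M ∧ p.Prime := by
  unfold Pr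
  rw [mem_filter, mem_Ico]
  tauto

/-- the cells which cover `[M, 2M)` -/
noncomputable def vlo (M : ℕ) : ℕ := ⌊10 * Real.log M⌋₊
noncomputable def vhi (M : ℕ) : ℕ := ⌊10 * Real.log (2 * M : ℕ)⌋₊ + 1

theorem v_bds {M : ℕ} (hM : 10 ≤ M) : 10 * Real.log M - 1 ≤ vlo M ∧ (vhi M : ℝ) ≤ 10 * Real.log M + 8 ∧
    vlo M ≤ vhi M ∧ (vhi M : ℝ) - vlo M ≤ 9 ∧ 2 ≤ Real.log M := by
  have hM0 : (0 : ℝ) < M := by exact_mod_cast (by omega : 0 < M)
  have hl : 2 ≤ Real.log M := by
    rw [Real.le_log_iff_exp_le hM0]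
    have h1 : (10 : ℝ) ≤ M := by exact_mod_cast hM
    have h2 := Real.exp_one_lt_d9
    have h3 : Real.exp 2 = Real.exp 1 * Real.exp 1 := by rw [← Real.exp_add]; norm_num
    have h4 := Real.exp_pos 1
    rw [h3]; nlinarith only [h1, h2, h4]
  have h1 : 10 * Real.log M < vlo M + 1 := by unfold vlo; exact Nat.lt_floor_add_one _
  have h2 : (vlo M : ℝ) ≤ 10 * Real.log M := by unfold vlo; exact Nat.floor_le (by linarith)
  have h3 : Real.log (2 * M : ℕ) = Real.log 2 + Real.log M := by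
    push_cast
    rw [Real.log_mul (by norm_num) hM0.ne']
  have h4 : ((⌊10 * Real.log (2 * M : ℕ)⌋₊ : ℕ) : ℝ) ≤ 10 * Real.log (2 * M : ℕ) := Nat.floor_le (by
    rw [h3]; linarith [Real.log_pos (show (1 : ℝ) < 2 by norm_num)])
  have h5 := Real.log_two_lt_d9
  have h6 : (vhi M : ℝ) ≤ 10 * Real.log M + 8 := by
    unfold vhi; push_cast at h4 ⊢
    push_cast at h3
    rw [h3] at h4 ⊢; linarith
  refine ⟨by linarith, h6, ?_, by linarith, hl⟩
  unfold vlo vhi
  have : ⌊10 * Real.log M⌋₊ ≤ ⌊10 * Real.log (2 * M : ℕ)⌋₊ := by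
    apply Nat.floor_le_floor
    rw [h3]
    linarith [Real.log_pos (show (1 : ℝ) < 2 by norm_num)]
  omega

theorem Pr_sub {M : ℕ} (hM : 10 ≤ M) : Pr M ⊆ PR 10 (vlo M) (vhi M) := by
  intro p hp
  rw [mem_Pr] at hp
  have hM0 : (0 : ℝ) < M := by exact_mod_cast (by omega : 0 < M)
  have hp0 : (0 : ℝ) < p := by exact_mod_cast hp.2.2.pos
  unfold PR
  rw [mem_biUnion]
  obtain ⟨v, hv⟩ : ∃ v : ℕ, v = ⌊10 * Real.log p⌋₊ := ⟨_, rfl⟩
  have h1 : Real.log M ≤ Real.log p := Real.log_le_log hM0 (by exact_mod_cast hp.1)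
  have h2 : Real.log p ≤ Real.log (2 * M : ℕ) := Real.log_le_log hp0 (by exact_mod_cast hp.2.1.le)
  have h0 := (v_bds hM).2.2.2.2
  refine ⟨v, ?_, ?_⟩
  · rw [mem_Ico]
    constructor
    · rw [hv]; unfold vlo
      exact Nat.floor_le_floor (by linarith)
    · rw [hv]; unfold vhi
      exact Nat.lt_succ_of_le (Nat.floor_le_floor (by linarith))
  · rw [mem_cell]
    have h3 : (v : ℝ) ≤ 10 * Real.log p := by rw [hv]; exact Nat.floor_le (by linarith)
    have h4 : 10 * Real.log p < v + 1 := by rw [hv]; exact Nat.lt_floor_add_one _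
    refine ⟨hp.2.2, ?_, ?_⟩
    · push_cast; linarith
    · push_cast; linarith

/-- `mm` in the range of the cells -/
theorem mm_bd : ∃ M0 : ℕ, 10 ≤ M0 ∧ ∀ M : ℕ, M0 ≤ M → ∀ v ∈ Ico (vlo M) (vhi M),
    mm 10 v ≤ 1 / (2 * Real.log M) ∧ 1 / (40 * Real.log M) ≤ mm 10 v := by
  obtain ⟨v0, hv0, hm⟩ := mm_lower (show 1 ≤ 10 by norm_num)
  have hlim : ∀ᶠ M : ℕ in Filter.atTop, (v0 : ℝ) + 1 ≤ Real.log M :=
    (Real.tendsto_log_atTop.comp tendsto_natCast_atTop_atTop).eventually_ge_atTop _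
  obtain ⟨M0, hM0⟩ := Filter.eventually_atTop.1 hlim
  refine ⟨M0 + 10, by omega, fun M hM v hv => ?_⟩
  rw [mem_Ico] at hv
  have h1 := hM0 M (by omega)
  obtain ⟨b1, b2, b3, b4, b5⟩ := v_bds (show 10 ≤ M by omega)
  have h2 : (vlo M : ℝ) ≤ v := by exact_mod_cast hv.1
  have h3 : (v : ℝ) + 1 ≤ vhi M := by exact_mod_cast hv.2
  have h4 : (v0 : ℝ) ≤ v := by
    have : (0 : ℝ) ≤ v0 := Nat.cast_nonneg _
    linarith
  obtain ⟨m1, m2⟩ := hm v (by exact_mod_cast h4)
  have hv5 : 5 * Real.log M ≤ v := by linarith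
  have hv20 : (v : ℝ) ≤ 20 * Real.log M := by linarith
  have hvp : (0 : ℝ) < v := by linarith
  constructor
  · rw [le_div_iff₀ (by linarith)]
    have h5 : mm 10 v ≤ 2 / v := by rw [le_div_iff₀ hvp]; linarith
    have h6 : 0 ≤ mm 10 v := sum_nonneg fun p _ => by positivity
    nlinarith only [m2, hv5, h6]
  · rw [div_le_iff₀ (by linarith)]
    have h6 : 0 ≤ mm 10 v := sum_nonneg fun p _ => by positivity
    nlinarith only [m1, hv20, h6]

/-- the number of primes in `[M, 2M)` -/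
theorem Pr_card : ∃ M0 : ℕ, 10 ≤ M0 ∧ ∀ M : ℕ, M0 ≤ M →
    ((Pr M).card : ℝ) ≤ 18 * (M / Real.log M) ∧ 1 / 40 * (M / Real.log M) ≤ ((Pr M).card : ℝ) := by
  obtain ⟨M0, hM0, hm⟩ := mm_bd
  refine ⟨M0, hM0, fun M hM => ?_⟩
  obtain ⟨b1, b2, b3, b4, b5⟩ := v_bds (show 10 ≤ M by omega)
  have hMp : (0 : ℝ) < M := by exact_mod_cast (by omega : 0 < M)
  have hlp : 0 < Real.log M := by linarith
  have hexp : Real.exp (Real.log M) = M := Real.exp_log hMp
  constructor
  · have h1 : ((Pr M).card : ℝ) ≤ ∑ v ∈ Ico (vlo M) (vhi M), ((cell 10 v).card : ℝ) := by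
      have h2 := (card_le_card (Pr_sub (show 10 ≤ M by omega))).trans card_biUnion_le
      exact_mod_cast h2
    refine h1.trans ?_
    have h3 : ∀ v ∈ Ico (vlo M) (vhi M), ((cell 10 v).card : ℝ) ≤ 2 * (M / Real.log M) := by
      intro v hv
      have h4 := cell_card_le (H := 10) (v := v) le_rfl
      have h5 := (hm M hM v hv).1
      rw [mem_Ico] at hv
      have h6 : (v : ℝ) + 1 ≤ vhi M := by exact_mod_cast hv.2
      have h7 : Real.exp ((v : ℝ) / (10 : ℕ)) ≤ 2 * M := by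
        have hM0' : (0 : ℝ) < 2 * M := by linarith
        have e1 : (2 * M : ℝ) = Real.exp (Real.log (2 * M : ℕ)) := by
          rw [Real.exp_log (by push_cast; linarith)]; push_cast; rfl
        rw [e1]
        apply Real.exp_le_exp.2
        have h8 : (v : ℝ) ≤ (⌊10 * Real.log (2 * M : ℕ)⌋₊ : ℕ) := by
          have : v ≤ ⌊10 * Real.log (2 * M : ℕ)⌋₊ := by
            have := hv.2; unfold vhi at this; omega
          exact_mod_cast this
        have h9 : ((⌊10 * Real.log (2 * M : ℕ)⌋₊ : ℕ) : ℝ) ≤ 10 * Real.log (2 * M : ℕ) := Nat.floor_le (by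
          have : 0 ≤ Real.log (2 * M : ℕ) := Real.log_natCast_nonneg _
          linarith)
        push_cast at h8 h9 ⊢
        linarith
      have h10 : 0 ≤ mm 10 v := sum_nonneg fun p _ => by positivity
      calc ((cell 10 v).card : ℝ) ≤ 2 * Real.exp ((v : ℝ) / (10 : ℕ)) * mm 10 v := h4
        _ ≤ 2 * (2 * M) * (1 / (2 * Real.log M)) := by
            apply mul_le_mul _ h5 h10 (by positivity)
            linarith
        _ = _ := by field_simp
    refine (sum_le_sum h3).trans ?_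
    rw [sum_const, nsmul_eq_mul, Nat.card_Ico, Nat.cast_sub b3]
    calc ((vhi M : ℝ) - vlo M) * (2 * (M / Real.log M)) ≤ 9 * (2 * (M / Real.log M)) :=
          mul_le_mul_of_nonneg_right b4 (by positivity)
      _ = _ := by ring
  · -- one cell inside
    obtain ⟨v, hv⟩ : ∃ v : ℕ, v = vlo M + 1 := ⟨_, rfl⟩
    have h1 : 10 * Real.log M < (vlo M : ℝ) + 1 := by unfold vlo; exact Nat.lt_floor_add_one _
    have h2 : (vlo M : ℝ) ≤ 10 * Real.log M := by unfold vlo; exact Nat.floor_le (by linarith)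
    have h3 : Real.log (2 * M : ℕ) = Real.log 2 + Real.log M := by
      push_cast
      rw [Real.log_mul (by norm_num) hMp.ne']
    have hl2 := Real.log_two_gt_d9
    have hvR : (v : ℝ) = vlo M + 1 := by rw [hv]; push_cast; rfl
    have hsub : cell 10 v ⊆ Pr M := by
      intro p hp
      rw [mem_cell] at hp
      obtain ⟨hpp, p1, p2⟩ := hp
      have hp0 : (0 : ℝ) < p := by exact_mod_cast hpp.pos
      push_cast at p1 p2
      rw [mem_Pr]
      refine ⟨?_, ?_, hpp⟩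
      · have : Real.log M ≤ Real.log p := by linarith
        exact_mod_cast (Real.log_le_log_iff hMp hp0).1 this
      · have h4 : Real.log p < Real.log (2 * M : ℕ) := by rw [h3]; linarith
        have h5 := (Real.log_lt_log_iff hp0 (by push_cast; linarith)).1 h4
        exact_mod_cast h5
    have hvm : v ∈ Ico (vlo M) (vhi M) := by
      rw [mem_Ico]
      refine ⟨by omega, ?_⟩
      have h4 : (v : ℝ) ≤ 10 * Real.log (2 * M : ℕ) := by rw [h3]; linarith
      have h5 : v ≤ ⌊10 * Real.log (2 * M : ℕ)⌋₊ := Nat.le_floor h4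
      unfold vhi; omega
    have h4 := (hm M hM v hvm).2
    have h5 : mm 10 v ≤ ((cell 10 v).card : ℝ) * (1 / M) := by
      have h6 : ∑ p ∈ cell 10 v, 1 / (p : ℝ) ≤ ∑ p ∈ cell 10 v, 1 / (M : ℝ) := by
        apply sum_le_sum
        intro p hp
        apply one_div_le_one_div_of_le hMp
        exact_mod_cast (mem_Pr.1 (hsub hp)).1
      rw [sum_const, nsmul_eq_mul] at h6
      exact h6
    have h6 : ((cell 10 v).card : ℝ) ≤ (Pr M).card := by exact_mod_cast card_le_card hsub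
    have h7 : 1 / (40 * Real.log M) ≤ ((Pr M).card : ℝ) * (1 / M) :=
      (h4.trans h5).trans (mul_le_mul_of_nonneg_right h6 (by positivity))
    rw [mul_one_div, le_div_iff₀ hMp] at h7
    calc 1 / 40 * (M / Real.log M) = 1 / (40 * Real.log M) * M := by field_simp
      _ ≤ _ := h7

end Pool.Agent.U596.TP
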