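import Pool.Agent.TH926.BL.Prm
import Pool.Agent.Y964.LW.B1
import Pool.Agent.U596.TP11

/-! Mean squares of the sums over a cell along the multiples of the primes, for functions constant on
coalescing trajectories above a fixed height. -/

set_option autoImplicit false

namespace Pool.Agent.U596.TR

open Finset Pool.Agent.H320R2.PD Pool.Agent.H499R2.ND Pool.Agent.H499R2.CO Pool.Agent.H376R2.MR
  Pool.Agent.W41.FU Pool.Agent.W41 Pool.Agent.W41.MU Pool.Agent.TH926.BL Pool.Agent.Y964.LW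
open scoped Classical

/-- MEAN SQUARE over the multiples of the primes. -/
theorem ms_PR (R : ℕ) {s : ℤ} (hs : s = 1 ∨ s = -1) {ε : ℝ} (hε : 0 < ε) (hε1 : ε ≤ 1) {H : ℕ} (hH : 10 ≤ H) :
    ∃ ϑ : ℝ, 0 < ϑ ∧ ϑ ≤ 1 / 64 ∧
    ∀ θ1 : ℝ, 0 < θ1 → ∃ X0 : ℝ, 2 ≤ X0 ∧ ∃ μ : ℝ, 0 < μ ∧ μ ≤ 1 ∧
    ∀ X : ℝ, X0 ≤ X → ∀ f ∈ SameR R s,
    (∀ n : ℕ, (n : ℝ) ≤ 16 * X → |∑ m ∈ Icc 1 n, f (m : ℕ)| ≤ μ * X) →
    ∀ v M : ℕ, θ1 * Real.log X ≤ (v : ℝ) / H → ((v : ℝ) + 1) / H ≤ ϑ * Real.log X →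
    X ≤ 4 * (M * Real.exp ((v : ℝ) / H)) → M * Real.exp ((v : ℝ) / H) ≤ 4 * X →
    ∀ w : ℕ → ℝ, (∀ p ∈ cell H v, |w p| ≤ 1 / p) →
    ∀ r : ℕ, r % 2 = 1 → (r : ℝ) ≤ X ^ ϑ → ∀ Bs : Set ℕ,
      (#(BB Bs r M) : ℝ) ≤ 640 / (r * Real.log X) * M ∧
      ∑ m ∈ BB Bs r M, GS f w H v m ^ 2 ≤ ε * (640 / (r * Real.log X)) * (M * mm H v ^ 2) := by
  obtain ⟨c, hc0, hc1, h⟩ := Pool.Agent.Y964.LW.ms_B R hs hε hε1 hH
  have hK1 : 1 ≤ 1 / (8 * c) := by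
    rw [le_div_iff₀ (by positivity)]; linarith
  obtain ⟨ϑ', h0, h0c, h1⟩ := h (1 / (8 * c)) hK1
  set ϑ : ℝ := min ϑ' (c / 2) with hϑ
  have hϑ0 : 0 < ϑ := lt_min h0 (by positivity)
  have hϑ1 : ϑ ≤ ϑ' := min_le_left _ _
  have hϑ2 : ϑ ≤ c / 2 := min_le_right _ _
  refine ⟨ϑ, hϑ0, by linarith, fun θ1 hθ1 => ?_⟩
  obtain ⟨Xa, hXa1, μ, hμ0, hμ1, h2⟩ := h1 θ1 hθ1
  have ev : ∀ᶠ X : ℝ in Filter.atTop, 16 ≤ X ∧ 2 ≤ X ^ (c / 2) ∧ 4 ≤ X ^ (1 / 32 : ℝ) := by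
    refine (Filter.eventually_ge_atTop 16).and (Filter.Eventually.and ?_ ?_)
    · exact (tendsto_rpow_atTop (by positivity)).eventually_ge_atTop _
    · exact (tendsto_rpow_atTop (by norm_num)).eventually_ge_atTop _
  obtain ⟨Xb, hXb⟩ := Filter.eventually_atTop.1 ev
  refine ⟨max 2 (max Xa Xb), le_max_left _ _, μ, hμ0, hμ1, fun X hX f hf hmean v M g1 g2 g3 g4 w hw r hr hrX Bs => ?_⟩
  have hXa : Xa ≤ X := le_trans (le_trans (le_max_left _ _) (le_max_right _ _)) hX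
  obtain ⟨x1, x2, x3⟩ := hXb X (le_trans (le_trans (le_max_right _ _) (le_max_right _ _)) hX)
  have hX0 : 0 < X := by linarith
  have hX1 : 1 ≤ X := by linarith
  have hlogX : 0 < Real.log X := Real.log_pos (by linarith)
  have hH0 : (0 : ℝ) < H := by exact_mod_cast (by omega : 0 < H)
  have hr1 : 1 ≤ r := by omega
  have hr0 : (0 : ℝ) < r := by exact_mod_cast hr1
  have hr2 : (r : ℝ) ≤ X ^ (c / 2) := hrX.trans (Real.rpow_le_rpow_of_exponent_le hX1 hϑ2)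
  set κ : ℝ := 640 / (r * Real.log X) with hκ
  have hκ0 : 0 < κ := by positivity
  -- the size of `M / r`
  have hexpv : Real.exp ((v : ℝ) / H) ≤ X ^ (1 / 64 : ℝ) := by
    rw [Real.rpow_def_of_pos hX0]
    apply Real.exp_le_exp.2
    have h3 : ϑ * Real.log X ≤ 1 / 64 * Real.log X := mul_le_mul_of_nonneg_right (by linarith) hlogX.le
    have h4 : (v : ℝ) / H ≤ ((v : ℝ) + 1) / H := div_le_div_of_nonneg_right (by linarith) hH0.le
    linarith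
  have hr64 : (r : ℝ) ≤ X ^ (1 / 64 : ℝ) := hr2.trans (Real.rpow_le_rpow_of_exponent_le hX1 (by linarith))
  set Z : ℝ := 2 * M / r with hZ
  have hZb : X ^ (15 / 16 : ℝ) ≤ Z := by
    rw [hZ, le_div_iff₀ hr0]
    have h3 : X ≤ 4 * M * X ^ (1 / 64 : ℝ) := by
      calc X ≤ 4 * (M * Real.exp ((v : ℝ) / H)) := g3
        _ ≤ 4 * (M * X ^ (1 / 64 : ℝ)) := by
            apply mul_le_mul_of_nonneg_left _ (by norm_num)
            exact mul_le_mul_of_nonneg_left hexpv (Nat.cast_nonneg _)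
        _ = _ := by ring
    have h4 : X ^ (15 / 16 : ℝ) * X ^ (1 / 64 : ℝ) * X ^ (1 / 64 : ℝ) * X ^ (1 / 32 : ℝ) = X := by
      rw [← Real.rpow_add hX0, ← Real.rpow_add hX0, ← Real.rpow_add hX0]
      norm_num
    have h5 : 0 < X ^ (1 / 64 : ℝ) := by positivity
    have h6 : X ^ (15 / 16 : ℝ) * X ^ (1 / 64 : ℝ) * X ^ (1 / 32 : ℝ) ≤ 4 * M := by
      have h7 : (X ^ (15 / 16 : ℝ) * X ^ (1 / 64 : ℝ) * X ^ (1 / 32 : ℝ)) * X ^ (1 / 64 : ℝ) ≤ 4 * M * X ^ (1 / 64 : ℝ) := by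
        calc _ = X ^ (15 / 16 : ℝ) * X ^ (1 / 64 : ℝ) * X ^ (1 / 64 : ℝ) * X ^ (1 / 32 : ℝ) := by ring
          _ = X := h4
          _ ≤ _ := h3
      exact le_of_mul_le_mul_right h7 h5
    have h8 : X ^ (15 / 16 : ℝ) * r ≤ X ^ (15 / 16 : ℝ) * X ^ (1 / 64 : ℝ) :=
      mul_le_mul_of_nonneg_left hr64 (by positivity)
    have h9 : X ^ (15 / 16 : ℝ) * X ^ (1 / 64 : ℝ) * 4 ≤ X ^ (15 / 16 : ℝ) * X ^ (1 / 64 : ℝ) * X ^ (1 / 32 : ℝ) :=
      mul_le_mul_of_nonneg_left x3 (by positivity)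
    linarith
  have hZ2 : 2 ≤ Z := by
    refine le_trans ?_ hZb
    refine le_trans (by linarith : (2 : ℝ) ≤ X ^ (1 / 32 : ℝ)) ?_
    exact Real.rpow_le_rpow_of_exponent_le hX1 (by norm_num)
  have hlogZ : Real.log X / 2 ≤ Real.log Z := by
    have h3 : Real.log (X ^ (15 / 16 : ℝ)) ≤ Real.log Z := Real.log_le_log (by positivity) hZb
    rw [Real.log_rpow hX0] at h3
    linarith
  have hZk : X ^ (1 / 4 : ℝ) ≤ Z ^ (1 / 2 : ℝ) := by
    calc X ^ (1 / 4 : ℝ) ≤ X ^ (15 / 32 : ℝ) := Real.rpow_le_rpow_of_exponent_le hX1 (by norm_num)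
      _ = (X ^ (15 / 16 : ℝ)) ^ (1 / 2 : ℝ) := by rw [← Real.rpow_mul hX0.le]; norm_num
      _ ≤ Z ^ (1 / 2 : ℝ) := Real.rpow_le_rpow (by positivity) hZb (by norm_num)
  have hBB : ∀ m ∈ BB Bs r M, ∃ q : ℕ, q.Prime ∧ m = r * q ∧ (q : ℝ) ≤ Z := by
    intro m hm
    unfold BB at hm
    rw [mem_filter, mem_Ico] at hm
    obtain ⟨⟨_, h3⟩, q, h4, _, h5⟩ := hm
    refine ⟨q, h4, h5, ?_⟩
    rw [hZ, le_div_iff₀ hr0]
    rw [h5] at h3
    have : ((r * q : ℕ) : ℝ) < ((2 * M : ℕ) : ℝ) := by exact_mod_cast h3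
    push_cast at this
    linarith
  have hcls : ∀ k : ℕ, 1 ≤ k → (2 : ℝ) ^ k ≤ X ^ (1 / 4 : ℝ) → ∀ P : ℤ → Prop,
      (∀ x m : ℤ, P (x + m * 2 ^ k) ↔ P x) →
      (#{m ∈ BB Bs r M | P ((m : ℕ) : ℤ)} : ℝ) ≤ κ * (M / 2 ^ k) * #{a ∈ range (2 ^ k) | P ((a : ℕ) : ℤ)} := by
    intro k hk1 hk P hP
    have h3 := primes_cls hZ2 hk1 (hk.trans hZk) hr P hP (BB Bs r M) hBB
    refine h3.trans ?_
    apply mul_le_mul_of_nonneg_right _ (Nat.cast_nonneg _)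
    have h4 : Z / Real.log Z ≤ (2 * M / r) / (Real.log X / 2) := by
      rw [hZ] at hlogZ ⊢
      exact div_le_div_of_nonneg_left (by positivity) (by positivity) hlogZ
    have h2k : (0 : ℝ) < 2 ^ k := by positivity
    calc 160 * (Z / Real.log Z) / 2 ^ k ≤ 160 * ((2 * M / r) / (Real.log X / 2)) / 2 ^ k := by
          apply div_le_div_of_nonneg_right _ h2k.le
          exact mul_le_mul_of_nonneg_left h4 (by norm_num)
      _ = κ * (M / 2 ^ k) := by rw [hκ]; field_simp; ring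
  constructor
  · -- the number
    obtain ⟨k, hk1, hk2⟩ : ∃ k : ℕ, 1 ≤ k ∧ (2 : ℝ) ^ k ≤ X ^ (1 / 4 : ℝ) := by
      refine ⟨1, le_rfl, ?_⟩
      rw [pow_one]
      refine le_trans (by linarith : (2 : ℝ) ≤ X ^ (1 / 32 : ℝ)) ?_
      exact Real.rpow_le_rpow_of_exponent_le hX1 (by norm_num)
    have hall : ∀ P : ℤ → Prop, (∀ x, P x) → (#(BB Bs r M) : ℝ) ≤ κ * M := by
      intro P hPt
      have h3 := hcls k hk1 hk2 P (fun x m => ⟨fun _ => hPt _, fun _ => hPt _⟩)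
      rw [filter_true_of_mem (fun _ _ => hPt _), filter_true_of_mem (fun _ _ => hPt _), card_range] at h3
      refine h3.trans (le_of_eq ?_)
      push_cast
      have h2k : (0 : ℝ) < 2 ^ k := by positivity
      field_simp
    exact hall (fun _ => True) (fun _ => trivial)
  · have h3 := h2 X hXa f hf hmean v M g1 (g2.trans (mul_le_mul_of_nonneg_right hϑ1 hlogX.le)) g3 g4 w hw
      (BB Bs r M) κ (filter_subset _ _) hκ0.le (fun a L hL => ?_) hcls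
    · exact h3
    · have h4 := primes_short (X := X) (c := c) (by linarith) hc0 hr1 hr2 x2 hL (a := a)
        (({m ∈ BB Bs r M | a ≤ m ∧ m < a + L} : Finset ℕ).image (fun m => m / r)) (by
          intro q hq
          rw [mem_image] at hq
          obtain ⟨m, hm, rfl⟩ := hq
          rw [mem_filter] at hm
          obtain ⟨q, e1, e2, _⟩ := hBB m hm.1
          have e : m / r = q := by rw [e2, Nat.mul_div_cancel_left _ (by omega : 0 < r)]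
          rw [e, ← e2]
          exact ⟨e1, hm.2.1, hm.2.2⟩)
      rw [card_image_of_injOn] at h4
      · refine h4.trans (le_of_eq ?_)
        rw [hκ]
        field_simp
        try ring
      · intro m hm m' hm' h
        rw [mem_coe, mem_filter] at hm hm'
        obtain ⟨q, _, e2, _⟩ := hBB m hm.1
        obtain ⟨q', _, e2', _⟩ := hBB m' hm'.1
        simp only at h
        rw [e2, e2', Nat.mul_div_cancel_left _ (by omega : 0 < r), Nat.mul_div_cancel_left _ (by omega : 0 < r)] at h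
        rw [e2, e2', h]

end Pool.Agent.U596.TR
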