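import Pool.Agent.TH926.BL.Cell2
import Pool.Agent.U596.TR1

/-! All products `p r q ≤ Z` with `p` in a cell, for functions constant on coalescing trajectories above a
fixed height. -/

set_option autoImplicit false

namespace Pool.Agent.U596.TR

open Finset Pool.Agent.H320R2.PD Pool.Agent.H499R2.ND Pool.Agent.H499R2.CO Pool.Agent.H376R2.MR
  Pool.Agent.W41.FU Pool.Agent.W41 Pool.Agent.W41.MU Pool.Agent.TH926.BL Pool.Agent.Y964.LW
open scoped Classical

theorem cell_PR (R : ℕ) {s : ℤ} (hs : s = 1 ∨ s = -1) {ε : ℝ} (hε : 0 < ε) (hε1 : ε ≤ 1) :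
    ∃ H : ℕ, 10 ≤ H ∧ ∃ ϑ : ℝ, 0 < ϑ ∧ ϑ ≤ 1 / 64 ∧
    ∀ θ1 : ℝ, 0 < θ1 → ∃ Z0 : ℝ, 2 ≤ Z0 ∧ ∃ μ : ℝ, 0 < μ ∧ μ ≤ 1 ∧
    ∀ Z : ℝ, Z0 ≤ Z → ∀ f ∈ SameR R s,
    (∀ n : ℕ, (n : ℝ) ≤ 16 * Z → |∑ m ∈ Icc 1 n, f (m : ℕ)| ≤ μ * Z) →
    ∀ v : ℕ, θ1 * Real.log Z ≤ (v : ℝ) / H → ((v : ℝ) + 1) / H ≤ ϑ * Real.log Z →
    ∀ r : ℕ, r % 2 = 1 → (r : ℝ) ≤ Z ^ ϑ → ∀ As Bs : Set ℕ,
    |∑ p ∈ (cell H v).filter (fun p => p ∈ As), ∑ q ∈ QQ Bs ⌊Z / (p * r)⌋₊,
      f ((p * (r * q) : ℕ) : ℤ)| ≤ ε * (mm H v * (Z / (r * Real.log Z))) := by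
  obtain ⟨H', hH'⟩ := exists_nat_ge (960 / ε)
  set H : ℕ := max 10 H' with hHd
  have hH : 10 ≤ H := le_max_left _ _
  have hHε : 960 / ε ≤ H := hH'.trans (by exact_mod_cast le_max_right _ _)
  have hH0 : (0 : ℝ) < H := by exact_mod_cast (by omega : 0 < H)
  have hHr : (10 : ℝ) ≤ H := by exact_mod_cast hH
  have hHε' : 240 / (H : ℝ) ≤ ε / 4 := by
    rw [div_le_iff₀ hε] at hHε
    rw [div_le_iff₀ hH0]
    linarith
  obtain ⟨I, hI⟩ := pow_unbounded_of_one_lt (320 / ε) (by norm_num : (1 : ℝ) < 2)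
  have hI2 : 80 / (2 : ℝ) ^ I ≤ ε / 4 := by
    rw [div_lt_iff₀ hε] at hI
    rw [div_le_iff₀ (by positivity)]
    linarith
  set ε1 : ℝ := ε / (5120 * (I + 1)) with hε1d
  have hε10 : 0 < ε1 := by positivity
  have hI0 : (0 : ℝ) ≤ I := Nat.cast_nonneg _
  have hε11 : ε1 ≤ 1 := by
    rw [hε1d, div_le_one (by positivity)]
    linarith
  have hε1I : (I : ℝ) * (1280 * ε1) ≤ ε / 4 := by
    rw [hε1d]
    have h1 : (0 : ℝ) < 5120 * (I + 1) := by positivity
    rw [show (I : ℝ) * (1280 * (ε / (5120 * (I + 1)))) = (I * 1280 * ε) / (5120 * (I + 1)) by ring,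
      div_le_iff₀ h1]
    nlinarith
  obtain ⟨ϑ0, h0, h01, hmsP⟩ := ms_PR R hs (show 0 < ε1 ^ 2 by positivity) (pow_le_one₀ hε10.le hε11) hH
  refine ⟨H, hH, ϑ0 / 2, by positivity, by linarith, fun θ1 hθ1 => ?_⟩
  obtain ⟨X0, hX02, μ0, hμ0, hμ1, hX0⟩ := hmsP θ1 hθ1
  have h2I' : (1 : ℝ) ≤ 2 ^ I := one_le_pow₀ (by norm_num)
  have ev : ∀ᶠ Z : ℝ in Filter.atTop, (16 ≤ Z ∧ 2 ^ I * X0 ≤ Z) ∧ ((2 : ℝ) ^ (2 * I) ≤ Z ∧
      (2 : ℝ) ^ I * 2 ≤ Z ^ (1 / 4 : ℝ)) ∧ (H : ℝ) ≤ Z ^ (1 / 4 : ℝ) := by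
    refine ((Filter.eventually_ge_atTop 16).and (Filter.eventually_ge_atTop _)).and
      (((Filter.eventually_ge_atTop _).and ?_).and ?_)
    · exact (tendsto_rpow_atTop (by norm_num)).eventually_ge_atTop _
    · exact (tendsto_rpow_atTop (by norm_num)).eventually_ge_atTop _
  obtain ⟨Z0, hZ0⟩ := Filter.eventually_atTop.1 ev
  refine ⟨max 2 Z0, le_max_left _ _, μ0 / 2 ^ I, by positivity, (div_le_self hμ0.le h2I').trans hμ1,
    fun Z hZ f hf0 hmean v g1 g2 r hr hrZ As Bs => ?_⟩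
  obtain ⟨⟨z1, z2⟩, ⟨z3, z4⟩, z5⟩ := hZ0 Z (le_trans (le_max_right _ _) hZ)
  have hZp : 0 < Z := by linarith
  have hZ1 : 1 ≤ Z := by linarith
  have hlog : 0 < Real.log Z := Real.log_pos (by linarith)
  have hfa := hf0.1
  have hr1 : 1 ≤ r := by omega
  have hr0 : (0 : ℝ) < r := by exact_mod_cast hr1
  set P := Real.exp ((v : ℝ) / H) with hP
  set P' := Real.exp (((v : ℝ) + 1) / H) with hP'
  have hP0 : 0 < P := Real.exp_pos _
  have hP'0 : 0 < P' := Real.exp_pos _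
  have hPe : P' = P * Real.exp (1 / H) := by
    rw [hP, hP', ← Real.exp_add]; congr 1; ring
  have hHi : 1 / (H : ℝ) ≤ 1 / 10 := one_div_le_one_div_of_le (by norm_num) hHr
  have hHi0 : 0 < 1 / (H : ℝ) := by positivity
  have hexp1 : Real.exp (1 / H) ≤ 1 + 2 * (1 / H) := by
    have h1 : 1 - 1 / (H : ℝ) ≤ Real.exp (-(1 / H)) := by linarith [Real.add_one_le_exp (-(1 / (H : ℝ)))]
    have h2 : Real.exp (1 / H) * Real.exp (-(1 / H)) = 1 := by rw [← Real.exp_add]; simp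
    have h3 := Real.exp_pos (1 / (H : ℝ))
    have h4 : Real.exp (1 / H) * (1 - 1 / H) ≤ 1 := by
      calc Real.exp (1 / H) * (1 - 1 / H) ≤ Real.exp (1 / H) * Real.exp (-(1 / H)) :=
            mul_le_mul_of_nonneg_left h1 h3.le
        _ = 1 := h2
    nlinarith
  have hPP : P ≤ P' := by
    rw [hPe]
    exact le_mul_of_one_le_right hP0.le (Real.one_le_exp hHi0.le)
  have hP'2 : P' ≤ 2 * P := by
    rw [hPe]
    have : Real.exp (1 / H) ≤ 2 := by linarith
    nlinarith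
  have hP'Z : P' ≤ Z ^ (1 / 64 : ℝ) := by
    rw [hP', Real.rpow_def_of_pos hZp]
    apply Real.exp_le_exp.2
    have : ϑ0 / 2 * Real.log Z ≤ 1 / 64 * Real.log Z := mul_le_mul_of_nonneg_right (by linarith) hlog.le
    linarith
  have hrZ' : (r : ℝ) ≤ Z ^ (1 / 64 : ℝ) :=
    hrZ.trans (Real.rpow_le_rpow_of_exponent_le hZ1 (by linarith))
  have hP'1 : 1 ≤ P' := Real.one_le_exp (by positivity)
  set Y : ℝ := Z / P' with hY
  have hY0 : 0 < Y := by positivity
  set u : ℝ := Y / r with hu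
  have hu0 : 0 < u := by positivity
  have huZ : Z ^ (31 / 32 : ℝ) ≤ u := by
    rw [hu, hY, div_div, le_div_iff₀ (by positivity)]
    calc Z ^ (31 / 32 : ℝ) * (P' * r) ≤ Z ^ (31 / 32 : ℝ) * (Z ^ (1 / 64 : ℝ) * Z ^ (1 / 64 : ℝ)) := by
          apply mul_le_mul_of_nonneg_left _ (by positivity)
          exact mul_le_mul hP'Z hrZ' hr0.le (by positivity)
      _ = Z := by
          rw [← Real.rpow_add hZp, ← Real.rpow_add hZp]; norm_num
  have hZ14 : Z ^ (1 / 2 : ℝ) * Z ^ (1 / 4 : ℝ) ≤ u := by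
    refine le_trans ?_ huZ
    rw [← Real.rpow_add hZp]
    exact Real.rpow_le_rpow_of_exponent_le hZ1 (by norm_num)
  have hZh0 : 0 < Z ^ (1 / 2 : ℝ) := by positivity
  have hZh4 : 4 ≤ Z ^ (1 / 2 : ℝ) := by
    have h1 : (16 : ℝ) ^ (1 / 2 : ℝ) ≤ Z ^ (1 / 2 : ℝ) := Real.rpow_le_rpow (by norm_num) z1 (by norm_num)
    have h2 : (16 : ℝ) ^ (1 / 2 : ℝ) = 4 := by
      rw [show (16 : ℝ) = 4 ^ (2 : ℝ) by norm_num, ← Real.rpow_mul (by norm_num)]; norm_num
    linarith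
  have h2I : (1 : ℝ) ≤ 2 ^ I := one_le_pow₀ (by norm_num)
  have hlogh : ∀ y : ℝ, Z ^ (1 / 2 : ℝ) ≤ y → Real.log Z / 2 ≤ Real.log y := by
    intro y hy
    have := Real.log_le_log hZh0 hy
    rw [Real.log_rpow hZp] at this
    linarith
  have hmm := mm_nonneg H v
  -- the cut points
  set n : ℕ → ℕ := fun i => ⌊Y / (r * 2 ^ i)⌋₊ with hn
  have hnmono : ∀ i, n (i + 1) ≤ n i := by
    intro i
    apply Nat.floor_le_floor
    apply div_le_div_of_nonneg_left hY0.le (by positivity)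
    apply mul_le_mul_of_nonneg_left _ hr0.le
    exact pow_le_pow_right₀ (by norm_num) (by omega)
  have hcellp : ∀ p ∈ cell H v, P ≤ (p : ℝ) ∧ (p : ℝ) < P' := by
    intro p hp
    have h1 := cell_lt hp
    have hp0 : (0 : ℝ) < p := by exact_mod_cast h1.1.pos
    constructor
    · rw [hP, ← Real.exp_log hp0]; exact Real.exp_le_exp.2 h1.2.1
    · rw [hP', ← Real.exp_log hp0]; exact Real.exp_lt_exp.2 h1.2.2
  have hn0p : ∀ p ∈ cell H v, n 0 ≤ ⌊Z / (p * r)⌋₊ := by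
    intro p hp
    obtain ⟨h1, h2⟩ := hcellp p hp
    apply Nat.floor_le_floor
    rw [pow_zero, mul_one, hY, div_div]
    apply div_le_div_of_nonneg_left hZp.le _ _
    · have : 0 < (p : ℝ) := lt_of_lt_of_le hP0 h1
      positivity
    · exact mul_le_mul_of_nonneg_right h2.le hr0.le
  set T := (cell H v).filter (fun p => p ∈ As) with hT
  have hTc : (#T : ℝ) ≤ P' * mm H v := by
    refine le_trans ?_ (cell_card H v)
    exact_mod_cast card_filter_le _ _
  -- decomposition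
  have hdec : ∑ p ∈ T, ∑ q ∈ QQ Bs ⌊Z / (p * r)⌋₊, f ((p * (r * q) : ℕ) : ℤ) =
      ∑ p ∈ T, ∑ q ∈ QQ Bs ⌊Z / (p * r)⌋₊ \ QQ Bs (n 0), f ((p * (r * q) : ℕ) : ℤ) +
      ∑ p ∈ T, ∑ q ∈ QQ Bs (n I), f ((p * (r * q) : ℕ) : ℤ) +
      ∑ i ∈ range I, ∑ p ∈ T, ∑ q ∈ QQ Bs (n i) \ QQ Bs (n (i + 1)), f ((p * (r * q) : ℕ) : ℤ) := by
    rw [sum_comm (s := range I), ← sum_add_distrib, ← sum_add_distrib]
    apply sum_congr rfl
    intro p hp
    rw [hT, mem_filter] at hp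
    rw [← sum_sdiff (QQ_mono (Bs := Bs) (hn0p p hp.1)), chain Bs (fun q => f ((p * (r * q) : ℕ) : ℤ)) n hnmono I]
    ring
  -- the edge
  have hedge : |∑ p ∈ T, ∑ q ∈ QQ Bs ⌊Z / (p * r)⌋₊ \ QQ Bs (n 0), f ((p * (r * q) : ℕ) : ℤ)| ≤
      ε / 4 * (mm H v * (Z / (r * Real.log Z))) := by
    have hye : Z ^ (1 / 2 : ℝ) ≤ 3 * (1 / H) * u := by
      have h1 : Z ^ (1 / 2 : ℝ) * H ≤ u := le_trans (mul_le_mul_of_nonneg_left z5 hZh0.le) hZ14
      have h2 : Z ^ (1 / 2 : ℝ) ≤ (1 / H) * u := by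
        rw [show (1 / (H : ℝ)) * u = u / H by ring]
        exact (le_div_iff₀ hH0).2 h1
      have h3 : 0 < 1 / (H : ℝ) * u := by positivity
      linarith
    have h1 : ∀ p ∈ T, (#(QQ Bs ⌊Z / (p * r)⌋₊ \ QQ Bs (n 0)) : ℝ) ≤
        40 * (3 * (1 / H) * u / (Real.log Z / 2)) := by
      intro p hp
      rw [hT, mem_filter] at hp
      obtain ⟨k1, k2⟩ := hcellp p hp.1
      have hp0 : (0 : ℝ) < p := lt_of_lt_of_le hP0 k1
      have h2 : ((⌊Z / (p * r)⌋₊ : ℕ) : ℝ) ≤ (n 0 : ℕ) + 3 * (1 / H) * u := by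
        have h3 : ((⌊Z / (p * r)⌋₊ : ℕ) : ℝ) ≤ Z / (p * r) := Nat.floor_le (by positivity)
        have h4 : Z / (p * r) ≤ u * (1 + 2 * (1 / H)) := by
          have h5 : Z / (p * r) ≤ Z / (P * r) := by
            apply div_le_div_of_nonneg_left hZp.le (by positivity)
            exact mul_le_mul_of_nonneg_right k1 hr0.le
          have h6 : Z / (P * r) = u * Real.exp (1 / H) := by
            rw [hu, hY, hPe]
            have := Real.exp_pos (1 / (H : ℝ))
            field_simp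
          rw [h6] at h5
          exact h5.trans (mul_le_mul_of_nonneg_left hexp1 hu0.le)
        have h5 : u < (n 0 : ℕ) + 1 := by
          have := Nat.lt_floor_add_one (Y / (r * 2 ^ 0))
          rw [pow_zero, mul_one] at this
          simp only [hn, pow_zero, mul_one]
          exact this
        have h6 : 1 ≤ 1 / H * u := by
          have : Z ^ (1 / 2 : ℝ) * H ≤ u := le_trans (mul_le_mul_of_nonneg_left z5 hZh0.le) hZ14
          rw [show (1 / (H : ℝ)) * u = u / H by ring]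
          refine (le_div_iff₀ hH0).2 (le_trans ?_ this)
          rw [one_mul]
          exact le_mul_of_one_le_left hH0.le (by linarith)
        nlinarith
      refine (primes_window (by linarith) h2).trans ?_
      apply mul_le_mul_of_nonneg_left _ (by norm_num)
      exact div_le_div_of_nonneg_left (by positivity) (by positivity) (hlogh _ hye)
    refine (trivial_sum hfa T _ r h1).trans ?_
    calc (#T : ℝ) * (40 * (3 * (1 / H) * u / (Real.log Z / 2)))
        ≤ (P' * mm H v) * (40 * (3 * (1 / H) * u / (Real.log Z / 2))) :=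
          mul_le_mul_of_nonneg_right hTc (by positivity)
      _ = 240 / H * (mm H v * (Z / (r * Real.log Z))) := by
          rw [hu, hY]; field_simp; ring
      _ ≤ _ := mul_le_mul_of_nonneg_right hHε' (by positivity)
  -- the tail
  have htail : |∑ p ∈ T, ∑ q ∈ QQ Bs (n I), f ((p * (r * q) : ℕ) : ℤ)| ≤
      ε / 4 * (mm H v * (Z / (r * Real.log Z))) := by
    have hyt : Z ^ (1 / 2 : ℝ) ≤ u / 2 ^ I := by
      rw [le_div_iff₀ (by positivity)]
      refine le_trans (mul_le_mul_of_nonneg_left ?_ hZh0.le) hZ14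
      linarith
    have h1 : ∀ p ∈ T, (#(QQ Bs (n I)) : ℝ) ≤ 40 * (u / 2 ^ I / (Real.log Z / 2)) := by
      intro p _
      have h2 : ((n I : ℕ) : ℝ) ≤ ((0 : ℕ) : ℝ) + u / 2 ^ I := by
        have := Nat.floor_le (show 0 ≤ Y / (r * 2 ^ I) by positivity)
        have e : u / 2 ^ I = Y / (r * 2 ^ I) := by
          rw [hu]; exact div_div _ _ _
        rw [e, Nat.cast_zero, zero_add]
        exact this
      have h3 := primes_window (Bs := Bs) (a := 0) (by linarith : 2 ≤ u / 2 ^ I) h2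
      have h4 : QQ Bs 0 = ∅ := by
        unfold QQ; simp
      rw [h4, sdiff_empty] at h3
      refine h3.trans ?_
      apply mul_le_mul_of_nonneg_left _ (by norm_num)
      exact div_le_div_of_nonneg_left (by positivity) (by positivity) (hlogh _ hyt)
    refine (trivial_sum hfa T (fun _ => QQ Bs (n I)) r h1).trans ?_
    calc (#T : ℝ) * (40 * (u / 2 ^ I / (Real.log Z / 2)))
        ≤ (P' * mm H v) * (40 * (u / 2 ^ I / (Real.log Z / 2))) :=
          mul_le_mul_of_nonneg_right hTc (by positivity)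
      _ = 80 / 2 ^ I * (mm H v * (Z / (r * Real.log Z))) := by
          rw [hu, hY]; field_simp; ring
      _ ≤ _ := mul_le_mul_of_nonneg_right hI2 (by positivity)
  -- the dyadic windows
  have hdy : ∀ i ∈ range I, |∑ p ∈ T, ∑ q ∈ QQ Bs (n i) \ QQ Bs (n (i + 1)), f ((p * (r * q) : ℕ) : ℤ)| ≤
      1280 * ε1 * (mm H v * (Z / (r * Real.log Z))) := by
    intro i hi
    rw [mem_range] at hi
    have h2i : (2 : ℝ) ^ i ≤ 2 ^ I := pow_le_pow_right₀ (by norm_num) hi.le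
    have h2i0 : (0 : ℝ) < 2 ^ i := by positivity
    have h2i1 : (1 : ℝ) ≤ 2 ^ i := one_le_pow₀ (by norm_num)
    set Zi : ℝ := Z / 2 ^ i with hZi
    have hZi0 : 0 < Zi := by positivity
    have hZiX : X0 ≤ Zi := by
      rw [hZi, le_div_iff₀ h2i0]
      refine le_trans ?_ z2
      rw [mul_comm]
      exact mul_le_mul_of_nonneg_right h2i (by linarith)
    have hZile : Zi ≤ Z := div_le_self hZp.le h2i1
    have hlogi : Real.log Z / 2 ≤ Real.log Zi := by
      rw [hZi, Real.log_div hZp.ne' h2i0.ne']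
      have h1 : Real.log (2 ^ i) ≤ Real.log Z / 2 := by
        have h2 : Real.log ((2 : ℝ) ^ (2 * I)) ≤ Real.log Z := Real.log_le_log (by positivity) z3
        have h3 : Real.log ((2 : ℝ) ^ i) ≤ Real.log (2 ^ I) := Real.log_le_log h2i0 h2i
        rw [pow_mul', Real.log_pow] at h2
        push_cast at h2
        linarith
      linarith
    have hlogi0 : 0 < Real.log Zi := by linarith
    have hlogi2 : Real.log Zi ≤ Real.log Z := Real.log_le_log hZi0 hZile
    set M : ℕ := ⌊Y / 2 ^ (i + 1)⌋₊ + 1 with hM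
    have hM1 : Y / 2 ^ (i + 1) < M := by
      have := Nat.lt_floor_add_one (Y / 2 ^ (i + 1))
      rw [hM]; push_cast; exact this
    have hM2 : (M : ℝ) ≤ Y / 2 ^ (i + 1) + 1 := by
      have := Nat.floor_le (show 0 ≤ Y / 2 ^ (i + 1) by positivity)
      rw [hM]; push_cast; linarith
    have hYhalf : Y / 2 ^ (i + 1) = Zi / (2 * P') := by
      rw [hY, hZi, pow_succ]; field_simp
    have hZiP : 2 * P' ≤ Zi := by
      rw [hZi, le_div_iff₀ h2i0]
      have h1 : Z ^ (1 / 64 : ℝ) * Z ^ (1 / 4 : ℝ) ≤ Z := by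
        rw [← Real.rpow_add hZp]
        calc Z ^ (1 / 64 + 1 / 4 : ℝ) ≤ Z ^ (1 : ℝ) := Real.rpow_le_rpow_of_exponent_le hZ1 (by norm_num)
          _ = Z := Real.rpow_one _
      calc 2 * P' * 2 ^ i = P' * (2 ^ i * 2) := by ring
        _ ≤ Z ^ (1 / 64 : ℝ) * (2 ^ I * 2) :=
            mul_le_mul hP'Z (mul_le_mul_of_nonneg_right h2i (by norm_num)) (by positivity) (by positivity)
        _ ≤ Z ^ (1 / 64 : ℝ) * Z ^ (1 / 4 : ℝ) := mul_le_mul_of_nonneg_left z4 (by positivity)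
        _ ≤ Z := h1
    have hMY : (M : ℝ) ≤ Y := by
      have h1 : Zi / (2 * P') ≤ Y / 2 := by
        have e1 : Zi / (2 * P') = Zi / P' / 2 := by
          field_simp
        rw [e1]
        exact div_le_div_of_nonneg_right (div_le_div_of_nonneg_right hZile hP'0.le) (by norm_num)
      have h2 : 2 ≤ Y := by
        rw [hY, le_div_iff₀ hP'0]
        exact hZiP.trans hZile
      rw [hYhalf] at hM2
      linarith
    have c1 : Zi ≤ 4 * (M * P) := by
      have h1 : Zi / (2 * P') * P' ≤ M * P' := by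
        rw [← hYhalf]; exact mul_le_mul_of_nonneg_right hM1.le hP'0.le
      have h2 : Zi / (2 * P') * P' = Zi / 2 := by field_simp
      have h3 : (M : ℝ) * P' ≤ M * (2 * P) := mul_le_mul_of_nonneg_left hP'2 (Nat.cast_nonneg _)
      rw [h2] at h1
      linarith
    have c2 : M * P ≤ 4 * Zi := by
      have h1 : (M : ℝ) * P ≤ (Zi / (2 * P') + 1) * P' := by
        rw [← hYhalf]
        exact mul_le_mul hM2 hPP hP0.le (by positivity)
      have h2 : (Zi / (2 * P') + 1) * P' = Zi / 2 + P' := by field_simp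
      rw [h2] at h1
      linarith
    have hrZi : (r : ℝ) ≤ Zi ^ ϑ0 := by
      refine hrZ.trans ?_
      rw [Real.rpow_def_of_pos hZp, Real.rpow_def_of_pos hZi0]
      apply Real.exp_le_exp.2
      have := mul_le_mul_of_nonneg_right hlogi h0.le
      linarith
    have hms := fun (w : ℕ → ℝ) (hw : ∀ p ∈ cell H v, |w p| ≤ 1 / p) =>
      hX0 Zi hZiX f hf0 (fun n hn => (hmean n (hn.trans (mul_le_mul_of_nonneg_left hZile (by norm_num)))).trans (by
        rw [hZi]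
        calc μ0 / 2 ^ I * Z = μ0 * (Z / 2 ^ I) := by ring
          _ ≤ μ0 * (Z / 2 ^ i) := mul_le_mul_of_nonneg_left (div_le_div_of_nonneg_left hZp.le h2i0 h2i) hμ0.le)) v M ((mul_le_mul_of_nonneg_left hlogi2 hθ1.le).trans g1)
        (g2.trans (by
          have := mul_le_mul_of_nonneg_left hlogi h0.le
          linarith)) c1 c2 w hw r hr hrZi Bs
    have hwin : ∀ q, n (i + 1) < q → q ≤ n i → M ≤ r * q ∧ r * q < 2 * M := by
      intro q hq1 hq2
      constructor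
      · have h1 : Y / (r * 2 ^ (i + 1)) < q := (Nat.floor_lt (by positivity)).1 hq1
        rw [div_lt_iff₀ (by positivity)] at h1
        have h2 : Y / 2 ^ (i + 1) < ((r * q : ℕ) : ℝ) := by
          rw [div_lt_iff₀ (by positivity)]
          push_cast
          linarith
        have h3 := (Nat.floor_lt (by positivity)).2 h2
        rw [hM]; omega
      · have h1 : (q : ℝ) ≤ Y / (r * 2 ^ i) := (Nat.le_floor_iff (by positivity)).1 hq2
        rw [le_div_iff₀ (by positivity)] at h1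
        have h2 : ((r * q : ℕ) : ℝ) < ((2 * M : ℕ) : ℝ) := by
          push_cast
          rw [div_lt_iff₀ (by positivity), pow_succ] at hM1
          have h3 : (r : ℝ) * q * 2 ^ i < (2 * M) * 2 ^ i := by linarith
          exact lt_of_mul_lt_mul_right h3 h2i0.le
        exact_mod_cast h2
    have hd := dyadic As Bs hwin hr1 (κ := 640 / (r * Real.log Zi)) (by positivity) hε10.le hms
    refine hd.trans ?_
    have hκ : 640 / (r * Real.log Zi) ≤ 1280 / (r * Real.log Z) := by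
      rw [div_le_div_iff₀ (by positivity) (by positivity)]
      have := mul_le_mul_of_nonneg_left hlogi (show 0 ≤ 1280 * (r : ℝ) by positivity)
      linarith
    calc P' * (ε1 * (640 / (r * Real.log Zi)) * (M * mm H v))
        ≤ P' * (ε1 * (1280 / (r * Real.log Z)) * (Y * mm H v)) := by
          apply mul_le_mul_of_nonneg_left _ hP'0.le
          apply mul_le_mul _ _ (by positivity) (by positivity)
          · exact mul_le_mul_of_nonneg_left hκ hε10.le
          · exact mul_le_mul_of_nonneg_right hMY hmm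
      _ = _ := by rw [hY]; field_simp
  rw [hdec]
  refine (abs_add_le _ _).trans ?_
  have h1 := abs_add_le (∑ p ∈ T, ∑ q ∈ QQ Bs ⌊Z / (p * r)⌋₊ \ QQ Bs (n 0), f ((p * (r * q) : ℕ) : ℤ))
    (∑ p ∈ T, ∑ q ∈ QQ Bs (n I), f ((p * (r * q) : ℕ) : ℤ))
  have h2 : |∑ i ∈ range I, ∑ p ∈ T, ∑ q ∈ QQ Bs (n i) \ QQ Bs (n (i + 1)), f ((p * (r * q) : ℕ) : ℤ)| ≤
      ε / 4 * (mm H v * (Z / (r * Real.log Z))) := by
    refine (abs_sum_le_sum_abs _ _).trans ((sum_le_sum hdy).trans ?_)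
    rw [sum_const, card_range, nsmul_eq_mul]
    have h3 : 0 ≤ mm H v * (Z / (r * Real.log Z)) := by positivity
    calc (I : ℝ) * (1280 * ε1 * (mm H v * (Z / (r * Real.log Z)))) =
          (I * (1280 * ε1)) * (mm H v * (Z / (r * Real.log Z))) := by ring
      _ ≤ _ := mul_le_mul_of_nonneg_right hε1I h3
  have h3 : 0 ≤ ε * (mm H v * (Z / (r * Real.log Z))) := by positivity
  linarith

end Pool.Agent.U596.TR
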