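import Pool.Agent.U596.KR9

/-! Averages along the integers with exactly `k` prime factors. -/

set_option autoImplicit false

namespace Pool.Agent.U596.KF

open Finset ArithmeticFunction Filter Topology Pool.Agent.U596.TP Pool.Agent.U596.TR
open Pool.Agent.Y964.LW
open scoped Classical

/-- the finset of the elements -/
noncomputable def EW (k : ℕ) (θ : ℝ) (N : ℕ) (S : Set ℕ) (Q r : ℕ) : Finset ℕ :=
  (Icc 1 N).filter (fun n => n ∈ E k θ N ∩ W S Q r)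

theorem coe_EW (k : ℕ) (θ : ℝ) (N : ℕ) (S : Set ℕ) (Q r : ℕ) : ((EW k θ N S Q r : Finset ℕ) : Set ℕ) = E k θ N ∩ W S Q r := by
  ext n
  unfold EW
  rw [Finset.mem_coe, mem_filter, mem_Icc]
  constructor
  · exact fun h => h.2
  · intro h; exact ⟨⟨h.1.1, h.1.2.1⟩, h⟩

theorem mem_EW {k : ℕ} {θ : ℝ} {N : ℕ} {S : Set ℕ} {Q r n : ℕ} : n ∈ EW k θ N S Q r ↔ n ∈ E k θ N ∩ W S Q r := by
  rw [← coe_EW, Finset.mem_coe]

theorem card_EW (k : ℕ) (θ : ℝ) (N : ℕ) (S : Set ℕ) (Q r : ℕ) : (EW k θ N S Q r).card = (E k θ N ∩ W S Q r).ncard := by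
  rw [← coe_EW, Set.ncard_coe_finset]

theorem card_EW_filter (k : ℕ) (θ : ℝ) (N : ℕ) (S : Set ℕ) (Q r : ℕ) (P : ℕ → Prop) :
    ((EW k θ N S Q r).filter (fun n => P n)).card = (E k θ N ∩ W S Q r ∩ {n | P n}).ncard := by
  rw [← coe_EW, ← Set.ncard_coe_finset]
  congr 1
  ext n
  simp

theorem E_lowpart {k : ℕ} (hk : 2 ≤ k) {ε : ℝ} (hε : 0 < ε) : ∃ θ0 : ℝ, 0 < θ0 ∧ ∀ θ : ℝ, 0 < θ → θ ≤ θ0 → ∃ K : ℕ, 1 ≤ K ∧
    ∃ N0 : ℕ, ∀ N : ℕ, N0 ≤ N → (((E k θ N) ∩ {n | n ≤ N / K}).ncard : ℝ) ≤ ε * (E k θ N).ncard := by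
  obtain ⟨c, hc, θ0, hθ0, hlow⟩ := E_low hk
  refine ⟨θ0, hθ0, fun θ h1 h2 => ?_⟩
  obtain ⟨C, hC, h3⟩ := low_part k h1
  obtain ⟨N0, hN0⟩ := hlow θ h1 h2
  obtain ⟨K, hK⟩ : ∃ K : ℕ, K = ⌈C / (ε * c)⌉₊ + 1 := ⟨_, rfl⟩
  have hK1 : 1 ≤ K := by omega
  have hKC : C ≤ K * (ε * c) := by
    have h4 : C / (ε * c) ≤ K := (Nat.le_ceil _).trans (by rw [hK]; push_cast; linarith)
    rwa [div_le_iff₀ (by positivity)] at h4
  have hK0 : (0 : ℝ) < K := by exact_mod_cast hK1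
  obtain ⟨N1, h4⟩ := h3 K hK1
  refine ⟨K, hK1, N0 + N1 + 3, fun N hN => ?_⟩
  have g1 := hN0 N (by omega)
  have g2 := h4 N (by omega)
  have hN3 : (3 : ℝ) ≤ N := by exact_mod_cast (by omega : 3 ≤ N)
  have hl0 : 0 < Real.log N := Real.log_pos (by linarith)
  have hNl : 0 < (N : ℝ) / Real.log N := by positivity
  have e : (E k θ N) ∩ {n | n ≤ N / K} = (((EE k θ N).filter (fun n => n ≤ N / K) : Finset ℕ) : Set ℕ) := by
    ext n
    rw [Set.mem_inter_iff, E_eq, Finset.mem_coe, Finset.mem_coe, Finset.mem_filter, Set.mem_setOf_eq]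
  have e2 : ((EE k θ N).filter (fun n => n ≤ N / K)).card = ((E k θ N) ∩ {n | n ≤ N / K}).ncard := by
    rw [e, Set.ncard_coe_finset]
  rw [← e2]
  refine le_trans g2 ?_
  rw [div_le_iff₀ hK0]
  calc C * (N / Real.log N) ≤ (K * (ε * c)) * (N / Real.log N) := mul_le_mul_of_nonneg_right hKC hNl.le
    _ = ε * (c * (N / Real.log N)) * K := by ring
    _ ≤ ε * (E k θ N).ncard * K := by
        apply mul_le_mul_of_nonneg_right _ hK0.le
        exact mul_le_mul_of_nonneg_left g1 hε.le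

/-- AVERAGES: for `N` large the values `g N n` are close to `v1` on an event of frequency `l1` and close to
`v2` on a disjoint event of frequency `1 - l1`. -/
theorem avgK {g : ℕ → ℕ → ℝ} {B v1 v2 l1 : ℝ} (hB : 0 < B) (hg : ∀ N n, |g N n| ≤ B) (hv1 : |v1| ≤ B) (hv2 : |v2| ≤ B)
    (h : ∀ η : ℝ, 0 < η → ∃ P1 P2 : ℕ → Prop, KFr {(P1, l1)} ∧ KFr {(P2, 1 - l1)} ∧ (∀ n, P1 n → ¬ P2 n) ∧
      ∀ K : ℕ, 1 ≤ K → ∃ n0 : ℕ, ∀ N : ℕ, n0 ≤ N → ∀ n : ℕ, N / K < n → n ≤ N → n0 ≤ n → Odd n →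
        (P1 n → |g N n - v1| ≤ η) ∧ (P2 n → |g N n - v2| ≤ η)) :
    ∀ k Q : ℕ, 2 ≤ k → 1 ≤ Q → ∀ ε : ℝ, 0 < ε → ∃ θ0 : ℝ, 0 < θ0 ∧ ∀ θ : ℝ, 0 < θ → θ ≤ θ0 → ∃ N0 : ℕ, ∀ N : ℕ, N0 ≤ N →
    ∀ (S : Set ℕ) (r : ℕ), |∑ n ∈ EW k θ N S Q r, g N n - (l1 * v1 + (1 - l1) * v2) * (E k θ N ∩ W S Q r).ncard| ≤
      ε * (E k θ N).ncard := by
  intro k Q hk hQ ε hε
  obtain ⟨η, hη⟩ : ∃ η : ℝ, η = min (ε / 4) (ε / (16 * B)) := ⟨_, rfl⟩
  have hη0 : 0 < η := by rw [hη]; positivity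
  have hη1 : η ≤ ε / 4 := by rw [hη]; exact min_le_left _ _
  have hη2 : B * η ≤ ε / 16 := by
    have h1 : η ≤ ε / (16 * B) := by rw [hη]; exact min_le_right _ _
    rw [le_div_iff₀ (by positivity)] at h1
    linarith
  obtain ⟨P1, P2, k1, k2, k3, k4⟩ := h η hη0
  obtain ⟨θ1, a1, a2⟩ := k1 k Q hk hQ η hη0
  obtain ⟨θ2, a3, a4⟩ := k2 k Q hk hQ η hη0
  obtain ⟨θ3, a5, a6⟩ := E_lowpart hk hη0
  refine ⟨min θ1 (min θ2 θ3), lt_min a1 (lt_min a3 a5), fun θ b1 b2 => ?_⟩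
  obtain ⟨N1, c1⟩ := a2 θ b1 (b2.trans (min_le_left _ _))
  obtain ⟨N2, c2⟩ := a4 θ b1 (b2.trans ((min_le_right _ _).trans (min_le_left _ _)))
  obtain ⟨K, hK, N3, c3⟩ := a6 θ b1 (b2.trans ((min_le_right _ _).trans (min_le_right _ _)))
  obtain ⟨n0, c4⟩ := k4 K hK
  obtain ⟨N4, c5⟩ := E_large hk b1 n0
  have hev2 : ∀ᶠ N : ℕ in Filter.atTop, (2 : ℝ) ≤ (N : ℝ) ^ θ := ev_pow b1 _
  obtain ⟨N5, c6⟩ := Filter.eventually_atTop.1 hev2
  refine ⟨N1 + N2 + N3 + N4 + N5 + n0, fun N hN S r => ?_⟩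
  have d1 := c1 N (by omega) S r _ rfl
  have d2 := c2 N (by omega) S r _ rfl
  have d3 := c3 N (by omega)
  have d5 := c5 N (by omega)
  have d6 := c6 N (by omega)
  simp only at d1 d2
  have hw := W_le k θ N (W S Q r)
  rw [← card_EW_filter, ← card_EW] at d1 d2
  rw [← card_EW] at hw ⊢
  obtain ⟨F, hF⟩ : ∃ F : Finset ℕ, F = EW k θ N S Q r := ⟨_, rfl⟩
  rw [← hF] at d1 d2 hw ⊢
  obtain ⟨M, hM⟩ : ∃ M : ℝ, M = ((E k θ N).ncard : ℝ) := ⟨_, rfl⟩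
  rw [← hM] at d1 d2 d3 hw ⊢
  have hM0 : 0 ≤ M := by rw [hM]; exact Nat.cast_nonneg _
  obtain ⟨w, hw'⟩ : ∃ w : ℝ, w = (F.card : ℝ) := ⟨_, rfl⟩
  rw [← hw'] at d1 d2 hw ⊢
  have hw0 : 0 ≤ w := by rw [hw']; exact Nat.cast_nonneg _
  -- the low part
  have e1 : ((F.filter (fun n => n ≤ N / K)).card : ℝ) ≤ η * M := by
    refine le_trans ?_ d3
    have : (F.filter (fun n => n ≤ N / K)).card ≤ ((E k θ N) ∩ {n | n ≤ N / K}).ncard := by
      rw [← Set.ncard_coe_finset]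
      apply Set.ncard_le_ncard _ ((E_fin k θ N).subset Set.inter_subset_left)
      intro n hn
      rw [Finset.mem_coe, mem_filter, hF, mem_EW] at hn
      exact ⟨hn.1.1, hn.2⟩
    exact_mod_cast this
  obtain ⟨p1, hp1⟩ : ∃ p1 : ℝ, p1 = ((F.filter (fun n => P1 n)).card : ℝ) := ⟨_, rfl⟩
  obtain ⟨p2, hp2⟩ : ∃ p2 : ℝ, p2 = ((F.filter (fun n => P2 n)).card : ℝ) := ⟨_, rfl⟩
  obtain ⟨p3, hp3⟩ : ∃ p3 : ℝ, p3 = ((F.filter (fun n => n ≤ N / K)).card : ℝ) := ⟨_, rfl⟩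
  rw [← hp1] at d1
  rw [← hp2] at d2
  rw [← hp3] at e1
  -- pointwise
  obtain ⟨i1, hi1⟩ : ∃ i1 : ℕ → ℝ, i1 = fun n => if P1 n then 1 else 0 := ⟨_, rfl⟩
  obtain ⟨i2, hi2⟩ : ∃ i2 : ℕ → ℝ, i2 = fun n => if P2 n then 1 else 0 := ⟨_, rfl⟩
  obtain ⟨i3, hi3⟩ : ∃ i3 : ℕ → ℝ, i3 = fun n => if n ≤ N / K then 1 else 0 := ⟨_, rfl⟩
  have s1 : ∑ n ∈ F, i1 n = p1 := by rw [hi1, hp1, Finset.card_filter]; push_cast; rfl
  have s2 : ∑ n ∈ F, i2 n = p2 := by rw [hi2, hp2, Finset.card_filter]; push_cast; rfl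
  have s3 : ∑ n ∈ F, i3 n = p3 := by rw [hi3, hp3, Finset.card_filter]; push_cast; rfl
  have s0 : ∑ n ∈ F, (1 : ℝ) = w := by rw [sum_const, nsmul_eq_mul, mul_one, hw']
  have hpt : ∀ n ∈ F, |g N n - v1 * i1 n - v2 * i2 n| ≤ η + 2 * B * i3 n + B * (1 - i1 n - i2 n) := by
    intro n hn
    rw [hF, mem_EW] at hn
    have hnN : n ≤ N := hn.1.2.1
    have hn0 := d5 n hn.1
    have hodd : Odd n := by
      rw [← Nat.not_even_iff_odd]
      intro he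
      have h7 := hn.1.2.2.2 2 Nat.prime_two he.two_dvd
      push_cast at h7
      linarith
    have hbv1 := abs_le.1 hv1
    have hbv2 := abs_le.1 hv2
    have hbg := abs_le.1 (hg N n)
    rw [hi1, hi2, hi3]
    simp only
    by_cases h3 : n ≤ N / K
    · by_cases h1 : P1 n
      · have h2 := k3 n h1
        rw [if_pos h1, if_neg h2, if_pos h3, abs_le]
        constructor <;> linarith
      · by_cases h2 : P2 n
        · rw [if_neg h1, if_pos h2, if_pos h3, abs_le]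
          constructor <;> linarith
        · rw [if_neg h1, if_neg h2, if_pos h3, abs_le]
          constructor <;> linarith
    · obtain ⟨h4, h5⟩ := c4 N (by omega) n (by omega) hnN hn0 hodd
      by_cases h1 : P1 n
      · have h2 := k3 n h1
        rw [if_pos h1, if_neg h2, if_neg h3]
        have := h4 h1
        rw [abs_le] at this ⊢
        constructor <;> linarith [this.1, this.2]
      · by_cases h2 : P2 n
        · rw [if_neg h1, if_pos h2, if_neg h3]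
          have := h5 h2
          rw [abs_le] at this ⊢
          constructor <;> linarith [this.1, this.2]
        · rw [if_neg h1, if_neg h2, if_neg h3, abs_le]
          constructor <;> linarith
  have hsum : |∑ n ∈ F, g N n - v1 * p1 - v2 * p2| ≤ η * w + 2 * B * p3 + B * (w - p1 - p2) := by
    have e2 : ∑ n ∈ F, g N n - v1 * p1 - v2 * p2 = ∑ n ∈ F, (g N n - v1 * i1 n - v2 * i2 n) := by
      rw [sum_sub_distrib, sum_sub_distrib, ← mul_sum, ← mul_sum, s1, s2]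
    have e3 : ∑ n ∈ F, (η + 2 * B * i3 n + B * (1 - i1 n - i2 n)) = η * w + 2 * B * p3 + B * (w - p1 - p2) := by
      rw [sum_add_distrib, sum_add_distrib, ← mul_sum, ← mul_sum, sum_sub_distrib, sum_sub_distrib, s1, s2, s3, s0,
        sum_const, nsmul_eq_mul, hw']
      ring
    rw [e2, ← e3]
    exact (abs_sum_le_sum_abs _ _).trans (sum_le_sum hpt)
  obtain ⟨d1a, d1b⟩ := abs_le.1 d1
  obtain ⟨d2a, d2b⟩ := abs_le.1 d2
  have hBM : B * (η * M) ≤ ε / 16 * M := by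
    calc B * (η * M) = B * η * M := by ring
      _ ≤ _ := mul_le_mul_of_nonneg_right hη2 hM0
  have t1 : |v1 * (p1 - l1 * w)| ≤ B * (η * M) := by
    rw [abs_mul]
    exact mul_le_mul hv1 d1 (abs_nonneg _) hB.le
  have t2 : |v2 * (p2 - (1 - l1) * w)| ≤ B * (η * M) := by
    rw [abs_mul]
    exact mul_le_mul hv2 d2 (abs_nonneg _) hB.le
  have t3 : B * p3 ≤ B * (η * M) := mul_le_mul_of_nonneg_left e1 hB.le
  have t4 : B * (w - p1 - p2) ≤ B * (2 * (η * M)) := mul_le_mul_of_nonneg_left (by linarith) hB.le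
  have t5 : η * w ≤ ε / 4 * M := mul_le_mul hη1 hw hw0 (by positivity)
  obtain ⟨t1a, t1b⟩ := abs_le.1 t1
  obtain ⟨t2a, t2b⟩ := abs_le.1 t2
  obtain ⟨u1, u2⟩ := abs_le.1 hsum
  have hεM : 0 ≤ ε * M := by positivity
  rw [abs_le]
  constructor <;> nlinarith only [t1a, t1b, t2a, t2b, t3, t4, t5, u1, u2, hBM, hεM]

end Pool.Agent.U596.KF
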