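import Pool.Agent.TH926.BL.Sum
import Pool.Agent.U596.KR1

/-! All products `p r q ≤ Z` with `p` in a range, for functions constant on coalescing trajectories above a
fixed height. -/

set_option autoImplicit false

namespace Pool.Agent.U596.TR

open Finset Pool.Agent.H320R2.PD Pool.Agent.H499R2.ND Pool.Agent.H499R2.CO Pool.Agent.H376R2.MR
  Pool.Agent.W41.FU Pool.Agent.W41 Pool.Agent.W41.MU Pool.Agent.TH926.BL Pool.Agent.Y964.LW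
open scoped Classical

theorem sum_PR (R : ℕ) {s : ℤ} (hs : s = 1 ∨ s = -1) {ε : ℝ} (hε : 0 < ε) (hε1 : ε ≤ 1) :
    ∃ ϑ : ℝ, 0 < ϑ ∧ ϑ ≤ 1 / 64 ∧ ∀ θ1 : ℝ, 0 < θ1 → ∀ η : ℝ, 0 < η → ∃ Z0 : ℝ, 2 ≤ Z0 ∧ ∃ μ : ℝ, 0 < μ ∧ μ ≤ 1 ∧
    ∀ Z : ℝ, Z0 ≤ Z → ∀ f ∈ SameR R s,
    (∀ n : ℕ, (n : ℝ) ≤ 16 * Z → |∑ m ∈ Icc 1 n, f (m : ℕ)| ≤ μ * Z) →
    ∀ a b : ℝ, θ1 * Real.log Z ≤ a → a + η * Real.log Z ≤ b → b ≤ ϑ * Real.log Z →
    ∀ r : ℕ, r % 2 = 1 → (r : ℝ) ≤ Z ^ ϑ → ∀ As Bs : Set ℕ,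
    |∑ p ∈ (RG a b).filter (fun p => p ∈ As), ∑ q ∈ QQ Bs ⌊Z / (p * r)⌋₊,
      f ((p * (r * q) : ℕ) : ℤ)| ≤ ε * ((∑ p ∈ RG a b, 1 / (p : ℝ)) * (Z / (r * Real.log Z))) := by
  set ε' : ℝ := ε / 17 with hε'
  have hε'0 : 0 < ε' := by positivity
  have hε'1 : ε' ≤ 1 := by
    rw [hε', div_le_one (by norm_num)]
    linarith
  obtain ⟨H, hH, ϑ0, h0, h01, hcell⟩ := cell_PR R hs hε'0 hε'1
  have hH1 : 1 ≤ H := by omega
  have hH0 : (0 : ℝ) < H := by exact_mod_cast hH1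
  obtain ⟨L0, hL0, hmm⟩ := mm_range hH1
  refine ⟨ϑ0 / 2, by positivity, by linarith, fun θ1 hθ1 η hη => ?_⟩
  obtain ⟨Z1, hZ12, μ, hμ0, hμ1, hZ1⟩ := hcell (θ1 / 2) (by positivity)
  have tl := Real.tendsto_log_atTop
  have ev : ∀ᶠ Z : ℝ in Filter.atTop, (Z1 ≤ Z ∧ 4 ≤ Z) ∧ (L0 ≤ θ1 * Real.log Z ∧ 3 / (H : ℝ) ≤ η * Real.log Z) ∧
      2 / (H : ℝ) ≤ θ1 * Real.log Z :=
    ((Filter.eventually_ge_atTop _).and (Filter.eventually_ge_atTop _)).and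
      ((((tl.const_mul_atTop hθ1).eventually_ge_atTop _).and
        ((tl.const_mul_atTop hη).eventually_ge_atTop _)).and
        ((tl.const_mul_atTop hθ1).eventually_ge_atTop _))
  obtain ⟨Z0, hZ0⟩ := Filter.eventually_atTop.1 ev
  refine ⟨max 2 Z0, le_max_left _ _, μ, hμ0, hμ1, fun Z hZ f hf hmean a b ha hab hb r hr hrZ As Bs => ?_⟩
  obtain ⟨⟨z1, z2⟩, ⟨z3, z4⟩, z5⟩ := hZ0 Z (le_trans (le_max_right _ _) hZ)
  have hZp : 0 < Z := by linarith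
  have hZ1' : 1 ≤ Z := by linarith
  have hlog : 0 < Real.log Z := Real.log_pos (by linarith)
  have hr1 : 1 ≤ r := by omega
  have hr0 : (0 : ℝ) < r := by exact_mod_cast hr1
  have hL0a : L0 ≤ a := z3.trans ha
  have ha1 : 1 ≤ a := hL0.trans hL0a
  have h3 : a + 3 / H ≤ b := by linarith
  obtain ⟨hmm0, hmm1⟩ := hmm a b hL0a h3
  set v0 := ⌊(H : ℝ) * a⌋₊ with hv0
  set v1 := ⌊(H : ℝ) * b⌋₊ + 1 with hv1
  have hb0 : 0 ≤ b := by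
    have : 0 < 3 / (H : ℝ) := by positivity
    linarith
  have h2H : 2 / (H : ℝ) ≤ a := z5.trans ha
  have h2Hb : 2 / (H : ℝ) ≤ b := by
    have : 0 < 3 / (H : ℝ) := by positivity
    linarith
  have hsc := sum_cells hH1 (v0 := v0) (v1 := v1) (E := (RG a b).filter (fun p => p ∈ As))
    (fun p hp => by
      rw [mem_filter, mem_RG] at hp
      refine ⟨hp.1.1, ?_, ?_⟩
      · exact Nat.floor_le_floor (mul_le_mul_of_nonneg_left hp.1.2.1 hH0.le)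
      · rw [hv1, Nat.lt_succ_iff]
        exact Nat.floor_le_floor (mul_le_mul_of_nonneg_left hp.1.2.2 hH0.le))
    {p | p ∈ RG a b ∧ p ∈ As} (fun p => by rw [mem_filter]; rfl)
    (fun p => ∑ q ∈ QQ Bs ⌊Z / (p * r)⌋₊, f ((p * (r * q) : ℕ) : ℤ))
  rw [hsc]
  have hrZ' : (r : ℝ) ≤ Z ^ ϑ0 := hrZ.trans (Real.rpow_le_rpow_of_exponent_le hZ1' (by linarith))
  generalize {p | p ∈ RG a b ∧ p ∈ As} = As'
  have hv : ∀ v ∈ Ico v0 v1, |∑ p ∈ (cell H v).filter (fun p => p ∈ As'),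
      ∑ q ∈ QQ Bs ⌊Z / (p * r)⌋₊, f ((p * (r * q) : ℕ) : ℤ)| ≤
      ε' * (mm H v * (Z / (r * Real.log Z))) := by
    intro v hv
    rw [mem_Ico] at hv
    refine hZ1 Z z1 f hf hmean v ?_ ?_ r hr hrZ' As' Bs
    · have h4 : (H : ℝ) * a < v0 + 1 := Nat.lt_floor_add_one _
      have h5 : (v0 : ℝ) ≤ v := by exact_mod_cast hv.1
      rw [le_div_iff₀ hH0]
      rw [div_le_iff₀ hH0] at h2H
      nlinarith
    · have h4 : ((⌊(H : ℝ) * b⌋₊ : ℕ) : ℝ) ≤ H * b := Nat.floor_le (by positivity)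
      have h5 : (v : ℝ) ≤ (⌊(H : ℝ) * b⌋₊ : ℕ) := by exact_mod_cast (by omega : v ≤ ⌊(H : ℝ) * b⌋₊)
      rw [div_le_iff₀ hH0]
      rw [div_le_iff₀ hH0] at h2Hb
      nlinarith
  have hW : 0 < Z / (r * Real.log Z) := by positivity
  refine (abs_sum_le_sum_abs _ _).trans ((sum_le_sum hv).trans ?_)
  rw [← mul_sum, ← sum_mul]
  calc ε' * ((∑ v ∈ Ico v0 v1, mm H v) * (Z / (r * Real.log Z)))
      ≤ ε' * ((17 * ∑ p ∈ RG a b, 1 / (p : ℝ)) * (Z / (r * Real.log Z))) :=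
        mul_le_mul_of_nonneg_left (mul_le_mul_of_nonneg_right hmm1 hW.le) hε'0.le
    _ = _ := by rw [hε']; ring

end Pool.Agent.U596.TR
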