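import Pool.Agent.U596.TR3
import Pool.Agent.Y964.LW.C1

/-! The counting lemma for events. -/

set_option autoImplicit false

namespace Pool.Agent.U596.TR

open Finset Pool.Agent.H320R2.PD Pool.Agent.H499R2.ND Pool.Agent.H499R2.CO Pool.Agent.H376R2.MR
  Pool.Agent.W41.FU Pool.Agent.W41 Pool.Agent.W41.MU Pool.Agent.Y964.LW Pool.Agent.U596.TP
open scoped Classical

theorem prod_diff {ι : Type} (E : Finset ι) (a b : ι → ℝ) {η : ℝ} (ha : ∀ e ∈ E, 0 ≤ a e ∧ a e ≤ 1)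
    (hb : ∀ e ∈ E, 0 ≤ b e ∧ b e ≤ 1) (h : ∀ e ∈ E, |a e - b e| ≤ η) :
    |∏ e ∈ E, a e - ∏ e ∈ E, b e| ≤ E.card * η := by
  induction E using Finset.induction_on with
  | empty => simp
  | insert e E he ih =>
    have h1 := ih (fun e' he' => ha e' (mem_insert_of_mem he')) (fun e' he' => hb e' (mem_insert_of_mem he'))
      (fun e' he' => h e' (mem_insert_of_mem he'))
    rw [prod_insert he, prod_insert he, card_insert_of_notMem he]
    have h2 : a e * ∏ x ∈ E, a x - b e * ∏ x ∈ E, b x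
        = (a e - b e) * ∏ x ∈ E, a x + b e * (∏ x ∈ E, a x - ∏ x ∈ E, b x) := by ring
    rw [h2]
    have hpa : |∏ x ∈ E, a x| ≤ 1 := by
      rw [abs_of_nonneg (prod_nonneg fun x hx => (ha x (mem_insert_of_mem hx)).1)]
      exact prod_le_one (fun x hx => (ha x (mem_insert_of_mem hx)).1) (fun x hx => (ha x (mem_insert_of_mem hx)).2)
    have hbe := hb e (mem_insert_self e E)
    have hbe' : |b e| ≤ 1 := by rw [abs_of_nonneg hbe.1]; exact hbe.2
    refine (abs_add_le _ _).trans ?_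
    rw [abs_mul, abs_mul]
    have h3 := h e (mem_insert_self e E)
    have h4 : |a e - b e| * |∏ x ∈ E, a x| ≤ η * 1 :=
      mul_le_mul h3 hpa (abs_nonneg _) ((abs_nonneg _).trans h3)
    have h5 : |b e| * |∏ x ∈ E, a x - ∏ x ∈ E, b x| ≤ 1 * (E.card * η) :=
      mul_le_mul hbe' h1 (abs_nonneg _) zero_le_one
    push_cast
    linarith

theorem prod_ind {κ : Type} (E : Finset κ) (p : κ → Prop) (d : ∀ e, Decidable (p e))
    (d' : Decidable (∀ e ∈ E, p e)) :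
    ∏ e ∈ E, (@ite ℝ (p e) (d e) 1 0) = @ite ℝ (∀ e ∈ E, p e) d' 1 0 := by
  by_cases h : ∀ e ∈ E, p e
  · rw [if_pos h]
    apply prod_eq_one
    intro e he
    rw [if_pos (h e he)]
  · rw [if_neg h]
    push Not at h
    obtain ⟨e, he, hne⟩ := h
    apply prod_eq_zero he
    rw [if_neg hne]

/-- classes of events to which the counting lemma applies -/
def UEv (R : ℕ) (s : ℤ) (PP : Set ((ℕ → Prop) × ℝ)) : Prop :=
  ∀ (K : ℕ) (η : ℝ), 0 < η → ∃ N1 : ℕ, ∀ Y : ℕ, N1 ≤ Y → ∀ P ∈ PP, 0 ≤ P.2 ∧ P.2 ≤ 1 ∧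
    ∀ b : Bool, ∃ (Q : ℕ → Prop) (l : ℝ), 0 ≤ l ∧ l ≤ 1 ∧ |l - P.2| ≤ η ∧ bf Q l ∈ SameR R s ∧
      (∀ n : ℕ, n ≤ K * Y → |∑ m ∈ Icc 1 n, bf Q l ((m : ℕ) : ℤ)| ≤ η * Y) ∧
      ∀ n : ℕ, 1 ≤ n → Y ≤ n → n ≤ K * Y → ((b = true → P.1 n → Q n) ∧ (b = false → Q n → P.1 n))

theorem UEv.union {R : ℕ} {s : ℤ} {PP PP' : Set ((ℕ → Prop) × ℝ)} (h : UEv R s PP) (h' : UEv R s PP') :
    UEv R s (PP ∪ PP') := by
  intro K η hη
  obtain ⟨N1, h1⟩ := h K η hη
  obtain ⟨N2, h2⟩ := h' K η hη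
  refine ⟨N1 + N2, fun Y hY P hP => ?_⟩
  rcases hP with hP | hP
  · exact h1 Y (by omega) P hP
  · exact h2 Y (by omega) P hP

/-- THE COUNTING LEMMA FOR EVENTS. -/
theorem countE (R : ℕ) {s : ℤ} (hs : s = 1 ∨ s = -1) (ι : Type) [Fintype ι] {PP : Set ((ℕ → Prop) × ℝ)}
    (hPP : UEv R s PP) :
    ∀ ε : ℝ, 0 < ε → ∃ ϑ : ℝ, 0 < ϑ ∧ ϑ ≤ 1 / 64 ∧ ∀ θ : ℝ, 0 < θ → ∃ N0 : ℕ, 10 ≤ N0 ∧
    ∀ M : ι → ℕ, (∀ i, N0 ≤ M i) → ∀ (c : Finset ι → ℕ) (E : Finset (Finset ι)), Good θ ϑ M c E →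
    ∀ A : ι → Finset ℕ, (∀ i, A i ⊆ Pr (M i)) → ∀ P : Finset ι → (ℕ → Prop) × ℝ, (∀ e ∈ E, P e ∈ PP) →
    |((#{x ∈ Fintype.piFinset A | ∀ e ∈ E, (P e).1 (pv c e x)} : ℕ) : ℝ)
        - (∏ e ∈ E, (P e).2) * ∏ i, ((A i).card : ℝ)| ≤ ε * ∏ i, ((Pr (M i)).card : ℝ) := by
  intro ε hε
  obtain ⟨ϑ, hϑ0, hϑ1, h1⟩ := countingR R hs ι (ε / 2) (by positivity)
  refine ⟨ϑ, hϑ0, hϑ1, fun θ hθ => ?_⟩
  obtain ⟨N0, hN0, μ, hμ, h2⟩ := h1 θ hθ
  obtain ⟨k, hk⟩ : ∃ k : ℕ, k = Fintype.card ι := ⟨_, rfl⟩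
  obtain ⟨η, hη⟩ : ∃ η : ℝ, η = min μ (ε / (2 * 2 ^ k)) := ⟨_, rfl⟩
  have hη0 : 0 < η := by rw [hη]; positivity
  have hημ : η ≤ μ := by rw [hη]; exact min_le_left _ _
  have hηε : 2 ^ k * η ≤ ε / 2 := by
    have h3 : η ≤ ε / (2 * 2 ^ k) := by rw [hη]; exact min_le_right _ _
    calc 2 ^ k * η ≤ 2 ^ k * (ε / (2 * 2 ^ k)) := mul_le_mul_of_nonneg_left h3 (by positivity)
      _ = _ := by field_simp
  obtain ⟨N1, h3⟩ := hPP (64 * 2 ^ k) η hη0
  refine ⟨N0 + N1, by omega, fun M hM c E hE A hA P hP => ?_⟩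
  -- the scales
  have hscale : ∀ e ∈ E, N1 ≤ scale c M e ∧ 1 ≤ scale c M e := by
    intro e he
    obtain ⟨e', he', i, hi, j, hj, hij, -, -, -, -, hco⟩ := hE {e} (by simpa using he) (singleton_nonempty e)
    rw [mem_singleton] at he'
    subst he'
    have h4 : M j ≤ scale c M e' := by
      unfold scale
      rw [← mul_prod_erase e' _ hj]
      have h5 : 1 ≤ ∏ r ∈ e'.erase j, M r := by
        apply Finset.one_le_prod'
        intro r _
        have := hM r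
        omega
      calc M j = 1 * (M j * 1) := by ring
        _ ≤ c e' * (M j * ∏ r ∈ e'.erase j, M r) := by
            apply Nat.mul_le_mul (by omega)
            exact Nat.mul_le_mul_left _ h5
    have := hM j
    omega
  have hpvr : ∀ e ∈ E, ∀ x ∈ Fintype.piFinset A, scale c M e ≤ pv c e x ∧ pv c e x ≤ 2 ^ k * scale c M e := by
    intro e he x hx
    rw [Fintype.mem_piFinset] at hx
    unfold scale pv
    constructor
    · apply Nat.mul_le_mul_left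
      exact prod_le_prod' fun r _ => (mem_Pr.1 (hA r (hx r))).1
    · calc c e * ∏ r ∈ e, x r ≤ c e * ∏ r ∈ e, (2 * M r) := by
            apply Nat.mul_le_mul_left
            exact prod_le_prod' fun r _ => (mem_Pr.1 (hA r (hx r))).2.1.le
        _ = c e * (2 ^ e.card * ∏ r ∈ e, M r) := by rw [prod_mul_distrib, prod_const]
        _ ≤ c e * (2 ^ k * ∏ r ∈ e, M r) := by
            apply Nat.mul_le_mul_left
            apply Nat.mul_le_mul_right
            apply Nat.pow_le_pow_right (by norm_num)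
            rw [hk]; exact card_le_univ _
        _ = _ := by ring
  have hT0 : 0 ≤ ∏ i, ((Pr (M i)).card : ℝ) := prod_nonneg fun i _ => Nat.cast_nonneg _
  have hA0 : 0 ≤ ∏ i, ((A i).card : ℝ) := prod_nonneg fun i _ => Nat.cast_nonneg _
  have hAT : ∏ i, ((A i).card : ℝ) ≤ ∏ i, ((Pr (M i)).card : ℝ) := by
    apply prod_le_prod (fun r _ => Nat.cast_nonneg _)
    intro r _
    exact_mod_cast card_le_card (hA r)
  have hE2k : (E.card : ℝ) ≤ 2 ^ k := by
    have h4 : E.card ≤ Fintype.card (Finset ι) := card_le_univ E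
    rw [Fintype.card_finset, ← hk] at h4
    exact_mod_cast h4
  -- one side
  have side : ∀ b : Bool, ∃ Z : ℝ, |Z - (∏ e ∈ E, (P e).2) * ∏ i, ((A i).card : ℝ)| ≤ ε * ∏ i, ((Pr (M i)).card : ℝ) ∧
      ((b = true → ((#{x ∈ Fintype.piFinset A | ∀ e ∈ E, (P e).1 (pv c e x)} : ℕ) : ℝ) ≤ Z) ∧
       (b = false → Z ≤ ((#{x ∈ Fintype.piFinset A | ∀ e ∈ E, (P e).1 (pv c e x)} : ℕ) : ℝ))) := by
    intro b
    have h4 : ∀ e : Finset ι, ∃ (Q : ℕ → Prop) (l : ℝ), e ∈ E → (0 ≤ l ∧ l ≤ 1 ∧ |l - (P e).2| ≤ η ∧ bf Q l ∈ SameR R s ∧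
      (∀ n : ℕ, n ≤ 64 * 2 ^ k * scale c M e → |∑ m ∈ Icc 1 n, bf Q l ((m : ℕ) : ℤ)| ≤ η * scale c M e) ∧
      ∀ n : ℕ, 1 ≤ n → scale c M e ≤ n → n ≤ 64 * 2 ^ k * scale c M e →
        ((b = true → (P e).1 n → Q n) ∧ (b = false → Q n → (P e).1 n))) := by
      intro e
      by_cases he : e ∈ E
      · obtain ⟨Q, l, h5⟩ := (h3 (scale c M e) (hscale e he).1 (P e) (hP e he)).2.2 b
        exact ⟨Q, l, fun _ => h5⟩
      · exact ⟨fun _ => True, 0, fun h => absurd h he⟩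
    choose Q l hQ using h4
    have h5 := h2 M (fun i => by have := hM i; omega) c E hE A hA (fun e z => if 0 < z ∧ Q e z.toNat then 1 else 0) l
      (fun e _ z => by split_ifs <;> norm_num) (fun e he => ⟨(hQ e he).1, (hQ e he).2.1⟩) (fun e he => by
        have h6 := (hQ e he).2.2.2.1
        exact h6) (fun e he n hn => by
        have h6 := (hQ e he).2.2.2.2.1 n (by
          rw [← hk] at hn
          exact_mod_cast hn)
        have h7 : η * (scale c M e : ℝ) ≤ μ * scale c M e := mul_le_mul_of_nonneg_right hημ (Nat.cast_nonneg _)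
        exact h6.trans h7)
    have h6 : ∑ x ∈ Fintype.piFinset A, ∏ e ∈ E, (if 0 < ((pv c e x : ℕ) : ℤ) ∧ Q e ((pv c e x : ℕ) : ℤ).toNat then (1 : ℝ) else 0)
        = ((#{x ∈ Fintype.piFinset A | ∀ e ∈ E, Q e (pv c e x)} : ℕ) : ℝ) := by
      rw [card_filter]
      push_cast
      apply sum_congr rfl
      intro x hx
      rw [← prod_ind E (fun e => Q e (pv c e x)) (fun e => inferInstance)]
      apply prod_congr rfl
      intro e he
      have h7 : 0 < pv c e x := by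
        have h8 := (hpvr e he x hx).1
        have h9 := (hscale e he).2
        omega
      have h8 : (0 : ℤ) < ((pv c e x : ℕ) : ℤ) := by exact_mod_cast h7
      simp only [h8, true_and, Int.toNat_natCast]
    rw [h6] at h5
    refine ⟨((#{x ∈ Fintype.piFinset A | ∀ e ∈ E, Q e (pv c e x)} : ℕ) : ℝ), ?_, ?_, ?_⟩
    · have h7 := prod_diff E l (fun e => (P e).2) (η := η) (fun e he => ⟨(hQ e he).1, (hQ e he).2.1⟩)
        (fun e he => ⟨(h3 (scale c M e) (hscale e he).1 (P e) (hP e he)).1, (h3 (scale c M e) (hscale e he).1 (P e) (hP e he)).2.1⟩)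
        (fun e he => (hQ e he).2.2.1)
      have h8 : |(∏ e ∈ E, l e - ∏ e ∈ E, (P e).2) * ∏ i, ((A i).card : ℝ)| ≤ (ε / 2) * ∏ i, ((Pr (M i)).card : ℝ) := by
        rw [abs_mul, abs_of_nonneg hA0]
        apply mul_le_mul _ hAT hA0 (by positivity)
        refine h7.trans (le_trans ?_ hηε)
        exact mul_le_mul_of_nonneg_right hE2k hη0.le
      rw [abs_le] at h5 h8 ⊢
      have e1 : (∏ e ∈ E, l e - ∏ e ∈ E, (P e).2) * ∏ i, ((A i).card : ℝ)
          = (∏ e ∈ E, l e) * ∏ i, ((A i).card : ℝ) - (∏ e ∈ E, (P e).2) * ∏ i, ((A i).card : ℝ) := by ring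
      rw [e1] at h8
      constructor <;> linarith [h5.1, h5.2, h8.1, h8.2]
    · intro hb
      have h7 : ({x ∈ Fintype.piFinset A | ∀ e ∈ E, (P e).1 (pv c e x)} : Finset (ι → ℕ)) ⊆
          {x ∈ Fintype.piFinset A | ∀ e ∈ E, Q e (pv c e x)} := by
        intro x hx
        rw [mem_filter] at hx ⊢
        refine ⟨hx.1, fun e he => ?_⟩
        have h8 := hpvr e he x hx.1
        have h9 := (hscale e he).2
        exact ((hQ e he).2.2.2.2.2 (pv c e x) (by omega) h8.1 (h8.2.trans (by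
          apply Nat.mul_le_mul_right
          have : 0 < 2 ^ k := by positivity
          omega))).1 hb (hx.2 e he)
      exact_mod_cast card_le_card h7
    · intro hb
      have h7 : ({x ∈ Fintype.piFinset A | ∀ e ∈ E, Q e (pv c e x)} : Finset (ι → ℕ)) ⊆
          {x ∈ Fintype.piFinset A | ∀ e ∈ E, (P e).1 (pv c e x)} := by
        intro x hx
        rw [mem_filter] at hx ⊢
        refine ⟨hx.1, fun e he => ?_⟩
        have h8 := hpvr e he x hx.1
        have h9 := (hscale e he).2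
        exact ((hQ e he).2.2.2.2.2 (pv c e x) (by omega) h8.1 (h8.2.trans (by
          apply Nat.mul_le_mul_right
          have : 0 < 2 ^ k := by positivity
          omega))).2 hb (hx.2 e he)
      exact_mod_cast card_le_card h7
  obtain ⟨Z1, z1, z2, -⟩ := side true
  obtain ⟨Z0, y1, -, y2⟩ := side false
  have z3 := z2 rfl
  have y3 := y2 rfl
  rw [abs_le] at z1 y1 ⊢
  constructor <;> linarith [z1.1, z1.2, y1.1, y1.2]

end Pool.Agent.U596.TR
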