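import Pool.Agent.U596.KR3
import Pool.Agent.U596.TR4

/-! Events along the integers with exactly `k` prime factors. -/

set_option autoImplicit false

namespace Pool.Agent.U596.TR

open Pool.Agent.H499R2.ND Finset Pool.Agent.W41 Pool.Agent.W41.FU Pool.Agent.W41.MU Pool.Agent.H376R2.MR ArithmeticFunction
  Pool.Agent.U596.TP Pool.Agent.Y964.LW
open scoped Classical

/-- the small members of `EE` -/
theorem low_part (k : ℕ) {θ : ℝ} (hθ : 0 < θ) : ∃ C : ℝ, 0 < C ∧ ∀ K : ℕ, 1 ≤ K → ∃ N0 : ℕ, ∀ N : ℕ, N0 ≤ N →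
    ((#{n ∈ EE k θ N | n ≤ N / K} : ℕ) : ℝ) ≤ C * (N / Real.log N) / K := by
  obtain ⟨Kw, y0, hK, hy0, hwin⟩ := window (show (0 : ℝ) < 1 by norm_num)
  obtain ⟨CV, hCV, hV⟩ := V_up
  have hKR : (1 : ℝ) ≤ Kw := by exact_mod_cast hK
  obtain ⟨θ', hθ'⟩ : ∃ θ' : ℝ, θ' = min θ (1 / (4 * Kw)) := ⟨_, rfl⟩
  have hθ'0 : 0 < θ' := by rw [hθ']; positivity
  have hθ'1 : θ' ≤ θ := by rw [hθ']; exact min_le_left _ _
  have hθ'2 : θ' * Kw ≤ 1 / 4 := by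
    have h1 : θ' ≤ 1 / (4 * Kw) := by rw [hθ']; exact min_le_right _ _
    rw [le_div_iff₀ (by positivity)] at h1
    linarith
  refine ⟨4 * CV / θ', by positivity, fun K hK1 => ?_⟩
  have hlim : ∀ᶠ N : ℕ in Filter.atTop, ((y0 : ℝ) + 9 ≤ (N : ℝ) ^ θ' ∧ 2 * (K : ℝ) ≤ (N : ℝ) ^ (1 / 4 : ℝ)) ∧ 2 ≤ N :=
    ((ev_pow hθ'0 _).and (ev_pow (by norm_num) _)).and (Filter.eventually_ge_atTop 2)
  obtain ⟨N0, hN0⟩ := Filter.eventually_atTop.1 hlim
  refine ⟨N0, fun N hN => ?_⟩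
  obtain ⟨⟨n1, n2⟩, n3⟩ := hN0 N hN
  have hNR : (2 : ℝ) ≤ N := by exact_mod_cast n3
  have hNp : (0 : ℝ) < N := by linarith
  have hN1 : (1 : ℝ) ≤ N := by linarith
  have hK0 : (0 : ℝ) < K := by exact_mod_cast hK1
  obtain ⟨l, hl⟩ : ∃ l : ℝ, l = Real.log N := ⟨_, rfl⟩
  have hl0 : 0 < l := by rw [hl]; exact Real.log_pos (by linarith)
  obtain ⟨z, hz⟩ : ∃ z : ℝ, z = (N : ℝ) ^ θ' := ⟨_, rfl⟩
  rw [← hz] at n1
  have hy0R : (0 : ℝ) ≤ y0 := Nat.cast_nonneg _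
  have hz0 : 0 ≤ z := by linarith
  obtain ⟨zn, hzn⟩ : ∃ zn : ℕ, zn = ⌊z⌋₊ := ⟨_, rfl⟩
  have hzn1 : (zn : ℝ) ≤ z := by rw [hzn]; exact Nat.floor_le hz0
  have hzn2 : z < (zn : ℝ) + 1 := by rw [hzn]; exact Nat.lt_floor_add_one _
  have hzny : y0 ≤ zn := by
    have : (y0 : ℝ) ≤ zn := by linarith
    exact_mod_cast this
  have hzn3 : 3 ≤ zn := by
    have : (3 : ℝ) ≤ zn := by linarith
    exact_mod_cast this
  obtain ⟨Pz, hPz⟩ : ∃ Pz : Finset ℕ, Pz = (Icc 1 zn).filter Nat.Prime := ⟨_, rfl⟩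
  have hPzp : ∀ p ∈ Pz, p.Prime ∧ p ≤ zn := by
    intro p hp
    rw [hPz, mem_filter, mem_Icc] at hp
    exact ⟨hp.2, hp.1.2⟩
  have hVz : V Pz ≤ 2 * CV / (θ' * l) := by
    have h1 := hV zn hzn3
    rw [← hPz] at h1
    have h2 : θ' * l / 2 ≤ Real.log zn := by
      have h3 := log_floor (show 4 ≤ z by linarith)
      rw [← hzn] at h3
      have h4 : Real.log z = θ' * l := by rw [hz, Real.log_rpow hNp, hl]
      rw [h4] at h3
      exact h3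
    refine h1.trans ?_
    calc CV / Real.log zn ≤ CV / (θ' * l / 2) := div_le_div_of_nonneg_left hCV.le (by positivity) h2
      _ = _ := by field_simp
  have hVz0 : 0 < V Pz := V_pos fun p hp => (hPzp p hp).1
  obtain ⟨L, hL⟩ : ∃ L : ℕ, L = N / K := ⟨_, rfl⟩
  have hLR : (L : ℝ) ≤ N / K := by rw [hL]; exact Nat.cast_div_le
  have hLw : zn ^ Kw ≤ L := by
    rw [hL, Nat.le_div_iff_mul_le (by omega)]
    have h3 : (((zn ^ Kw * K : ℕ)) : ℝ) ≤ N := by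
      push_cast
      calc (zn : ℝ) ^ Kw * K ≤ z ^ Kw * (N : ℝ) ^ (1 / 4 : ℝ) := by
            apply mul_le_mul (pow_le_pow_left₀ (Nat.cast_nonneg _) hzn1 _) (by linarith) hK0.le (by positivity)
        _ = (N : ℝ) ^ (θ' * Kw) * (N : ℝ) ^ (1 / 4 : ℝ) := by rw [hz, ← Real.rpow_natCast, ← Real.rpow_mul hNp.le]
        _ ≤ (N : ℝ) ^ (1 / 4 : ℝ) * (N : ℝ) ^ (1 / 4 : ℝ) := by
            apply mul_le_mul_of_nonneg_right _ (by positivity)
            exact Real.rpow_le_rpow_of_exponent_le hN1 hθ'2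
        _ = (N : ℝ) ^ (1 / 2 : ℝ) := by rw [← Real.rpow_add hNp]; norm_num
        _ ≤ (N : ℝ) ^ (1 : ℝ) := Real.rpow_le_rpow_of_exponent_le hN1 (by norm_num)
        _ = N := Real.rpow_one _
    exact_mod_cast h3
  have h3 := hwin zn hzny L hLw Pz hPzp 0 1 (one_ndvd fun p hp => (hPzp p hp).1) 1
  rw [abs_le] at h3
  have e1 : ∑ b ∈ Icc 1 L, wt Pz 0 1 (b : ℕ) = ∑ g ∈ range L, wt Pz 0 1 (1 + (g : ℕ)) := by
    have e2 : Icc 1 L = Ico 1 (L + 1) := by ext; simp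
    rw [e2, sum_Ico_eq_sum_range, Nat.add_sub_cancel]
    apply sum_congr rfl; intro g _
    push_cast; rfl
  have h4 : ((#{n ∈ EE k θ N | n ≤ N / K} : ℕ) : ℝ) ≤ ∑ b ∈ Icc 1 L, wt Pz 0 1 (b : ℕ) := by
    have h5 : ((#{n ∈ EE k θ N | n ≤ N / K} : ℕ) : ℝ) = ∑ n ∈ {n ∈ EE k θ N | n ≤ N / K}, (1 : ℝ) := by
      rw [sum_const, nsmul_eq_mul, mul_one]
    rw [h5]
    have h6 : ∑ n ∈ {n ∈ EE k θ N | n ≤ N / K}, (1 : ℝ) = ∑ n ∈ {n ∈ EE k θ N | n ≤ N / K}, wt Pz 0 1 (n : ℕ) := by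
      apply sum_congr rfl
      intro n hn
      rw [mem_filter] at hn
      have hn1 := mem_EE.1 hn.1
      unfold wt
      rw [if_pos]
      intro p hp hd
      have h7 : p ∣ n := by
        have h8 : (p : ℤ) ∣ (n : ℤ) := by simpa using hd
        exact_mod_cast h8
      have h8 := hn1.2.2.2 p (hPzp p hp).1 h7
      have h9 : (p : ℝ) ≤ (N : ℝ) ^ θ := by
        calc (p : ℝ) ≤ zn := by exact_mod_cast (hPzp p hp).2
          _ ≤ z := hzn1
          _ ≤ (N : ℝ) ^ θ := by rw [hz]; exact Real.rpow_le_rpow_of_exponent_le hN1 hθ'1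
      linarith
    rw [h6]
    apply sum_le_sum_of_subset_of_nonneg
    · intro n hn
      rw [mem_filter] at hn
      rw [mem_Icc, hL]
      exact ⟨(mem_EE.1 hn.1).1, hn.2⟩
    · intro n _ _
      exact wt_nonneg _ _ _ _
  rw [e1] at h4
  rw [← hl]
  calc ((#{n ∈ EE k θ N | n ≤ N / K} : ℕ) : ℝ) ≤ 2 * (L * V Pz) := by linarith [h3.2]
    _ ≤ 2 * ((N / K) * (2 * CV / (θ' * l))) := by
        apply mul_le_mul_of_nonneg_left _ (by norm_num)
        exact mul_le_mul hLR hVz hVz0.le (by positivity)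
    _ = _ := by field_simp; ring

/-- EVENTS ALONG THE INTEGERS WITH EXACTLY `k` PRIME FACTORS. -/
theorem kprimesE (R : ℕ) {s : ℤ} (hs : s = 1 ∨ s = -1) {PP : Set ((ℕ → Prop) × ℝ)} (hPP : UEv R s PP) (j : ℕ) :
    ∀ ε : ℝ, 0 < ε → ∃ θ0 : ℝ, 0 < θ0 ∧ ∀ θ : ℝ, 0 < θ → θ ≤ θ0 → ∃ N0 : ℕ, ∀ N : ℕ, N0 ≤ N →
    0 < (EE (j + 2) θ N).card ∧ ∀ P ∈ PP,
    |((#{n ∈ EE (j + 2) θ N | P.1 n} : ℕ) : ℝ) - P.2 * (EE (j + 2) θ N).card| ≤ ε * (EE (j + 2) θ N).card := by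
  intro ε hε
  obtain ⟨c1, hc1, hk⟩ := kprimesR R hs j
  obtain ⟨ε', hε'⟩ : ∃ ε' : ℝ, ε' = min 1 (ε / 4) := ⟨_, rfl⟩
  have hε'0 : 0 < ε' := by rw [hε']; positivity
  have hε'1 : ε' ≤ 1 := by rw [hε']; exact min_le_left _ _
  have hε'2 : ε' ≤ ε / 4 := by rw [hε']; exact min_le_right _ _
  obtain ⟨θ0, hθ0, -, h1⟩ := hk ε' hε'0 hε'1
  refine ⟨θ0, hθ0, fun θ hθ hθθ => ?_⟩
  obtain ⟨N0, hN0, μ, hμ0, hμ1, h2⟩ := h1 θ hθ hθθ
  obtain ⟨C, hC, h3⟩ := low_part (j + 2) hθ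
  obtain ⟨K, hK⟩ : ∃ K : ℕ, K = ⌈C / (ε' * c1)⌉₊ + 1 := ⟨_, rfl⟩
  have hK1 : 1 ≤ K := by omega
  have hKC : C ≤ K * (ε' * c1) := by
    have h4 : C / (ε' * c1) ≤ K := (Nat.le_ceil _).trans (by rw [hK]; push_cast; linarith)
    rwa [div_le_iff₀ (by positivity)] at h4
  have hK0 : (0 : ℝ) < K := by exact_mod_cast hK1
  obtain ⟨N2, h4⟩ := h3 K hK1
  obtain ⟨η, hη⟩ : ∃ η : ℝ, η = min μ ε' := ⟨_, rfl⟩
  have hη0 : 0 < η := by rw [hη]; exact lt_min hμ0 hε'0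
  have hημ : η ≤ μ := by rw [hη]; exact min_le_left _ _
  have hηε : η ≤ ε' := by rw [hη]; exact min_le_right _ _
  obtain ⟨N1, h5⟩ := hPP (32 * K) η hη0
  refine ⟨N0 + N2 + K * (N1 + 1) + 3, fun N hN => ?_⟩
  obtain ⟨g1, g2⟩ := h2 N (by
    have := Nat.zero_le (K * (N1 + 1))
    omega)
  have g3 := h4 N (by
    have := Nat.zero_le (K * (N1 + 1))
    omega)
  obtain ⟨E, hE⟩ : ∃ E : Finset ℕ, E = EE (j + 2) θ N := ⟨_, rfl⟩
  rw [← hE] at g1 g2 g3 ⊢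
  have hN3 : (3 : ℝ) ≤ N := by
    have : 3 ≤ N := by omega
    exact_mod_cast this
  have hl0 : 0 < Real.log N := Real.log_pos (by linarith)
  have hNl : 0 < (N : ℝ) / Real.log N := by positivity
  have hEpos : (0 : ℝ) < E.card := lt_of_lt_of_le (by positivity) g1
  have hlow : ((#{n ∈ E | n ≤ N / K} : ℕ) : ℝ) ≤ ε' * E.card := by
    refine g3.trans ?_
    rw [div_le_iff₀ hK0]
    calc C * (N / Real.log N) ≤ (K * (ε' * c1)) * (N / Real.log N) := mul_le_mul_of_nonneg_right hKC hNl.le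
      _ = ε' * (c1 * (N / Real.log N)) * K := by ring
      _ ≤ ε' * E.card * K := by
          apply mul_le_mul_of_nonneg_right _ hK0.le
          exact mul_le_mul_of_nonneg_left g1 hε'0.le
  obtain ⟨Y, hY⟩ : ∃ Y : ℕ, Y = N / K := ⟨_, rfl⟩
  have hY1 : N1 + 1 ≤ Y := by
    rw [hY, Nat.le_div_iff_mul_le (by omega), mul_comm]
    omega
  have hYN : Y ≤ N := by rw [hY]; exact Nat.div_le_self _ _
  have hYK : N ≤ 2 * K * Y := by
    have h6 : N < K * (Y + 1) := by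
      rw [hY]
      have := Nat.lt_mul_div_succ N (by omega : 0 < K)
      exact this
    have h7 : K * (Y + 1) ≤ K * (Y + Y) := Nat.mul_le_mul_left _ (by omega)
    have h8 : K * (Y + Y) = 2 * K * Y := by ring
    omega
  refine ⟨by exact_mod_cast hEpos, fun P hP => ?_⟩
  obtain ⟨p0, p1, pb⟩ := h5 Y (by omega) P hP
  have side : ∀ b : Bool, ∃ Q : ℕ → Prop, |((#{n ∈ E | Q n} : ℕ) : ℝ) - P.2 * E.card| ≤ 2 * ε' * E.card ∧
      ∀ n ∈ E, ¬ n ≤ N / K → ((b = true → P.1 n → Q n) ∧ (b = false → Q n → P.1 n)) := by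
    intro b
    obtain ⟨Q, l, l0, l1, l2, hsame, hmean, himp⟩ := pb b
    refine ⟨Q, ?_, ?_⟩
    · have h6 := g2 (bf Q l) hsame (fun n hn => by
        have h7 : n ≤ 32 * K * Y := by
          have h8 : n ≤ 16 * N := by exact_mod_cast hn
          have h9 : 16 * N ≤ 16 * (2 * K * Y) := Nat.mul_le_mul_left _ hYK
          have h10 : 16 * (2 * K * Y) = 32 * K * Y := by ring
          omega
        refine (hmean n h7).trans ?_
        exact mul_le_mul hημ (by exact_mod_cast hYN) (Nat.cast_nonneg _) hμ0.le)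
      have h7 : ∑ n ∈ E, bf Q l ((n : ℕ) : ℤ) = ((#{n ∈ E | Q n} : ℕ) : ℝ) - l * E.card := by
        have h8 : ∀ n ∈ E, bf Q l ((n : ℕ) : ℤ) = (if Q n then (1 : ℝ) else 0) - l := by
          intro n hn
          rw [hE] at hn
          have hn1 := (mem_EE.1 hn).1
          have h9 : (0 : ℤ) < ((n : ℕ) : ℤ) := by exact_mod_cast hn1
          unfold bf
          simp only [h9, true_and, Int.toNat_natCast]
        rw [sum_congr rfl h8, sum_sub_distrib, sum_const, nsmul_eq_mul, sum_boole]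
        ring
      rw [h7] at h6
      have h8 : |(l - P.2) * (E.card : ℝ)| ≤ ε' * E.card := by
        rw [abs_mul, abs_of_nonneg hEpos.le]
        exact mul_le_mul_of_nonneg_right (l2.trans hηε) hEpos.le
      have e : ((#{n ∈ E | Q n} : ℕ) : ℝ) - P.2 * E.card = (((#{n ∈ E | Q n} : ℕ) : ℝ) - l * E.card) + (l - P.2) * (E.card : ℝ) := by
        ring
      rw [e]
      refine (abs_add_le _ _).trans ?_
      linarith
    · intro n hn hnK
      have hn1 := hn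
      rw [hE] at hn1
      have hn2 := mem_EE.1 hn1
      refine himp n hn2.1 (by omega) ?_
      have h9 : N ≤ 32 * K * Y := by
        have h10 : 2 * K * Y ≤ 16 * (2 * K * Y) := Nat.le_mul_of_pos_left _ (by norm_num)
        have h11 : 16 * (2 * K * Y) = 32 * K * Y := by ring
        omega
      exact hn2.2.1.trans h9
  obtain ⟨Q1, q1, q2⟩ := side true
  obtain ⟨Q0, r1, r2⟩ := side false
  have t1 : ((#{n ∈ E | P.1 n} : ℕ) : ℝ) ≤ ((#{n ∈ E | Q1 n} : ℕ) : ℝ) + ((#{n ∈ E | n ≤ N / K} : ℕ) : ℝ) := by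
    have h6 : (E.filter fun n => P.1 n) ⊆ (E.filter fun n => Q1 n) ∪ (E.filter fun n => n ≤ N / K) := by
      intro n hn
      rw [mem_filter] at hn
      rw [mem_union, mem_filter, mem_filter]
      by_cases h7 : n ≤ N / K
      · exact Or.inr ⟨hn.1, h7⟩
      · exact Or.inl ⟨hn.1, (q2 n hn.1 h7).1 rfl hn.2⟩
    exact_mod_cast (card_le_card h6).trans (card_union_le _ _)
  have t2 : ((#{n ∈ E | Q0 n} : ℕ) : ℝ) ≤ ((#{n ∈ E | P.1 n} : ℕ) : ℝ) + ((#{n ∈ E | n ≤ N / K} : ℕ) : ℝ) := by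
    have h6 : (E.filter fun n => Q0 n) ⊆ (E.filter fun n => P.1 n) ∪ (E.filter fun n => n ≤ N / K) := by
      intro n hn
      rw [mem_filter] at hn
      rw [mem_union, mem_filter, mem_filter]
      by_cases h7 : n ≤ N / K
      · exact Or.inr ⟨hn.1, h7⟩
      · exact Or.inl ⟨hn.1, (r2 n hn.1 h7).2 rfl hn.2⟩
    exact_mod_cast (card_le_card h6).trans (card_union_le _ _)
  have t3 : 4 * ε' * E.card ≤ ε * E.card := mul_le_mul_of_nonneg_right (by linarith) hEpos.le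
  have t4 : 0 ≤ ε' * E.card := by positivity
  rw [abs_le] at q1 r1 ⊢
  constructor <;> linarith [q1.1, q1.2, r1.1, r1.2]

end Pool.Agent.U596.TR
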