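import Pool.Agent.U596.TP9
import Pool.Agent.U596.KR2

/-! Functions constant on coalescing trajectories above a fixed height, and integers with exactly `k`
prime factors, with weights (sets of primes, residue classes). -/

set_option autoImplicit false

namespace Pool.Agent.U596.TR

open Pool.Agent.H499R2.ND Finset Pool.Agent.W41 Pool.Agent.W41.FU Pool.Agent.W41.MU Pool.Agent.H376R2.MR ArithmeticFunction
  Pool.Agent.U596.TP Pool.Agent.Y964.LW

/-- Weights of finite rank: in the last two prime factors they are sums of `r` products of indicator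
functions. -/
def Rk (r : ℕ) (u : ℕ → ℝ) : Prop := (∀ n, |u n| ≤ 1) ∧ ∀ c : ℕ, ∃ (A B : Fin r → Set ℕ) (α : Fin r → ℝ),
  (∀ i, |α i| ≤ 1) ∧ ∀ p q : ℕ, p.Prime → q.Prime →
    u (p * (c * q)) = ∑ i, α i * ((A i).indicator (fun _ => (1 : ℝ)) p * (B i).indicator (fun _ => (1 : ℝ)) q)

theorem kprimesU (R : ℕ) {s : ℤ} (hs : s = 1 ∨ s = -1) (j r : ℕ) : ∃ c1 : ℝ, 0 < c1 ∧ ∀ ε : ℝ, 0 < ε → ε ≤ 1 →
    ∃ θ0 : ℝ, 0 < θ0 ∧ θ0 ≤ 1 / 2 ∧ ∀ θ : ℝ, 0 < θ → θ ≤ θ0 → ∃ N0 : ℕ, 1 ≤ N0 ∧ ∃ μ : ℝ, 0 < μ ∧ μ ≤ 1 ∧ ∀ N : ℕ, N0 ≤ N →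
    c1 * (N / Real.log N) ≤ ((EE (j + 2) θ N).card : ℝ) ∧
    ∀ f ∈ SameR R s, (∀ n : ℕ, (n : ℝ) ≤ 16 * N → |∑ m ∈ Icc 1 n, f (m : ℕ)| ≤ μ * N) → ∀ u, Rk r u →
      |∑ n ∈ EE (j + 2) θ N, u n * f ((n : ℕ) : ℤ)| ≤ ε * (EE (j + 2) θ N).card := by
  classical
  obtain ⟨κ, hκd⟩ : ∃ κ : ℝ, κ = 1 / 16 := ⟨_, rfl⟩
  have hκ : 0 < κ := by rw [hκd]; norm_num
  have hκ1 : κ ≤ 1 / 16 := hκd.le
  obtain ⟨K, y0, hK, hy0, hwin⟩ := window (show (0 : ℝ) < 1 by norm_num)
  obtain ⟨C0, hC0, hPI⟩ := PI_sum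
  obtain ⟨CV, hCV, hV⟩ := V_up
  obtain ⟨X1, hX1, hlow⟩ := primes_low
  have hKR : (1 : ℝ) ≤ K := by exact_mod_cast hK
  have hK0 : (0 : ℝ) < K := by linarith
  obtain ⟨D, hD⟩ : ∃ D : ℝ, D = 50 * ((j + 1).factorial : ℝ) := ⟨_, rfl⟩
  have hfac : (1 : ℝ) ≤ ((j + 1).factorial : ℝ) := by exact_mod_cast Nat.factorial_pos (j + 1)
  have hD0 : 0 < D := by rw [hD]; positivity
  have hD1 : 1 ≤ D := by rw [hD]; linarith
  refine ⟨1 / D, by positivity, fun ε hε hε1 => ?_⟩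
  -- the parameters
  obtain ⟨ε1, hε1d⟩ : ∃ ε1 : ℝ, ε1 = min 1 (ε / (20 * 4 ^ j * D * (r + 1))) := ⟨_, rfl⟩
  have hε10 : 0 < ε1 := by rw [hε1d]; positivity
  have hε11 : ε1 ≤ 1 := by rw [hε1d]; exact min_le_left _ _
  have hr0 : (0 : ℝ) ≤ r := Nat.cast_nonneg _
  have hε12' : ε1 ≤ ε / (20 * 4 ^ j * D * (r + 1)) := by rw [hε1d]; exact min_le_right _ _
  have hε12 : r * ε1 ≤ ε / (20 * 4 ^ j * D) := by
    have h1 : (r : ℝ) * ε1 ≤ (r + 1) * (ε / (20 * 4 ^ j * D * (r + 1))) :=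
      mul_le_mul (by linarith) hε12' hε10.le (by linarith)
    refine h1.trans (le_of_eq ?_)
    field_simp
  obtain ⟨ϑ, hϑ, hϑ1, hbil1⟩ := sum_PR R hs hε10 hε11
  obtain ⟨ϑ1, hϑ1d⟩ : ∃ ϑ1 : ℝ, ϑ1 = min (ϑ / (j + 2)) (min κ (1 / (4 * (j + 2) * K))) := ⟨_, rfl⟩
  have hjR : (0 : ℝ) ≤ j := Nat.cast_nonneg _
  have hϑ10 : 0 < ϑ1 := by rw [hϑ1d]; positivity
  have hϑ1a : ϑ1 * (j + 2) ≤ ϑ := by
    have h1 : ϑ1 ≤ ϑ / (j + 2) := by rw [hϑ1d]; exact min_le_left _ _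
    rwa [le_div_iff₀ (by positivity)] at h1
  have hϑ1b : ϑ1 ≤ κ := by rw [hϑ1d]; exact (min_le_right _ _).trans (min_le_left _ _)
  have hϑ1c' : ϑ1 * (4 * (j + 2) * K) ≤ 1 := by
    have h1 : ϑ1 ≤ 1 / (4 * (j + 2) * K) := by rw [hϑ1d]; exact (min_le_right _ _).trans (min_le_right _ _)
    rwa [le_div_iff₀ (by positivity)] at h1
  have hϑ1c : ϑ1 * (j + 2) ≤ 1 / 4 := by nlinarith [mul_pos hϑ10 (show (0 : ℝ) < j + 2 by positivity)]
  have hϑ1d' : ϑ1 * K ≤ 1 / 4 := by nlinarith [mul_pos hϑ10 hK0]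
  have hϑ1e : ϑ1 ≤ ϑ := by nlinarith
  have hϑ1f : ϑ1 ≤ 1 := by linarith
  obtain ⟨G, hG⟩ : ∃ G : ℝ, G = (4 * CV * (j + 1) / ϑ1) * 4 ^ j * (4 * D) / ε := ⟨_, rfl⟩
  have hG0 : 0 < G := by rw [hG]; positivity
  have hlϑ : 0 ≤ Real.log (1 / ϑ1) := Real.log_nonneg (by rw [le_div_iff₀ hϑ10]; linarith)
  obtain ⟨L0, hL0⟩ : ∃ L0 : ℝ, L0 = 2 * (Real.log (1 / ϑ1) + C0) + 2 + 2 * G := ⟨_, rfl⟩
  refine ⟨Real.exp (-L0), Real.exp_pos _, ?_, fun θ hθ hθ0 => ?_⟩
  · have h1 : Real.exp (-L0) ≤ Real.exp (-1) := Real.exp_le_exp.2 (by linarith)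
    have h2 : Real.exp (-1) ≤ 1 / 2 := by
      rw [Real.exp_neg, inv_le_comm₀ (Real.exp_pos _) (by norm_num)]
      have := Real.add_one_le_exp (1 : ℝ)
      norm_num
      linarith
    linarith
  -- logarithms
  obtain ⟨lam, hlam⟩ : ∃ lam : ℝ, lam = Real.log (1 / θ) := ⟨_, rfl⟩
  have hlamL : L0 ≤ lam := by
    rw [hlam, one_div, Real.log_inv]
    have h1 := Real.log_le_log hθ hθ0
    rw [Real.log_exp] at h1
    linarith
  have hratio : Real.log (ϑ1 / θ) = lam - Real.log (1 / ϑ1) := by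
    rw [hlam, Real.log_div hϑ10.ne' hθ.ne', one_div, one_div, Real.log_inv, Real.log_inv]; ring
  obtain ⟨T0, hT0⟩ : ∃ T0 : ℝ, T0 = lam - Real.log (1 / ϑ1) - C0 := ⟨_, rfl⟩
  obtain ⟨T1, hT1⟩ : ∃ T1 : ℝ, T1 = lam - Real.log (1 / ϑ1) + C0 := ⟨_, rfl⟩
  have hT0a : lam ≤ 2 * T0 := by rw [hT0]; linarith
  have hT0b : 1 ≤ T0 := by rw [hT0]; linarith
  have hT0c : G ≤ T0 := by rw [hT0]; linarith
  have hT1a : T1 ≤ 4 * T0 := by rw [hT1]; linarith
  have hT1b : 1 ≤ T1 := by rw [hT1]; linarith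
  have hθϑ1 : θ ≤ ϑ1 := by
    have h1 : 0 ≤ Real.log (ϑ1 / θ) := by rw [hratio]; linarith
    by_contra hcon
    push Not at hcon
    have h2 : Real.log (ϑ1 / θ) < 0 := Real.log_neg (by positivity) (by rw [div_lt_one hθ]; exact hcon)
    linarith
  have hθϑ1' : θ < ϑ1 := by
    have h1 : 0 < Real.log (ϑ1 / θ) := by rw [hratio]; linarith
    rcases hθϑ1.lt_or_eq with h2 | h2
    · exact h2
    · rw [h2, div_self hϑ10.ne', Real.log_one] at h1
      exact absurd h1 (lt_irrefl _)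
  obtain ⟨Nb, hNb, μ, hμ0, hμ1, hbil2⟩ := hbil1 θ hθ (ϑ1 - θ) (by linarith)
  -- the size of `N`
  have hlim : ∀ᶠ N : ℕ in Filter.atTop, ((Nb : ℝ) ≤ N ∧ 2 / θ ≤ Real.log N) ∧ (9 ≤ (N : ℝ) ^ κ ∧ (y0 : ℝ) + 9 ≤ (N : ℝ) ^ ϑ1) ∧
      (X1 ≤ (N : ℝ) ^ (3 / 4 : ℝ) ∧ 50 * Real.log N ≤ (N : ℝ) ^ (1 / 2 : ℝ)) ∧
      (T1 ^ j * (4 * D) / ε * Real.log N ≤ (N : ℝ) ^ θ ∧ (4 * D) / ε * Real.log N ≤ (N : ℝ) ^ (1 / 2 : ℝ)) := by
    have hl : ∀ c : ℝ, ∀ᶠ N : ℕ in Filter.atTop, c ≤ Real.log N :=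
      fun c => (Real.tendsto_log_atTop.comp tendsto_natCast_atTop_atTop).eventually_ge_atTop c
    have hn : ∀ᶠ N : ℕ in Filter.atTop, (Nb : ℝ) ≤ N := tendsto_natCast_atTop_atTop.eventually_ge_atTop _
    exact (hn.and (hl _)).and (((ev_pow hκ _).and (ev_pow hϑ10 _)).and (((ev_pow (by norm_num) _).and
      (ev_log (by norm_num) (by norm_num))).and ((ev_log hθ (by positivity)).and (ev_log (by norm_num) (by positivity)))))
  obtain ⟨N0, hN0⟩ := Filter.eventually_atTop.1 hlim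
  refine ⟨N0 + 3, by omega, μ, hμ0, hμ1, fun N hN => ?_⟩
  obtain ⟨⟨n1, n2⟩, ⟨n3, n4⟩, ⟨n5, n6⟩, ⟨n7, n8⟩⟩ := hN0 N (by omega)
  have hN3 : 3 ≤ N := by omega
  have hNR : (3 : ℝ) ≤ N := by exact_mod_cast hN3
  have hN1 : (1 : ℝ) ≤ N := by linarith
  have hNp : (0 : ℝ) < N := by linarith
  obtain ⟨l, hl⟩ : ∃ l : ℝ, l = Real.log N := ⟨_, rfl⟩
  have hl1 : 1 < l := by
    rw [hl, Real.lt_log_iff_exp_lt hNp]
    have := Real.exp_one_lt_d9
    linarith
  have hl0 : 0 < l := by linarith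
  have hθl : 2 ≤ θ * Real.log N := by
    rw [div_le_iff₀ hθ] at n2
    linarith
  rw [← hl] at n6 n7 n8
  -- the thresholds
  obtain ⟨w, hw⟩ : ∃ w : ℝ, w = (N : ℝ) ^ κ := ⟨_, rfl⟩
  obtain ⟨z, hz⟩ : ∃ z : ℝ, z = (N : ℝ) ^ ϑ1 := ⟨_, rfl⟩
  obtain ⟨y, hy⟩ : ∃ y : ℝ, y = (N : ℝ) ^ θ := ⟨_, rfl⟩
  have hw9 : 9 ≤ w := by rw [hw]; exact n3
  have hz9 : (y0 : ℝ) + 9 ≤ z := by rw [hz]; exact n4
  have hy0R : (0 : ℝ) ≤ y0 := Nat.cast_nonneg _
  have hz1 : 1 ≤ z := by linarith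
  have hz0 : 0 ≤ z := by linarith
  have hyp : 0 < y := by rw [hy]; positivity
  have hyw : (N : ℝ) ^ θ ≤ w := by
    rw [hw]; exact Real.rpow_le_rpow_of_exponent_le hN1 (hθϑ1.trans hϑ1b)
  have hzw : z ≤ w := by rw [hz, hw]; exact Real.rpow_le_rpow_of_exponent_le hN1 hϑ1b
  have hzpow : ∀ i : ℕ, i ≤ j + 2 → z ^ i ≤ (N : ℝ) ^ (1 / 4 : ℝ) := by
    intro i hi
    have h1 : z ^ i ≤ z ^ (j + 2) := pow_le_pow_right₀ hz1 hi
    refine h1.trans ?_
    rw [hz, ← Real.rpow_natCast, ← Real.rpow_mul hNp.le]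
    apply Real.rpow_le_rpow_of_exponent_le hN1
    push_cast
    exact hϑ1c
  obtain ⟨I, hI⟩ : ∃ I : Finset ℕ, I = PI ((N : ℝ) ^ θ) z := ⟨_, rfl⟩
  have hIp : ∀ p ∈ I, p.Prime := fun p hp => by rw [hI, mem_PI hz0] at hp; exact hp.1
  have hIy : ∀ p ∈ I, y < (p : ℝ) := fun p hp => by rw [hI, mem_PI hz0] at hp; rw [hy]; exact hp.2.1
  have hIz : ∀ p ∈ I, (p : ℝ) ≤ z := fun p hp => by rw [hI, mem_PI hz0] at hp; exact hp.2.2
  have hIw : ∀ p ∈ I, (p : ℝ) ≤ w := fun p hp => (hIz p hp).trans hzw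
  have hIs := hPI θ ϑ1 N hθ hθϑ1 (by omega) hθl
  rw [← hz, ← hI, hratio, abs_le] at hIs
  have hIT0 : T0 ≤ ∑ p ∈ I, 1 / (p : ℝ) := by rw [hT0]; linarith [hIs.1]
  have hIT1 : ∑ p ∈ I, 1 / (p : ℝ) ≤ T1 := by rw [hT1]; linarith [hIs.2]
  have hT10 : 0 ≤ T1 := by linarith
  -- elements of `AA` are odd and small
  have hAA : ∀ i ≤ j + 2, ∀ c ∈ AA I i, 0 < c ∧ c % 2 = 1 ∧ (c : ℝ) ≤ (N : ℝ) ^ (1 / 4 : ℝ) := by
    intro i hi c hc
    refine ⟨AA_pos hIp hc, ?_, (AA_le hz1 hIz i c hc).trans (hzpow i hi)⟩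
    by_contra hcon
    have h2 : 2 ∣ c := by omega
    have h3 := ((mem_AA hIp i c).1 hc).2.2 2 Nat.prime_two h2
    have h4 := hIy 2 h3
    have h5 : (2 : ℝ) < y := by
      rw [hy, Real.rpow_def_of_pos hNp]
      have h6 : 2 ≤ Real.log N * θ := by linarith
      have h7 := Real.add_one_le_exp (Real.log N * θ)
      linarith
    push_cast at h4
    linarith
  -- the sets
  have hEsub : Est I (j + 1) w N ⊆ EE (j + 2) θ N := by
    rw [hI]; exact Est_sub hz0 hyw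
  have hcardE : ((Est I (j + 1) w N).card : ℝ) = ∑ b ∈ AA I (j + 1), ((QQ w N b).card : ℝ) := by
    have h1 := Est_sum hIp hIw (J := j + 1) (N := N) (fun _ => (1 : ℝ))
    rw [sum_const, nsmul_eq_mul, mul_one] at h1
    rw [h1]
    apply sum_congr rfl; intro b _
    rw [sum_const, nsmul_eq_mul, mul_one]
  -- the main lower bound
  obtain ⟨Z, hZ⟩ : ∃ Z : ℝ, Z = T0 ^ (j + 1) * (N / l) / D := ⟨_, rfl⟩
  have hZ0 : 0 < Z := by rw [hZ]; positivity
  have hcardZ : Z ≤ (Est I (j + 1) w N).card := by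
    rw [hcardE]
    have h1 : ∀ b ∈ AA I (j + 1), 1 / 50 * (N / l) * (1 / (b : ℝ)) ≤ ((QQ w N b).card : ℝ) := by
      intro b hb
      obtain ⟨hb0, -, hbN⟩ := hAA (j + 1) (by omega) b hb
      have hb0R : (0 : ℝ) < b := by exact_mod_cast hb0
      have hx : (N : ℝ) ^ (3 / 4 : ℝ) ≤ N / b := by
        rw [le_div_iff₀ hb0R]
        calc (N : ℝ) ^ (3 / 4 : ℝ) * b ≤ (N : ℝ) ^ (3 / 4 : ℝ) * (N : ℝ) ^ (1 / 4 : ℝ) :=
              mul_le_mul_of_nonneg_left hbN (by positivity)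
          _ = N := by rw [← Real.rpow_add hNp]; norm_num
      have h2 := QQ_low hlow (show 0 ≤ w by linarith) (N := N) (b := b) (n5.trans hx)
      have hx3 : (1 : ℝ) < N / b := by linarith
      have hxl : Real.log (N / b : ℝ) ≤ l := by
        rw [hl]
        apply Real.log_le_log (by linarith)
        exact div_le_self hNp.le (by exact_mod_cast hb0)
      have hxl0 : 0 < Real.log (N / b : ℝ) := Real.log_pos hx3
      have h3 : (N / b : ℝ) / l ≤ (N / b : ℝ) / Real.log (N / b : ℝ) :=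
        div_le_div_of_nonneg_left (by positivity) hxl0 hxl
      have h4 : w ≤ 1 / 50 * ((N / b : ℝ) / l) := by
        have h5 : w * (50 * l) ≤ N / b := by
          calc w * (50 * l) ≤ (N : ℝ) ^ (1 / 4 : ℝ) * (N : ℝ) ^ (1 / 2 : ℝ) := by
                apply mul_le_mul _ n6 (by positivity) (by positivity)
                rw [hw]
                exact Real.rpow_le_rpow_of_exponent_le hN1 (by linarith)
            _ = (N : ℝ) ^ (3 / 4 : ℝ) := by rw [← Real.rpow_add hNp]; norm_num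
            _ ≤ _ := hx
        rw [mul_div_assoc', le_div_iff₀ hl0]
        linarith
      calc 1 / 50 * (N / l) * (1 / (b : ℝ)) = 1 / 25 * ((N / b : ℝ) / l) - 1 / 50 * ((N / b : ℝ) / l) := by
            field_simp; ring
        _ ≤ 1 / 25 * ((N / b : ℝ) / Real.log (N / b : ℝ)) - w := by
            apply sub_le_sub _ h4
            exact mul_le_mul_of_nonneg_left h3 (by norm_num)
        _ ≤ _ := h2
    refine le_trans ?_ (sum_le_sum h1)
    rw [← mul_sum]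
    have h2 := AA_sum_ge hIp (by linarith : 0 ≤ T0) hIT0 (j + 1)
    have hfp : (0 : ℝ) < ((j + 1).factorial : ℝ) := by linarith
    have h3 : T0 ^ (j + 1) / ((j + 1).factorial : ℝ) ≤ ∑ a ∈ AA I (j + 1), 1 / (a : ℝ) := by
      rw [div_le_iff₀ hfp]; linarith
    calc Z = 1 / 50 * (N / l) * (T0 ^ (j + 1) / ((j + 1).factorial : ℝ)) := by
          rw [hZ, hD]; field_simp
      _ ≤ _ := mul_le_mul_of_nonneg_left h3 (by positivity)
  have hcardEE : ((Est I (j + 1) w N).card : ℝ) ≤ ((EE (j + 2) θ N).card : ℝ) := by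
    exact_mod_cast card_le_card hEsub
  have hT0p : (1 : ℝ) ≤ T0 ^ (j + 1) := one_le_pow₀ hT0b
  constructor
  · refine le_trans ?_ (hcardZ.trans hcardEE)
    rw [hZ, ← hl]
    have h1 : 0 ≤ (N : ℝ) / l := by positivity
    calc 1 / D * (N / l) = 1 * (N / l) / D := by ring
      _ ≤ _ := by
        apply div_le_div_of_nonneg_right _ hD0.le
        exact mul_le_mul_of_nonneg_right hT0p h1
  intro f hfR hmean u hu
  have hf : ∀ n, |f n| ≤ 1 := hfR.1
  have huf : ∀ n m, |u n * f m| ≤ 1 := fun n m => by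
    rw [abs_mul]; exact mul_le_one₀ (hu.1 n) (abs_nonneg _) (hf m)
  -- the exceptional part
  have hrest : (((EE (j + 2) θ N) \ Est I (j + 1) w N).card : ℝ) ≤ ε / 2 * Z := by
    -- sifting
    obtain ⟨zn, hzn⟩ : ∃ zn : ℕ, zn = ⌊z⌋₊ := ⟨_, rfl⟩
    have hzn1 : (zn : ℝ) ≤ z := by rw [hzn]; exact Nat.floor_le hz0
    have hzn2 : z < (zn : ℝ) + 1 := by rw [hzn]; exact Nat.lt_floor_add_one _
    have hzny : y0 ≤ zn := by
      have : (y0 : ℝ) ≤ zn := by linarith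
      exact_mod_cast this
    have hzn3 : 3 ≤ zn := by
      have : (3 : ℝ) ≤ zn := by linarith
      exact_mod_cast this
    obtain ⟨Pz, hPz⟩ : ∃ Pz : Finset ℕ, Pz = (Icc 1 zn).filter Nat.Prime := ⟨_, rfl⟩
    have hPzp : ∀ p ∈ Pz, p.Prime ∧ p ≤ zn := by
      intro p hp
      rw [hPz, mem_filter, mem_Icc] at hp
      exact ⟨hp.2, hp.1.2⟩
    have hVz : V Pz ≤ 2 * CV / (ϑ1 * l) := by
      have h1 := hV zn hzn3
      rw [← hPz] at h1
      have h2 : ϑ1 * l / 2 ≤ Real.log zn := by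
        have h3 := log_floor (show 4 ≤ z by linarith)
        rw [← hzn] at h3
        have h4 : Real.log z = ϑ1 * l := by rw [hz, Real.log_rpow hNp, hl]
        rw [h4] at h3
        exact h3
      refine h1.trans ?_
      calc CV / Real.log zn ≤ CV / (ϑ1 * l / 2) := div_le_div_of_nonneg_left hCV.le (by positivity) h2
        _ = _ := by field_simp
    have hVz0 : 0 < V Pz := V_pos fun p hp => (hPzp p hp).1
    have hznK : ((zn ^ K : ℕ) : ℝ) ≤ (N : ℝ) ^ (1 / 4 : ℝ) := by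
      push_cast
      calc (zn : ℝ) ^ K ≤ z ^ K := pow_le_pow_left₀ (Nat.cast_nonneg _) hzn1 _
        _ = (N : ℝ) ^ (ϑ1 * K) := by rw [hz, ← Real.rpow_natCast, ← Real.rpow_mul hNp.le]
        _ ≤ _ := Real.rpow_le_rpow_of_exponent_le hN1 hϑ1d'
    obtain ⟨R, hR⟩ : ∃ R : ℕ → Finset ℕ, R = fun i => (Icc 1 N).filter (fun n => ∃ c ∈ AA I i, ∃ b : ℕ, n = c * b ∧
      wt Pz 0 1 (b : ℕ) = 1) := ⟨_, rfl⟩
    have hRc : ∀ i ∈ range (j + 1), ((R i).card : ℝ) ≤ 2 * N * V Pz * T1 ^ j := by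
      intro i hi
      rw [mem_range] at hi
      have h1 : ((R i).card : ℝ) ≤ 2 * N * V Pz * T1 ^ i := by
        apply rough_card (P := Pz) hIp hT10 hIT1 hVz0.le i
        · intro c hc
          obtain ⟨hc0, -, hcN⟩ := hAA i (by omega) c hc
          have hc0R : (0 : ℝ) < c := by exact_mod_cast hc0
          have h2 : zn ^ K ≤ N / c := by
            rw [Nat.le_div_iff_mul_le hc0]
            have h3 : (((zn ^ K * c : ℕ)) : ℝ) ≤ N := by
              push_cast at hznK ⊢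
              calc (zn : ℝ) ^ K * c ≤ (N : ℝ) ^ (1 / 4 : ℝ) * (N : ℝ) ^ (1 / 4 : ℝ) :=
                    mul_le_mul hznK hcN hc0R.le (by positivity)
                _ = (N : ℝ) ^ (1 / 2 : ℝ) := by rw [← Real.rpow_add hNp]; norm_num
                _ ≤ (N : ℝ) ^ (1 : ℝ) := Real.rpow_le_rpow_of_exponent_le hN1 (by norm_num)
                _ = N := Real.rpow_one _
            exact_mod_cast h3
          have h3 := hwin zn hzny (N / c) h2 Pz hPzp 0 1 (one_ndvd fun p hp => (hPzp p hp).1) 1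
          rw [abs_le] at h3
          have e1 : ∑ b ∈ Icc 1 (N / c), wt Pz 0 1 (b : ℕ) = ∑ g ∈ range (N / c), wt Pz 0 1 (1 + (g : ℕ)) := by
            have e2 : Icc 1 (N / c) = Ico 1 (N / c + 1) := by ext; simp
            rw [e2, sum_Ico_eq_sum_range, Nat.add_sub_cancel]
            apply sum_congr rfl; intro g _
            push_cast; rfl
          rw [e1]
          have h4 : ((N / c : ℕ) : ℝ) ≤ N / c := Nat.cast_div_le
          have h5 : ((N / c : ℕ) : ℝ) * V Pz ≤ N / c * V Pz := mul_le_mul_of_nonneg_right h4 hVz0.le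
          linarith [h3.2]
        · intro n hn
          rw [hR] at hn
          simp only [mem_filter, mem_Icc] at hn
          exact ⟨hn.1.1, hn.1.2, hn.2⟩
      refine h1.trans ?_
      apply mul_le_mul_of_nonneg_left _ (by positivity)
      exact pow_le_pow_right₀ hT1b (by omega)
    have hcov : (EE (j + 2) θ N) \ Est I (j + 1) w N ⊆ Icc 1 ⌊(N : ℝ) ^ (1 / 2 : ℝ)⌋₊ ∪ (range (j + 1)).biUnion R := by
      intro n hn
      rw [Finset.mem_sdiff] at hn
      have hn1 := mem_EE.1 hn.1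
      have hYb : z ^ (j + 2) * w ≤ (N : ℝ) ^ (1 / 2 : ℝ) := by
        calc z ^ (j + 2) * w ≤ (N : ℝ) ^ (1 / 4 : ℝ) * (N : ℝ) ^ (1 / 4 : ℝ) := by
              apply mul_le_mul (hzpow _ le_rfl) _ (by linarith) (by positivity)
              rw [hw]
              exact Real.rpow_le_rpow_of_exponent_le hN1 (by linarith)
          _ = _ := by rw [← Real.rpow_add hNp]; norm_num
      rw [hI] at hn
      rcases EE_cover hz1 (by linarith) hYb hn.1 hn.2 with h1 | ⟨i, hi, c, hc, b, hcb, hb⟩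
      · rw [mem_union, mem_Icc]
        exact Or.inl ⟨hn1.1, Nat.le_floor h1⟩
      · rw [mem_union, mem_biUnion]
        right
        refine ⟨i, mem_range.2 (by omega), ?_⟩
        rw [hR]
        simp only [mem_filter, mem_Icc]
        refine ⟨⟨hn1.1, hn1.2.1⟩, c, ?_, b, hcb, ?_⟩
        · rw [hI]; exact hc
        · rw [hPz, hzn]; exact hb
    have h1 : (((EE (j + 2) θ N) \ Est I (j + 1) w N).card : ℝ) ≤ (N : ℝ) ^ (1 / 2 : ℝ) + (j + 1) * (2 * N * V Pz * T1 ^ j) := by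
      have h2 := (card_le_card hcov).trans (card_union_le _ _)
      have h3 : ((range (j + 1)).biUnion R).card ≤ ∑ i ∈ range (j + 1), (R i).card := card_biUnion_le
      rw [Nat.card_Icc, Nat.add_sub_cancel] at h2
      have h4 : (((EE (j + 2) θ N) \ Est I (j + 1) w N).card : ℝ) ≤ (⌊(N : ℝ) ^ (1 / 2 : ℝ)⌋₊ : ℕ)
          + ∑ i ∈ range (j + 1), ((R i).card : ℝ) := by
        exact_mod_cast h2.trans (Nat.add_le_add_left h3 _)
      have h5 : ((⌊(N : ℝ) ^ (1 / 2 : ℝ)⌋₊ : ℕ) : ℝ) ≤ (N : ℝ) ^ (1 / 2 : ℝ) := Nat.floor_le (by positivity)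
      have h6 := sum_le_sum hRc
      rw [sum_const, card_range, nsmul_eq_mul] at h6
      push_cast at h6
      linarith
    have h2 : (N : ℝ) ^ (1 / 2 : ℝ) ≤ ε / 4 * Z := by
      have h3 : 4 * D * l ≤ ε * (N : ℝ) ^ (1 / 2 : ℝ) := by
        have h4 : (4 * D) / ε * l = 4 * D * l / ε := by ring
        rw [h4, div_le_iff₀ hε] at n8
        linarith
      have h4 : (N : ℝ) ^ (1 / 2 : ℝ) * (N : ℝ) ^ (1 / 2 : ℝ) = N := by rw [← Real.rpow_add hNp]; norm_num
      have h5 : (N : ℝ) ^ (1 / 2 : ℝ) * (4 * D * l) ≤ ε * N := by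
        calc (N : ℝ) ^ (1 / 2 : ℝ) * (4 * D * l) ≤ (N : ℝ) ^ (1 / 2 : ℝ) * (ε * (N : ℝ) ^ (1 / 2 : ℝ)) :=
              mul_le_mul_of_nonneg_left h3 (by positivity)
          _ = ε * ((N : ℝ) ^ (1 / 2 : ℝ) * (N : ℝ) ^ (1 / 2 : ℝ)) := by ring
          _ = _ := by rw [h4]
      calc (N : ℝ) ^ (1 / 2 : ℝ) ≤ ε * N / (4 * D * l) := by
            rw [le_div_iff₀ (by positivity)]; exact h5
        _ = ε / 4 * (1 * (N / l) / D) := by field_simp
        _ ≤ ε / 4 * (T0 ^ (j + 1) * (N / l) / D) := by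
            apply mul_le_mul_of_nonneg_left _ (by positivity)
            apply div_le_div_of_nonneg_right _ hD0.le
            exact mul_le_mul_of_nonneg_right hT0p (by positivity)
        _ = _ := by rw [hZ]
    have h3 : (j + 1) * (2 * N * V Pz * T1 ^ j) ≤ ε / 4 * Z := by
      have h4 : T1 ^ j ≤ (4 * T0) ^ j := pow_le_pow_left₀ hT10 hT1a _
      calc (j + 1) * (2 * N * V Pz * T1 ^ j) ≤ (j + 1) * (2 * N * (2 * CV / (ϑ1 * l)) * (4 * T0) ^ j) := by
            apply mul_le_mul_of_nonneg_left _ (by positivity)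
            apply mul_le_mul _ h4 (by positivity) (by positivity)
            exact mul_le_mul_of_nonneg_left hVz (by positivity)
        _ = G * (ε / 4) / D * T0 ^ j * (N / l) := by
            rw [hG, mul_pow]; field_simp; norm_num
        _ ≤ T0 * (ε / 4) / D * T0 ^ j * (N / l) := by
            apply mul_le_mul_of_nonneg_right _ (by positivity)
            apply mul_le_mul_of_nonneg_right _ (by positivity)
            apply div_le_div_of_nonneg_right _ hD0.le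
            exact mul_le_mul_of_nonneg_right hT0c (by positivity)
        _ = _ := by rw [hZ, pow_succ]; ring
    linarith
  -- the main part
  have hmainT : |∑ n ∈ Est I (j + 1) w N, u n * f ((n : ℕ) : ℤ)| ≤ ε / 2 * Z := by
    obtain ⟨g, hg⟩ : ∃ g : ℕ → ℂ, g = fun b => ∑ q ∈ TP.QQ w N b, ((u (b * q) * f ((b * q : ℕ) : ℤ) : ℝ) : ℂ) := ⟨_, rfl⟩
    have hgb : ∀ b ∈ AA I (j + 1), ‖g b‖ ≤ N / b := by
      intro b hb
      rw [hg]
      refine (norm_sum_le _ _).trans ((sum_le_sum (g := fun _ => (1 : ℝ)) fun q _ => ?_).trans ?_)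
      · rw [Complex.norm_real, Real.norm_eq_abs]; exact huf _ _
      · rw [sum_const, nsmul_eq_mul, mul_one]
        have h1 : (TP.QQ w N b).card ≤ N / b := by
          unfold TP.QQ
          refine (card_filter_le _ _).trans ?_
          rw [Nat.card_Icc, Nat.add_sub_cancel]
        exact le_trans (by exact_mod_cast h1) (Nat.cast_div_le (α := ℝ))
    obtain ⟨RGs, hRGs⟩ : ∃ RGs : Finset ℕ, RGs = TH926.BL.RG (θ * l) (ϑ1 * l) := ⟨_, rfl⟩
    have hmemRG : ∀ p, p ∈ RGs ↔ p.Prime ∧ θ * l ≤ Real.log p ∧ Real.log p ≤ ϑ1 * l := by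
      intro p; rw [hRGs, TH926.BL.mem_RG]
    have hIRG : I = RGs.filter (fun p => p ∈ {p : ℕ | y < (p : ℝ)}) := by
      ext p
      rw [mem_filter, hmemRG, hI, mem_PI hz0, Set.mem_setOf_eq]
      have hzl : Real.log z = ϑ1 * l := by rw [hz, Real.log_rpow hNp, hl]
      have hyl : Real.log y = θ * l := by rw [hy, Real.log_rpow hNp, hl]
      constructor
      · rintro ⟨h1, h2, h3⟩
        have hp0 : (0 : ℝ) < p := by exact_mod_cast h1.pos
        rw [← hy] at h2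
        refine ⟨⟨h1, ?_, ?_⟩, h2⟩
        · rw [← hyl]; exact Real.log_le_log hyp h2.le
        · rw [← hzl]; exact Real.log_le_log hp0 h3
      · rintro ⟨⟨h1, h2, h3⟩, h4⟩
        have hp0 : (0 : ℝ) < p := by exact_mod_cast h1.pos
        refine ⟨h1, ?_, ?_⟩
        · rw [← hy]; exact h4
        · rw [← hzl] at h3
          exact (Real.log_le_log_iff hp0 (by linarith)).1 h3
    have hRGsum : ∑ p ∈ RGs, 1 / (p : ℝ) ≤ 5 * T0 := by
      have hsub : RGs ⊆ I ∪ {⌊y⌋₊} := by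
        intro p hp
        rw [mem_union, mem_singleton]
        by_cases h1 : y < (p : ℝ)
        · left
          rw [hIRG, mem_filter]
          exact ⟨hp, h1⟩
        · right
          push Not at h1
          have h2 := (hmemRG p).1 hp
          have hp0 : (0 : ℝ) < p := by exact_mod_cast h2.1.pos
          have hyl : Real.log y = θ * l := by rw [hy, Real.log_rpow hNp, hl]
          have h3 : y ≤ p := by
            rw [← hyl] at h2
            exact (Real.log_le_log_iff hyp hp0).1 h2.2.1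
          have h4 : y = ((p : ℕ) : ℝ) := le_antisymm h3 h1
          rw [h4, Nat.floor_natCast]
      have h1 : ∑ p ∈ RGs, 1 / (p : ℝ) ≤ ∑ p ∈ I ∪ {⌊y⌋₊}, 1 / (p : ℝ) :=
        sum_le_sum_of_subset_of_nonneg hsub fun _ _ _ => by positivity
      have h2 : ∑ p ∈ I ∪ {⌊y⌋₊}, 1 / (p : ℝ) ≤ ∑ p ∈ I, 1 / (p : ℝ) + ∑ p ∈ ({⌊y⌋₊} : Finset ℕ), 1 / (p : ℝ) := by
        rw [← sum_union_inter]
        have : 0 ≤ ∑ p ∈ I ∩ {⌊y⌋₊}, 1 / (p : ℝ) := sum_nonneg fun _ _ => by positivity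
        linarith
      rw [sum_singleton] at h2
      have h3 : 1 / ((⌊y⌋₊ : ℕ) : ℝ) ≤ 1 := by
        rcases Nat.eq_zero_or_pos ⌊y⌋₊ with h4 | h4
        · rw [h4]; simp
        · rw [div_le_one (by exact_mod_cast h4)]
          exact_mod_cast h4
      linarith
    have hgc : ∀ c ∈ AA I j, ‖∑ p ∈ I, g (p * c)‖ ≤ (r * ε1 * (5 * T0 * (N / l))) / c := by
      intro c hc
      obtain ⟨hc0, hc2, hcN⟩ := hAA j (by omega) c hc
      have hc0R : (0 : ℝ) < c := by exact_mod_cast hc0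
      have hcϑ : (c : ℝ) ≤ (N : ℝ) ^ ϑ := by
        refine (AA_le hz1 hIz j c hc).trans ?_
        rw [hz, ← Real.rpow_natCast, ← Real.rpow_mul hNp.le]
        apply Real.rpow_le_rpow_of_exponent_le hN1
        refine le_trans ?_ hϑ1a
        apply mul_le_mul_of_nonneg_left _ hϑ10.le
        linarith
      obtain ⟨A, B, α, hα, hAB⟩ := hu.2 c
      obtain ⟨As, hAs⟩ : ∃ As : Fin r → Set ℕ, As = fun i => {p : ℕ | y < (p : ℝ)} ∩ A i := ⟨_, rfl⟩
      obtain ⟨Bs, hBs⟩ : ∃ Bs : Fin r → Set ℕ, Bs = fun i => {q : ℕ | w < (q : ℝ)} ∩ B i := ⟨_, rfl⟩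
      have h1 := fun i : Fin r => hbil2 (N : ℝ) n1 f hfR hmean (θ * l) (ϑ1 * l) (by rw [hl]) (by rw [hl]; linarith)
        (by rw [hl]; exact mul_le_mul_of_nonneg_right hϑ1e (by linarith)) c hc2 hcϑ (As i) (Bs i)
      rw [← hRGs, ← hl] at h1
      have h2 : ∑ p ∈ I, g (p * c) = ((∑ i : Fin r, α i * ∑ p ∈ RGs.filter (fun p => p ∈ As i),
          ∑ q ∈ TH926.BL.QQ (Bs i) ⌊(N : ℝ) / (p * c)⌋₊,
          f ((p * (c * q) : ℕ) : ℤ) : ℝ) : ℂ) := by
        have e0 : ∀ p ∈ I, g (p * c) = ((∑ i : Fin r, α i * ((A i).indicator (fun _ => (1 : ℝ)) p *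
            ∑ q ∈ TH926.BL.QQ (Bs i) ⌊(N : ℝ) / (p * c)⌋₊, f ((p * (c * q) : ℕ) : ℤ)) : ℝ) : ℂ) := by
          intro p hp
          rw [hg]
          simp only
          rw [← Complex.ofReal_sum]
          congr 1
          have h3 : ⌊(N : ℝ) / (p * c)⌋₊ = N / (p * c) := by
            have h4 : (N : ℝ) / (p * c) = (N : ℝ) / ((p * c : ℕ) : ℝ) := by push_cast; rfl
            rw [h4, Nat.floor_div_natCast, Nat.floor_natCast]
          rw [h3]
          have e1 : ∀ i : Fin r, ∑ q ∈ TH926.BL.QQ (Bs i) (N / (p * c)), f ((p * (c * q) : ℕ) : ℤ) =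
              ∑ q ∈ TP.QQ w N (p * c), (B i).indicator (fun _ => (1 : ℝ)) q * f ((p * (c * q) : ℕ) : ℤ) := by
            intro i
            have e2 : TH926.BL.QQ (Bs i) (N / (p * c)) =
                (TP.QQ w N (p * c)).filter (fun q => q ∈ B i) := by
              ext q
              rw [mem_filter, TP.mem_QQ, TH926.BL.mem_QQ, hBs, Set.mem_inter_iff, Set.mem_setOf_eq]
              tauto
            rw [e2, sum_filter]
            apply sum_congr rfl
            intro q _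
            by_cases hq : q ∈ B i
            · rw [if_pos hq, Set.indicator_of_mem hq, one_mul]
            · rw [if_neg hq, Set.indicator_of_notMem hq, zero_mul]
          simp only [e1]
          simp only [mul_sum]
          rw [sum_comm]
          apply sum_congr rfl
          intro q hq
          rw [TP.mem_QQ] at hq
          have hpp := hIp p hp
          have e3 : p * c * q = p * (c * q) := by ring
          rw [e3, hAB p q hpp hq.1, sum_mul]
          apply sum_congr rfl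
          intro i _
          ring
        rw [sum_congr rfl e0, ← Complex.ofReal_sum]
        congr 1
        rw [sum_comm]
        apply sum_congr rfl
        intro i _
        rw [← mul_sum]
        congr 1
        have e4 : RGs.filter (fun p => p ∈ As i) = I.filter (fun p => p ∈ A i) := by
          ext p
          rw [hIRG, mem_filter, mem_filter, mem_filter, hAs, Set.mem_inter_iff]
          tauto
        rw [e4, sum_filter]
        apply sum_congr rfl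
        intro p _
        by_cases hq : p ∈ A i
        · rw [if_pos hq, Set.indicator_of_mem hq, one_mul]
        · rw [if_neg hq, Set.indicator_of_notMem hq, zero_mul]
      rw [h2, Complex.norm_real, Real.norm_eq_abs]
      refine (abs_sum_le_sum_abs _ _).trans ?_
      have h3 : ∀ i : Fin r, |α i * ∑ p ∈ RGs.filter (fun p => p ∈ As i),
          ∑ q ∈ TH926.BL.QQ (Bs i) ⌊(N : ℝ) / (p * c)⌋₊,
          f ((p * (c * q) : ℕ) : ℤ)| ≤ ε1 * ((5 * T0) * ((N : ℝ) / (c * l))) := by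
        intro i
        rw [abs_mul]
        have h4 : ε1 * ((∑ p ∈ RGs, 1 / (p : ℝ)) * ((N : ℝ) / (c * l))) ≤ ε1 * ((5 * T0) * ((N : ℝ) / (c * l))) := by
          apply mul_le_mul_of_nonneg_left _ hε10.le
          exact mul_le_mul_of_nonneg_right hRGsum (by positivity)
        calc _ ≤ 1 * (ε1 * ((∑ p ∈ RGs, 1 / (p : ℝ)) * ((N : ℝ) / (c * l)))) :=
              mul_le_mul (hα i) (h1 i) (abs_nonneg _) zero_le_one
          _ ≤ _ := by rw [one_mul]; exact h4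
      refine (sum_le_sum fun i _ => h3 i).trans (le_of_eq ?_)
      rw [sum_const, card_univ, Fintype.card_fin, nsmul_eq_mul]
      field_simp
    have hT00 : 0 ≤ T0 := by linarith
    have h1 := Tsum hIp hyp hIy hT10 hIT1 j N g hgb (B := r * ε1 * (5 * T0 * (N / l))) (by positivity) hgc
    have h2 : ∑ b ∈ AA I (j + 1), g b = ((∑ n ∈ Est I (j + 1) w N, u n * f ((n : ℕ) : ℤ) : ℝ) : ℂ) := by
      rw [Est_sum hIp hIw, hg, Complex.ofReal_sum]
      apply sum_congr rfl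
      intro b _
      rw [Complex.ofReal_sum]
    rw [h2, Complex.norm_real, Real.norm_eq_abs] at h1
    refine h1.trans ?_
    have h3 : r * ε1 * (5 * T0 * (N / l)) * T1 ^ j ≤ ε / 4 * Z := by
      have h4 : T1 ^ j ≤ (4 * T0) ^ j := pow_le_pow_left₀ hT10 hT1a _
      calc r * ε1 * (5 * T0 * (N / l)) * T1 ^ j
          ≤ (ε / (20 * 4 ^ j * D)) * (5 * T0 * (N / l)) * (4 * T0) ^ j := by
            apply mul_le_mul _ h4 (by positivity) (by positivity)
            exact mul_le_mul_of_nonneg_right hε12 (by positivity)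
        _ = _ := by rw [hZ, mul_pow, pow_succ]; field_simp; ring
    have h4 : N * T1 ^ j / y ≤ ε / 4 * Z := by
      have h5 : T1 ^ j * (4 * D) * l ≤ ε * y := by
        have h6 : T1 ^ j * (4 * D) / ε * l = T1 ^ j * (4 * D) * l / ε := by ring
        rw [h6, div_le_iff₀ hε, ← hy] at n7
        linarith
      calc N * T1 ^ j / y ≤ ε / 4 * (1 * (N / l) / D) := by
            rw [div_le_iff₀ hyp]
            have e : ε / 4 * (1 * (N / l) / D) * y = (ε * y) * (N / (4 * D * l)) := by field_simp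
            rw [e]
            calc N * T1 ^ j = (T1 ^ j * (4 * D) * l) * (N / (4 * D * l)) := by field_simp
              _ ≤ _ := mul_le_mul_of_nonneg_right h5 (by positivity)
        _ ≤ ε / 4 * (T0 ^ (j + 1) * (N / l) / D) := by
            apply mul_le_mul_of_nonneg_left _ (by positivity)
            apply div_le_div_of_nonneg_right _ hD0.le
            exact mul_le_mul_of_nonneg_right hT0p (by positivity)
        _ = _ := by rw [hZ]
    linarith
  -- conclusion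
  have hsplit : ∑ n ∈ EE (j + 2) θ N, u n * f ((n : ℕ) : ℤ) = ∑ n ∈ (EE (j + 2) θ N) \ Est I (j + 1) w N, u n * f ((n : ℕ) : ℤ)
      + ∑ n ∈ Est I (j + 1) w N, u n * f ((n : ℕ) : ℤ) := (sum_sdiff hEsub).symm
  rw [hsplit]
  refine (abs_add_le _ _).trans ?_
  have h1 : |∑ n ∈ (EE (j + 2) θ N) \ Est I (j + 1) w N, u n * f ((n : ℕ) : ℤ)|
      ≤ (((EE (j + 2) θ N) \ Est I (j + 1) w N).card : ℝ) := by
    refine (abs_sum_le_sum_abs _ _).trans ((sum_le_sum fun n _ => huf _ _).trans (le_of_eq ?_))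
    rw [sum_const, nsmul_eq_mul, mul_one]
  have h2 : ε * Z ≤ ε * (EE (j + 2) θ N).card := mul_le_mul_of_nonneg_left (hcardZ.trans hcardEE) hε.le
  linarith

end Pool.Agent.U596.TR
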