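import Pool.Agent.U596.KR4
import Pool.Agent.U596.KR5

/-! Events along the integers with exactly `k` prime factors, with weights. -/

set_option autoImplicit false

namespace Pool.Agent.U596.TR

open Pool.Agent.H499R2.ND Finset Pool.Agent.W41 Pool.Agent.W41.FU Pool.Agent.W41.MU Pool.Agent.H376R2.MR ArithmeticFunction
  Pool.Agent.U596.TP Pool.Agent.Y964.LW
open scoped Classical

/-- EVENTS ALONG THE INTEGERS WITH EXACTLY `k` PRIME FACTORS, with weights of finite rank. -/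
theorem kprimesEU (R : ℕ) {s : ℤ} (hs : s = 1 ∨ s = -1) {PP : Set ((ℕ → Prop) × ℝ)} (hPP : UEv R s PP) (j r : ℕ) :
    ∃ c1 : ℝ, 0 < c1 ∧ ∀ ε : ℝ, 0 < ε → ∃ θ0 : ℝ, 0 < θ0 ∧ ∀ θ : ℝ, 0 < θ → θ ≤ θ0 → ∃ N0 : ℕ, ∀ N : ℕ, N0 ≤ N →
    c1 * (N / Real.log N) ≤ (EE (j + 2) θ N).card ∧ ∀ P ∈ PP, ∀ u : ℕ → ℝ, Rk r u → (∀ n, 0 ≤ u n) →
    |∑ n ∈ (EE (j + 2) θ N).filter (fun n => P.1 n), u n - P.2 * ∑ n ∈ EE (j + 2) θ N, u n| ≤
      ε * (EE (j + 2) θ N).card := by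
  obtain ⟨c1, hc1, hk⟩ := kprimesU R hs j r
  refine ⟨c1, hc1, fun ε hε => ?_⟩
  obtain ⟨ε', hε'⟩ : ∃ ε' : ℝ, ε' = min 1 (ε / 4) := ⟨_, rfl⟩
  have hε'0 : 0 < ε' := by rw [hε']; positivity
  have hε'1 : ε' ≤ 1 := by rw [hε']; exact min_le_left _ _
  have hε'2 : ε' ≤ ε / 4 := by rw [hε']; exact min_le_right _ _
  obtain ⟨θ0, hθ0, -, h1⟩ := hk ε' hε'0 hε'1
  refine ⟨θ0, hθ0, fun θ hθ hθθ => ?_⟩
  obtain ⟨N0, hN0, μ, hμ0, hμ1, h2⟩ := h1 θ hθ hθθ
  obtain ⟨C, hC, h3⟩ := low_part (j + 2) hθ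
  obtain ⟨K, hK⟩ : ∃ K : ℕ, K = ⌈C / (ε' * c1)⌉₊ + 1 := ⟨_, rfl⟩
  have hK1 : 1 ≤ K := by omega
  have hKC : C ≤ K * (ε' * c1) := by
    have h4 : C / (ε' * c1) ≤ K := (Nat.le_ceil _).trans (by rw [hK]; push_cast; linarith)
    rwa [div_le_iff₀ (by positivity)] at h4
  have hK0 : (0 : ℝ) < K := by exact_mod_cast hK1
  obtain ⟨N2, h4⟩ := h3 K hK1
  obtain ⟨η, hη⟩ : ∃ η : ℝ, η = min μ ε' := ⟨_, rfl⟩
  have hη0 : 0 < η := by rw [hη]; exact lt_min hμ0 hε'0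
  have hημ : η ≤ μ := by rw [hη]; exact min_le_left _ _
  have hηε : η ≤ ε' := by rw [hη]; exact min_le_right _ _
  obtain ⟨N1, h5⟩ := hPP (32 * K) η hη0
  refine ⟨N0 + N2 + K * (N1 + 1) + 3, fun N hN => ?_⟩
  obtain ⟨g1, g2⟩ := h2 N (by
    have := Nat.zero_le (K * (N1 + 1))
    omega)
  have g3 := h4 N (by
    have := Nat.zero_le (K * (N1 + 1))
    omega)
  obtain ⟨E, hE⟩ : ∃ E : Finset ℕ, E = EE (j + 2) θ N := ⟨_, rfl⟩
  rw [← hE] at g1 g2 g3 ⊢
  have hN3 : (3 : ℝ) ≤ N := by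
    have : 3 ≤ N := by omega
    exact_mod_cast this
  have hl0 : 0 < Real.log N := Real.log_pos (by linarith)
  have hNl : 0 < (N : ℝ) / Real.log N := by positivity
  have hEpos : (0 : ℝ) < E.card := lt_of_lt_of_le (by positivity) g1
  have hlow : ((#{n ∈ E | n ≤ N / K} : ℕ) : ℝ) ≤ ε' * E.card := by
    refine g3.trans ?_
    rw [div_le_iff₀ hK0]
    calc C * (N / Real.log N) ≤ (K * (ε' * c1)) * (N / Real.log N) := mul_le_mul_of_nonneg_right hKC hNl.le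
      _ = ε' * (c1 * (N / Real.log N)) * K := by ring
      _ ≤ ε' * E.card * K := by
          apply mul_le_mul_of_nonneg_right _ hK0.le
          exact mul_le_mul_of_nonneg_left g1 hε'0.le
  obtain ⟨Y, hY⟩ : ∃ Y : ℕ, Y = N / K := ⟨_, rfl⟩
  have hY1 : N1 + 1 ≤ Y := by
    rw [hY, Nat.le_div_iff_mul_le (by omega), mul_comm]
    omega
  have hYN : Y ≤ N := by rw [hY]; exact Nat.div_le_self _ _
  have hYK : N ≤ 2 * K * Y := by
    have h6 : N < K * (Y + 1) := by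
      rw [hY]
      have := Nat.lt_mul_div_succ N (by omega : 0 < K)
      exact this
    have h7 : K * (Y + 1) ≤ K * (Y + Y) := Nat.mul_le_mul_left _ (by omega)
    have h8 : K * (Y + Y) = 2 * K * Y := by ring
    omega
  refine ⟨g1, fun P hP u hu hu0 => ?_⟩
  have hu1 : ∀ n, u n ≤ 1 := fun n => (le_abs_self _).trans (hu.1 n)
  obtain ⟨W, hW⟩ : ∃ W : ℝ, W = ∑ n ∈ E, u n := ⟨_, rfl⟩
  have hW0 : 0 ≤ W := by rw [hW]; exact sum_nonneg fun n _ => hu0 n
  have hWE : W ≤ E.card := by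
    rw [hW]
    refine (sum_le_sum fun n _ => hu1 n).trans (le_of_eq ?_)
    rw [sum_const, nsmul_eq_mul, mul_one]
  rw [← hW]
  obtain ⟨p0, p1, pb⟩ := h5 Y (by omega) P hP
  have side : ∀ b : Bool, ∃ Q : ℕ → Prop, |∑ n ∈ E.filter (fun n => Q n), u n - P.2 * W| ≤ 2 * ε' * E.card ∧
      ∀ n ∈ E, ¬ n ≤ N / K → ((b = true → P.1 n → Q n) ∧ (b = false → Q n → P.1 n)) := by
    intro b
    obtain ⟨Q, l, l0, l1, l2, hsame, hmean, himp⟩ := pb b
    refine ⟨Q, ?_, ?_⟩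
    · have h6 := g2 (bf Q l) hsame (fun n hn => by
        have h7 : n ≤ 32 * K * Y := by
          have h8 : n ≤ 16 * N := by exact_mod_cast hn
          have h9 : 16 * N ≤ 16 * (2 * K * Y) := Nat.mul_le_mul_left _ hYK
          have h10 : 16 * (2 * K * Y) = 32 * K * Y := by ring
          omega
        refine (hmean n h7).trans ?_
        exact mul_le_mul hημ (by exact_mod_cast hYN) (Nat.cast_nonneg _) hμ0.le) u hu
      have h7 : ∑ n ∈ E, u n * bf Q l ((n : ℕ) : ℤ) = ∑ n ∈ E.filter (fun n => Q n), u n - l * W := by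
        have h8 : ∀ n ∈ E, u n * bf Q l ((n : ℕ) : ℤ) = (if Q n then u n else 0) - l * u n := by
          intro n hn
          rw [hE] at hn
          have hn1 := (mem_EE.1 hn).1
          have h9 : (0 : ℤ) < ((n : ℕ) : ℤ) := by exact_mod_cast hn1
          unfold bf
          simp only [h9, true_and, Int.toNat_natCast]
          split_ifs <;> ring
        rw [sum_congr rfl h8, sum_sub_distrib, sum_filter, ← mul_sum, hW]
      rw [h7] at h6
      have h8 : |(l - P.2) * W| ≤ ε' * E.card := by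
        rw [abs_mul, abs_of_nonneg hW0]
        exact mul_le_mul (l2.trans hηε) hWE hW0 hε'0.le
      have e : ∑ n ∈ E.filter (fun n => Q n), u n - P.2 * W = (∑ n ∈ E.filter (fun n => Q n), u n - l * W) + (l - P.2) * W := by
        ring
      rw [e]
      refine (abs_add_le _ _).trans ?_
      linarith
    · intro n hn hnK
      have hn1 := hn
      rw [hE] at hn1
      have hn2 := mem_EE.1 hn1
      refine himp n hn2.1 (by omega) ?_
      have h9 : N ≤ 32 * K * Y := by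
        have h10 : 2 * K * Y ≤ 16 * (2 * K * Y) := Nat.le_mul_of_pos_left _ (by norm_num)
        have h11 : 16 * (2 * K * Y) = 32 * K * Y := by ring
        omega
      exact hn2.2.1.trans h9
  obtain ⟨Q1, q1, q2⟩ := side true
  obtain ⟨Q0, r1, r2⟩ := side false
  have tt : ∀ P1 P2 : ℕ → Prop, (∀ n ∈ E, ¬ n ≤ N / K → P1 n → P2 n) → ∑ n ∈ E.filter (fun n => P1 n), u n ≤
      ∑ n ∈ E.filter (fun n => P2 n), u n + ((#{n ∈ E | n ≤ N / K} : ℕ) : ℝ) := by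
    intro P1 P2 h12
    have h6 : (E.filter fun n => P1 n) ⊆ (E.filter fun n => P2 n) ∪ (E.filter fun n => n ≤ N / K) := by
      intro n hn
      rw [mem_filter] at hn
      rw [mem_union, mem_filter, mem_filter]
      by_cases h7 : n ≤ N / K
      · exact Or.inr ⟨hn.1, h7⟩
      · exact Or.inl ⟨hn.1, h12 n hn.1 h7 hn.2⟩
    have h7 : ∑ n ∈ E.filter (fun n => n ≤ N / K), u n ≤ ((#{n ∈ E | n ≤ N / K} : ℕ) : ℝ) := by
      refine (sum_le_sum fun n _ => hu1 n).trans (le_of_eq ?_)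
      rw [sum_const, nsmul_eq_mul, mul_one]
    have h8 : ∑ n ∈ (E.filter fun n => P2 n) ∪ (E.filter fun n => n ≤ N / K), u n ≤
        ∑ n ∈ E.filter (fun n => P2 n), u n + ∑ n ∈ E.filter (fun n => n ≤ N / K), u n := by
      rw [← sum_union_inter]
      have : 0 ≤ ∑ n ∈ (E.filter fun n => P2 n) ∩ (E.filter fun n => n ≤ N / K), u n := sum_nonneg fun n _ => hu0 n
      linarith
    have h9 := sum_le_sum_of_subset_of_nonneg h6 (fun n _ _ => hu0 n)
    linarith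
  have t1 := tt P.1 Q1 (fun n hn h7 => (q2 n hn h7).1 rfl)
  have t2 := tt Q0 P.1 (fun n hn h7 => (r2 n hn h7).2 rfl)
  have t3 : 4 * ε' * E.card ≤ ε * E.card := mul_le_mul_of_nonneg_right (by linarith) hEpos.le
  have t4 : 0 ≤ ε' * E.card := by positivity
  rw [abs_le] at q1 r1 ⊢
  constructor <;> linarith [q1.1, q1.2, r1.1, r1.2]

end Pool.Agent.U596.TR
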