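import Pool.Agent.U596.KR6

/-! Relative frequencies along the integers with exactly `k` prime factors from a set of primes, in a
residue class. -/

set_option autoImplicit false

namespace Pool.Agent.U596.KF

open Finset ArithmeticFunction Filter Topology Pool.Agent.U596.TP Pool.Agent.U596.TR
open scoped Classical

/-- residue class and primes -/
def W (S : Set ℕ) (Q r : ℕ) : Set ℕ := {n | n % Q = r % Q ∧ ∀ p : ℕ, p.Prime → p ∣ n → p ∈ S}

noncomputable def uW (S : Set ℕ) (Q r : ℕ) (n : ℕ) : ℝ := (W S Q r).indicator (fun _ => (1 : ℝ)) n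

theorem Rk_uW (S : Set ℕ) {Q : ℕ} (hQ : 1 ≤ Q) (r : ℕ) : Rk (Q * Q) (uW S Q r) := by
  constructor
  · intro n
    unfold uW
    by_cases h : n ∈ W S Q r
    · rw [Set.indicator_of_mem h]; norm_num
    · rw [Set.indicator_of_notMem h]; norm_num
  intro c
  obtain ⟨e, he⟩ : ∃ e : Fin Q × Fin Q ≃ Fin (Q * Q), e = finProdFinEquiv := ⟨_, rfl⟩
  refine ⟨fun i => {p | p ∈ S ∧ p % Q = ((e.symm i).1 : ℕ)}, fun i => {q | q ∈ S ∧ q % Q = ((e.symm i).2 : ℕ)},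
    fun i => if (∀ p : ℕ, p.Prime → p ∣ c → p ∈ S) ∧ (((e.symm i).1 : ℕ) * (c * ((e.symm i).2 : ℕ))) % Q = r % Q then 1 else 0, ?_, ?_⟩
  · intro i
    beta_reduce
    split_ifs <;> norm_num
  intro p q hp hq
  have hp1 : p % Q < Q := Nat.mod_lt _ hQ
  have hq1 : q % Q < Q := Nat.mod_lt _ hQ
  obtain ⟨i0, hi0⟩ : ∃ i0 : Fin (Q * Q), i0 = e (⟨p % Q, hp1⟩, ⟨q % Q, hq1⟩) := ⟨_, rfl⟩
  have hi1 : e.symm i0 = (⟨p % Q, hp1⟩, ⟨q % Q, hq1⟩) := by rw [hi0, Equiv.symm_apply_apply]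
  rw [Finset.sum_eq_single i0]
  · beta_reduce
    rw [hi1]
    simp only
    have h1 : p * (c * q) ∈ W S Q r ↔ (p ∈ S ∧ q ∈ S) ∧ ((∀ l : ℕ, l.Prime → l ∣ c → l ∈ S) ∧
        (p % Q * (c * (q % Q))) % Q = r % Q) := by
      have h2 : (p % Q * (c * (q % Q))) % Q = (p * (c * q)) % Q := by
        rw [Nat.mul_mod (p % Q), Nat.mod_mod, Nat.mul_mod c, Nat.mod_mod, ← Nat.mul_mod c, ← Nat.mul_mod]
      rw [h2]
      unfold W
      rw [Set.mem_setOf_eq]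
      constructor
      · rintro ⟨h3, h4⟩
        exact ⟨⟨h4 p hp (dvd_mul_right _ _), h4 q hq (Dvd.dvd.mul_left (dvd_mul_left _ _) _)⟩,
          fun l hl hlc => h4 l hl (Dvd.dvd.mul_left (Dvd.dvd.mul_right hlc _) _), h3⟩
      · rintro ⟨⟨h3, h4⟩, h5, h6⟩
        refine ⟨h6, fun l hl hd => ?_⟩
        rcases (Nat.Prime.dvd_mul hl).1 hd with h7 | h7
        · rw [(Nat.prime_dvd_prime_iff_eq hl hp).1 h7]; exact h3
        · rcases (Nat.Prime.dvd_mul hl).1 h7 with h8 | h8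
          · exact h5 l hl h8
          · rw [(Nat.prime_dvd_prime_iff_eq hl hq).1 h8]; exact h4
    unfold uW
    by_cases h2 : p ∈ S ∧ q ∈ S
    · rw [Set.indicator_of_mem (show p ∈ {x | x ∈ S ∧ x % Q = p % Q} from ⟨h2.1, rfl⟩),
        Set.indicator_of_mem (show q ∈ {x | x ∈ S ∧ x % Q = q % Q} from ⟨h2.2, rfl⟩), mul_one, mul_one]
      by_cases h3 : (∀ l : ℕ, l.Prime → l ∣ c → l ∈ S) ∧ (p % Q * (c * (q % Q))) % Q = r % Q
      · rw [if_pos h3, Set.indicator_of_mem (h1.2 ⟨h2, h3⟩)]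
      · rw [if_neg h3, Set.indicator_of_notMem (fun h4 => h3 (h1.1 h4).2)]
    · rw [Set.indicator_of_notMem (fun h4 => h2 (h1.1 h4).1)]
      have h3 : ({x | x ∈ S ∧ x % Q = p % Q} : Set ℕ).indicator (fun _ => (1 : ℝ)) p *
          ({x | x ∈ S ∧ x % Q = q % Q} : Set ℕ).indicator (fun _ => (1 : ℝ)) q = 0 := by
        by_cases h4 : p ∈ S
        · have h5 : q ∉ S := fun h5 => h2 ⟨h4, h5⟩
          rw [Set.indicator_of_notMem (show q ∉ {x | x ∈ S ∧ x % Q = q % Q} from fun h => h5 h.1), mul_zero]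
        · rw [Set.indicator_of_notMem (show p ∉ {x | x ∈ S ∧ x % Q = p % Q} from fun h => h4 h.1), zero_mul]
      rw [h3, mul_zero]
  · intro i _ hi
    beta_reduce
    have h1 : ¬ (p % Q = ((e.symm i).1 : ℕ) ∧ q % Q = ((e.symm i).2 : ℕ)) := by
      rintro ⟨h2, h3⟩
      apply hi
      have h4 : e.symm i = (⟨p % Q, hp1⟩, ⟨q % Q, hq1⟩) := Prod.ext (Fin.ext h2.symm) (Fin.ext h3.symm)
      rw [hi0, ← h4, Equiv.apply_symm_apply]
    have h2 : ({x | x ∈ S ∧ x % Q = ((e.symm i).1 : ℕ)} : Set ℕ).indicator (fun _ => (1 : ℝ)) p *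
        ({x | x ∈ S ∧ x % Q = ((e.symm i).2 : ℕ)} : Set ℕ).indicator (fun _ => (1 : ℝ)) q = 0 := by
      by_cases h4 : p % Q = ((e.symm i).1 : ℕ)
      · have h5 : ¬ q % Q = ((e.symm i).2 : ℕ) := fun h5 => h1 ⟨h4, h5⟩
        rw [Set.indicator_of_notMem (show q ∉ {x | x ∈ S ∧ x % Q = ((e.symm i).2 : ℕ)} from fun h => h5 h.2), mul_zero]
      · rw [Set.indicator_of_notMem (show p ∉ {x | x ∈ S ∧ x % Q = ((e.symm i).1 : ℕ)} from fun h => h4 h.2), zero_mul]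
    rw [h2, mul_zero]
  · intro h; exact absurd (mem_univ _) h

end Pool.Agent.U596.KF
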