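import Pool.Agent.U596.KR7

/-! Relative frequencies along the integers with exactly `k` prime factors: the calculus. -/

set_option autoImplicit false

namespace Pool.Agent.U596.KF

open Finset ArithmeticFunction Filter Topology Pool.Agent.U596.TP Pool.Agent.U596.TR
open scoped Classical

/-- the integers up to `N` with exactly `k` prime factors, all greater than `N ^ θ` -/
def E (k : ℕ) (θ : ℝ) (N : ℕ) : Set ℕ :=
  {n | 1 ≤ n ∧ n ≤ N ∧ cardFactors n = k ∧ ∀ p : ℕ, p.Prime → p ∣ n → (N : ℝ) ^ θ < p}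

theorem E_eq (k : ℕ) (θ : ℝ) (N : ℕ) : E k θ N = ((EE k θ N : Finset ℕ) : Set ℕ) := by
  ext n
  rw [Finset.mem_coe, mem_EE]
  rfl

theorem E_card (k : ℕ) (θ : ℝ) (N : ℕ) : (E k θ N).ncard = (EE k θ N).card := by
  rw [E_eq, Set.ncard_coe_finset]

theorem E_fin (k : ℕ) (θ : ℝ) (N : ℕ) : (E k θ N).Finite := by
  rw [E_eq]; exact Finset.finite_toSet _

theorem E_W (k : ℕ) (θ : ℝ) (N : ℕ) (S : Set ℕ) (Q r : ℕ) (P : ℕ → Prop) :
    ∑ n ∈ (EE k θ N).filter (fun n => P n), uW S Q r n = ((E k θ N ∩ W S Q r ∩ {n | P n}).ncard : ℝ) := by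
  have h1 : E k θ N ∩ W S Q r ∩ {n | P n} =
      ((((EE k θ N).filter (fun n => P n)).filter (fun n => n ∈ W S Q r) : Finset ℕ) : Set ℕ) := by
    ext n
    rw [Set.mem_inter_iff, Set.mem_inter_iff, E_eq, Finset.mem_coe, Finset.mem_coe, Finset.mem_filter,
      Finset.mem_filter, Set.mem_setOf_eq]
    tauto
  rw [h1, Set.ncard_coe_finset, Finset.card_filter]
  push_cast
  apply sum_congr rfl
  intro n _
  unfold uW
  by_cases h : n ∈ W S Q r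
  · rw [Set.indicator_of_mem h, if_pos h]
  · rw [Set.indicator_of_notMem h, if_neg h]

theorem E_W' (k : ℕ) (θ : ℝ) (N : ℕ) (S : Set ℕ) (Q r : ℕ) :
    ∑ n ∈ EE k θ N, uW S Q r n = ((E k θ N ∩ W S Q r).ncard : ℝ) := by
  have h1 : E k θ N ∩ W S Q r = (((EE k θ N).filter (fun n => n ∈ W S Q r) : Finset ℕ) : Set ℕ) := by
    ext n
    rw [Set.mem_inter_iff, E_eq, Finset.mem_coe, Finset.mem_coe, Finset.mem_filter]
  rw [h1, Set.ncard_coe_finset, Finset.card_filter]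
  push_cast
  apply sum_congr rfl
  intro n _
  unfold uW
  by_cases h : n ∈ W S Q r
  · rw [Set.indicator_of_mem h, if_pos h]
  · rw [Set.indicator_of_notMem h, if_neg h]

/-- relative frequencies -/
def KFr (PP : Set ((ℕ → Prop) × ℝ)) : Prop := ∀ k Q : ℕ, 2 ≤ k → 1 ≤ Q → ∀ ε : ℝ, 0 < ε → ∃ θ0 : ℝ, 0 < θ0 ∧
  ∀ θ : ℝ, 0 < θ → θ ≤ θ0 → ∃ N0 : ℕ, ∀ N : ℕ, N0 ≤ N → ∀ (S : Set ℕ) (r : ℕ), ∀ P ∈ PP,
    |((E k θ N ∩ W S Q r ∩ {n | P.1 n}).ncard : ℝ) - P.2 * (E k θ N ∩ W S Q r).ncard| ≤ ε * (E k θ N).ncard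

theorem KFr_of {R : ℕ} {s : ℤ} (hs : s = 1 ∨ s = -1) {PP : Set ((ℕ → Prop) × ℝ)} (h : UEv R s PP) : KFr PP := by
  intro k Q hk hQ ε hε
  obtain ⟨j, rfl⟩ : ∃ j, k = j + 2 := ⟨k - 2, by omega⟩
  obtain ⟨c1, hc1, H⟩ := kprimesEU R hs h j (Q * Q)
  obtain ⟨θ0, hθ0, H1⟩ := H ε hε
  refine ⟨θ0, hθ0, fun θ h1 h2 => ?_⟩
  obtain ⟨N0, H2⟩ := H1 θ h1 h2
  refine ⟨N0, fun N hN S r P hP => ?_⟩
  have h3 := (H2 N hN).2 P hP (uW S Q r) (Rk_uW S hQ r) (fun n => Set.indicator_nonneg (fun _ _ => zero_le_one) _)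
  rw [E_W, E_W', ← E_card] at h3
  exact h3

theorem E_low {k : ℕ} (hk : 2 ≤ k) : ∃ c : ℝ, 0 < c ∧ ∃ θ0 : ℝ, 0 < θ0 ∧ ∀ θ : ℝ, 0 < θ → θ ≤ θ0 → ∃ N0 : ℕ, ∀ N : ℕ, N0 ≤ N →
    c * (N / Real.log N) ≤ (E k θ N).ncard := by
  obtain ⟨j, rfl⟩ : ∃ j, k = j + 2 := ⟨k - 2, by omega⟩
  obtain ⟨c1, hc1, H⟩ := kprimesU 1 (Or.inl rfl : (1 : ℤ) = 1 ∨ (1 : ℤ) = -1) j 1
  obtain ⟨θ0, hθ0, -, H1⟩ := H 1 one_pos le_rfl
  refine ⟨c1, hc1, θ0, hθ0, fun θ h1 h2 => ?_⟩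
  obtain ⟨N0, -, μ, -, -, H2⟩ := H1 θ h1 h2
  refine ⟨N0, fun N hN => ?_⟩
  rw [E_card]
  exact (H2 N hN).1

theorem W_le (k : ℕ) (θ : ℝ) (N : ℕ) (A : Set ℕ) : ((E k θ N ∩ A).ncard : ℝ) ≤ (E k θ N).ncard := by
  exact_mod_cast Set.ncard_le_ncard Set.inter_subset_left (E_fin k θ N)

theorem KFr.union {PP PP' : Set ((ℕ → Prop) × ℝ)} (h : KFr PP) (h' : KFr PP') : KFr (PP ∪ PP') := by
  intro k Q hk hQ ε hε
  obtain ⟨θ0, h1, h2⟩ := h k Q hk hQ ε hε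
  obtain ⟨θ1, h3, h4⟩ := h' k Q hk hQ ε hε
  refine ⟨min θ0 θ1, lt_min h1 h3, fun θ a1 a2 => ?_⟩
  obtain ⟨N0, h5⟩ := h2 θ a1 (a2.trans (min_le_left _ _))
  obtain ⟨N1, h6⟩ := h4 θ a1 (a2.trans (min_le_right _ _))
  refine ⟨N0 + N1, fun N hN S r P hP => ?_⟩
  rcases hP with hP | hP
  · exact h5 N (by omega) S r P hP
  · exact h6 N (by omega) S r P hP

theorem KFr.mono {PP PP' : Set ((ℕ → Prop) × ℝ)} (h : KFr PP) (hs : PP' ⊆ PP) : KFr PP' := by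
  intro k Q hk hQ ε hε
  obtain ⟨θ0, h1, h2⟩ := h k Q hk hQ ε hε
  refine ⟨θ0, h1, fun θ a1 a2 => ?_⟩
  obtain ⟨N0, h5⟩ := h2 θ a1 a2
  exact ⟨N0, fun N hN S r P hP => h5 N hN S r P (hs hP)⟩

theorem KFr_empty : KFr ∅ := by
  intro k Q hk hQ ε hε
  exact ⟨1, one_pos, fun θ a1 a2 => ⟨0, fun N hN S r P hP => absurd hP (Set.notMem_empty _)⟩⟩

theorem KFr_biUnion {τ : Type} (t : Finset τ) {PP : τ → Set ((ℕ → Prop) × ℝ)} (h : ∀ i ∈ t, KFr (PP i)) :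
    KFr {P | ∃ i ∈ t, P ∈ PP i} := by
  induction t using Finset.induction_on with
  | empty => exact KFr_empty.mono (fun P hP => by obtain ⟨i, hi, _⟩ := hP; exact absurd hi (Finset.notMem_empty _))
  | insert a t ha ih =>
    refine ((h a (mem_insert_self _ _)).union (ih fun i hi => h i (mem_insert_of_mem hi))).mono ?_
    rintro P ⟨i, hi, hP⟩
    rcases mem_insert.1 hi with h1 | h1
    · subst h1; exact Or.inl hP
    · exact Or.inr ⟨i, h1, hP⟩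

theorem E_large {k : ℕ} (hk : 2 ≤ k) {θ : ℝ} (hθ : 0 < θ) (n1 : ℕ) : ∃ N0 : ℕ, ∀ N : ℕ, N0 ≤ N → ∀ n ∈ E k θ N, n1 ≤ n := by
  have h1 : ∀ᶠ N : ℕ in Filter.atTop, (n1 : ℝ) ≤ (N : ℝ) ^ θ := ev_pow hθ _
  obtain ⟨N0, h2⟩ := Filter.eventually_atTop.1 h1
  refine ⟨N0, fun N hN n hn => ?_⟩
  obtain ⟨a1, a2, a3, a4⟩ := hn
  have h3 : n ≠ 1 := by
    rintro rfl
    rw [cardFactors_one] at a3
    omega
  obtain ⟨p, hp, hpn⟩ := Nat.exists_prime_and_dvd h3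
  have h4 := a4 p hp hpn
  have h5 : (n1 : ℝ) ≤ p := (h2 N hN).trans h4.le
  have h6 : n1 ≤ p := by exact_mod_cast h5
  exact h6.trans (Nat.le_of_dvd a1 hpn)

/-- the sandwich -/
theorem KFr_sandwich {P : ℕ → Prop} {l : ℝ} (h : ∀ ε : ℝ, 0 < ε → ∃ (P1 P2 : ℕ → Prop) (l1 l2 : ℝ) (n1 : ℕ),
    KFr {(P1, l1)} ∧ KFr {(P2, l2)} ∧ l ≤ l1 + ε ∧ l2 ≤ l + ε ∧ ∀ n, n1 ≤ n → (P1 n → P n) ∧ (P n → P2 n)) :
    KFr {(P, l)} := by
  intro k Q hk hQ ε hε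
  obtain ⟨P1, P2, l1, l2, n1, g1, g2, g3, g4, g5⟩ := h (ε / 2) (by positivity)
  obtain ⟨θ0, h1, h2⟩ := g1 k Q hk hQ (ε / 2) (by positivity)
  obtain ⟨θ1, h3, h4⟩ := g2 k Q hk hQ (ε / 2) (by positivity)
  refine ⟨min θ0 θ1, lt_min h1 h3, fun θ a1 a2 => ?_⟩
  obtain ⟨N0, h5⟩ := h2 θ a1 (a2.trans (min_le_left _ _))
  obtain ⟨N1, h6⟩ := h4 θ a1 (a2.trans (min_le_right _ _))
  obtain ⟨N2, h7⟩ := E_large hk a1 n1
  refine ⟨N0 + N1 + N2, fun N hN S r P' hP' => ?_⟩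
  rw [Set.mem_singleton_iff] at hP'
  subst hP'
  have h8 := h5 N (by omega) S r _ rfl
  have h9 := h6 N (by omega) S r _ rfl
  have h10 := h7 N (by omega)
  simp only at h8 h9 ⊢
  have hfin : (E k θ N ∩ W S Q r).Finite := (E_fin k θ N).subset Set.inter_subset_left
  have e1 : ((E k θ N ∩ W S Q r ∩ {n | P1 n}).ncard : ℝ) ≤ ((E k θ N ∩ W S Q r ∩ {n | P n}).ncard : ℝ) := by
    have : (E k θ N ∩ W S Q r ∩ {n | P1 n}).ncard ≤ (E k θ N ∩ W S Q r ∩ {n | P n}).ncard := by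
      apply Set.ncard_le_ncard _ (hfin.subset Set.inter_subset_left)
      rintro n ⟨b1, b2⟩
      exact ⟨b1, (g5 n (h10 n b1.1)).1 b2⟩
    exact_mod_cast this
  have e2 : ((E k θ N ∩ W S Q r ∩ {n | P n}).ncard : ℝ) ≤ ((E k θ N ∩ W S Q r ∩ {n | P2 n}).ncard : ℝ) := by
    have : (E k θ N ∩ W S Q r ∩ {n | P n}).ncard ≤ (E k θ N ∩ W S Q r ∩ {n | P2 n}).ncard := by
      apply Set.ncard_le_ncard _ (hfin.subset Set.inter_subset_left)
      rintro n ⟨b1, b2⟩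
      exact ⟨b1, (g5 n (h10 n b1.1)).2 b2⟩
    exact_mod_cast this
  have hw := W_le k θ N (W S Q r)
  obtain ⟨w, hw'⟩ : ∃ w : ℝ, w = ((E k θ N ∩ W S Q r).ncard : ℝ) := ⟨_, rfl⟩
  obtain ⟨M, hM⟩ : ∃ M : ℝ, M = ((E k θ N).ncard : ℝ) := ⟨_, rfl⟩
  rw [← hw'] at h8 h9 hw ⊢
  rw [← hM] at h8 h9 hw ⊢
  have hw0 : 0 ≤ w := by rw [hw']; exact Nat.cast_nonneg _
  rw [abs_le] at h8 h9 ⊢
  have m1 : l * w ≤ (l1 + ε / 2) * w := mul_le_mul_of_nonneg_right g3 hw0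
  have m2 : l2 * w ≤ (l + ε / 2) * w := mul_le_mul_of_nonneg_right g4 hw0
  have m3 : ε / 2 * w ≤ ε / 2 * M := mul_le_mul_of_nonneg_left hw (by positivity)
  constructor <;> linarith [h8.1, h8.2, h9.1, h9.2]

theorem KFr_congr {P P' : ℕ → Prop} {l l' : ℝ} (n1 : ℕ) (h : KFr {(P, l)}) (hP : ∀ n, n1 ≤ n → (P' n ↔ P n)) (hl : l' = l) :
    KFr {(P', l')} := by
  subst hl
  exact KFr_sandwich fun ε hε => ⟨P, P, l', l', n1, h, h, by linarith, by linarith, fun n hn => ⟨(hP n hn).2, (hP n hn).1⟩⟩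

theorem KFr_diff {P1 P2 : ℕ → Prop} {l1 l2 : ℝ} (h1 : KFr {(P1, l1)}) (h2 : KFr {(P2, l2)}) (h : ∀ n, P1 n → P2 n) :
    KFr {((fun n => P2 n ∧ ¬ P1 n), l2 - l1)} := by
  intro k Q hk hQ ε hε
  obtain ⟨θ0, a1, a2⟩ := h1 k Q hk hQ (ε / 2) (by positivity)
  obtain ⟨θ1, a3, a4⟩ := h2 k Q hk hQ (ε / 2) (by positivity)
  refine ⟨min θ0 θ1, lt_min a1 a3, fun θ b1 b2 => ?_⟩
  obtain ⟨N0, h5⟩ := a2 θ b1 (b2.trans (min_le_left _ _))
  obtain ⟨N1, h6⟩ := a4 θ b1 (b2.trans (min_le_right _ _))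
  refine ⟨N0 + N1, fun N hN S r P' hP' => ?_⟩
  rw [Set.mem_singleton_iff] at hP'
  subst hP'
  have h8 := h5 N (by omega) S r _ rfl
  have h9 := h6 N (by omega) S r _ rfl
  simp only at h8 h9 ⊢
  have hfin : (E k θ N ∩ W S Q r).Finite := (E_fin k θ N).subset Set.inter_subset_left
  have e : (E k θ N ∩ W S Q r ∩ {n | P2 n ∧ ¬ P1 n}).ncard + (E k θ N ∩ W S Q r ∩ {n | P1 n}).ncard =
      (E k θ N ∩ W S Q r ∩ {n | P2 n}).ncard := by
    rw [← Set.ncard_union_eq _ (hfin.subset Set.inter_subset_left) (hfin.subset Set.inter_subset_left)]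
    · congr 1
      ext n
      simp only [Set.mem_union, Set.mem_inter_iff, Set.mem_setOf_eq]
      constructor
      · rintro (⟨c1, c2, c3⟩ | ⟨c1, c2⟩)
        · exact ⟨c1, c2⟩
        · exact ⟨c1, h n c2⟩
      · rintro ⟨c1, c2⟩
        by_cases c3 : P1 n
        · exact Or.inr ⟨c1, c3⟩
        · exact Or.inl ⟨c1, c2, c3⟩
    · rw [Set.disjoint_left]
      rintro n ⟨_, c1⟩ ⟨_, c2⟩
      exact c1.2 c2
  have e' : ((E k θ N ∩ W S Q r ∩ {n | P2 n ∧ ¬ P1 n}).ncard : ℝ) = ((E k θ N ∩ W S Q r ∩ {n | P2 n}).ncard : ℝ) -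
      ((E k θ N ∩ W S Q r ∩ {n | P1 n}).ncard : ℝ) := by
    have : ((E k θ N ∩ W S Q r ∩ {n | P2 n ∧ ¬ P1 n}).ncard : ℝ) + ((E k θ N ∩ W S Q r ∩ {n | P1 n}).ncard : ℝ) =
      ((E k θ N ∩ W S Q r ∩ {n | P2 n}).ncard : ℝ) := by exact_mod_cast e
    linarith
  rw [e']
  rw [abs_le] at h8 h9 ⊢
  constructor <;> linarith [h8.1, h8.2, h9.1, h9.2]

theorem KFr_true : KFr {((fun _ => True), 1)} := by
  intro k Q hk hQ ε hε
  refine ⟨1, one_pos, fun θ a1 a2 => ⟨0, fun N hN S r P hP => ?_⟩⟩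
  rw [Set.mem_singleton_iff] at hP
  subst hP
  simp only
  have e : E k θ N ∩ W S Q r ∩ {n | True} = E k θ N ∩ W S Q r := by ext; simp
  rw [e, one_mul, sub_self, abs_zero]
  positivity

theorem KFr_not {P : ℕ → Prop} {l : ℝ} (h : KFr {(P, l)}) : KFr {((fun n => ¬ P n), 1 - l)} := by
  refine KFr_congr 0 (KFr_diff h KFr_true (fun _ _ => trivial)) (fun n _ => ?_) rfl
  simp

/-- UNIFORMITY in the level -/
theorem KFr_polya {F : ℝ → ℕ → Prop} {G : ℕ → Prop} {d : ℝ} (hd0 : 0 ≤ d) (hd1 : d ≤ 1) {Φ : ℝ → ℝ} (hΦc : Continuous Φ)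
    (hΦm : Monotone Φ) (hΦ0 : Tendsto Φ atBot (𝓝 0)) (hΦ1 : Tendsto Φ atTop (𝓝 1))
    (hF : ∀ x y n, x ≤ y → F x n → F y n) (hFG : ∀ x n, F x n → G n) (hG : KFr {(G, d)})
    (hx : ∀ x, KFr {(F x, d * Φ x)}) : KFr {P | ∃ x, P = (F x, d * Φ x)} := by
  intro k Q hk hQ ε hε
  obtain ⟨m, hm⟩ : ∃ m : ℕ, m = ⌈4 / ε⌉₊ + 2 := ⟨_, rfl⟩
  have hm0 : (0 : ℝ) < m := by rw [hm]; positivity
  have hmε : 2 / (m : ℝ) ≤ ε / 2 := by
    have h1 : 4 / ε ≤ m := (Nat.le_ceil _).trans (by rw [hm]; push_cast; linarith)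
    rw [div_le_iff₀ hε] at h1
    rw [div_le_iff₀ hm0]
    linarith
  have hΦ00 : ∀ x, 0 ≤ Φ x := fun x => hΦm.le_of_tendsto hΦ0 x
  have hΦ11 : ∀ x, Φ x ≤ 1 := fun x => hΦm.ge_of_tendsto hΦ1 x
  -- the grid
  have hgrid : ∀ i : ℕ, 0 < i → i < m → ∃ x, Φ x = i / m := by
    intro i h1 h2
    have h1' : (0 : ℝ) < i / m := by
      have : (0 : ℝ) < i := by exact_mod_cast h1
      positivity
    have h2' : (i : ℝ) / m < 1 := by
      rw [div_lt_one hm0]; exact_mod_cast h2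
    obtain ⟨a, ha⟩ := (hΦ0.eventually (gt_mem_nhds h1')).exists
    obtain ⟨b, hb⟩ := (hΦ1.eventually (lt_mem_nhds h2')).exists
    have := mem_range_of_exists_le_of_exists_ge hΦc ⟨a, ha.le⟩ ⟨b, hb.le⟩
    exact this
  choose! g hg using hgrid
  have hall : KFr ({P | ∃ i ∈ range m, P ∈ ({(F (g i), d * Φ (g i))} : Set ((ℕ → Prop) × ℝ))} ∪ {(G, d)}) :=
    (KFr_biUnion (range m) fun i _ => hx (g i)).union hG
  obtain ⟨θ0, h1, h2⟩ := hall k Q hk hQ (ε / 2) (by positivity)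
  refine ⟨θ0, h1, fun θ b1 b2 => ?_⟩
  obtain ⟨N0, h5⟩ := h2 θ b1 b2
  refine ⟨N0, fun N hN S r P' hP' => ?_⟩
  obtain ⟨x, rfl⟩ := hP'
  have h6 := h5 N hN S r
  have hG1 := h6 (G, d) (Or.inr rfl)
  have hF1 := fun i (hi : i < m) => h6 (F (g i), d * Φ (g i)) (Or.inl ⟨i, mem_range.2 hi, rfl⟩)
  simp only at hG1 hF1 ⊢
  have hfin : (E k θ N ∩ W S Q r).Finite := (E_fin k θ N).subset Set.inter_subset_left
  have hmono : ∀ A B : ℕ → Prop, (∀ n, A n → B n) → ((E k θ N ∩ W S Q r ∩ {n | A n}).ncard : ℝ) ≤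
      ((E k θ N ∩ W S Q r ∩ {n | B n}).ncard : ℝ) := by
    intro A B hAB
    have : (E k θ N ∩ W S Q r ∩ {n | A n}).ncard ≤ (E k θ N ∩ W S Q r ∩ {n | B n}).ncard := by
      apply Set.ncard_le_ncard _ (hfin.subset Set.inter_subset_left)
      rintro n ⟨c1, c2⟩
      exact ⟨c1, hAB n c2⟩
    exact_mod_cast this
  have hw := W_le k θ N (W S Q r)
  obtain ⟨c, hc⟩ : ∃ c : (ℕ → Prop) → ℝ, c = fun A => ((E k θ N ∩ W S Q r ∩ {n | A n}).ncard : ℝ) := ⟨_, rfl⟩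
  have hc' : ∀ A, ((E k θ N ∩ W S Q r ∩ {n | A n}).ncard : ℝ) = c A := fun A => by rw [hc]
  have hc0 : ∀ A, 0 ≤ c A := fun A => by rw [hc]; exact Nat.cast_nonneg _
  simp only [hc'] at hG1 hF1 hmono ⊢
  obtain ⟨w, hw'⟩ : ∃ w : ℝ, w = ((E k θ N ∩ W S Q r).ncard : ℝ) := ⟨_, rfl⟩
  obtain ⟨M, hM⟩ : ∃ M : ℝ, M = ((E k θ N).ncard : ℝ) := ⟨_, rfl⟩
  rw [← hw'] at hG1 hw ⊢
  rw [← hM] at hG1 hw ⊢
  simp only [← hw', ← hM] at hF1
  have hw0 : 0 ≤ w := by rw [hw']; exact Nat.cast_nonneg _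
  have hM0 : 0 ≤ M := by linarith
  -- the place of `x`
  obtain ⟨i, hi⟩ : ∃ i : ℕ, i = ⌊(m : ℝ) * Φ x⌋₊ := ⟨_, rfl⟩
  have hmx : 0 ≤ (m : ℝ) * Φ x := mul_nonneg hm0.le (hΦ00 x)
  have hi1 : (i : ℝ) ≤ m * Φ x := by rw [hi]; exact Nat.floor_le hmx
  have hi2 : (m : ℝ) * Φ x < i + 1 := by rw [hi]; exact Nat.lt_floor_add_one _
  have hdw : d * w ≤ M := (mul_le_of_le_one_left hw0 hd1).trans hw
  have hdw0 : 0 ≤ d * w := mul_nonneg hd0 hw0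
  have key : ∀ a : ℝ, a ≤ 2 / m → a * (d * w) ≤ ε / 2 * M := by
    intro a ha
    calc a * (d * w) ≤ 2 / m * (d * w) := mul_le_mul_of_nonneg_right ha hdw0
      _ ≤ ε / 2 * M := mul_le_mul hmε hdw hdw0 (by positivity)
  have low : d * Φ x * w - c (F x) ≤ ε * M := by
    by_cases h7 : i ≤ 1
    · have h8 : Φ x ≤ 2 / m := by
        rw [le_div_iff₀ hm0]
        have : (i : ℝ) ≤ 1 := by exact_mod_cast h7
        linarith
      have h9 := key (Φ x) h8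
      have h10 : d * Φ x * w = Φ x * (d * w) := by ring
      have h11 : 0 ≤ ε / 2 * M := by positivity
      have := hc0 (F x)
      linarith
    · push Not at h7
      have hi0 : 0 < i - 1 := by omega
      have him : i - 1 < m := by
        have h8 : (i : ℝ) ≤ m := hi1.trans (mul_le_of_le_one_right hm0.le (hΦ11 x))
        have h9 : i ≤ m := by exact_mod_cast h8
        omega
      have hgi := hg (i - 1) hi0 him
      have hcast : ((i - 1 : ℕ) : ℝ) = (i : ℝ) - 1 := by rw [Nat.cast_sub (by omega)]; simp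
      rw [hcast] at hgi
      have h8 : g (i - 1) ≤ x := by
        by_contra hcon
        push Not at hcon
        have h9 := hΦm hcon.le
        rw [hgi, le_div_iff₀ hm0] at h9
        linarith
      have h9 := hmono (F (g (i - 1))) (F x) (fun n => hF _ _ n h8)
      have h10 := hF1 (i - 1) him
      rw [hgi, abs_le] at h10
      have h11 : Φ x - ((i : ℝ) - 1) / m ≤ 2 / m := by
        rw [sub_le_iff_le_add, ← add_div, le_div_iff₀ hm0]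
        linarith
      have h12 := key _ h11
      have h13 : (Φ x - ((i : ℝ) - 1) / m) * (d * w) = d * Φ x * w - d * (((i : ℝ) - 1) / m) * w := by ring
      rw [h13] at h12
      linarith [h10.1]
  have upp : c (F x) - d * Φ x * w ≤ ε * M := by
    by_cases h7 : m ≤ i + 1
    · have h8 : 1 - Φ x ≤ 2 / m := by
        rw [le_div_iff₀ hm0]
        have h8 : (m : ℝ) ≤ i + 1 := by exact_mod_cast h7
        have h9 : (1 - Φ x) * m = m - m * Φ x := by ring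
        rw [h9]
        linarith
      have h9 := key _ h8
      have h10 := hmono (F x) G (fun n => hFG x n)
      rw [abs_le] at hG1
      have h13 : (1 - Φ x) * (d * w) = d * w - d * Φ x * w := by ring
      rw [h13] at h9
      linarith [hG1.2]
    · push Not at h7
      have hgi := hg (i + 1) (by omega) h7
      push_cast at hgi
      have h8 : x ≤ g (i + 1) := by
        by_contra hcon
        push Not at hcon
        have h9 := hΦm hcon.le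
        rw [hgi, div_le_iff₀ hm0] at h9
        linarith
      have h9 := hmono (F x) (F (g (i + 1))) (fun n => hF _ _ n h8)
      have h10 := hF1 (i + 1) h7
      rw [hgi, abs_le] at h10
      have h11 : ((i : ℝ) + 1) / m - Φ x ≤ 2 / m := by
        rw [sub_le_iff_le_add, div_le_iff₀ hm0]
        have h11 : (2 / (m : ℝ) + Φ x) * m = 2 + m * Φ x := by field_simp
        rw [h11]
        linarith
      have h12 := key _ h11
      have h13 : (((i : ℝ) + 1) / m - Φ x) * (d * w) = d * (((i : ℝ) + 1) / m) * w - d * Φ x * w := by ring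
      rw [h13] at h12
      linarith [h10.2]
  rw [abs_le]
  constructor <;> linarith

end Pool.Agent.U596.KF
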