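import Pool.Agent.U596.KR8
import Pool.Agent.U596.TR7

/-! The laws of the total stopping times along the integers with exactly `k` prime factors. -/

set_option autoImplicit false

namespace Pool.Agent.U596.KF

open Finset ArithmeticFunction Filter Topology Pool.Agent.U596.TP Pool.Agent.U596.TR
open Pool.Agent.Y964.LW
open Pool.Agent.H499R2.ND (Dn Tn Td Phi Phi_continuous phi_cdf Bas CC BasC Inv HD)
open Pool.Agent.H499R2.LT (odn od od_nat Td_nat law_one law_oneC ocn oC_nat Dn_sum Dn_iff)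
open Pool.Agent.H499R2.HL (H H_two H_of_two H_unique odn_two bk bo nu rr nu_pos rr_pos sqrt_rr law_k law_o)
open scoped Classical

theorem Phi_mono : Monotone Phi := by
  intro x y hxy
  rw [phi_cdf, phi_cdf]
  exact ProbabilityTheory.monotone_cdf _ hxy

theorem Phi_bot : Tendsto Phi atBot (𝓝 0) := by
  have h : Phi = fun x => ProbabilityTheory.cdf (ProbabilityTheory.gaussianReal 0 1) x := funext phi_cdf
  rw [h]
  exact ProbabilityTheory.tendsto_cdf_atBot _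

theorem Phi_top : Tendsto Phi atTop (𝓝 1) := by
  have h : Phi = fun x => ProbabilityTheory.cdf (ProbabilityTheory.gaussianReal 0 1) x := funext phi_cdf
  rw [h]
  exact ProbabilityTheory.tendsto_cdf_atTop _

theorem KFr_or {P1 P2 : ℕ → Prop} {l1 l2 : ℝ} (h1 : KFr {(P1, l1)}) (h2 : KFr {(P2, l2)}) (h : ∀ n, P1 n → ¬ P2 n) :
    KFr {((fun n => P1 n ∨ P2 n), l1 + l2)} := by
  have h3 := KFr_not (KFr_diff h2 (KFr_not h1) (fun n h4 h5 => h n h5 h4))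
  refine KFr_congr 0 h3 (fun n _ => ?_) (by ring)
  tauto

theorem thr_mono {α σ : ℝ} (hσ : 0 < σ) {x y L : ℝ} (hxy : x ≤ y) : thr α σ x L ≤ thr α σ y L := by
  unfold thr
  have h1 : 0 ≤ σ * Real.sqrt L := by positivity
  have h2 := mul_le_mul_of_nonneg_right hxy h1
  linarith

theorem uniform {f : ℕ → ℕ → ℝ} {C : ℕ → ℕ → Prop} {α σ δ d : ℝ} (hσ : 0 < σ) (hδ1 : δ ≤ 1) (hd0 : 0 ≤ d) (hd : d ≤ δ)
    (hT : KFr {((fun n => ∃ k, H k n), δ)})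
    (h1 : ∀ x, KFr {((fun n : ℕ => ∃ k, H k n ∧ f k n ≤ thr α σ x (Real.log n)), δ * Phi x)})
    (h2 : ∀ x, KFr {((fun n : ℕ => ∃ k, H k n ∧ (f k n ≤ thr α σ x (Real.log n) ∧ C k n)), d * Phi x)}) :
    KFr {((fun n => ∃ k, H k n ∧ C k n), d)} ∧
    KFr {P | ∃ x, P = ((fun n : ℕ => ∃ k, H k n ∧ (f k n ≤ thr α σ x (Real.log n) ∧ C k n)), d * Phi x)} := by
  have hδ0 : 0 ≤ δ := hd0.trans hd
  have hG : KFr {((fun n => ∃ k, H k n ∧ C k n), d)} := by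
    apply KFr_sandwich
    intro ε hε
    obtain ⟨x, hx⟩ := (Phi_top.eventually (lt_mem_nhds (show 1 - ε < 1 by linarith))).exists
    have hx1 : Phi x ≤ 1 := Phi_mono.ge_of_tendsto Phi_top x
    have h3 := KFr_diff (h1 x) hT (fun n h => by obtain ⟨k, hk, _⟩ := h; exact ⟨k, hk⟩)
    have h4 := KFr_or (h2 x) h3 (fun n h h' => by
      obtain ⟨k, hk, hk1, _⟩ := h
      exact h'.2 ⟨k, hk, hk1⟩)
    refine ⟨_, _, _, _, 0, h2 x, h4, ?_, ?_, fun n _ => ⟨?_, ?_⟩⟩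
    · have h5 : d * (1 - Phi x) ≤ 1 * ε := mul_le_mul (hd.trans hδ1) (by linarith) (by linarith) zero_le_one
      linarith
    · have h5 : (δ - d) * (1 - Phi x) ≤ 1 * ε := mul_le_mul (by linarith) (by linarith) (by linarith) zero_le_one
      linarith
    · rintro ⟨k, hk, _, hC⟩
      exact ⟨k, hk, hC⟩
    · rintro ⟨k, hk, hC⟩
      by_cases h5 : f k n ≤ thr α σ x (Real.log n)
      · exact Or.inl ⟨k, hk, h5, hC⟩
      · refine Or.inr ⟨⟨k, hk⟩, ?_⟩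
        rintro ⟨k', hk', h6⟩
        rw [H_unique hk' hk] at h6
        exact h5 h6
  refine ⟨hG, KFr_polya hd0 (hd.trans hδ1) Phi_continuous Phi_mono Phi_bot Phi_top ?_ ?_ hG h2⟩
  · rintro x y n hxy ⟨k, hk, h3, hC⟩
    exact ⟨k, hk, h3.trans (thr_mono hσ hxy), hC⟩
  · rintro x n ⟨k, hk, h3, hC⟩
    exact ⟨k, hk, hC⟩

theorem lln {f : ℕ → ℕ → ℝ} {α σ δ : ℝ} (hσ : 0 < σ) (hδ0 : 0 ≤ δ) (hδ1 : δ ≤ 1)
    (hT : KFr {((fun n => ∃ k, H k n), δ)})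
    (h1 : ∀ x, KFr {((fun n : ℕ => ∃ k, H k n ∧ f k n ≤ thr α σ x (Real.log n)), δ * Phi x)}) {η : ℝ} (hη : 0 < η) :
    KFr {((fun n : ℕ => ∃ k, H k n ∧ |f k n - α * Real.log n| ≤ η * Real.log n), δ)} := by
  apply KFr_sandwich
  intro ε hε
  obtain ⟨x0, hx0⟩ := (Phi_top.eventually (lt_mem_nhds (show 1 - ε / 2 < 1 by linarith))).exists_forall_of_atTop
  obtain ⟨y0, hy0⟩ := (Phi_bot.eventually (gt_mem_nhds (show (0 : ℝ) < ε / 2 by linarith))).exists_forall_of_atBot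
  obtain ⟨x, hx⟩ : ∃ x : ℝ, x = max 1 (max x0 (-y0)) := ⟨_, rfl⟩
  have hx1 : 1 ≤ x := by rw [hx]; exact le_max_left _ _
  have hxa : Phi (x) > 1 - ε / 2 := hx0 x (by rw [hx]; exact (le_max_left _ _).trans (le_max_right _ _))
  have hxb : Phi (-x) < ε / 2 := hy0 (-x) (by
    have : -y0 ≤ x := by rw [hx]; exact (le_max_right _ _).trans (le_max_right _ _)
    linarith)
  have h3 := KFr_diff (h1 (-x)) (h1 x) (fun n h => by
    obtain ⟨k, hk, h4⟩ := h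
    exact ⟨k, hk, h4.trans (thr_mono hσ (by linarith))⟩)
  have hev : ∀ᶠ n : ℕ in Filter.atTop, (x * σ / η) ^ 2 ≤ Real.log n :=
    (Real.tendsto_log_atTop.comp tendsto_natCast_atTop_atTop).eventually_ge_atTop _
  obtain ⟨n1, hn1⟩ := Filter.eventually_atTop.1 hev
  refine ⟨_, _, _, _, n1, h3, hT, ?_, ?_, fun n hn => ⟨?_, ?_⟩⟩
  · have h5 : δ * (1 - Phi x + Phi (-x)) ≤ 1 * ε := by
      apply mul_le_mul hδ1 (by linarith) _ zero_le_one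
      have : Phi x ≤ 1 := Phi_mono.ge_of_tendsto Phi_top x
      have : 0 ≤ Phi (-x) := Phi_mono.le_of_tendsto Phi_bot (-x)
      linarith
    linarith
  · linarith
  · rintro ⟨⟨k, hk, h4⟩, h5⟩
    refine ⟨k, hk, ?_⟩
    have h6 : ¬ f k n ≤ thr α σ (-x) (Real.log n) := fun h => h5 ⟨k, hk, h⟩
    push Not at h6
    have hL := hn1 n hn
    have hL0 : 0 ≤ Real.log n := le_trans (sq_nonneg _) hL
    have h7 : x * (σ * Real.sqrt (Real.log n)) ≤ η * Real.log n := by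
      have h8 : x * σ / η ≤ Real.sqrt (Real.log n) := by
        rw [← Real.sqrt_sq (show 0 ≤ x * σ / η by positivity)]
        exact Real.sqrt_le_sqrt hL
      rw [div_le_iff₀ hη] at h8
      have h9 := mul_le_mul_of_nonneg_right h8 (Real.sqrt_nonneg (Real.log n))
      have h10 : Real.sqrt (Real.log n) * η * Real.sqrt (Real.log n) = η * Real.log n := by
        rw [mul_right_comm, Real.mul_self_sqrt hL0]; ring
      rw [h10] at h9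
      linarith
    unfold thr at h4 h6
    rw [abs_le]
    constructor <;> linarith
  · rintro ⟨k, hk, _⟩
    exact ⟨k, hk⟩

theorem inv_KFr : KFr {Q | ∃ (S : Set ℕ) (d : ℝ), (∀ n, 1 ≤ n → (n ∈ S ↔ Cn n ∈ S)) ∧
    Tendsto (fun N : ℕ => ({n : ℕ | 1 ≤ n ∧ n ≤ N ∧ n ∈ S}.ncard : ℝ) / N) atTop (𝓝 d) ∧ Q = ((fun n => n ∈ S), d)} := by
  obtain ⟨δ, _, _, _, _, h⟩ := collatz
  exact (KFr_of (Or.inl rfl) (h 1 ∅ le_rfl)).mono (fun Q hQ => Or.inl hQ)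

/-- THE LAWS. -/
theorem lawsK : ∃ δ : ℝ, 0 < δ ∧ δ ≤ 1 ∧ (δ = 1 ↔ ∀ n : ℕ, 1 ≤ n → ∃ k : ℕ, Tn^[k] n = 1) ∧
    Dn (fun n => ∃ k : ℕ, Tn^[k] n = 1) δ ∧ KFr {((fun n => ∃ k, H k n), δ)} ∧
    (∀ m : ℕ, 1 ≤ m →
      KFr {P | ∃ (a b : ℤ) (x : ℝ), P = ((fun n : ℕ => ∃ k, H k n ∧ ((k : ℝ) ≤ bk x (Real.log n) ∧ (k : ℤ) ≡ a [ZMOD m] ∧
        (odn k n : ℤ) ≡ b [ZMOD m])), δ / (m : ℝ) ^ 2 * Phi x)} ∧
      KFr {P | ∃ (a b : ℤ) (x : ℝ), P = ((fun n : ℕ => ∃ k, H k n ∧ (((k + odn k n : ℕ) : ℝ) ≤ bc x (Real.log n) ∧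
        ((k + odn k n : ℕ) : ℤ) ≡ a [ZMOD m] ∧ (odn k n : ℤ) ≡ b [ZMOD m])), δ / (m : ℝ) ^ 2 * Phi x)} ∧
      KFr {P | ∃ (b : ℤ) (x : ℝ), P = ((fun n : ℕ => ∃ k, H k n ∧ ((odn k n : ℝ) ≤ bo x (Real.log n) ∧
        (odn k n : ℤ) ≡ b [ZMOD m])), δ / (m : ℝ) * Phi x)}) ∧
    (∀ η : ℝ, 0 < η →
      KFr {((fun n : ℕ => ∃ k, H k n ∧ |(k : ℝ) - 2 / Real.log (4 / 3) * Real.log n| ≤ η * Real.log n), δ)} ∧
      KFr {((fun n : ℕ => ∃ k, H k n ∧ |((k + odn k n : ℕ) : ℝ) - 3 / Real.log (4 / 3) * Real.log n| ≤ η * Real.log n), δ)} ∧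
      KFr {((fun n : ℕ => ∃ k, H k n ∧ |(odn k n : ℝ) - 1 / Real.log (4 / 3) * Real.log n| ≤ η * Real.log n), δ)}) := by
  obtain ⟨δ, h0, h1, h2, h3, h4⟩ := laws
  have hrr := rr_pos
  have hl2 : 0 < Real.log 2 := Real.log_pos (by norm_num)
  have hl3 : 0 < Real.log 3 := Real.log_pos (by norm_num)
  have hl6 : 0 < Real.log 6 := Real.log_pos (by norm_num)
  have s1 : (1 : ℤ) = 1 ∨ (1 : ℤ) = -1 := Or.inl rfl
  have hinv : ∀ n : ℕ, 1 ≤ n → (n ∈ {n : ℕ | ∃ k : ℕ, Cn^[k] n = 1} ↔ Cn n ∈ {n : ℕ | ∃ k : ℕ, Cn^[k] n = 1}) := by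
    intro n hn
    simp only [Set.mem_setOf_eq]
    constructor
    · rintro ⟨k, hk⟩
      cases k with
      | zero =>
        have h1 : n = 1 := hk
        subst h1
        exact ⟨2, by decide⟩
      | succ k => exact ⟨k, by rw [Function.iterate_succ_apply] at hk; exact hk⟩
    · rintro ⟨k, hk⟩
      exact ⟨k + 1, by rw [Function.iterate_succ_apply]; exact hk⟩
  have hbas : ∀ n, (∃ k : ℕ, Cn^[k] n = 1) ↔ ∃ k : ℕ, H k n := fun n => (BasC n).symm.trans (hit_iff n)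
  have hT : KFr {((fun n => ∃ k, H k n), δ)} := by
    have h5 := inv_KFr.mono (PP' := {((fun n => n ∈ {n : ℕ | ∃ k : ℕ, Cn^[k] n = 1}), δ)}) (by
      intro Q hQ
      rw [Set.mem_singleton_iff] at hQ
      subst hQ
      exact ⟨_, _, hinv, Dn_iff (fun n _ => BasC n) h3, rfl⟩)
    exact KFr_congr 0 h5 (fun n _ => (hbas n).symm) rfl
  have hk1 : ∀ (m : ℕ) (a b : ℤ) (x : ℝ), 1 ≤ m → KFr {((fun n : ℕ => ∃ k, H k n ∧ ((k : ℝ) ≤
      thr (2 / Real.log (4 / 3)) (Real.log 3 * rr) x (Real.log n) ∧ ((k : ℤ) ≡ a [ZMOD m] ∧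
        (odn k n : ℤ) ≡ b [ZMOD m]))), δ / (m : ℝ) ^ 2 * Phi x)} := by
    intro m a b x hm
    refine KFr_congr 0 (KFr_of s1 (h4 m a b x hm).1) (fun n _ => exists_congr fun k => and_congr_right fun _ => ?_) rfl
    rw [bk_thr]
  have hc1 : ∀ (m : ℕ) (a b : ℤ) (x : ℝ), 1 ≤ m → KFr {((fun n : ℕ => ∃ k, H k n ∧ (((k + odn k n : ℕ) : ℝ) ≤
      thr (3 / Real.log (4 / 3)) (Real.log 6 * rr) x (Real.log n) ∧ (((k + odn k n : ℕ) : ℤ) ≡ a [ZMOD m] ∧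
        (odn k n : ℤ) ≡ b [ZMOD m]))), δ / (m : ℝ) ^ 2 * Phi x)} := by
    intro m a b x hm
    refine KFr_congr 0 (KFr_of s1 (h4 m a b x hm).2.1) (fun n _ => exists_congr fun k => and_congr_right fun _ => ?_) rfl
    rw [bc_thr]
  have ho1 : ∀ (m : ℕ) (b : ℤ) (x : ℝ), 1 ≤ m → KFr {((fun n : ℕ => ∃ k, H k n ∧ ((odn k n : ℝ) ≤
      thr (1 / Real.log (4 / 3)) (Real.log 2 * rr) x (Real.log n) ∧ (odn k n : ℤ) ≡ b [ZMOD m])), δ / (m : ℝ) * Phi x)} := by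
    intro m b x hm
    refine KFr_congr 0 (KFr_of s1 (h4 m 0 b x hm).2.2) (fun n _ => exists_congr fun k => and_congr_right fun _ => ?_) rfl
    rw [bo_thr]
  have hk0 : ∀ x : ℝ, KFr {((fun n : ℕ => ∃ k, H k n ∧ (k : ℝ) ≤
      thr (2 / Real.log (4 / 3)) (Real.log 3 * rr) x (Real.log n)), δ * Phi x)} := fun x => by
    refine KFr_congr 0 (hk1 1 0 0 x le_rfl) (fun n _ => exists_congr fun k => and_congr_right fun _ => ?_) (by simp)
    simp [Int.modEq_one]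
  have hc0 : ∀ x : ℝ, KFr {((fun n : ℕ => ∃ k, H k n ∧ ((k + odn k n : ℕ) : ℝ) ≤
      thr (3 / Real.log (4 / 3)) (Real.log 6 * rr) x (Real.log n)), δ * Phi x)} := fun x => by
    refine KFr_congr 0 (hc1 1 0 0 x le_rfl) (fun n _ => exists_congr fun k => and_congr_right fun _ => ?_) (by simp)
    simp [Int.modEq_one]
  have ho0 : ∀ x : ℝ, KFr {((fun n : ℕ => ∃ k, H k n ∧ (odn k n : ℝ) ≤
      thr (1 / Real.log (4 / 3)) (Real.log 2 * rr) x (Real.log n)), δ * Phi x)} := fun x => by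
    refine KFr_congr 0 (ho1 1 0 x le_rfl) (fun n _ => exists_congr fun k => and_congr_right fun _ => ?_) (by simp)
    simp [Int.modEq_one]
  have hdm : ∀ m : ℕ, 1 ≤ m → (0 ≤ δ / (m : ℝ) ^ 2 ∧ δ / (m : ℝ) ^ 2 ≤ δ) ∧ (0 ≤ δ / (m : ℝ) ∧ δ / (m : ℝ) ≤ δ) := by
    intro m hm
    have hm1 : (1 : ℝ) ≤ m := by exact_mod_cast hm
    exact ⟨⟨by positivity, div_le_self h0.le (one_le_pow₀ hm1)⟩, ⟨by positivity, div_le_self h0.le hm1⟩⟩
  have hred : ∀ (m : ℕ), 1 ≤ m → ∀ a : ℤ, ∃ a' : ℕ, a' < m ∧ ∀ y : ℤ, y ≡ a [ZMOD m] ↔ y ≡ ((a' : ℕ) : ℤ) [ZMOD m] := by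
    intro m hm a
    have hm0 : (0 : ℤ) < m := by exact_mod_cast hm
    have g1 := Int.emod_nonneg a hm0.ne'
    have g2 := Int.emod_lt_of_pos a hm0
    refine ⟨(a % m).toNat, by omega, fun y => ?_⟩
    have g3 : (((a % m).toNat : ℕ) : ℤ) = a % m := Int.toNat_of_nonneg g1
    rw [g3]
    have g4 : a % m ≡ a [ZMOD m] := Int.mod_modEq _ _
    exact ⟨fun h => h.trans g4.symm, fun h => h.trans g4⟩
  refine ⟨δ, h0, h1, h2, h3, hT, fun m hm => ⟨?_, ?_, ?_⟩, fun η hη => ⟨?_, ?_, ?_⟩⟩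
  · have h5 := KFr_biUnion (Finset.range m ×ˢ Finset.range m) (fun i _ => (uniform (f := fun k _ => (k : ℝ))
      (C := fun k n => (k : ℤ) ≡ ((i.1 : ℕ) : ℤ) [ZMOD m] ∧ (odn k n : ℤ) ≡ ((i.2 : ℕ) : ℤ) [ZMOD m])
      (α := 2 / Real.log (4 / 3)) (σ := Real.log 3 * rr) (by positivity) h1 (hdm m hm).1.1 (hdm m hm).1.2 hT hk0
      (fun x => hk1 m i.1 i.2 x hm)).2)
    refine h5.mono ?_
    rintro P ⟨a, b, x, rfl⟩
    obtain ⟨a', ha1, ha2⟩ := hred m hm a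
    obtain ⟨b', hb1, hb2⟩ := hred m hm b
    refine ⟨(a', b'), mem_product.2 ⟨mem_range.2 ha1, mem_range.2 hb1⟩, x, ?_⟩
    congr 1
    funext n
    simp only [ha2, hb2, bk_thr]
  · have h5 := KFr_biUnion (Finset.range m ×ˢ Finset.range m) (fun i _ => (uniform (f := fun k n => ((k + odn k n : ℕ) : ℝ))
      (C := fun k n => ((k + odn k n : ℕ) : ℤ) ≡ ((i.1 : ℕ) : ℤ) [ZMOD m] ∧ (odn k n : ℤ) ≡ ((i.2 : ℕ) : ℤ) [ZMOD m])
      (α := 3 / Real.log (4 / 3)) (σ := Real.log 6 * rr) (by positivity) h1 (hdm m hm).1.1 (hdm m hm).1.2 hT hc0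
      (fun x => hc1 m i.1 i.2 x hm)).2)
    refine h5.mono ?_
    rintro P ⟨a, b, x, rfl⟩
    obtain ⟨a', ha1, ha2⟩ := hred m hm a
    obtain ⟨b', hb1, hb2⟩ := hred m hm b
    refine ⟨(a', b'), mem_product.2 ⟨mem_range.2 ha1, mem_range.2 hb1⟩, x, ?_⟩
    congr 1
    funext n
    simp only [ha2, hb2, bc_thr]
  · have h5 := KFr_biUnion (Finset.range m) (fun i _ => (uniform (f := fun k n => (odn k n : ℝ))
      (C := fun k n => (odn k n : ℤ) ≡ ((i : ℕ) : ℤ) [ZMOD m])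
      (α := 1 / Real.log (4 / 3)) (σ := Real.log 2 * rr) (by positivity) h1 (hdm m hm).2.1 (hdm m hm).2.2 hT ho0
      (fun x => ho1 m i x hm)).2)
    refine h5.mono ?_
    rintro P ⟨b, x, rfl⟩
    obtain ⟨b', hb1, hb2⟩ := hred m hm b
    refine ⟨b', mem_range.2 hb1, x, ?_⟩
    congr 1
    funext n
    simp only [hb2, bo_thr]
  · exact lln (f := fun k _ => (k : ℝ)) (σ := Real.log 3 * rr) (by positivity) h0.le h1 hT hk0 hη
  · exact lln (f := fun k n => ((k + odn k n : ℕ) : ℝ)) (σ := Real.log 6 * rr) (by positivity) h0.le h1 hT hc0 hη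
  · exact lln (f := fun k n => (odn k n : ℝ)) (σ := Real.log 2 * rr) (by positivity) h0.le h1 hT ho0 hη

end Pool.Agent.U596.KF
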