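import Pool.Agent.U596.KR5
import Pool.Agent.TH926.BL.Prm

/-! The distribution of the integers with exactly `k` prime factors in the residue classes modulo powers
of two. -/

set_option autoImplicit false

namespace Pool.Agent.U596.TR

open Pool.Agent.H499R2.ND Finset Pool.Agent.W41 Pool.Agent.W41.FU Pool.Agent.W41.MU Pool.Agent.H376R2.MR ArithmeticFunction
  Pool.Agent.U596.TP Pool.Agent.Y964.LW

open scoped Classical in
/-- almost all elements of `E_k` lie in a set which has few elements in each union of few classes modulo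
a power of two, with a constant independent of the parameter `θ` -/
theorem E_struct (j : ℕ) : ∃ C : ℝ, 1 ≤ C ∧ ∀ ε : ℝ, 0 < ε → ε ≤ 1 →
    ∃ θ0 : ℝ, 0 < θ0 ∧ θ0 ≤ 1 / 2 ∧ ∀ θ : ℝ, 0 < θ → θ ≤ θ0 → ∃ N0 : ℕ, 1 ≤ N0 ∧ ∀ N : ℕ, N0 ≤ N →
    ∃ E' : Finset ℕ, E' ⊆ EE (j + 2) θ N ∧ (((EE (j + 2) θ N) \ E').card : ℝ) ≤ ε * (EE (j + 2) θ N).card ∧
    ∀ i : ℕ, 1 ≤ i → (2 : ℝ) ^ i ≤ (N : ℝ) ^ (1 / 4 : ℝ) → ∀ (P : ℤ → Prop),
      (∀ x m : ℤ, P (x + m * 2 ^ i) ↔ P x) →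
      ((E'.filter (fun n => P ((n : ℕ) : ℤ))).card : ℝ) ≤
        C * ((((range (2 ^ i)).filter (fun a => P ((a : ℕ) : ℤ))).card : ℝ) / 2 ^ i) * (EE (j + 2) θ N).card := by
  obtain ⟨κ, hκd⟩ : ∃ κ : ℝ, κ = 1 / 16 := ⟨_, rfl⟩
  have hκ : 0 < κ := by rw [hκd]; norm_num
  have hκ1 : κ ≤ 1 / 16 := hκd.le
  obtain ⟨K, y0, hK, hy0, hwin⟩ := window (show (0 : ℝ) < 1 by norm_num)
  obtain ⟨C0, hC0, hPI⟩ := PI_sum
  obtain ⟨CV, hCV, hV⟩ := V_up
  obtain ⟨X1, hX1, hlow⟩ := primes_low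
  have hKR : (1 : ℝ) ≤ K := by exact_mod_cast hK
  have hK0 : (0 : ℝ) < K := by linarith
  obtain ⟨D, hD⟩ : ∃ D : ℝ, D = 50 * ((j + 1).factorial : ℝ) := ⟨_, rfl⟩
  have hfac : (1 : ℝ) ≤ ((j + 1).factorial : ℝ) := by exact_mod_cast Nat.factorial_pos (j + 1)
  have hD0 : 0 < D := by rw [hD]; positivity
  have hD1 : 1 ≤ D := by rw [hD]; linarith
  obtain ⟨CC, hCC⟩ : ∃ CC : ℝ, CC = 640 * 4 ^ (j + 1) * D := ⟨_, rfl⟩
  have hCC1 : 1 ≤ CC := by
    rw [hCC]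
    have h4 : (1 : ℝ) ≤ 4 ^ (j + 1) := one_le_pow₀ (by norm_num)
    nlinarith
  refine ⟨CC, hCC1, fun ε hε hε1 => ?_⟩
  -- the parameters
  obtain ⟨ϑ1, hϑ1d⟩ : ∃ ϑ1 : ℝ, ϑ1 = min κ (1 / (4 * (j + 2) * K)) := ⟨_, rfl⟩
  have hjR : (0 : ℝ) ≤ j := Nat.cast_nonneg _
  have hϑ10 : 0 < ϑ1 := by rw [hϑ1d]; positivity
  have hϑ1b : ϑ1 ≤ κ := by rw [hϑ1d]; exact min_le_left _ _
  have hϑ1c' : ϑ1 * (4 * (j + 2) * K) ≤ 1 := by
    have h1 : ϑ1 ≤ 1 / (4 * (j + 2) * K) := by rw [hϑ1d]; exact min_le_right _ _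
    rwa [le_div_iff₀ (by positivity)] at h1
  have hϑ1c : ϑ1 * (j + 2) ≤ 1 / 4 := by nlinarith [mul_pos hϑ10 (show (0 : ℝ) < j + 2 by positivity)]
  have hϑ1d' : ϑ1 * K ≤ 1 / 4 := by nlinarith [mul_pos hϑ10 hK0]
  have hϑ1f : ϑ1 ≤ 1 := by linarith
  obtain ⟨G, hG⟩ : ∃ G : ℝ, G = (4 * CV * (j + 1) / ϑ1) * 4 ^ j * (4 * D) / ε := ⟨_, rfl⟩
  have hG0 : 0 < G := by rw [hG]; positivity
  have hlϑ : 0 ≤ Real.log (1 / ϑ1) := Real.log_nonneg (by rw [le_div_iff₀ hϑ10]; linarith)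
  obtain ⟨L0, hL0⟩ : ∃ L0 : ℝ, L0 = 2 * (Real.log (1 / ϑ1) + C0) + 2 + 2 * G := ⟨_, rfl⟩
  refine ⟨Real.exp (-L0), Real.exp_pos _, ?_, fun θ hθ hθ0 => ?_⟩
  · have h1 : Real.exp (-L0) ≤ Real.exp (-1) := Real.exp_le_exp.2 (by linarith)
    have h2 : Real.exp (-1) ≤ 1 / 2 := by
      rw [Real.exp_neg, inv_le_comm₀ (Real.exp_pos _) (by norm_num)]
      have := Real.add_one_le_exp (1 : ℝ)
      norm_num
      linarith
    linarith
  -- logarithms
  obtain ⟨lam, hlam⟩ : ∃ lam : ℝ, lam = Real.log (1 / θ) := ⟨_, rfl⟩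
  have hlamL : L0 ≤ lam := by
    rw [hlam, one_div, Real.log_inv]
    have h1 := Real.log_le_log hθ hθ0
    rw [Real.log_exp] at h1
    linarith
  have hratio : Real.log (ϑ1 / θ) = lam - Real.log (1 / ϑ1) := by
    rw [hlam, Real.log_div hϑ10.ne' hθ.ne', one_div, one_div, Real.log_inv, Real.log_inv]; ring
  obtain ⟨T0, hT0⟩ : ∃ T0 : ℝ, T0 = lam - Real.log (1 / ϑ1) - C0 := ⟨_, rfl⟩
  obtain ⟨T1, hT1⟩ : ∃ T1 : ℝ, T1 = lam - Real.log (1 / ϑ1) + C0 := ⟨_, rfl⟩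
  have hT0a : lam ≤ 2 * T0 := by rw [hT0]; linarith
  have hT0b : 1 ≤ T0 := by rw [hT0]; linarith
  have hT0c : G ≤ T0 := by rw [hT0]; linarith
  have hT1a : T1 ≤ 4 * T0 := by rw [hT1]; linarith
  have hT1b : 1 ≤ T1 := by rw [hT1]; linarith
  have hθϑ1 : θ ≤ ϑ1 := by
    have h1 : 0 ≤ Real.log (ϑ1 / θ) := by rw [hratio]; linarith
    by_contra hcon
    push Not at hcon
    have h2 : Real.log (ϑ1 / θ) < 0 := Real.log_neg (by positivity) (by rw [div_lt_one hθ]; exact hcon)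
    linarith
  have hθϑ1' : θ < ϑ1 := by
    have h1 : 0 < Real.log (ϑ1 / θ) := by rw [hratio]; linarith
    rcases hθϑ1.lt_or_eq with h2 | h2
    · exact h2
    · rw [h2, div_self hϑ10.ne', Real.log_one] at h1
      exact absurd h1 (lt_irrefl _)
  -- the size of `N`
  have hlim : ∀ᶠ N : ℕ in Filter.atTop, (2 / θ ≤ Real.log N) ∧ (9 ≤ (N : ℝ) ^ κ ∧ (y0 : ℝ) + 9 ≤ (N : ℝ) ^ ϑ1) ∧
      (X1 ≤ (N : ℝ) ^ (3 / 4 : ℝ) ∧ 50 * Real.log N ≤ (N : ℝ) ^ (1 / 2 : ℝ)) ∧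
      (T1 ^ j * (4 * D) / ε * Real.log N ≤ (N : ℝ) ^ θ ∧ (4 * D) / ε * Real.log N ≤ (N : ℝ) ^ (1 / 2 : ℝ)) := by
    have hl : ∀ c : ℝ, ∀ᶠ N : ℕ in Filter.atTop, c ≤ Real.log N :=
      fun c => (Real.tendsto_log_atTop.comp tendsto_natCast_atTop_atTop).eventually_ge_atTop c
    exact (hl _).and (((ev_pow hκ _).and (ev_pow hϑ10 _)).and (((ev_pow (by norm_num) _).and
      (ev_log (by norm_num) (by norm_num))).and ((ev_log hθ (by positivity)).and (ev_log (by norm_num) (by positivity)))))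
  obtain ⟨N0, hN0⟩ := Filter.eventually_atTop.1 hlim
  refine ⟨N0 + 3, by omega, fun N hN => ?_⟩
  obtain ⟨n2, ⟨n3, n4⟩, ⟨n5, n6⟩, ⟨n7, n8⟩⟩ := hN0 N (by omega)
  have hN3 : 3 ≤ N := by omega
  have hNR : (3 : ℝ) ≤ N := by exact_mod_cast hN3
  have hN1 : (1 : ℝ) ≤ N := by linarith
  have hNp : (0 : ℝ) < N := by linarith
  obtain ⟨l, hl⟩ : ∃ l : ℝ, l = Real.log N := ⟨_, rfl⟩
  have hl1 : 1 < l := by
    rw [hl, Real.lt_log_iff_exp_lt hNp]
    have := Real.exp_one_lt_d9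
    linarith
  have hl0 : 0 < l := by linarith
  have hθl : 2 ≤ θ * Real.log N := by
    rw [div_le_iff₀ hθ] at n2
    linarith
  rw [← hl] at n6 n7 n8
  -- the thresholds
  obtain ⟨w, hw⟩ : ∃ w : ℝ, w = (N : ℝ) ^ κ := ⟨_, rfl⟩
  obtain ⟨z, hz⟩ : ∃ z : ℝ, z = (N : ℝ) ^ ϑ1 := ⟨_, rfl⟩
  obtain ⟨y, hy⟩ : ∃ y : ℝ, y = (N : ℝ) ^ θ := ⟨_, rfl⟩
  have hw9 : 9 ≤ w := by rw [hw]; exact n3
  have hz9 : (y0 : ℝ) + 9 ≤ z := by rw [hz]; exact n4
  have hy0R : (0 : ℝ) ≤ y0 := Nat.cast_nonneg _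
  have hz1 : 1 ≤ z := by linarith
  have hz0 : 0 ≤ z := by linarith
  have hyp : 0 < y := by rw [hy]; positivity
  have hyw : (N : ℝ) ^ θ ≤ w := by
    rw [hw]; exact Real.rpow_le_rpow_of_exponent_le hN1 (hθϑ1.trans hϑ1b)
  have hzw : z ≤ w := by rw [hz, hw]; exact Real.rpow_le_rpow_of_exponent_le hN1 hϑ1b
  have hzpow : ∀ i : ℕ, i ≤ j + 2 → z ^ i ≤ (N : ℝ) ^ (1 / 4 : ℝ) := by
    intro i hi
    have h1 : z ^ i ≤ z ^ (j + 2) := pow_le_pow_right₀ hz1 hi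
    refine h1.trans ?_
    rw [hz, ← Real.rpow_natCast, ← Real.rpow_mul hNp.le]
    apply Real.rpow_le_rpow_of_exponent_le hN1
    push_cast
    exact hϑ1c
  obtain ⟨I, hI⟩ : ∃ I : Finset ℕ, I = PI ((N : ℝ) ^ θ) z := ⟨_, rfl⟩
  have hIp : ∀ p ∈ I, p.Prime := fun p hp => by rw [hI, mem_PI hz0] at hp; exact hp.1
  have hIy : ∀ p ∈ I, y < (p : ℝ) := fun p hp => by rw [hI, mem_PI hz0] at hp; rw [hy]; exact hp.2.1
  have hIz : ∀ p ∈ I, (p : ℝ) ≤ z := fun p hp => by rw [hI, mem_PI hz0] at hp; exact hp.2.2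
  have hIw : ∀ p ∈ I, (p : ℝ) ≤ w := fun p hp => (hIz p hp).trans hzw
  have hIs := hPI θ ϑ1 N hθ hθϑ1 (by omega) hθl
  rw [← hz, ← hI, hratio, abs_le] at hIs
  have hIT0 : T0 ≤ ∑ p ∈ I, 1 / (p : ℝ) := by rw [hT0]; linarith [hIs.1]
  have hIT1 : ∑ p ∈ I, 1 / (p : ℝ) ≤ T1 := by rw [hT1]; linarith [hIs.2]
  have hT10 : 0 ≤ T1 := by linarith
  -- elements of `AA` are odd and small
  have hAA : ∀ i ≤ j + 2, ∀ c ∈ AA I i, 0 < c ∧ c % 2 = 1 ∧ (c : ℝ) ≤ (N : ℝ) ^ (1 / 4 : ℝ) := by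
    intro i hi c hc
    refine ⟨AA_pos hIp hc, ?_, (AA_le hz1 hIz i c hc).trans (hzpow i hi)⟩
    by_contra hcon
    have h2 : 2 ∣ c := by omega
    have h3 := ((mem_AA hIp i c).1 hc).2.2 2 Nat.prime_two h2
    have h4 := hIy 2 h3
    have h5 : (2 : ℝ) < y := by
      rw [hy, Real.rpow_def_of_pos hNp]
      have h6 : 2 ≤ Real.log N * θ := by linarith
      have h7 := Real.add_one_le_exp (Real.log N * θ)
      linarith
    push_cast at h4
    linarith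
  -- the sets
  have hEsub : Est I (j + 1) w N ⊆ EE (j + 2) θ N := by
    rw [hI]; exact Est_sub hz0 hyw
  have hcardE : ((Est I (j + 1) w N).card : ℝ) = ∑ b ∈ AA I (j + 1), ((QQ w N b).card : ℝ) := by
    have h1 := Est_sum hIp hIw (J := j + 1) (N := N) (fun _ => (1 : ℝ))
    rw [sum_const, nsmul_eq_mul, mul_one] at h1
    rw [h1]
    apply sum_congr rfl; intro b _
    rw [sum_const, nsmul_eq_mul, mul_one]
  -- the main lower bound
  obtain ⟨Z, hZ⟩ : ∃ Z : ℝ, Z = T0 ^ (j + 1) * (N / l) / D := ⟨_, rfl⟩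
  have hZ0 : 0 < Z := by rw [hZ]; positivity
  have hcardZ : Z ≤ (Est I (j + 1) w N).card := by
    rw [hcardE]
    have h1 : ∀ b ∈ AA I (j + 1), 1 / 50 * (N / l) * (1 / (b : ℝ)) ≤ ((QQ w N b).card : ℝ) := by
      intro b hb
      obtain ⟨hb0, -, hbN⟩ := hAA (j + 1) (by omega) b hb
      have hb0R : (0 : ℝ) < b := by exact_mod_cast hb0
      have hx : (N : ℝ) ^ (3 / 4 : ℝ) ≤ N / b := by
        rw [le_div_iff₀ hb0R]
        calc (N : ℝ) ^ (3 / 4 : ℝ) * b ≤ (N : ℝ) ^ (3 / 4 : ℝ) * (N : ℝ) ^ (1 / 4 : ℝ) :=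
              mul_le_mul_of_nonneg_left hbN (by positivity)
          _ = N := by rw [← Real.rpow_add hNp]; norm_num
      have h2 := QQ_low hlow (show 0 ≤ w by linarith) (N := N) (b := b) (n5.trans hx)
      have hx3 : (1 : ℝ) < N / b := by linarith
      have hxl : Real.log (N / b : ℝ) ≤ l := by
        rw [hl]
        apply Real.log_le_log (by linarith)
        exact div_le_self hNp.le (by exact_mod_cast hb0)
      have hxl0 : 0 < Real.log (N / b : ℝ) := Real.log_pos hx3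
      have h3 : (N / b : ℝ) / l ≤ (N / b : ℝ) / Real.log (N / b : ℝ) :=
        div_le_div_of_nonneg_left (by positivity) hxl0 hxl
      have h4 : w ≤ 1 / 50 * ((N / b : ℝ) / l) := by
        have h5 : w * (50 * l) ≤ N / b := by
          calc w * (50 * l) ≤ (N : ℝ) ^ (1 / 4 : ℝ) * (N : ℝ) ^ (1 / 2 : ℝ) := by
                apply mul_le_mul _ n6 (by positivity) (by positivity)
                rw [hw]
                exact Real.rpow_le_rpow_of_exponent_le hN1 (by linarith)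
            _ = (N : ℝ) ^ (3 / 4 : ℝ) := by rw [← Real.rpow_add hNp]; norm_num
            _ ≤ _ := hx
        rw [mul_div_assoc', le_div_iff₀ hl0]
        linarith
      calc 1 / 50 * (N / l) * (1 / (b : ℝ)) = 1 / 25 * ((N / b : ℝ) / l) - 1 / 50 * ((N / b : ℝ) / l) := by
            field_simp; ring
        _ ≤ 1 / 25 * ((N / b : ℝ) / Real.log (N / b : ℝ)) - w := by
            apply sub_le_sub _ h4
            exact mul_le_mul_of_nonneg_left h3 (by norm_num)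
        _ ≤ _ := h2
    refine le_trans ?_ (sum_le_sum h1)
    rw [← mul_sum]
    have h2 := AA_sum_ge hIp (by linarith : 0 ≤ T0) hIT0 (j + 1)
    have hfp : (0 : ℝ) < ((j + 1).factorial : ℝ) := by linarith
    have h3 : T0 ^ (j + 1) / ((j + 1).factorial : ℝ) ≤ ∑ a ∈ AA I (j + 1), 1 / (a : ℝ) := by
      rw [div_le_iff₀ hfp]; linarith
    calc Z = 1 / 50 * (N / l) * (T0 ^ (j + 1) / ((j + 1).factorial : ℝ)) := by
          rw [hZ, hD]; field_simp
      _ ≤ _ := mul_le_mul_of_nonneg_left h3 (by positivity)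
  have hcardEE : ((Est I (j + 1) w N).card : ℝ) ≤ ((EE (j + 2) θ N).card : ℝ) := by
    exact_mod_cast card_le_card hEsub
  have hT0p : (1 : ℝ) ≤ T0 ^ (j + 1) := one_le_pow₀ hT0b
  -- the exceptional part
  have hrest : (((EE (j + 2) θ N) \ Est I (j + 1) w N).card : ℝ) ≤ ε / 2 * Z := by
    -- sifting
    obtain ⟨zn, hzn⟩ : ∃ zn : ℕ, zn = ⌊z⌋₊ := ⟨_, rfl⟩
    have hzn1 : (zn : ℝ) ≤ z := by rw [hzn]; exact Nat.floor_le hz0
    have hzn2 : z < (zn : ℝ) + 1 := by rw [hzn]; exact Nat.lt_floor_add_one _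
    have hzny : y0 ≤ zn := by
      have : (y0 : ℝ) ≤ zn := by linarith
      exact_mod_cast this
    have hzn3 : 3 ≤ zn := by
      have : (3 : ℝ) ≤ zn := by linarith
      exact_mod_cast this
    obtain ⟨Pz, hPz⟩ : ∃ Pz : Finset ℕ, Pz = (Icc 1 zn).filter Nat.Prime := ⟨_, rfl⟩
    have hPzp : ∀ p ∈ Pz, p.Prime ∧ p ≤ zn := by
      intro p hp
      rw [hPz, mem_filter, mem_Icc] at hp
      exact ⟨hp.2, hp.1.2⟩
    have hVz : V Pz ≤ 2 * CV / (ϑ1 * l) := by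
      have h1 := hV zn hzn3
      rw [← hPz] at h1
      have h2 : ϑ1 * l / 2 ≤ Real.log zn := by
        have h3 := log_floor (show 4 ≤ z by linarith)
        rw [← hzn] at h3
        have h4 : Real.log z = ϑ1 * l := by rw [hz, Real.log_rpow hNp, hl]
        rw [h4] at h3
        exact h3
      refine h1.trans ?_
      calc CV / Real.log zn ≤ CV / (ϑ1 * l / 2) := div_le_div_of_nonneg_left hCV.le (by positivity) h2
        _ = _ := by field_simp
    have hVz0 : 0 < V Pz := V_pos fun p hp => (hPzp p hp).1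
    have hznK : ((zn ^ K : ℕ) : ℝ) ≤ (N : ℝ) ^ (1 / 4 : ℝ) := by
      push_cast
      calc (zn : ℝ) ^ K ≤ z ^ K := pow_le_pow_left₀ (Nat.cast_nonneg _) hzn1 _
        _ = (N : ℝ) ^ (ϑ1 * K) := by rw [hz, ← Real.rpow_natCast, ← Real.rpow_mul hNp.le]
        _ ≤ _ := Real.rpow_le_rpow_of_exponent_le hN1 hϑ1d'
    obtain ⟨R, hR⟩ : ∃ R : ℕ → Finset ℕ, R = fun i => (Icc 1 N).filter (fun n => ∃ c ∈ AA I i, ∃ b : ℕ, n = c * b ∧
      wt Pz 0 1 (b : ℕ) = 1) := ⟨_, rfl⟩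
    have hRc : ∀ i ∈ range (j + 1), ((R i).card : ℝ) ≤ 2 * N * V Pz * T1 ^ j := by
      intro i hi
      rw [mem_range] at hi
      have h1 : ((R i).card : ℝ) ≤ 2 * N * V Pz * T1 ^ i := by
        apply rough_card (P := Pz) hIp hT10 hIT1 hVz0.le i
        · intro c hc
          obtain ⟨hc0, -, hcN⟩ := hAA i (by omega) c hc
          have hc0R : (0 : ℝ) < c := by exact_mod_cast hc0
          have h2 : zn ^ K ≤ N / c := by
            rw [Nat.le_div_iff_mul_le hc0]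
            have h3 : (((zn ^ K * c : ℕ)) : ℝ) ≤ N := by
              push_cast at hznK ⊢
              calc (zn : ℝ) ^ K * c ≤ (N : ℝ) ^ (1 / 4 : ℝ) * (N : ℝ) ^ (1 / 4 : ℝ) :=
                    mul_le_mul hznK hcN hc0R.le (by positivity)
                _ = (N : ℝ) ^ (1 / 2 : ℝ) := by rw [← Real.rpow_add hNp]; norm_num
                _ ≤ (N : ℝ) ^ (1 : ℝ) := Real.rpow_le_rpow_of_exponent_le hN1 (by norm_num)
                _ = N := Real.rpow_one _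
            exact_mod_cast h3
          have h3 := hwin zn hzny (N / c) h2 Pz hPzp 0 1 (one_ndvd fun p hp => (hPzp p hp).1) 1
          rw [abs_le] at h3
          have e1 : ∑ b ∈ Icc 1 (N / c), wt Pz 0 1 (b : ℕ) = ∑ g ∈ range (N / c), wt Pz 0 1 (1 + (g : ℕ)) := by
            have e2 : Icc 1 (N / c) = Ico 1 (N / c + 1) := by ext; simp
            rw [e2, sum_Ico_eq_sum_range, Nat.add_sub_cancel]
            apply sum_congr rfl; intro g _
            push_cast; rfl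
          rw [e1]
          have h4 : ((N / c : ℕ) : ℝ) ≤ N / c := Nat.cast_div_le
          have h5 : ((N / c : ℕ) : ℝ) * V Pz ≤ N / c * V Pz := mul_le_mul_of_nonneg_right h4 hVz0.le
          linarith [h3.2]
        · intro n hn
          rw [hR] at hn
          simp only [mem_filter, mem_Icc] at hn
          exact ⟨hn.1.1, hn.1.2, hn.2⟩
      refine h1.trans ?_
      apply mul_le_mul_of_nonneg_left _ (by positivity)
      exact pow_le_pow_right₀ hT1b (by omega)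
    have hcov : (EE (j + 2) θ N) \ Est I (j + 1) w N ⊆ Icc 1 ⌊(N : ℝ) ^ (1 / 2 : ℝ)⌋₊ ∪ (range (j + 1)).biUnion R := by
      intro n hn
      rw [Finset.mem_sdiff] at hn
      have hn1 := mem_EE.1 hn.1
      have hYb : z ^ (j + 2) * w ≤ (N : ℝ) ^ (1 / 2 : ℝ) := by
        calc z ^ (j + 2) * w ≤ (N : ℝ) ^ (1 / 4 : ℝ) * (N : ℝ) ^ (1 / 4 : ℝ) := by
              apply mul_le_mul (hzpow _ le_rfl) _ (by linarith) (by positivity)
              rw [hw]
              exact Real.rpow_le_rpow_of_exponent_le hN1 (by linarith)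
          _ = _ := by rw [← Real.rpow_add hNp]; norm_num
      rw [hI] at hn
      rcases EE_cover hz1 (by linarith) hYb hn.1 hn.2 with h1 | ⟨i, hi, c, hc, b, hcb, hb⟩
      · rw [mem_union, mem_Icc]
        exact Or.inl ⟨hn1.1, Nat.le_floor h1⟩
      · rw [mem_union, mem_biUnion]
        right
        refine ⟨i, mem_range.2 (by omega), ?_⟩
        rw [hR]
        simp only [mem_filter, mem_Icc]
        refine ⟨⟨hn1.1, hn1.2.1⟩, c, ?_, b, hcb, ?_⟩
        · rw [hI]; exact hc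
        · rw [hPz, hzn]; exact hb
    have h1 : (((EE (j + 2) θ N) \ Est I (j + 1) w N).card : ℝ) ≤ (N : ℝ) ^ (1 / 2 : ℝ) + (j + 1) * (2 * N * V Pz * T1 ^ j) := by
      have h2 := (card_le_card hcov).trans (card_union_le _ _)
      have h3 : ((range (j + 1)).biUnion R).card ≤ ∑ i ∈ range (j + 1), (R i).card := card_biUnion_le
      rw [Nat.card_Icc, Nat.add_sub_cancel] at h2
      have h4 : (((EE (j + 2) θ N) \ Est I (j + 1) w N).card : ℝ) ≤ (⌊(N : ℝ) ^ (1 / 2 : ℝ)⌋₊ : ℕ)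
          + ∑ i ∈ range (j + 1), ((R i).card : ℝ) := by
        exact_mod_cast h2.trans (Nat.add_le_add_left h3 _)
      have h5 : ((⌊(N : ℝ) ^ (1 / 2 : ℝ)⌋₊ : ℕ) : ℝ) ≤ (N : ℝ) ^ (1 / 2 : ℝ) := Nat.floor_le (by positivity)
      have h6 := sum_le_sum hRc
      rw [sum_const, card_range, nsmul_eq_mul] at h6
      push_cast at h6
      linarith
    have h2 : (N : ℝ) ^ (1 / 2 : ℝ) ≤ ε / 4 * Z := by
      have h3 : 4 * D * l ≤ ε * (N : ℝ) ^ (1 / 2 : ℝ) := by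
        have h4 : (4 * D) / ε * l = 4 * D * l / ε := by ring
        rw [h4, div_le_iff₀ hε] at n8
        linarith
      have h4 : (N : ℝ) ^ (1 / 2 : ℝ) * (N : ℝ) ^ (1 / 2 : ℝ) = N := by rw [← Real.rpow_add hNp]; norm_num
      have h5 : (N : ℝ) ^ (1 / 2 : ℝ) * (4 * D * l) ≤ ε * N := by
        calc (N : ℝ) ^ (1 / 2 : ℝ) * (4 * D * l) ≤ (N : ℝ) ^ (1 / 2 : ℝ) * (ε * (N : ℝ) ^ (1 / 2 : ℝ)) :=
              mul_le_mul_of_nonneg_left h3 (by positivity)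
          _ = ε * ((N : ℝ) ^ (1 / 2 : ℝ) * (N : ℝ) ^ (1 / 2 : ℝ)) := by ring
          _ = _ := by rw [h4]
      calc (N : ℝ) ^ (1 / 2 : ℝ) ≤ ε * N / (4 * D * l) := by
            rw [le_div_iff₀ (by positivity)]; exact h5
        _ = ε / 4 * (1 * (N / l) / D) := by field_simp
        _ ≤ ε / 4 * (T0 ^ (j + 1) * (N / l) / D) := by
            apply mul_le_mul_of_nonneg_left _ (by positivity)
            apply div_le_div_of_nonneg_right _ hD0.le
            exact mul_le_mul_of_nonneg_right hT0p (by positivity)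
        _ = _ := by rw [hZ]
    have h3 : (j + 1) * (2 * N * V Pz * T1 ^ j) ≤ ε / 4 * Z := by
      have h4 : T1 ^ j ≤ (4 * T0) ^ j := pow_le_pow_left₀ hT10 hT1a _
      calc (j + 1) * (2 * N * V Pz * T1 ^ j) ≤ (j + 1) * (2 * N * (2 * CV / (ϑ1 * l)) * (4 * T0) ^ j) := by
            apply mul_le_mul_of_nonneg_left _ (by positivity)
            apply mul_le_mul _ h4 (by positivity) (by positivity)
            exact mul_le_mul_of_nonneg_left hVz (by positivity)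
        _ = G * (ε / 4) / D * T0 ^ j * (N / l) := by
            rw [hG, mul_pow]; field_simp; norm_num
        _ ≤ T0 * (ε / 4) / D * T0 ^ j * (N / l) := by
            apply mul_le_mul_of_nonneg_right _ (by positivity)
            apply mul_le_mul_of_nonneg_right _ (by positivity)
            apply div_le_div_of_nonneg_right _ hD0.le
            exact mul_le_mul_of_nonneg_right hT0c (by positivity)
        _ = _ := by rw [hZ, pow_succ]; ring
    linarith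
  refine ⟨Est I (j + 1) w N, hEsub, ?_, fun i hi1 hi P hP => ?_⟩
  · refine hrest.trans ?_
    have h1 := hcardZ.trans hcardEE
    have h2 : ε / 2 * Z ≤ ε * Z := mul_le_mul_of_nonneg_right (by linarith) hZ0.le
    exact h2.trans (mul_le_mul_of_nonneg_left h1 hε.le)
  -- the classes
  obtain ⟨ρ, hρ⟩ : ∃ ρ : ℝ, ρ = (((range (2 ^ i)).filter (fun a : ℕ => P ((a : ℕ) : ℤ))).card : ℝ) / 2 ^ i := ⟨_, rfl⟩
  have hρ0 : 0 ≤ ρ := by rw [hρ]; positivity
  have h2i : (0 : ℝ) < 2 ^ i := by positivity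
  have hQb : ∀ b ∈ AA I (j + 1), ∑ q ∈ QQ w N b, (if P (((b * q : ℕ) : ℕ) : ℤ) then (1 : ℝ) else 0) ≤
      320 * (N / l) * ρ * (1 / (b : ℝ)) := by
    intro b hb
    obtain ⟨hb0, hbodd, hbN⟩ := hAA (j + 1) (by omega) b hb
    have hb0R : (0 : ℝ) < b := by exact_mod_cast hb0
    have hx : (N : ℝ) ^ (3 / 4 : ℝ) ≤ N / b := by
      rw [le_div_iff₀ hb0R]
      calc (N : ℝ) ^ (3 / 4 : ℝ) * b ≤ (N : ℝ) ^ (3 / 4 : ℝ) * (N : ℝ) ^ (1 / 4 : ℝ) :=
            mul_le_mul_of_nonneg_left hbN (by positivity)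
        _ = N := by rw [← Real.rpow_add hNp]; norm_num
    have h34 : (N : ℝ) ^ (1 / 2 : ℝ) ≤ (N : ℝ) ^ (3 / 4 : ℝ) := Real.rpow_le_rpow_of_exponent_le hN1 (by norm_num)
    have hZ2 : (2 : ℝ) ≤ N / b := by
      refine le_trans ?_ (h34.trans hx)
      have : (50 : ℝ) * 1 ≤ 50 * l := by linarith
      linarith
    have hxp : (0 : ℝ) < N / b := by linarith
    have hik : (2 : ℝ) ^ i ≤ ((N : ℝ) / b) ^ (1 / 2 : ℝ) := by
      refine hi.trans ?_
      calc (N : ℝ) ^ (1 / 4 : ℝ) = ((N : ℝ) ^ (1 / 2 : ℝ)) ^ (1 / 2 : ℝ) := by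
            rw [← Real.rpow_mul hNp.le]; norm_num
        _ ≤ _ := Real.rpow_le_rpow (by positivity) (h34.trans hx) (by norm_num)
    have h1 := Pool.Agent.TH926.BL.primes_cls hZ2 hi1 hik hbodd P hP ((QQ w N b).image (fun q => b * q)) (by
      intro m hm
      rw [mem_image] at hm
      obtain ⟨q, hq, rfl⟩ := hm
      rw [mem_QQ] at hq
      refine ⟨q, hq.1, rfl, ?_⟩
      refine le_trans ?_ (Nat.cast_div_le (m := N) (n := b))
      exact_mod_cast hq.2.2)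
    have h2 : ∑ q ∈ QQ w N b, (if P (((b * q : ℕ) : ℕ) : ℤ) then (1 : ℝ) else 0) =
        ((((QQ w N b).image (fun q => b * q)).filter (fun m : ℕ => P ((m : ℕ) : ℤ))).card : ℝ) := by
      rw [card_filter, sum_image]
      · push_cast; rfl
      · intro x _ y _ hxy
        exact Nat.eq_of_mul_eq_mul_left hb0 hxy
    have hlb : l / 2 ≤ Real.log (N / b : ℝ) := by
      have h3 := Real.log_le_log (by positivity) (h34.trans hx)
      rw [Real.log_rpow hNp, ← hl] at h3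
      linarith
    have h3 : (N / b : ℝ) / Real.log (N / b : ℝ) ≤ (N / b : ℝ) / (l / 2) :=
      div_le_div_of_nonneg_left hxp.le (by positivity) hlb
    rw [h2]
    refine h1.trans ?_
    calc 160 * ((N / b : ℝ) / Real.log (N / b : ℝ)) / 2 ^ i *
          (((range (2 ^ i)).filter (fun a : ℕ => P ((a : ℕ) : ℤ))).card : ℝ)
        ≤ 160 * ((N / b : ℝ) / (l / 2)) / 2 ^ i *
          (((range (2 ^ i)).filter (fun a : ℕ => P ((a : ℕ) : ℤ))).card : ℝ) := by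
          apply mul_le_mul_of_nonneg_right _ (Nat.cast_nonneg _)
          apply div_le_div_of_nonneg_right _ h2i.le
          exact mul_le_mul_of_nonneg_left h3 (by norm_num)
      _ = _ := by rw [hρ]; field_simp; ring
  have h1 : (((Est I (j + 1) w N).filter (fun n : ℕ => P ((n : ℕ) : ℤ))).card : ℝ) =
      ∑ b ∈ AA I (j + 1), ∑ q ∈ QQ w N b, (if P (((b * q : ℕ) : ℕ) : ℤ) then (1 : ℝ) else 0) := by
    rw [← Est_sum hIp hIw (J := j + 1) (N := N) (fun n : ℕ => if P ((n : ℕ) : ℤ) then (1 : ℝ) else 0), card_filter]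
    push_cast; rfl
  rw [h1]
  refine (sum_le_sum hQb).trans ?_
  rw [← mul_sum]
  have h2 := AA_sum_le I hT10 hIT1 (j + 1)
  have h3 : T1 ^ (j + 1) ≤ (4 * T0) ^ (j + 1) := pow_le_pow_left₀ hT10 hT1a _
  have h4 : 320 * (N / l) * ρ * ∑ a ∈ AA I (j + 1), 1 / (a : ℝ) ≤ 320 * (N / l) * ρ * (4 * T0) ^ (j + 1) :=
    mul_le_mul_of_nonneg_left (h2.trans h3) (by positivity)
  refine h4.trans ?_
  have h5 : 320 * (N / l) * ρ * (4 * T0) ^ (j + 1) = 320 * 4 ^ (j + 1) * D * ρ * Z := by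
    rw [hZ, mul_pow]; field_simp
  rw [h5, ← hρ]
  have h6 : 320 * 4 ^ (j + 1) * D * ρ * Z ≤ 640 * 4 ^ (j + 1) * D * ρ * Z := by
    have h7 : 0 ≤ 4 ^ (j + 1) * D * ρ * Z := by positivity
    nlinarith
  refine h6.trans ?_
  rw [hCC]
  exact mul_le_mul_of_nonneg_left (hcardZ.trans hcardEE) (by positivity)

end Pool.Agent.U596.TR
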