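import Pool.Agent.U596.KS1
import Pool.Agent.U596.KR9
import Pool.Agent.Y964.LW.D3

/-! Coalescence of the trajectories of `n` and `2 ^ e 3 ^ i n + B` for relatively most integers `n` with
exactly `k` prime factors. -/

set_option autoImplicit false

namespace Pool.Agent.U596.KF

open Finset Filter Topology ArithmeticFunction Pool.Agent.U596.TP Pool.Agent.U596.TR Pool.Agent.Y964.LW
open Pool.Agent.H499R2.CO (Tz surv step q q_lim q_quant count_surv surv_periodic)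
open Pool.Agent.H499R2.ND (Td)
open Pool.Agent.H499R2.LT (od)
open Pool.Agent.Y964.SE
open scoped Classical

/-- relatively negligible properties -/
def Neg (P : ℕ → Prop) : Prop := ∀ k : ℕ, 2 ≤ k → ∀ ε : ℝ, 0 < ε → ∃ θ0 : ℝ, 0 < θ0 ∧ ∀ θ : ℝ, 0 < θ → θ ≤ θ0 →
    ∃ N0 : ℕ, ∀ N : ℕ, N0 ≤ N → ((E k θ N ∩ {n | P n}).ncard : ℝ) ≤ ε * (E k θ N).ncard

theorem KFr_neg {PP QQ : Set ((ℕ → Prop) × ℝ)} {B : ℕ → Prop} (h : KFr PP) (hB : Neg B)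
    (hQ : ∀ Q ∈ QQ, ∃ P ∈ PP, Q.2 = P.2 ∧ ∀ n, ¬ B n → (P.1 n ↔ Q.1 n)) : KFr QQ := by
  intro k Q hk hQ1 ε hε
  obtain ⟨θ0, a1, a2⟩ := h k Q hk hQ1 (ε / 2) (by positivity)
  obtain ⟨θ1, a3, a4⟩ := hB k hk (ε / 2) (by positivity)
  refine ⟨min θ0 θ1, lt_min a1 a3, fun θ b1 b2 => ?_⟩
  obtain ⟨N0, h5⟩ := a2 θ b1 (b2.trans (min_le_left _ _))
  obtain ⟨N1, h6⟩ := a4 θ b1 (b2.trans (min_le_right _ _))
  refine ⟨N0 + N1, fun N hN S r R hR => ?_⟩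
  obtain ⟨P, hP, e1, e2⟩ := hQ R hR
  have c1 := h5 N (by omega) S r P hP
  have c2 := h6 N (by omega)
  have hfin : (E k θ N).Finite := E_fin k θ N
  obtain ⟨A, hA⟩ : ∃ A : Set ℕ, A = E k θ N ∩ W S Q r := ⟨_, rfl⟩
  have hAf : A.Finite := by rw [hA]; exact hfin.subset Set.inter_subset_left
  rw [← hA] at c1 ⊢
  have d1 : A ∩ {n | R.1 n} ⊆ (A ∩ {n | P.1 n}) ∪ (E k θ N ∩ {n | B n}) := by
    rintro n ⟨g1, g2⟩
    by_cases hb : B n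
    · right; exact ⟨by rw [hA] at g1; exact g1.1, hb⟩
    · left; exact ⟨g1, (e2 n hb).2 g2⟩
  have d2 : A ∩ {n | P.1 n} ⊆ (A ∩ {n | R.1 n}) ∪ (E k θ N ∩ {n | B n}) := by
    rintro n ⟨g1, g2⟩
    by_cases hb : B n
    · right; exact ⟨by rw [hA] at g1; exact g1.1, hb⟩
    · left; exact ⟨g1, (e2 n hb).1 g2⟩
  have f1 : ((A ∩ {n | R.1 n}).ncard : ℝ) ≤ (A ∩ {n | P.1 n}).ncard + (E k θ N ∩ {n | B n}).ncard := by
    have := (Set.ncard_le_ncard d1 ((hAf.inter_of_left _).union (hfin.inter_of_left _))).trans (Set.ncard_union_le _ _)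
    exact_mod_cast this
  have f2 : ((A ∩ {n | P.1 n}).ncard : ℝ) ≤ (A ∩ {n | R.1 n}).ncard + (E k θ N ∩ {n | B n}).ncard := by
    have := (Set.ncard_le_ncard d2 ((hAf.inter_of_left _).union (hfin.inter_of_left _))).trans (Set.ncard_union_le _ _)
    exact_mod_cast this
  rw [e1]
  have e3 : ε * ((E k θ N).ncard : ℝ) = ε / 2 * (E k θ N).ncard + ε / 2 * (E k θ N).ncard := by ring
  rw [abs_le] at c1 ⊢
  obtain ⟨c3, c4⟩ := c1
  constructor <;> linarith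

theorem Neg.one {B : ℕ → Prop} {QQ : Set ((ℕ → Prop) × ℝ)} (hB : Neg B)
    (h : ∀ Q ∈ QQ, Q.2 = 1 ∧ ∀ n, ¬ B n → Q.1 n) : KFr QQ :=
  KFr_neg KFr_true hB (fun Q hQ => ⟨_, rfl, (h Q hQ).1, fun n hn => ⟨fun _ => (h Q hQ).2 n hn, fun _ => trivial⟩⟩)

theorem Neg.or {P Q R : ℕ → Prop} (hP : Neg P) (hQ : Neg Q) (hR : ∀ n, R n → P n ∨ Q n) : Neg R := by
  intro k hk ε hε
  obtain ⟨θ0, a1, a2⟩ := hP k hk (ε / 2) (by positivity)
  obtain ⟨θ1, a3, a4⟩ := hQ k hk (ε / 2) (by positivity)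
  refine ⟨min θ0 θ1, lt_min a1 a3, fun θ b1 b2 => ?_⟩
  obtain ⟨N0, h5⟩ := a2 θ b1 (b2.trans (min_le_left _ _))
  obtain ⟨N1, h6⟩ := a4 θ b1 (b2.trans (min_le_right _ _))
  refine ⟨N0 + N1, fun N hN => ?_⟩
  have c1 := h5 N (by omega)
  have c2 := h6 N (by omega)
  have hfin : (E k θ N).Finite := E_fin k θ N
  have d1 : E k θ N ∩ {n | R n} ⊆ (E k θ N ∩ {n | P n}) ∪ (E k θ N ∩ {n | Q n}) := by
    rintro n ⟨g1, g2⟩
    rcases hR n g2 with h | h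
    · left; exact ⟨g1, h⟩
    · right; exact ⟨g1, h⟩
  have f1 : ((E k θ N ∩ {n | R n}).ncard : ℝ) ≤ (E k θ N ∩ {n | P n}).ncard + (E k θ N ∩ {n | Q n}).ncard := by
    have := (Set.ncard_le_ncard d1 ((hfin.inter_of_left _).union (hfin.inter_of_left _))).trans (Set.ncard_union_le _ _)
    exact_mod_cast this
  have e3 : ε * ((E k θ N).ncard : ℝ) = ε / 2 * (E k θ N).ncard + ε / 2 * (E k θ N).ncard := by ring
  linarith

theorem Neg.mono {P Q : ℕ → Prop} (h : Neg P) (hPQ : ∀ n, Q n → P n) : Neg Q :=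
  Neg.or h h fun n hn => Or.inl (hPQ n hn)

theorem Neg_lt (n0 : ℕ) : Neg (fun n => n < n0) := by
  intro k hk ε hε
  refine ⟨1, one_pos, fun θ h1 h2 => ?_⟩
  obtain ⟨N0, h3⟩ := E_large hk h1 n0
  refine ⟨N0, fun N hN => ?_⟩
  have h4 := h3 N hN
  have h5 : E k θ N ∩ {n | n < n0} = ∅ := by
    rw [Set.eq_empty_iff_forall_notMem]
    rintro n ⟨g1, g2⟩
    have := h4 n g1
    have g3 : n < n0 := g2
    omega
  rw [h5, Set.ncard_empty, Nat.cast_zero]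
  positivity

/-- the basic estimate -/
theorem coalE_core {k : ℕ} (hk : 2 ≤ k) {ε : ℝ} (hε : 0 < ε) :
    ∃ (η θ0 : ℝ), 0 < η ∧ 0 < θ0 ∧ ∀ θ : ℝ, 0 < θ → θ ≤ θ0 → ∃ N0 : ℕ, ∀ N : ℕ, N0 ≤ N → ∀ s : ℤ, s = 1 ∨ s = -1 →
    ∀ (i : ℕ) (B : ℤ), q step (0, 0) (Nat.log 2 N / 4) (i, B) ≤ η →
    ((E k θ N ∩ {n | ¬ Coal s i B n}).ncard : ℝ) ≤ ε * (E k θ N).ncard := by
  obtain ⟨c, hc, θ2, hθ2, hlow⟩ := E_low hk
  obtain ⟨j, rfl⟩ : ∃ j, k = j + 2 := ⟨k - 2, by omega⟩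
  obtain ⟨C, hC, H⟩ := E_struct j
  obtain ⟨θ1, hθ1, -, H1⟩ := H (min (ε / 3) 1) (lt_min (by positivity) one_pos) (min_le_right _ _)
  refine ⟨ε / (3 * C), min θ1 θ2, by positivity, lt_min hθ1 hθ2, fun θ h1 h2 => ?_⟩
  obtain ⟨N1, -, H2⟩ := H1 θ h1 (h2.trans (min_le_left _ _))
  obtain ⟨N2, H3⟩ := hlow θ h1 (h2.trans (min_le_right _ _))
  have hev : ∀ᶠ N : ℕ in Filter.atTop, 3 / (ε * c) * Real.log N ≤ (N : ℝ) ^ (1 / 2 : ℝ) :=
    ev_log (by norm_num) (by positivity)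
  obtain ⟨N3, H4⟩ := Filter.eventually_atTop.1 hev
  refine ⟨N1 + N2 + N3 + 16, fun N hN s hs i B hq => ?_⟩
  obtain ⟨E', hE', hE2, hE3⟩ := H2 N (by omega)
  have hl := H3 N (by omega)
  have hlg := H4 N (by omega)
  have hN16 : 16 ≤ N := by omega
  have hNp : (0 : ℝ) < N := by exact_mod_cast (by omega : 0 < N)
  have hlog : 0 < Real.log N := Real.log_pos (by exact_mod_cast (by omega : 1 < N))
  obtain ⟨t, ht⟩ : ∃ t : ℕ, t = Nat.log 2 N / 4 := ⟨_, rfl⟩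
  rw [← ht] at hq
  have ht1 : 1 ≤ t := by
    have : 4 ≤ Nat.log 2 N := Nat.le_log_of_pow_le (by norm_num) (by norm_num; omega)
    omega
  have h4t : 2 ^ (4 * t) ≤ N := by
    refine le_trans (Nat.pow_le_pow_right (by norm_num) ?_) (Nat.pow_log_le_self 2 (by omega : N ≠ 0))
    omega
  have h4tR : ((2 : ℝ) ^ t) ^ 4 ≤ N := by
    rw [← pow_mul, mul_comm t 4]
    exact_mod_cast h4t
  have h2t : (2 : ℝ) ^ t ≤ (N : ℝ) ^ (1 / 4 : ℝ) := by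
    have h5 : (((2 : ℝ) ^ t) ^ 4) ^ (1 / 4 : ℝ) ≤ (N : ℝ) ^ (1 / 4 : ℝ) :=
      Real.rpow_le_rpow (by positivity) h4tR (by norm_num)
    have h6 : (((2 : ℝ) ^ t) ^ 4) ^ (1 / 4 : ℝ) = 2 ^ t := by
      rw [← Real.rpow_natCast ((2 : ℝ) ^ t) 4, ← Real.rpow_mul (by positivity)]; norm_num
    rw [h6] at h5
    exact h5
  have h4s : (4 : ℝ) ^ t ≤ (N : ℝ) ^ (1 / 2 : ℝ) := by
    have h5 : (4 : ℝ) ^ t = (2 : ℝ) ^ t * 2 ^ t := by rw [← mul_pow]; norm_num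
    have h6 : (N : ℝ) ^ (1 / 2 : ℝ) = (N : ℝ) ^ (1 / 4 : ℝ) * (N : ℝ) ^ (1 / 4 : ℝ) := by
      rw [← Real.rpow_add hNp]; norm_num
    rw [h5, h6]
    exact mul_le_mul h2t h2t (by positivity) (by positivity)
  have hd2 : s % 2 = 1 := by rcases hs with rfl | rfl <;> rfl
  have hcls := hE3 t ht1 h2t (fun x => surv s t (i, B) x) (fun x m => surv_periodic hd2 t (i, B) x m)
  have hcount : ((((range (2 ^ t)).filter (fun b : ℕ => surv s t (i, B) ((b : ℕ) : ℤ))).card : ℝ)) / 2 ^ t ≤ ε / (3 * C) := by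
    have h5 := count_surv hd2 t (i, B)
    rw [← sum_filter, sum_const, nsmul_eq_mul, mul_one] at h5
    have h6 : (((range (2 ^ t)).filter (fun b : ℕ => surv s t (i, B) ((b : ℕ) : ℤ))).card : ℝ) =
        2 ^ t * q step (0, 0) t (i, B) := by
      rw [← h5]
    rw [h6, mul_div_assoc, mul_comm, div_mul_cancel₀ _ (by positivity)]
    exact hq
  obtain ⟨M, hM⟩ : ∃ M : ℝ, M = ((EE (j + 2) θ N).card : ℝ) := ⟨_, rfl⟩
  have hM0 : 0 ≤ M := by rw [hM]; exact Nat.cast_nonneg _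
  rw [E_card] at hl ⊢
  rw [← hM] at hl hE2 hcls ⊢
  have g1 : (((E').filter (fun n : ℕ => surv s t (i, B) ((n : ℕ) : ℤ))).card : ℝ) ≤ ε / 3 * M := by
    refine hcls.trans ?_
    apply mul_le_mul_of_nonneg_right _ hM0
    calc C * ((((range (2 ^ t)).filter (fun b : ℕ => surv s t (i, B) ((b : ℕ) : ℤ))).card : ℝ) / 2 ^ t) ≤ C * (ε / (3 * C)) :=
          mul_le_mul_of_nonneg_left hcount (by linarith)
      _ = ε / 3 := by field_simp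
  have g2 : (((EE (j + 2) θ N) \ E').card : ℝ) ≤ ε / 3 * M :=
    hE2.trans (mul_le_mul_of_nonneg_right (min_le_left _ _) hM0)
  have g3 : (4 : ℝ) ^ t ≤ ε / 3 * M := by
    refine h4s.trans ?_
    have h8 : (N : ℝ) ^ (1 / 2 : ℝ) * (N : ℝ) ^ (1 / 2 : ℝ) = N := by
      rw [← Real.rpow_add hNp]; norm_num
    have h9 : 3 * Real.log N ≤ ε * c * (N : ℝ) ^ (1 / 2 : ℝ) := by
      have h10 : 3 / (ε * c) * Real.log N = 3 * Real.log N / (ε * c) := by ring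
      rw [h10, div_le_iff₀ (by positivity)] at hlg
      linarith
    have h11 : (N : ℝ) ^ (1 / 2 : ℝ) ≤ ε / 3 * (c * (N / Real.log N)) := by
      have h12 : ε / 3 * (c * (N / Real.log N)) = ε * c * N / (3 * Real.log N) := by field_simp
      rw [h12, le_div_iff₀ (by positivity)]
      calc (N : ℝ) ^ (1 / 2 : ℝ) * (3 * Real.log N) ≤ (N : ℝ) ^ (1 / 2 : ℝ) * (ε * c * (N : ℝ) ^ (1 / 2 : ℝ)) :=
            mul_le_mul_of_nonneg_left h9 (by positivity)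
        _ = ε * c * ((N : ℝ) ^ (1 / 2 : ℝ) * (N : ℝ) ^ (1 / 2 : ℝ)) := by ring
        _ = _ := by rw [h8]
    exact h11.trans (mul_le_mul_of_nonneg_left hl (by positivity))
  have hcov : E (j + 2) θ N ∩ {n | ¬ Coal s i B n} ⊆
      ((((EE (j + 2) θ N) \ E') ∪ (E').filter (fun n : ℕ => surv s t (i, B) ((n : ℕ) : ℤ)) ∪ range (4 ^ t) : Finset ℕ) : Set ℕ) := by
    rintro n ⟨m1, m2⟩
    rw [E_eq, Finset.mem_coe] at m1
    rw [Finset.mem_coe, mem_union, mem_union, Finset.mem_sdiff, mem_filter, mem_range]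
    by_cases h5 : n < 4 ^ t
    · exact Or.inr h5
    · left
      by_cases h6 : n ∈ E'
      · right
        refine ⟨h6, ?_⟩
        by_contra hcon
        exact m2 (not_surv_coal hs hcon (by omega))
      · exact Or.inl ⟨m1, h6⟩
  have hcard := Set.ncard_le_ncard hcov (Finset.finite_toSet _)
  rw [Set.ncard_coe_finset] at hcard
  have hcard2 := hcard.trans ((card_union_le _ _).trans (Nat.add_le_add_right (card_union_le _ _) _))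
  rw [card_range] at hcard2
  have hcard3 : ((E (j + 2) θ N ∩ {n | ¬ Coal s i B n}).ncard : ℝ) ≤
      ((((EE (j + 2) θ N) \ E').card : ℝ) + (((E').filter (fun n : ℕ => surv s t (i, B) ((n : ℕ) : ℤ))).card : ℝ)) + (4 : ℝ) ^ t := by
    exact_mod_cast hcard2
  linarith

/-- coalescence for relatively almost all integers with exactly `k` prime factors -/
theorem coalE_fix {s : ℤ} (hs : s = 1 ∨ s = -1) (i : ℕ) (B : ℤ) : Neg (fun n => ¬ Coal s i B n) := by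
  intro k hk ε hε
  obtain ⟨η, θ0, hη, hθ0, H⟩ := coalE_core hk hε
  obtain ⟨k0, hk0⟩ := eventually_atTop.1 ((q_lim (i, B)).eventually_lt_const hη)
  refine ⟨θ0, hθ0, fun θ h1 h2 => ?_⟩
  obtain ⟨N1, H1⟩ := H θ h1 h2
  refine ⟨max N1 (2 ^ (4 * k0)), fun N hN => ?_⟩
  exact H1 N ((le_max_left _ _).trans hN) s hs i B
    (hk0 _ (log_large k0 ((le_max_right _ _).trans hN))).le

/-- coalescence with shifts of size `N ^ ϑ` -/
theorem coalE_unif {k : ℕ} (hk : 2 ≤ k) {ε : ℝ} (hε : 0 < ε) :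
    ∃ ϑ θ0 : ℝ, 0 < ϑ ∧ 0 < θ0 ∧ ∀ θ : ℝ, 0 < θ → θ ≤ θ0 → ∃ N0 : ℕ, ∀ N : ℕ, N0 ≤ N → ∀ s : ℤ, s = 1 ∨ s = -1 →
    ∀ B : ℤ, |(B : ℝ)| ≤ (N : ℝ) ^ ϑ → ((E k θ N ∩ {n | ¬ Coal s 0 B n}).ncard : ℝ) ≤ ε * (E k θ N).ncard := by
  obtain ⟨η, θ0, hη, hθ0, H⟩ := coalE_core hk hε
  obtain ⟨ϑ, hϑ, k0, hk0⟩ := q_quant (ε := min η 1) (lt_min hη one_pos) (min_le_right _ _)
  refine ⟨ϑ / 8, θ0, by positivity, hθ0, fun θ h1 h2 => ?_⟩
  obtain ⟨N1, H1⟩ := H θ h1 h2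
  refine ⟨max N1 (2 ^ (4 * (k0 + 1))), fun N hN s hs B hB => ?_⟩
  have hkl := log_large (k0 + 1) ((le_max_right _ _).trans hN)
  obtain ⟨t, htd⟩ : ∃ t : ℕ, t = Nat.log 2 N / 4 := ⟨_, rfl⟩
  refine H1 N ((le_max_left _ _).trans hN) s hs 0 B ?_
  rw [← htd] at hkl ⊢
  refine (hk0 t (by omega) B ?_).trans (min_le_left _ _)
  refine hB.trans ?_
  have hNlt : N < 2 ^ (4 * t + 4) := by
    have h2 : N < 2 ^ (Nat.log 2 N + 1) := Nat.lt_pow_succ_log_self (by norm_num) N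
    refine h2.trans_le (Nat.pow_le_pow_right (by norm_num) ?_)
    omega
  have hNR : (N : ℝ) ≤ (2 : ℝ) ^ ((4 * t + 4 : ℕ) : ℝ) := by
    rw [Real.rpow_natCast]
    exact_mod_cast hNlt.le
  have hkR : (1 : ℝ) ≤ t := by exact_mod_cast (by omega : 1 ≤ t)
  calc (N : ℝ) ^ (ϑ / 8) ≤ ((2 : ℝ) ^ ((4 * t + 4 : ℕ) : ℝ)) ^ (ϑ / 8) :=
        Real.rpow_le_rpow (Nat.cast_nonneg _) hNR (by positivity)
    _ = (2 : ℝ) ^ (((4 * t + 4 : ℕ) : ℝ) * (ϑ / 8)) := by rw [← Real.rpow_mul (by norm_num)]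
    _ ≤ (2 : ℝ) ^ (ϑ * t) := by
        apply Real.rpow_le_rpow_of_exponent_le (by norm_num)
        push_cast
        nlinarith

/-- most shifts, for relatively most integers -/
theorem coalE_most {k : ℕ} (hk : 2 ≤ k) {ε : ℝ} (hε : 0 < ε) :
    ∃ ϑ θ0 : ℝ, 0 < ϑ ∧ 0 < θ0 ∧ ∀ θ : ℝ, 0 < θ → θ ≤ θ0 → ∃ N0 : ℕ, ∀ N : ℕ, N0 ≤ N → ∀ s : ℤ, s = 1 ∨ s = -1 →
    ∀ L : ℕ, (L : ℝ) ≤ (N : ℝ) ^ ϑ →
    ((E k θ N ∩ {n | ε * (2 * L + 1) < (#{B ∈ Icc (-(L : ℤ)) L | ¬ Coal s 0 B n} : ℝ)}).ncard : ℝ) ≤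
      ε * (E k θ N).ncard := by
  obtain ⟨ϑ, θ0, hϑ, hθ0, H⟩ := coalE_unif hk (show 0 < ε * ε by positivity)
  refine ⟨ϑ, θ0, hϑ, hθ0, fun θ g1 g2 => ?_⟩
  obtain ⟨N0, h1⟩ := H θ g1 g2
  refine ⟨N0, fun N hN s hs L hL => ?_⟩
  have hL0 : (0 : ℝ) < 2 * L + 1 := by positivity
  have hcard : (#(Icc (-(L : ℤ)) L) : ℝ) = 2 * L + 1 := by
    rw [Int.card_Icc]
    have : ((L : ℤ) + 1 - -(L : ℤ)).toNat = 2 * L + 1 := by omega
    rw [this]; push_cast; ring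
  have hset : ∀ P : ℕ → Prop, ((E k θ N ∩ {n | P n}).ncard : ℝ) = ∑ n ∈ EE k θ N, (if P n then (1 : ℝ) else 0) := by
    intro P
    have h2 : E k θ N ∩ {n | P n} = (((EE k θ N).filter (fun n => P n) : Finset ℕ) : Set ℕ) := by
      ext n
      rw [Set.mem_inter_iff, E_eq, Finset.mem_coe, Finset.mem_coe, mem_filter, Set.mem_setOf_eq]
    rw [h2, Set.ncard_coe_finset, ← sum_filter, sum_const, nsmul_eq_mul, mul_one]
  have e1 : ∑ n ∈ EE k θ N, (#{B ∈ Icc (-(L : ℤ)) L | ¬ Coal s 0 B n} : ℝ) =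
      ∑ B ∈ Icc (-(L : ℤ)) L, ∑ n ∈ EE k θ N, (if ¬ Coal s 0 B n then (1 : ℝ) else 0) := by
    rw [sum_comm]
    apply sum_congr rfl
    intro n _
    rw [← sum_filter, sum_const, nsmul_eq_mul, mul_one]
  have e2 : ∑ B ∈ Icc (-(L : ℤ)) L, ∑ n ∈ EE k θ N, (if ¬ Coal s 0 B n then (1 : ℝ) else 0) ≤
      (2 * L + 1) * (ε * ε * (E k θ N).ncard) := by
    have h2 : ∀ B ∈ Icc (-(L : ℤ)) L, ∑ n ∈ EE k θ N, (if ¬ Coal s 0 B n then (1 : ℝ) else 0) ≤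
        ε * ε * (E k θ N).ncard := by
      intro B hB
      rw [mem_Icc] at hB
      have h5 := h1 N hN s hs B (by
        refine le_trans ?_ hL
        rw [abs_le]
        constructor
        · have := hB.1; exact_mod_cast this
        · exact_mod_cast hB.2)
      rw [hset (fun n => ¬ Coal s 0 B n)] at h5
      refine le_trans (le_of_eq (sum_congr rfl fun n _ => ?_)) h5
      by_cases hC : Coal s 0 B n
      · rw [if_neg (not_not.2 hC), if_neg (not_not.2 hC)]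
      · rw [if_pos hC, if_pos hC]
    refine (sum_le_sum h2).trans (le_of_eq ?_)
    rw [sum_const, nsmul_eq_mul, hcard]
  have e3 : (ε * (2 * L + 1)) * ∑ n ∈ EE k θ N,
      (if ε * (2 * L + 1) < (#{B ∈ Icc (-(L : ℤ)) L | ¬ Coal s 0 B n} : ℝ) then (1 : ℝ) else 0) ≤
      ∑ n ∈ EE k θ N, (#{B ∈ Icc (-(L : ℤ)) L | ¬ Coal s 0 B n} : ℝ) := by
    rw [mul_sum]
    apply sum_le_sum
    intro n _
    split_ifs with h2
    · rw [mul_one]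
      exact h2.le
    · rw [mul_zero]
      exact Nat.cast_nonneg _
  rw [e1] at e3
  have e4 := e3.trans e2
  have e5 : (2 * (L : ℝ) + 1) * (ε * ε * ((E k θ N).ncard : ℝ)) = (ε * (2 * L + 1)) * (ε * (E k θ N).ncard) := by ring
  rw [e5] at e4
  rw [hset]
  exact le_of_mul_le_mul_left e4 (by positivity)

/-- merging with the affine images -/
theorem aff_mergeE {s : ℤ} (hs : s = 1 ∨ s = -1) (e i : ℕ) (B : ℤ) :
    Neg (fun n => ¬ ∃ t : ℕ, 4 ^ t ≤ n ∧ (Td 1)^[t + e] (2 ^ e * 3 ^ i * (s * n) + B) = (Td 1)^[t] (s * n)) := by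
  refine Neg.mono (coalE_fix hs (oc 1 e B + i) ((Td 1)^[e] B)) (fun n hn hC => hn ?_)
  obtain ⟨t, h1, h2, _⟩ := hC
  refine ⟨t, h1, ?_⟩
  rw [Function.iterate_add_apply, mul_assoc, Td_aff, ← mul_assoc, ← pow_add, h2]

/-- merging before any visit of `a` -/
theorem aff_visitE {s : ℤ} (hs : s = 1 ∨ s = -1) (e i : ℕ) (B a : ℤ) :
    Neg (fun n => ¬ ((∃ t : ℕ, 4 ^ t ≤ n ∧ (Td 1)^[t + e] (2 ^ e * 3 ^ i * (s * n) + B) = (Td 1)^[t] (s * n)) ∧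
      ∀ k : ℕ, FV a k (s * n) ↔ FV a (k + e) (2 ^ e * 3 ^ i * (s * n) + B))) := by
  obtain ⟨n0, hn0⟩ := large_before hs e i B a.natAbs
  refine Neg.or (aff_mergeE hs e i B) (Neg_lt n0) fun n hn => ?_
  by_contra hcon
  rw [not_or, not_not, not_lt] at hcon
  obtain ⟨⟨t, h1, h2⟩, h3⟩ := hcon
  apply hn
  refine ⟨⟨t, h1, h2⟩, ?_⟩
  obtain ⟨h4, h5⟩ := hn0 n h3 t h1
  have hne : ∀ z : ℤ, ((a.natAbs : ℕ) : ℤ) < |z| → z ≠ a := by
    intro z hz hza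
    rw [hza, Int.abs_eq_natAbs] at hz
    exact lt_irrefl _ hz
  exact FV_shift h2 (fun j hj => hne _ (h4 j hj)) (fun j hj => hne _ (h5 j hj))

end Pool.Agent.U596.KF
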