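import Pool.Agent.W41.Core2
import Pool.Agent.W41.MU4
import Pool.Agent.H376R2.MR.Mert

/-! Local constancy of functions on coalescing trajectories along sifted sets; products over primes. -/

set_option autoImplicit false

namespace Pool.Agent.U596.TP

open Pool.Agent.H320R2.PD Pool.Agent.H499R2.ND Finset Pool.Agent.H499R2.CO Pool.Agent.W41.FU Pool.Agent.W41

/-- LOCAL CONSTANCY ALONG SIFTED SETS, with an absolute sieve level. -/
theorem lcw {d : ℤ} (hd : Odd d) (hdd : d * d = 1) : ∃ κ : ℝ, 0 < κ ∧ κ ≤ 1 / 4 ∧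
    ∀ ε : ℝ, 0 < ε → ε ≤ 1 → ∃ θ : ℝ, 0 < θ ∧ θ ≤ 1 / 2 ∧ ∃ M0 : ℕ, 1 ≤ M0 ∧ ∀ M : ℕ, M0 ≤ M →
      ∀ P : Finset ℕ, (∀ p ∈ P, p.Prime ∧ (p : ℝ) ≤ (M : ℝ) ^ κ) → ∀ f ∈ SameT d, ∀ c : ℤ, c % 2 = 1 →
      ∀ x0 h : ℤ, |(h : ℝ)| ≤ (M : ℝ) ^ θ →
      ∑ m ∈ Icc 1 M, wt P 0 1 (m : ℕ) * |f (x0 + c * (m : ℕ) + h) - f (x0 + c * (m : ℕ))| ≤ ε * (M * V P) := by
  classical
  have hdm : d % 2 = 1 := by obtain ⟨t, ht⟩ := hd; omega
  obtain ⟨K, y0, hK, hy0, hs⟩ := surv_sum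
  have hKR : (1 : ℝ) ≤ K := by exact_mod_cast hK
  have hK0 : (0 : ℝ) < K := by linarith
  refine ⟨1 / (4 * K), by positivity, by
    rw [div_le_div_iff₀ (by positivity) (by norm_num)]; linarith, fun ε hε hε1 => ?_⟩
  obtain ⟨θ, hθ, k0, hq⟩ := q_quant (show 0 < ε / 16 by positivity) (by linarith)
  have hl1 := Real.log_two_lt_d9
  have hl2 := Real.log_two_gt_d9
  have hl0 : 0 < Real.log 2 := by linarith
  refine ⟨min (1 / 2) (θ / 4), by positivity, min_le_left _ _, ?_⟩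
  set η := min (1 / 2) (θ / 4) with hη
  have hη0 : 0 < η := by positivity
  have hηθ : η ≤ θ / 4 := min_le_right _ _
  refine ⟨⌈Real.exp (2 * ((k0 : ℝ) + 1) + 8)⌉₊ + (y0 ^ K) ^ 2 + 1, by omega, ?_⟩
  intro N hN P hP f hf c hc x0 h hh
  have hN1 : 1 ≤ N := by omega
  have hNR : (1 : ℝ) ≤ N := by exact_mod_cast hN1
  have hN2 : Real.exp (2 * ((k0 : ℝ) + 1) + 8) ≤ N := by
    have h1 : ⌈Real.exp (2 * ((k0 : ℝ) + 1) + 8)⌉₊ ≤ N := by omega
    exact (Nat.le_ceil _).trans (by exact_mod_cast h1)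
  have hN3 : (y0 ^ K) ^ 2 ≤ N := by omega
  set t := Real.log N with ht
  have hexp : Real.exp t = N := Real.exp_log (by linarith)
  have htk : 2 * ((k0 : ℝ) + 1) + 8 ≤ t := by
    rw [← Real.log_exp (2 * ((k0 : ℝ) + 1) + 8)]
    exact Real.log_le_log (Real.exp_pos _) hN2
  have hk00 : (0 : ℝ) ≤ k0 := Nat.cast_nonneg _
  have htpos : 0 < t := by linarith
  set k := ⌊t / (2 * Real.log 2)⌋₊ with hk
  have hk1 : (k : ℝ) ≤ t / (2 * Real.log 2) := Nat.floor_le (by positivity)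
  have hk1' : (k : ℝ) * Real.log 2 ≤ t / 2 := by
    rw [le_div_iff₀ (by positivity)] at hk1; linarith
  have hk2 : t / (2 * Real.log 2) - 1 ≤ k := by linarith [Nat.lt_floor_add_one (t / (2 * Real.log 2))]
  have hk2' : t / 2 - Real.log 2 ≤ k * Real.log 2 := by
    have e : t / (2 * Real.log 2) * Real.log 2 = t / 2 := by field_simp
    nlinarith
  have hkk0 : k0 ≤ k := by
    have h1 : (k0 : ℝ) ≤ t / (2 * Real.log 2) := by
      rw [le_div_iff₀ (by positivity)]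
      nlinarith
    exact Nat.le_floor h1
  have h2k : ((2 : ℝ) ^ k) ^ 2 ≤ N := by
    have h2 : (2 : ℝ) ^ k = Real.exp (k * Real.log 2) := by
      rw [Real.exp_nat_mul, Real.exp_log (by norm_num)]
    rw [h2, ← Real.exp_nat_mul, ← hexp]
    apply Real.exp_le_exp.2
    push_cast
    linarith
  -- the level
  set y := max y0 ⌊(N : ℝ) ^ (1 / (4 * K) : ℝ)⌋₊ with hy
  have hyy : y0 ≤ y := le_max_left _ _
  have hyK : (y ^ K) ^ 2 ≤ N := by
    rcases le_total y0 ⌊(N : ℝ) ^ (1 / (4 * K) : ℝ)⌋₊ with h1 | h1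
    · rw [hy, max_eq_right h1]
      have h2 : ((⌊(N : ℝ) ^ (1 / (4 * K) : ℝ)⌋₊ : ℕ) : ℝ) ≤ (N : ℝ) ^ (1 / (4 * K) : ℝ) := Nat.floor_le (by positivity)
      have h3 : (((⌊(N : ℝ) ^ (1 / (4 * K) : ℝ)⌋₊ : ℕ) : ℝ) ^ K) ^ 2 ≤ N := by
        calc (((⌊(N : ℝ) ^ (1 / (4 * K) : ℝ)⌋₊ : ℕ) : ℝ) ^ K) ^ 2
            ≤ (((N : ℝ) ^ (1 / (4 * K) : ℝ)) ^ K) ^ 2 :=
              pow_le_pow_left₀ (by positivity) (pow_le_pow_left₀ (by positivity) h2 _) _
          _ = (N : ℝ) ^ (1 / 2 : ℝ) := by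
              rw [← Real.rpow_natCast, ← Real.rpow_natCast, ← Real.rpow_mul (by positivity), ← Real.rpow_mul (by positivity)]
              congr 1
              push_cast
              field_simp
              norm_num
          _ ≤ (N : ℝ) ^ (1 : ℝ) := Real.rpow_le_rpow_of_exponent_le hNR (by norm_num)
          _ = N := Real.rpow_one _
      exact_mod_cast h3
    · rw [hy, max_eq_left h1]; exact hN3
  have hPy : ∀ p ∈ P, p.Prime ∧ p ≤ y := by
    intro p hp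
    refine ⟨(hP p hp).1, (Nat.le_floor (hP p hp).2).trans (le_max_right _ _)⟩
  have hcond : 2 ^ k * y ^ K ≤ N := by
    have h1 : (2 ^ k) ^ 2 ≤ N := by exact_mod_cast h2k
    by_contra hcon
    push Not at hcon
    have h3 : N * N < (2 ^ k * y ^ K) * (2 ^ k * y ^ K) := Nat.mul_lt_mul'' hcon hcon
    have h4 : (2 ^ k * y ^ K) * (2 ^ k * y ^ K) = (2 ^ k) ^ 2 * (y ^ K) ^ 2 := by ring
    rw [h4] at h3
    have h5 := Nat.mul_le_mul h1 hyK
    omega
  have hqq : q step (0, 0) k (0, d * h) ≤ ε / 16 := by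
    apply hq k hkk0
    have hd1 : |(d : ℝ)| = 1 := by
      have : (d : ℝ) * d = 1 := by exact_mod_cast hdd
      have h2 : |(d : ℝ)| * |(d : ℝ)| = 1 := by rw [← abs_mul, this, abs_one]
      nlinarith [abs_nonneg (d : ℝ)]
    push_cast
    rw [abs_mul, hd1, one_mul]
    refine hh.trans ?_
    have h2 : (2 : ℝ) ^ (θ * k) = Real.exp (θ * (k * Real.log 2)) := by
      rw [Real.rpow_def_of_pos (by norm_num)]
      congr 1; ring
    rw [h2, Real.rpow_def_of_pos (by linarith), ← ht]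
    apply Real.exp_le_exp.2
    have h6 : θ * (t / 2 - Real.log 2) ≤ θ * (k * Real.log 2) := mul_le_mul_of_nonneg_left hk2' hθ.le
    have h8 : t * η ≤ t * (θ / 4) := mul_le_mul_of_nonneg_left hηθ htpos.le
    nlinarith
  have h1B : ∀ p ∈ P, ¬ (p : ℤ) ∣ 1 := by
    intro p hp hd1
    have h1 := (hP p hp).1.one_lt
    have h2 : p ∣ 1 := by exact_mod_cast hd1
    have := Nat.dvd_one.1 h2
    omega
  have hsurv := hs y hyy k N hcond P hPy 0 1 h1B d hdm x0 c hc (0, d * h)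
  have hPp : ∀ p ∈ P, p.Prime := fun p hp => (hP p hp).1
  have hV0 := V_pos hPp
  have hb : ∀ n ∈ Icc 1 N, wt P 0 1 (n : ℕ) * |f (x0 + c * (n : ℕ) + h) - f (x0 + c * (n : ℕ))|
      ≤ 2 * (wt P 0 1 (n : ℕ) * (if surv d k (0, d * h) (x0 + c * (n : ℕ)) then 1 else 0)) := by
    intro n _
    have hw0 := wt_nonneg P 0 1 ((n : ℕ) : ℤ)
    rw [show (2 : ℝ) * (wt P 0 1 (n : ℕ) * (if surv d k (0, d * h) (x0 + c * (n : ℕ)) then 1 else 0))
      = wt P 0 1 (n : ℕ) * (2 * (if surv d k (0, d * h) (x0 + c * (n : ℕ)) then 1 else 0)) by ring]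
    apply mul_le_mul_of_nonneg_left _ hw0
    split_ifs with hsv
    · have a1 := hf.1 (x0 + c * (n : ℕ) + h)
      have a2 := hf.1 (x0 + c * (n : ℕ))
      have a3 := abs_sub (f (x0 + c * (n : ℕ) + h)) (f (x0 + c * (n : ℕ)))
      linarith
    · obtain ⟨j, -, hj⟩ := coal hdm k 0 (d * h) _ hsv
      have e : (3 : ℤ) ^ 0 * (x0 + c * (n : ℕ)) + d * (d * h) = x0 + c * (n : ℕ) + h := by
        have : d * (d * h) = (d * d) * h := by ring
        rw [this, hdd]; ring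
      rw [e] at hj
      rw [← hf.2 j _ _ hj, sub_self, abs_zero]
      norm_num
  refine (sum_le_sum hb).trans ?_
  rw [← mul_sum]
  have h9 : 8 * (N : ℝ) * V P * q step (0, 0) k (0, d * h) ≤ 8 * N * V P * (ε / 16) :=
    mul_le_mul_of_nonneg_left hqq (by positivity)
  have h10 : 8 * (N : ℝ) * V P * (ε / 16) = ε * (N * V P) / 2 := by ring
  linarith

theorem one_sub_ge_exp {x : ℝ} (h0 : 0 ≤ x) (h1 : x ≤ 1 / 2) : Real.exp (-(2 * x)) ≤ 1 - x := by
  have hx : 0 < 1 - x := by linarith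
  rw [← Real.exp_log hx]
  apply Real.exp_le_exp.2
  have h2 := Real.one_sub_inv_le_log_of_pos hx
  have h3 : (1 - x)⁻¹ ≤ 1 + 2 * x := by
    rw [inv_le_iff_one_le_mul₀ hx]
    nlinarith
  linarith

open Pool.Agent.H376R2.MR in
/-- removing the large primes of a sieve -/
theorem V_ratio {η : ℝ} (hη : 0 < η) (hη1 : η ≤ 1) : ∃ C : ℝ, 1 ≤ C ∧ ∀ z y : ℕ, 3 ≤ z → z ≤ y →
    η * Real.log y ≤ Real.log z → ∀ P : Finset ℕ, (∀ p ∈ P, p.Prime ∧ p ≤ y) →
    V (P.filter (fun p => p ≤ z)) ≤ C * V P := by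
  classical
  obtain ⟨C0, hC0, hM⟩ := mert_bdd
  have hlη : 0 ≤ Real.log (1 / η) := Real.log_nonneg (by rw [le_div_iff₀ hη]; linarith)
  refine ⟨Real.exp (2 * (Real.log (1 / η) + 2 * C0)), Real.one_le_exp (by positivity), fun z y hz hzy hzη P hP => ?_⟩
  have hPp : ∀ p ∈ P, p.Prime := fun p hp => (hP p hp).1
  set P1 := P.filter (fun p => p ≤ z) with hP1
  set P2 := P.filter (fun p => ¬ p ≤ z) with hP2
  have hV : V P = V P1 * V P2 := by
    unfold Pool.Agent.W41.V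
    rw [← prod_union (disjoint_filter_filter_not _ _ _), filter_union_filter_not_eq]
  have hV1 : 0 < V P1 := V_pos fun p hp => hPp p (mem_filter.1 hp).1
  have hz1 : 1 < Real.log z := by
    rw [Real.lt_log_iff_exp_lt (by positivity)]
    have h1 : (3 : ℝ) ≤ z := by exact_mod_cast hz
    have := Real.exp_one_lt_d9
    linarith
  have hly : Real.log z ≤ Real.log y := Real.log_le_log (by positivity) (by exact_mod_cast hzy)
  have hly0 : 0 < Real.log y := by linarith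
  have hsum : ∑ p ∈ P2, 1 / (p : ℝ) ≤ Real.log (1 / η) + 2 * C0 := by
    have h1 := hM y
    have h2 := hM z
    have hsub : (Icc 1 z).filter Nat.Prime ⊆ (Icc 1 y).filter Nat.Prime := by
      intro p hp
      rw [mem_filter, mem_Icc] at hp ⊢
      exact ⟨⟨hp.1.1, hp.1.2.trans hzy⟩, hp.2⟩
    have h3 := sum_sdiff (f := fun p : ℕ => (1 : ℝ) / p) hsub
    have h4 : ∑ p ∈ P2, 1 / (p : ℝ) ≤ ∑ p ∈ (Icc 1 y).filter Nat.Prime \ (Icc 1 z).filter Nat.Prime, (1 : ℝ) / p := by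
      apply sum_le_sum_of_subset_of_nonneg
      · intro p hp
        rw [hP2, mem_filter] at hp
        have h5 := hP p hp.1
        simp only [Finset.mem_sdiff, mem_filter, mem_Icc]
        exact ⟨⟨⟨h5.1.one_le, h5.2⟩, h5.1⟩, fun h6 => hp.2 h6.1.2⟩
      · intro p _ _; positivity
    have h5 : Real.log (Real.log y) ≤ Real.log (Real.log z) + Real.log (1 / η) := by
      rw [← Real.log_mul (by positivity) (by positivity)]
      apply Real.log_le_log hly0
      rw [mul_one_div, le_div_iff₀ hη]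
      linarith
    rw [abs_le] at h1 h2
    linarith [h1.1, h1.2, h2.1, h2.2]
  have hV2 : Real.exp (-(2 * (Real.log (1 / η) + 2 * C0))) ≤ V P2 := by
    calc Real.exp (-(2 * (Real.log (1 / η) + 2 * C0))) ≤ Real.exp (∑ p ∈ P2, -(2 * (1 / (p : ℝ)))) := by
          apply Real.exp_le_exp.2
          rw [sum_neg_distrib, ← mul_sum]
          linarith
      _ = ∏ p ∈ P2, Real.exp (-(2 * (1 / (p : ℝ)))) := Real.exp_sum _ _
      _ ≤ V P2 := by
          unfold Pool.Agent.W41.V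
          apply prod_le_prod
          · intro p _; exact (Real.exp_pos _).le
          · intro p hp
            apply one_sub_ge_exp (by positivity)
            apply one_div_le_one_div_of_le (by norm_num)
            exact_mod_cast (hPp p (mem_filter.1 hp).1).two_le
  rw [hV]
  calc V P1 = Real.exp (2 * (Real.log (1 / η) + 2 * C0)) * (V P1 * Real.exp (-(2 * (Real.log (1 / η) + 2 * C0)))) := by
        rw [Real.exp_neg]
        field_simp
    _ ≤ _ := by
        apply mul_le_mul_of_nonneg_left _ (Real.exp_pos _).le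
        exact mul_le_mul_of_nonneg_left hV2 hV1.le

end Pool.Agent.U596.TP
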