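import Pool.Agent.U596.TP9
import Pool.Agent.U596.TP11

/-! Bilinear sums over primes in two dyadic ranges: the estimate. -/

set_option autoImplicit false

namespace Pool.Agent.U596.TP

open Pool.Agent.H320R2.PD Pool.Agent.H499R2.ND Finset Pool.Agent.H499R2.CO Pool.Agent.W41.FU Pool.Agent.W41
  Pool.Agent.W41.MU Pool.Agent.H376R2.MR

theorem bal_tw (f : ℤ → ℝ) (n : ℤ) : tw f 0 n = (f n : ℂ) := by
  unfold tw; simp

/-- one cell -/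
theorem cell_pbil {f : ℤ → ℝ} {v a M1 M2 : ℕ} {P : Finset ℕ} {c1 c2 c3 ε2 : ℝ} (hM1 : 1 ≤ M1)
    (hc3 : 0 ≤ c3) (hε2 : 0 ≤ ε2) (hc2 : 0 ≤ c2)
    (hwt : ∀ b ∈ Pr M2, wt P 0 1 (b : ℕ) = 1) (hcard : ((Pr M2).card : ℝ) ≤ 18 * c2)
    (hmain : ∀ w : ℕ → ℂ, (∀ p ∈ cell 10 v, ‖w p‖ ≤ 1 / p) →
      ∑ b ∈ Ico M2 (2 * M2), wt P 0 1 (b : ℕ) * ‖∑ p ∈ cell 10 v, w p * tw f 0 (((p * (a * b) : ℕ) : ℤ))‖ ^ 2 ≤ c1)
    (hc1 : 18 * c1 ≤ 9 * ε2 ^ 2 * (c2 * c3 ^ 2))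
    {α β : ℕ → ℂ} (hα : ∀ p, ‖α p‖ ≤ 1) (hα0 : ∀ p, p ∉ Pr M1 → α p = 0) (hβ : ∀ b, ‖β b‖ ≤ 1) :
    ‖∑ p ∈ cell 10 v, ∑ b ∈ Pr M2, α p * β b * (f ((p * (a * b) : ℕ) : ℤ) : ℂ)‖ ≤ 6 * ε2 * (M1 * c3 * c2) := by
  have hM0 : (0 : ℝ) < M1 := by exact_mod_cast (by omega : 0 < M1)
  have h2M : ((2 * M1 : ℝ) : ℂ) ≠ 0 := by rw [Complex.ofReal_ne_zero]; positivity
  obtain ⟨w, hw⟩ : ∃ w : ℕ → ℂ, w = fun p => α p / ((2 * M1 : ℝ) : ℂ) := ⟨_, rfl⟩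
  have hw1 : ∀ p ∈ cell 10 v, ‖w p‖ ≤ 1 / p := by
    intro p _
    rw [hw]; simp only
    by_cases hp : p ∈ Pr M1
    · have hp1 := mem_Pr.1 hp
      have hp0 : (0 : ℝ) < p := by exact_mod_cast hp1.2.2.pos
      rw [norm_div, Complex.norm_real, Real.norm_eq_abs, abs_of_pos (by positivity : 0 < 2 * (M1 : ℝ))]
      apply div_le_div₀ (by norm_num) (hα p) hp0
      have := hp1.2.1
      exact_mod_cast this.le
    · rw [hα0 p hp, zero_div, norm_zero]; positivity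
  have h1 := hmain w hw1
  obtain ⟨g, hg⟩ : ∃ g : ℕ → ℝ, g = fun b => ‖∑ p ∈ cell 10 v, w p * tw f 0 (((p * (a * b) : ℕ) : ℤ))‖ := ⟨_, rfl⟩
  have h2 : ∑ b ∈ Pr M2, g b ^ 2 ≤ c1 := by
    refine le_trans ?_ h1
    have h3 : ∑ b ∈ Pr M2, g b ^ 2 = ∑ b ∈ Pr M2, wt P 0 1 (b : ℕ) * g b ^ 2 := by
      apply sum_congr rfl; intro b hb
      rw [hwt b hb, one_mul]
    rw [h3, hg]
    apply sum_le_sum_of_subset_of_nonneg (filter_subset _ _)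
    intro b _ _
    exact mul_nonneg (wt_nonneg _ _ _ _) (sq_nonneg _)
  have h3 : (∑ b ∈ Pr M2, g b) ^ 2 ≤ (3 * ε2 * (c2 * c3)) ^ 2 := by
    have h4 : (∑ b ∈ Pr M2, g b) ^ 2 ≤ (Pr M2).card * ∑ b ∈ Pr M2, g b ^ 2 := sq_sum_le_card_mul_sum_sq
    have h5 : 0 ≤ ∑ b ∈ Pr M2, g b ^ 2 := sum_nonneg fun b _ => sq_nonneg _
    calc (∑ b ∈ Pr M2, g b) ^ 2 ≤ (Pr M2).card * ∑ b ∈ Pr M2, g b ^ 2 := h4
      _ ≤ (18 * c2) * c1 := mul_le_mul hcard h2 h5 (by positivity)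
      _ = c2 * (18 * c1) := by ring
      _ ≤ c2 * (9 * ε2 ^ 2 * (c2 * c3 ^ 2)) := mul_le_mul_of_nonneg_left hc1 hc2
      _ = _ := by ring
  have h4 : ∑ b ∈ Pr M2, g b ≤ 3 * ε2 * (c2 * c3) := (abs_le_of_sq_le_sq' h3 (by positivity)).2
  have h5 : ∑ p ∈ cell 10 v, ∑ b ∈ Pr M2, α p * β b * (f ((p * (a * b) : ℕ) : ℤ) : ℂ)
      = ∑ b ∈ Pr M2, β b * (((2 * M1 : ℝ) : ℂ) * ∑ p ∈ cell 10 v, w p * tw f 0 (((p * (a * b) : ℕ) : ℤ))) := by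
    rw [sum_comm]
    apply sum_congr rfl; intro b _
    rw [mul_sum, mul_sum]
    apply sum_congr rfl; intro p _
    rw [bal_tw, hw]
    field_simp
  rw [h5]
  refine (norm_sum_le _ _).trans ?_
  calc ∑ b ∈ Pr M2, ‖β b * (((2 * M1 : ℝ) : ℂ) * ∑ p ∈ cell 10 v, w p * tw f 0 (((p * (a * b) : ℕ) : ℤ)))‖
      ≤ ∑ b ∈ Pr M2, 2 * M1 * g b := by
        apply sum_le_sum; intro b _
        rw [norm_mul, norm_mul, Complex.norm_real, Real.norm_eq_abs, abs_of_pos (by positivity : 0 < 2 * (M1 : ℝ)), hg]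
        have h6 : 0 ≤ 2 * (M1 : ℝ) * ‖∑ p ∈ cell 10 v, w p * tw f 0 (((p * (a * b) : ℕ) : ℤ))‖ := by positivity
        exact mul_le_of_le_one_left h6 (hβ b)
    _ = 2 * M1 * ∑ b ∈ Pr M2, g b := by rw [mul_sum]
    _ ≤ 2 * M1 * (3 * ε2 * (c2 * c3)) := mul_le_mul_of_nonneg_left h4 (by positivity)
    _ = _ := by ring

/-- BILINEAR SUMS OVER PRIMES IN TWO DYADIC RANGES. -/
theorem pbil {s : ℤ} (hs : s = 1 ∨ s = -1) : ∀ ε : ℝ, 0 < ε → ∃ ϑ : ℝ, 0 < ϑ ∧ ϑ ≤ 1 / 64 ∧ ∀ θ : ℝ, 0 < θ →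
    ∃ N0 : ℕ, 10 ≤ N0 ∧ ∀ M1 M2 : ℕ, N0 ≤ M1 → N0 ≤ M2 → (M2 : ℝ) ^ θ ≤ M1 →
    ∀ a : ℕ, a % 2 = 1 → (M1 : ℝ) * a ≤ (M2 : ℝ) ^ ϑ → ∀ S : Set ℤ, Inv 1 S → ∀ δ : ℝ, HD s S δ →
    ∀ α β : ℕ → ℂ, (∀ p, ‖α p‖ ≤ 1) → (∀ b, ‖β b‖ ≤ 1) →
    ‖∑ p ∈ Pr M1, ∑ b ∈ Pr M2, α p * β b * (bal s S δ ((p * (a * b) : ℕ) : ℤ) : ℂ)‖
      ≤ ε * ((Pr M1).card * (Pr M2).card) := by
  classical
  intro ε hε
  obtain ⟨κ, hκ, hκ1, hwm⟩ := wmain hs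
  obtain ⟨C, hC0, hC⟩ := V_up
  obtain ⟨ε2, hε2⟩ : ∃ ε2 : ℝ, ε2 = ε / 86400 := ⟨_, rfl⟩
  have hε20 : 0 < ε2 := by rw [hε2]; positivity
  obtain ⟨ε1, hε1⟩ : ∃ ε1 : ℝ, ε1 = min 1 (κ / C * ε2 ^ 2) := ⟨_, rfl⟩
  have hε10 : 0 < ε1 := by rw [hε1]; positivity
  have hε11 : ε1 ≤ 1 := by rw [hε1]; exact min_le_left _ _
  have hε12 : ε1 * (C / κ) ≤ ε2 ^ 2 := by
    have h1 : ε1 ≤ κ / C * ε2 ^ 2 := by rw [hε1]; exact min_le_right _ _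
    calc ε1 * (C / κ) ≤ (κ / C * ε2 ^ 2) * (C / κ) := mul_le_mul_of_nonneg_right h1 (by positivity)
      _ = ε2 ^ 2 := by field_simp
  obtain ⟨ϑ0, hϑ00, hϑ01, hwm1⟩ := hwm ε1 hε10 hε11 10 le_rfl
  obtain ⟨ϑ, hϑ⟩ : ∃ ϑ : ℝ, ϑ = ϑ0 / 2 := ⟨_, rfl⟩
  have hϑ0 : 0 < ϑ := by rw [hϑ]; positivity
  have hϑ1 : ϑ ≤ 1 / 64 := by rw [hϑ]; linarith
  refine ⟨ϑ, hϑ0, hϑ1, fun θ hθ => ?_⟩
  obtain ⟨X0, hX0, hwm2⟩ := hwm1 (θ / 4) (by positivity)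
  obtain ⟨Ma, hMa, hmm⟩ := mm_bd
  obtain ⟨Mb, hMb, hcd⟩ := Pr_card
  -- sizes
  have hlim : ∀ᶠ N : ℕ in Filter.atTop, X0 ≤ N ∧ 4 ≤ (N : ℝ) ^ κ :=
    (tendsto_natCast_atTop_atTop.eventually_ge_atTop X0).and (ev_pow hκ 4)
  obtain ⟨Nc, hNc⟩ := Filter.eventually_atTop.1 hlim
  refine ⟨Ma + Mb + Nc, by omega, fun M1 M2 hM1 hM2 hθM a ha haM S hS δ hδ α β hα hβ => ?_⟩
  obtain ⟨n1, n2⟩ := hNc M2 (by omega)
  have hM1p : (0 : ℝ) < M1 := by exact_mod_cast (by omega : 0 < M1)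
  have hM2p : (0 : ℝ) < M2 := by exact_mod_cast (by omega : 0 < M2)
  have hM2R : (10 : ℝ) ≤ M2 := by exact_mod_cast (by omega : 10 ≤ M2)
  obtain ⟨b1, b2, b3, b4, b5⟩ := v_bds (show 10 ≤ M1 by omega)
  obtain ⟨-, -, -, -, b6⟩ := v_bds (show 10 ≤ M2 by omega)
  obtain ⟨c1, c2⟩ := hcd M1 (by omega)
  obtain ⟨c3, c4⟩ := hcd M2 (by omega)
  have ha0 : (1 : ℝ) ≤ a := by exact_mod_cast (by omega : 1 ≤ a)
  obtain ⟨L1, hL1⟩ : ∃ L1 : ℝ, L1 = Real.log M1 := ⟨_, rfl⟩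
  obtain ⟨L2, hL2⟩ : ∃ L2 : ℝ, L2 = Real.log M2 := ⟨_, rfl⟩
  have hE1 : Real.exp L1 = M1 := by rw [hL1]; exact Real.exp_log hM1p
  have hE2 : Real.exp L2 = M2 := by rw [hL2]; exact Real.exp_log hM2p
  rw [← hL1] at b1 b2 b5 c1 c2
  rw [← hL2] at b6 c3 c4
  have hrp : ∀ r : ℝ, (M2 : ℝ) ^ r = Real.exp (r * L2) := fun r => by
    rw [Real.rpow_def_of_pos hM2p, ← hL2, mul_comm]
  have hL1θ : θ * L2 ≤ L1 := by
    rw [hrp, ← hE1] at hθM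
    exact Real.exp_le_exp.1 hθM
  have hL1ϑ : L1 ≤ ϑ * L2 := by
    have h1 : (M1 : ℝ) ≤ (M2 : ℝ) ^ ϑ := by
      refine le_trans ?_ haM
      exact le_mul_of_one_le_right hM1p.le ha0
    rw [hrp, ← hE1] at h1
    exact Real.exp_le_exp.1 h1
  have haϑ : (a : ℝ) ≤ (M2 : ℝ) ^ ϑ := by
    refine le_trans ?_ haM
    have : (1 : ℝ) ≤ M1 := by exact_mod_cast (by omega : 1 ≤ M1)
    exact le_mul_of_one_le_left (by linarith) this
  -- extend by zero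
  obtain ⟨α', hα'⟩ : ∃ α' : ℕ → ℂ, α' = fun p => if p ∈ Pr M1 then α p else 0 := ⟨_, rfl⟩
  have hα'1 : ∀ p, ‖α' p‖ ≤ 1 := by
    intro p; rw [hα']; simp only
    split_ifs
    · exact hα p
    · simp
  have hα'0 : ∀ p, p ∉ Pr M1 → α' p = 0 := by
    intro p hp; rw [hα']; simp only [if_neg hp]
  have hext : ∑ p ∈ Pr M1, ∑ b ∈ Pr M2, α p * β b * (bal s S δ ((p * (a * b) : ℕ) : ℤ) : ℂ)
      = ∑ v ∈ Ico (vlo M1) (vhi M1), ∑ p ∈ cell 10 v, ∑ b ∈ Pr M2, α' p * β b * (bal s S δ ((p * (a * b) : ℕ) : ℤ) : ℂ) := by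
    rw [← PR_sum (by norm_num) (vlo M1) (vhi M1), ← sum_subset (Pr_sub (show 10 ≤ M1 by omega))]
    · apply sum_congr rfl
      intro p hp
      apply sum_congr rfl
      intro b _
      rw [hα']
      simp only [if_pos hp]
    · intro p _ hp
      apply sum_eq_zero
      intro b _
      rw [hα'0 p hp, zero_mul, zero_mul]
  rw [hext]
  have hcell : ∀ v ∈ Ico (vlo M1) (vhi M1), ‖∑ p ∈ cell 10 v, ∑ b ∈ Pr M2, α' p * β b * (bal s S δ ((p * (a * b) : ℕ) : ℤ) : ℂ)‖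
      ≤ 6 * ε2 * (M1 * (1 / L1) * (M2 / L2)) := by
    intro v hv
    have hv' := mem_Ico.1 hv
    have hva : (vlo M1 : ℝ) ≤ v := by exact_mod_cast hv'.1
    have hvb : (v : ℝ) + 1 ≤ vhi M1 := by exact_mod_cast hv'.2
    have hm1 := (hmm M1 (by omega) v hv).1
    rw [← hL1] at hm1
    have hmm0 : 0 ≤ mm 10 v := sum_nonneg fun p _ => by positivity
    obtain ⟨E, hE⟩ : ∃ E : ℝ, E = Real.exp ((v : ℝ) / (10 : ℕ)) := ⟨_, rfl⟩
    have hE1' : 1 ≤ E := by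
      rw [hE]; apply Real.one_le_exp; positivity
    obtain ⟨X, hX⟩ : ∃ X : ℝ, X = a * M2 * E := ⟨_, rfl⟩
    have hXM : (M2 : ℝ) ≤ X := by
      rw [hX]
      calc (M2 : ℝ) = 1 * M2 * 1 := by ring
        _ ≤ a * M2 * E := by
            apply mul_le_mul _ hE1' (by norm_num) (by positivity)
            exact mul_le_mul_of_nonneg_right ha0 hM2p.le
    have hXp : 0 < X := by linarith
    have hX1 : 1 ≤ X := by linarith
    have hEM : E ≤ 3 * M1 := by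
      rw [hE]
      calc Real.exp ((v : ℝ) / (10 : ℕ)) ≤ Real.exp (L1 + 0.8) := by
            apply Real.exp_le_exp.2
            push_cast; linarith
        _ = M1 * Real.exp 0.8 := by rw [Real.exp_add, hE1]
        _ ≤ M1 * 3 := by
            apply mul_le_mul_of_nonneg_left _ hM1p.le
            have h1 := Real.exp_one_lt_d9
            have h2 : Real.exp 0.8 ≤ Real.exp 1 := Real.exp_le_exp.2 (by norm_num)
            linarith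
        _ = _ := by ring
    have hXu : X ≤ (M2 : ℝ) ^ (3 : ℝ) := by
      have h1 : (a : ℝ) * M2 * E ≤ a * M2 * (3 * M1) := mul_le_mul_of_nonneg_left hEM (by positivity)
      have h2 : (a : ℝ) * M2 * (3 * M1) = 3 * (M2 * (M1 * a)) := by ring
      have h3 : (M2 : ℝ) * (M1 * a) ≤ M2 * (M2 : ℝ) ^ ϑ := mul_le_mul_of_nonneg_left haM hM2p.le
      have h4 : (M2 : ℝ) ^ ϑ ≤ (M2 : ℝ) ^ (1 : ℝ) := Real.rpow_le_rpow_of_exponent_le (by linarith) (by linarith)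
      rw [Real.rpow_one] at h4
      have h5 : (M2 : ℝ) * (M2 : ℝ) ^ ϑ ≤ M2 * M2 := mul_le_mul_of_nonneg_left h4 hM2p.le
      have h6 : (M2 : ℝ) ^ (3 : ℝ) = M2 * M2 * M2 := by
        rw [show (3 : ℝ) = ((3 : ℕ) : ℝ) by norm_num, Real.rpow_natCast]; ring
      rw [hX, h6]
      have h7 : 0 < (M2 : ℝ) * M2 := by positivity
      nlinarith only [h1, h2, h3, h5, h7, hM2R]
    have hlX : L2 ≤ Real.log X := by rw [hL2]; exact Real.log_le_log hM2p hXM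
    have hlXu : Real.log X ≤ 3 * L2 := by
      have h1 := Real.log_le_log hXp hXu
      rw [Real.log_rpow hM2p, ← hL2] at h1
      exact h1
    obtain ⟨P, hP⟩ : ∃ P : Finset ℕ, P = (Icc 1 ⌊X ^ κ⌋₊).filter Nat.Prime := ⟨_, rfl⟩
    have hXκ : 4 ≤ X ^ κ := n2.trans (Real.rpow_le_rpow hM2p.le hXM hκ.le)
    have hXκ2 : X ^ κ < M2 := by
      calc X ^ κ ≤ ((M2 : ℝ) ^ (3 : ℝ)) ^ κ := Real.rpow_le_rpow hXp.le hXu hκ.le
        _ = (M2 : ℝ) ^ (3 * κ) := by rw [← Real.rpow_mul hM2p.le]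
        _ ≤ (M2 : ℝ) ^ (1 / 2 : ℝ) := Real.rpow_le_rpow_of_exponent_le (by linarith) (by linarith)
        _ < (M2 : ℝ) ^ (1 : ℝ) := Real.rpow_lt_rpow_of_exponent_lt (by linarith) (by norm_num)
        _ = M2 := Real.rpow_one _
    have hPc : ∀ p ∈ P, p.Prime ∧ (p : ℝ) ≤ X ^ κ := by
      intro p hp
      rw [hP, mem_filter, mem_Icc] at hp
      exact ⟨hp.2, (Nat.cast_le.2 hp.1.2).trans (Nat.floor_le (by positivity))⟩
    have hwt : ∀ b ∈ Pr M2, wt P 0 1 (b : ℕ) = 1 := by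
      intro b hb
      rw [mem_Pr] at hb
      unfold wt
      rw [if_pos]
      intro p hp hdvd
      rw [zero_add, one_mul, Int.natCast_dvd_natCast] at hdvd
      have h1 := (Nat.prime_dvd_prime_iff_eq (hPc p hp).1 hb.2.2).1 hdvd
      have h2 : (p : ℝ) < M2 := (hPc p hp).2.trans_lt hXκ2
      have h3 : (M2 : ℝ) ≤ b := by exact_mod_cast hb.1
      rw [h1] at h2
      linarith
    have hVP : V P ≤ 2 * (C / κ) / L2 := by
      have h3 : 3 ≤ ⌊X ^ κ⌋₊ := Nat.le_floor (by push_cast; linarith)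
      have h4 := hC ⌊X ^ κ⌋₊ h3
      rw [← hP] at h4
      refine h4.trans ?_
      have h5 := log_floor hXκ
      rw [Real.log_rpow hXp] at h5
      have h6 : κ * L2 / 2 ≤ Real.log ⌊X ^ κ⌋₊ := by
        refine le_trans ?_ h5
        have := mul_le_mul_of_nonneg_left hlX hκ.le
        linarith
      have hL2p : 0 < L2 := by linarith
      calc C / Real.log ⌊X ^ κ⌋₊ ≤ C / (κ * L2 / 2) := div_le_div_of_nonneg_left hC0.le (by positivity) h6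
        _ = _ := by field_simp
    have hL1p : 0 < L1 := by linarith
    have hL2p : 0 < L2 := by linarith
    have key := cell_pbil (f := bal s S δ) (v := v) (a := a) (M1 := M1) (M2 := M2) (P := P)
      (c1 := ε1 * (V P * (M2 * mm 10 v ^ 2))) (c2 := M2 / L2) (c3 := 1 / L1) (ε2 := ε2) (by omega)
      (by positivity) hε20.le (by positivity) hwt c3 ?_ ?_ hα'1 hα'0 hβ
    · refine key.trans (le_of_eq (by ring))
    · intro w hw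
      refine hwm2 X (n1.trans hXM) S hS δ hδ a ha ?_ v M2 ?_ ?_ ?_ ?_ P hPc w hw
      · refine haϑ.trans ((Real.rpow_le_rpow_of_exponent_le (by linarith) (by rw [hϑ]; linarith : ϑ ≤ ϑ0)).trans ?_)
        exact Real.rpow_le_rpow hM2p.le hXM hϑ00.le
      · push_cast
        have h1 : θ / 4 * Real.log X ≤ θ / 4 * (3 * L2) := mul_le_mul_of_nonneg_left hlXu (by positivity)
        linarith
      · push_cast
        have h1 : ϑ0 * L2 ≤ ϑ0 * Real.log X := mul_le_mul_of_nonneg_left hlX hϑ00.le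
        have h2 : ϑ0 * L2 = 2 * (ϑ * L2) := by rw [hϑ]; ring
        linarith
      · rw [← hE, ← hX]; linarith
      · rw [← hE, ← hX]; linarith
    · have h1 : mm 10 v ^ 2 ≤ (1 / (2 * L1)) ^ 2 := pow_le_pow_left₀ hmm0 hm1 2
      have h2 : V P * (M2 * mm 10 v ^ 2) ≤ (2 * (C / κ) / L2) * (M2 * (1 / (2 * L1)) ^ 2) := by
        apply mul_le_mul hVP _ (by positivity) (by positivity)
        exact mul_le_mul_of_nonneg_left h1 hM2p.le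
      calc 18 * (ε1 * (V P * (M2 * mm 10 v ^ 2))) ≤ 18 * (ε1 * ((2 * (C / κ) / L2) * (M2 * (1 / (2 * L1)) ^ 2))) := by
            apply mul_le_mul_of_nonneg_left _ (by norm_num)
            exact mul_le_mul_of_nonneg_left h2 hε10.le
        _ = 9 * (ε1 * (C / κ)) * (M2 / L2 * (1 / L1) ^ 2) := by ring
        _ ≤ 9 * ε2 ^ 2 * (M2 / L2 * (1 / L1) ^ 2) := by
            apply mul_le_mul_of_nonneg_right _ (by positivity)
            linarith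
  refine ((norm_sum_le _ _).trans (sum_le_sum hcell)).trans ?_
  rw [sum_const, nsmul_eq_mul, Nat.card_Ico, Nat.cast_sub b3]
  have hL1p : 0 < L1 := by linarith
  have hL2p : 0 < L2 := by linarith
  calc ((vhi M1 : ℝ) - vlo M1) * (6 * ε2 * (M1 * (1 / L1) * (M2 / L2)))
      ≤ 9 * (6 * ε2 * (M1 * (1 / L1) * (M2 / L2))) := mul_le_mul_of_nonneg_right b4 (by positivity)
    _ = 86400 * ε2 * ((1 / 40 * (M1 / L1)) * (1 / 40 * (M2 / L2))) := by ring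
    _ ≤ 86400 * ε2 * ((Pr M1).card * (Pr M2).card) := by
        apply mul_le_mul_of_nonneg_left _ (by positivity)
        exact mul_le_mul c2 c4 (by positivity) (by positivity)
    _ = _ := by rw [hε2]; ring

end Pool.Agent.U596.TP
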