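import Pool.Agent.U596.TP12

/-! The counting lemma for products of primes along families of sets. -/

set_option autoImplicit false

namespace Pool.Agent.U596.TP

open Pool.Agent.H320R2.PD Pool.Agent.H499R2.ND Finset Pool.Agent.H499R2.CO Pool.Agent.W41.FU Pool.Agent.W41
  Pool.Agent.W41.MU Pool.Agent.H376R2.MR

section upd
variable {ι : Type} [Fintype ι] [DecidableEq ι]

theorem upd_sum (A : ι → Finset ℕ) (i : ι) (Φ : (ι → ℕ) → ℝ) :
    ∑ x ∈ Fintype.piFinset A, ∑ p ∈ A i, Φ (Function.update x i p)
      = (A i).card * ∑ x ∈ Fintype.piFinset A, Φ x := by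
  classical
  have h1 : ∑ x ∈ Fintype.piFinset A, ∑ p ∈ A i, Φ (Function.update x i p)
      = ∑ y ∈ Fintype.piFinset A ×ˢ A i, Φ (Function.update y.1 i y.2) :=
    (sum_product (Fintype.piFinset A) (A i) (fun y => Φ (Function.update y.1 i y.2))).symm
  have h2 : ∑ y ∈ Fintype.piFinset A ×ˢ A i, Φ (Function.update y.1 i y.2)
      = ∑ y ∈ Fintype.piFinset A ×ˢ A i, Φ y.1 := by
    have hm : ∀ y ∈ Fintype.piFinset A ×ˢ A i,
        ((Function.update y.1 i y.2, y.1 i) : (ι → ℕ) × ℕ) ∈ Fintype.piFinset A ×ˢ A i := by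
      intro y hy
      rw [mem_product, Fintype.mem_piFinset] at hy ⊢
      refine ⟨fun r => ?_, hy.1 i⟩
      simp only
      by_cases hr : r = i
      · rw [hr, Function.update_self]; exact hy.2
      · rw [Function.update_of_ne hr]; exact hy.1 r
    apply sum_nbij' (fun y => (Function.update y.1 i y.2, y.1 i)) (fun y => (Function.update y.1 i y.2, y.1 i)) hm hm
    · intro y _
      simp
    · intro y _
      simp
    · intro y _
      rfl
  rw [h1, h2, sum_product]
  simp only [sum_const, nsmul_eq_mul]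
  rw [mul_sum]

theorem upd_sum2 (A : ι → Finset ℕ) {i j : ι} (hij : i ≠ j) (Φ : (ι → ℕ) → ℝ) :
    ∑ x ∈ Fintype.piFinset A, ∑ p ∈ A i, ∑ b ∈ A j, Φ (Function.update (Function.update x i p) j b)
      = (A i).card * ((A j).card * ∑ x ∈ Fintype.piFinset A, Φ x) := by
  rw [← upd_sum A j Φ, ← upd_sum A i (fun x => ∑ b ∈ A j, Φ (Function.update x j b))]

end upd

/-- the value of the product along `e` -/
def pv {ι : Type} (c : Finset ι → ℕ) (e : Finset ι) (x : ι → ℕ) : ℕ := c e * ∏ r ∈ e, x r

theorem pv_congr {ι : Type} (c : Finset ι → ℕ) (e : Finset ι) {x y : ι → ℕ} (h : ∀ r ∈ e, x r = y r) :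
    pv c e x = pv c e y := by
  unfold pv; rw [prod_congr rfl h]

/-- the condition on the family of sets and on the scales -/
def Good {ι : Type} (θ ϑ : ℝ) (M : ι → ℕ) (c : Finset ι → ℕ) (E : Finset (Finset ι)) : Prop :=
  ∀ F ⊆ E, F.Nonempty → ∃ e ∈ F, ∃ i ∈ e, ∃ j ∈ e, i ≠ j ∧ (∀ e' ∈ F, e' ≠ e → i ∈ e' → j ∉ e') ∧
    (M j : ℝ) ^ θ ≤ M i ∧ (∀ r ∈ e, r ≠ j → (M r : ℝ) ≤ (M j : ℝ) ^ ϑ) ∧ (c e : ℝ) ≤ (M j : ℝ) ^ ϑ ∧ c e % 2 = 1

/-- THE COUNTING LEMMA. -/
theorem counting {s : ℤ} (hs : s = 1 ∨ s = -1) (ι : Type) [Fintype ι] [DecidableEq ι] :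
    ∀ ε : ℝ, 0 < ε → ∃ ϑ : ℝ, 0 < ϑ ∧ ϑ ≤ 1 / 64 ∧ ∀ θ : ℝ, 0 < θ →
    ∃ N0 : ℕ, 10 ≤ N0 ∧ ∀ M : ι → ℕ, (∀ i, N0 ≤ M i) → ∀ (c : Finset ι → ℕ) (E : Finset (Finset ι)), Good θ ϑ M c E →
    ∀ A : ι → Finset ℕ, (∀ i, A i ⊆ Pr (M i)) → ∀ (S : Finset ι → Set ℤ) (δ : Finset ι → ℝ),
    (∀ e, Inv 1 (S e)) → (∀ e, HD s (S e) (δ e)) →
    |∑ x ∈ Fintype.piFinset A, ∏ e ∈ E, ind s (S e) ((pv c e x : ℕ) : ℤ) - (∏ e ∈ E, δ e) * ∏ i, ((A i).card : ℝ)|
      ≤ ε * ∏ i, ((Pr (M i)).card : ℝ) := by
  classical
  intro ε hε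
  obtain ⟨k, hk⟩ : ∃ k : ℕ, k = Fintype.card ι := ⟨_, rfl⟩
  obtain ⟨ε', hε'⟩ : ∃ ε' : ℝ, ε' = ε / 2 ^ k := ⟨_, rfl⟩
  have hε'0 : 0 < ε' := by rw [hε']; positivity
  obtain ⟨ϑ0, hϑ00, hϑ01, hpb⟩ := pbil hs ε' hε'0
  obtain ⟨ϑ, hϑ⟩ : ∃ ϑ : ℝ, ϑ = ϑ0 / (2 * ((k : ℝ) + 1)) := ⟨_, rfl⟩
  have hk0 : (0 : ℝ) ≤ k := Nat.cast_nonneg _
  have hϑ0 : 0 < ϑ := by rw [hϑ]; positivity
  have hϑ1 : ϑ ≤ 1 / 64 := by
    rw [hϑ, div_le_iff₀ (by positivity)]
    nlinarith only [hϑ01, hk0, hϑ00]
  refine ⟨ϑ, hϑ0, hϑ1, fun θ hθ => ?_⟩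
  obtain ⟨N1, hN1, hpb1⟩ := hpb θ hθ
  obtain ⟨N2, hN2⟩ := Filter.eventually_atTop.1 (ev_pow hϑ0 2)
  refine ⟨N1 + N2, by omega, fun M hM c E hE A hA S δ hS hδ => ?_⟩
  obtain ⟨F, hF⟩ : ∃ F : Finset ι → (ι → ℕ) → ℝ, F = fun e x => ind s (S e) ((pv c e x : ℕ) : ℤ) := ⟨_, rfl⟩
  have hF01 : ∀ e x, 0 ≤ F e x ∧ F e x ≤ 1 := by
    intro e x
    rw [hF]
    simp only
    unfold ind
    split_ifs <;> norm_num
  have hFc : ∀ e x y, (∀ r ∈ e, x r = y r) → F e x = F e y := by
    intro e x y h
    rw [hF]; simp only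
    rw [pv_congr c e h]
  have hδ01 : ∀ e, 0 ≤ δ e ∧ δ e ≤ 1 := fun e => HD_mem hs (hδ e)
  obtain ⟨T, hT⟩ : ∃ T : ℝ, T = ∏ i, ((Pr (M i)).card : ℝ) := ⟨_, rfl⟩
  have hT0 : 0 ≤ T := by rw [hT]; positivity
  -- induction on the subfamily
  have hind : ∀ n : ℕ, ∀ G ⊆ E, G.card = n →
      |∑ x ∈ Fintype.piFinset A, ∏ e ∈ G, F e x - (∏ e ∈ G, δ e) * ∏ i, ((A i).card : ℝ)| ≤ n * (ε' * T) := by
    intro n
    induction n with
    | zero =>
      intro G _ hG
      rw [card_eq_zero] at hG
      rw [hG]
      simp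
    | succ n ih =>
      intro G hGE hG
      have hGn : G.Nonempty := by rw [← card_pos]; omega
      obtain ⟨e, he, i, hi, j, hj, hij, hpriv, hsc, hsm, hce, hco⟩ := hE G hGE hGn
      obtain ⟨G', hG'⟩ : ∃ G', G' = G.erase e := ⟨_, rfl⟩
      have hGG : G = insert e G' := by rw [hG', insert_erase he]
      have heG' : e ∉ G' := by rw [hG']; exact notMem_erase e G
      have hG'c : G'.card = n := by rw [hG', card_erase_of_mem he, hG]; omega
      have hG'E : G' ⊆ E := by rw [hG']; exact (erase_subset _ _).trans hGE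
      have h1 := ih G' hG'E hG'c
      rw [hGG]
      simp only [prod_insert heG']
      -- the balanced part
      obtain ⟨Φ, hΦ⟩ : ∃ Φ : (ι → ℕ) → ℝ, Φ = fun x => (∏ e' ∈ G', F e' x) * (F e x - δ e) := ⟨_, rfl⟩
      have hsplit : ∑ x ∈ Fintype.piFinset A, F e x * ∏ e' ∈ G', F e' x
          = δ e * ∑ x ∈ Fintype.piFinset A, ∏ e' ∈ G', F e' x + ∑ x ∈ Fintype.piFinset A, Φ x := by
        rw [mul_sum, ← sum_add_distrib, hΦ]
        apply sum_congr rfl; intro x _; ring
      have hΦb : |∑ x ∈ Fintype.piFinset A, Φ x| ≤ ε' * T := by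
        -- the sum over two variables
        have hbil : ∀ x ∈ Fintype.piFinset A,
            |∑ p ∈ A i, ∑ b ∈ A j, Φ (Function.update (Function.update x i p) j b)|
              ≤ ε' * ((Pr (M i)).card * (Pr (M j)).card) := by
          intro x hx
          rw [Fintype.mem_piFinset] at hx
          obtain ⟨α, hα⟩ : ∃ α : ℕ → ℝ, α = fun p => if p ∈ A i then ∏ e' ∈ G'.filter (fun e' => i ∈ e'), F e' (Function.update x i p)
            else 0 := ⟨_, rfl⟩
          obtain ⟨β, hβ⟩ : ∃ β : ℕ → ℝ, β = fun b => if b ∈ A j then ∏ e' ∈ G'.filter (fun e' => i ∉ e'), F e' (Function.update x j b)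
            else 0 := ⟨_, rfl⟩
          have hα1 : ∀ p, ‖(α p : ℂ)‖ ≤ 1 := by
            intro p
            rw [Complex.norm_real, Real.norm_eq_abs, hα]
            simp only
            split_ifs
            · rw [abs_of_nonneg (prod_nonneg fun e' _ => (hF01 e' _).1)]
              exact prod_le_one (fun e' _ => (hF01 e' _).1) (fun e' _ => (hF01 e' _).2)
            · simp
          have hβ1 : ∀ p, ‖(β p : ℂ)‖ ≤ 1 := by
            intro p
            rw [Complex.norm_real, Real.norm_eq_abs, hβ]
            simp only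
            split_ifs
            · rw [abs_of_nonneg (prod_nonneg fun e' _ => (hF01 e' _).1)]
              exact prod_le_one (fun e' _ => (hF01 e' _).1) (fun e' _ => (hF01 e' _).2)
            · simp
          obtain ⟨a, ha⟩ : ∃ a : ℕ, a = c e * ∏ r ∈ (e.erase i).erase j, x r := ⟨_, rfl⟩
          have hMjp : (0 : ℝ) < M j := by
            have := hM j
            exact_mod_cast (by omega : 0 < M j)
          have hMj1 : (1 : ℝ) ≤ M j := by
            have := hM j
            exact_mod_cast (by omega : 1 ≤ M j)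
          have hodd : a % 2 = 1 := by
            rw [ha, ← Nat.odd_iff]
            apply Odd.mul (Nat.odd_iff.2 hco)
            apply Finset.prod_induction x Odd (fun _ _ => Odd.mul) odd_one
            intro r _
            have h2 := mem_Pr.1 (hA r (hx r))
            rcases h2.2.2.eq_two_or_odd' with h3 | h3
            · have := hM r; omega
            · exact h3
          have hji : j ∈ e.erase i := mem_erase.2 ⟨hij.symm, hj⟩
          have hasz : (M i : ℝ) * a ≤ (M j : ℝ) ^ ϑ0 := by
            have h2 : ∀ r ∈ (e.erase i).erase j, (x r : ℝ) ≤ (M j : ℝ) ^ (2 * ϑ) := by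
              intro r hr
              rw [mem_erase, mem_erase] at hr
              have h3 := mem_Pr.1 (hA r (hx r))
              have h4 := hsm r hr.2.2 hr.1
              have h5 : (x r : ℝ) ≤ 2 * M r := by exact_mod_cast h3.2.1.le
              have h6 : (2 : ℝ) ≤ (M j : ℝ) ^ ϑ := hN2 (M j) (by have := hM j; omega)
              calc (x r : ℝ) ≤ 2 * M r := h5
                _ ≤ (M j : ℝ) ^ ϑ * (M j : ℝ) ^ ϑ := mul_le_mul h6 h4 (by positivity) (by positivity)
                _ = _ := by rw [← Real.rpow_add hMjp]; congr 1; ring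
            have h3 : ∏ r ∈ (e.erase i).erase j, (x r : ℝ) ≤ ((M j : ℝ) ^ (2 * ϑ)) ^ ((e.erase i).erase j).card := by
              refine (prod_le_prod (fun r _ => by positivity) h2).trans ?_
              rw [prod_const]
            have h4 : ((M j : ℝ) ^ (2 * ϑ)) ^ ((e.erase i).erase j).card ≤ ((M j : ℝ) ^ (2 * ϑ)) ^ k := by
              apply pow_le_pow_right₀ (Real.one_le_rpow hMj1 (by positivity))
              rw [hk]
              exact card_le_univ _
            have h5 : (M i : ℝ) ≤ (M j : ℝ) ^ ϑ := hsm i hi hij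
            rw [ha]
            push_cast
            calc (M i : ℝ) * ((c e : ℝ) * ∏ r ∈ (e.erase i).erase j, (x r : ℝ))
                ≤ (M j : ℝ) ^ ϑ * ((M j : ℝ) ^ ϑ * ((M j : ℝ) ^ (2 * ϑ)) ^ k) := by
                  apply mul_le_mul h5 _ (by positivity) (by positivity)
                  exact mul_le_mul hce (h3.trans h4) (by positivity) (by positivity)
              _ = (M j : ℝ) ^ (ϑ + (ϑ + 2 * ϑ * k)) := by
                  rw [← Real.rpow_natCast, ← Real.rpow_mul hMjp.le, ← Real.rpow_add hMjp, ← Real.rpow_add hMjp]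
              _ = (M j : ℝ) ^ ϑ0 := by
                  congr 1
                  rw [hϑ]; field_simp; ring
          have h2 := hpb1 (M i) (M j) (by have := hM i; omega) (by have := hM j; omega) hsc a hodd hasz (S e) (hS e)
            (δ e) (hδ e) (fun p => (α p : ℂ)) (fun b => (β b : ℂ)) hα1 hβ1
          have h3 : ∑ p ∈ A i, ∑ b ∈ A j, Φ (Function.update (Function.update x i p) j b)
              = ∑ p ∈ Pr (M i), ∑ b ∈ Pr (M j), α p * β b * bal s (S e) (δ e) ((p * (a * b) : ℕ) : ℤ) := by
            have h4 : ∀ p ∈ Pr (M i), p ∉ A i → ∑ b ∈ Pr (M j), α p * β b * bal s (S e) (δ e) ((p * (a * b) : ℕ) : ℤ) = 0 := by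
              intro p _ hp
              apply sum_eq_zero; intro b _
              rw [hα]; simp only [if_neg hp]; ring
            rw [← sum_subset (hA i) h4]
            apply sum_congr rfl
            intro p hp
            have h5 : ∀ b ∈ Pr (M j), b ∉ A j → α p * β b * bal s (S e) (δ e) ((p * (a * b) : ℕ) : ℤ) = 0 := by
              intro b _ hb
              rw [hβ]; simp only [if_neg hb]; ring
            rw [← sum_subset (hA j) h5]
            apply sum_congr rfl
            intro b hb
            have hval : pv c e (Function.update (Function.update x i p) j b) = p * (a * b) := by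
              unfold pv
              rw [← mul_prod_erase e _ hi, ← mul_prod_erase (e.erase i) _ hji]
              rw [Function.update_self, Function.update_of_ne hij, Function.update_self]
              have h6 : ∏ r ∈ (e.erase i).erase j, Function.update (Function.update x i p) j b r
                  = ∏ r ∈ (e.erase i).erase j, x r := by
                apply prod_congr rfl
                intro r hr
                rw [mem_erase, mem_erase] at hr
                rw [Function.update_of_ne hr.1, Function.update_of_ne hr.2.1]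
              rw [h6, ha]
              ring
            have hFe : F e (Function.update (Function.update x i p) j b) = ind s (S e) ((p * (a * b) : ℕ) : ℤ) := by
              rw [hF]; simp only
              rw [hval]
            have hprod : ∏ e' ∈ G', F e' (Function.update (Function.update x i p) j b) = α p * β b := by
              rw [hα, hβ]
              simp only [if_pos hp, if_pos hb]
              rw [← prod_filter_mul_prod_filter_not G' (fun e' => i ∈ e')]
              congr 1
              · apply prod_congr rfl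
                intro e' he'
                rw [mem_filter] at he'
                have h6 : e' ∈ G := by rw [hG'] at he'; exact mem_of_mem_erase he'.1
                have h7 : e' ≠ e := by rintro rfl; exact heG' he'.1
                have h8 := hpriv e' h6 h7 he'.2
                apply hFc
                intro r hr
                rw [Function.update_of_ne]
                rintro rfl
                exact h8 hr
              · apply prod_congr rfl
                intro e' he'
                rw [mem_filter] at he'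
                apply hFc
                intro r hr
                by_cases hrj : r = j
                · rw [hrj, Function.update_self, Function.update_self]
                · rw [Function.update_of_ne hrj, Function.update_of_ne hrj, Function.update_of_ne]
                  rintro rfl
                  exact he'.2 hr
            rw [hΦ]
            simp only
            rw [hprod, hFe]
            rfl
          rw [h3]
          have h6 : ((∑ p ∈ Pr (M i), ∑ b ∈ Pr (M j), α p * β b * bal s (S e) (δ e) ((p * (a * b) : ℕ) : ℤ) : ℝ) : ℂ)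
              = ∑ p ∈ Pr (M i), ∑ b ∈ Pr (M j), (α p : ℂ) * (β b : ℂ) * (bal s (S e) (δ e) ((p * (a * b) : ℕ) : ℤ) : ℂ) := by
            push_cast; rfl
          rw [← Real.norm_eq_abs, ← Complex.norm_real, h6]
          exact h2
        by_cases hne : (Fintype.piFinset A).Nonempty
        · have hcpos : ∀ r, (0 : ℝ) < (A r).card := by
            intro r
            have h2 := (Fintype.piFinset_nonempty.1 hne) r
            exact_mod_cast card_pos.2 h2
          have h3 := upd_sum2 A hij Φ
          have h4 : (A i).card * ((A j).card * |∑ x ∈ Fintype.piFinset A, Φ x|)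
              ≤ (∏ r, ((A r).card : ℝ)) * (ε' * ((Pr (M i)).card * (Pr (M j)).card)) := by
            calc (A i).card * ((A j).card * |∑ x ∈ Fintype.piFinset A, Φ x|)
                = |(A i).card * ((A j).card * ∑ x ∈ Fintype.piFinset A, Φ x)| := by
                  rw [abs_mul, abs_mul, Nat.abs_cast, Nat.abs_cast]
              _ = |∑ x ∈ Fintype.piFinset A, ∑ p ∈ A i, ∑ b ∈ A j, Φ (Function.update (Function.update x i p) j b)| := by
                  rw [h3]
              _ ≤ ∑ x ∈ Fintype.piFinset A, |∑ p ∈ A i, ∑ b ∈ A j, Φ (Function.update (Function.update x i p) j b)| :=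
                  abs_sum_le_sum_abs _ _
              _ ≤ ∑ x ∈ Fintype.piFinset A, ε' * ((Pr (M i)).card * (Pr (M j)).card) := sum_le_sum hbil
              _ = _ := by
                  rw [sum_const, nsmul_eq_mul, Fintype.card_piFinset]
                  push_cast; rfl
          have hA1 : ∏ r, ((A r).card : ℝ) = (A i).card * ((A j).card * ∏ r ∈ (univ.erase i).erase j, ((A r).card : ℝ)) := by
            rw [← mul_prod_erase univ _ (mem_univ i), ← mul_prod_erase (univ.erase i) _ (mem_erase.2 ⟨hij.symm, mem_univ j⟩)]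
          have hT1 : T = (Pr (M i)).card * ((Pr (M j)).card * ∏ r ∈ (univ.erase i).erase j, ((Pr (M r)).card : ℝ)) := by
            rw [hT, ← mul_prod_erase univ _ (mem_univ i), ← mul_prod_erase (univ.erase i) _ (mem_erase.2 ⟨hij.symm, mem_univ j⟩)]
          have hle : ∏ r ∈ (univ.erase i).erase j, ((A r).card : ℝ) ≤ ∏ r ∈ (univ.erase i).erase j, ((Pr (M r)).card : ℝ) := by
            apply prod_le_prod (fun r _ => Nat.cast_nonneg _)
            intro r _
            exact_mod_cast card_le_card (hA r)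
          have h5 : (A i).card * ((A j).card * |∑ x ∈ Fintype.piFinset A, Φ x|)
              ≤ (A i).card * ((A j).card * (ε' * T)) := by
            refine h4.trans ?_
            rw [hA1, hT1]
            have e1 : ((A i).card : ℝ) * ((A j).card * ∏ r ∈ (univ.erase i).erase j, ((A r).card : ℝ)) * (ε' * ((Pr (M i)).card * (Pr (M j)).card))
                = (A i).card * ((A j).card * (ε' * ((Pr (M i)).card * ((Pr (M j)).card * ∏ r ∈ (univ.erase i).erase j, ((A r).card : ℝ))))) := by ring
            rw [e1]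
            apply mul_le_mul_of_nonneg_left _ (Nat.cast_nonneg _)
            apply mul_le_mul_of_nonneg_left _ (Nat.cast_nonneg _)
            apply mul_le_mul_of_nonneg_left _ hε'0.le
            apply mul_le_mul_of_nonneg_left _ (Nat.cast_nonneg _)
            exact mul_le_mul_of_nonneg_left hle (Nat.cast_nonneg _)
          have h6 := le_of_mul_le_mul_left h5 (hcpos i)
          exact le_of_mul_le_mul_left h6 (hcpos j)
        · rw [not_nonempty_iff_eq_empty] at hne
          rw [hne, sum_empty, abs_zero]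
          positivity
      rw [hsplit]
      have h2 : δ e * ∑ x ∈ Fintype.piFinset A, ∏ e' ∈ G', F e' x + ∑ x ∈ Fintype.piFinset A, Φ x
          - (δ e * ∏ e' ∈ G', δ e') * ∏ i, ((A i).card : ℝ)
          = δ e * (∑ x ∈ Fintype.piFinset A, ∏ e' ∈ G', F e' x - (∏ e' ∈ G', δ e') * ∏ i, ((A i).card : ℝ))
            + ∑ x ∈ Fintype.piFinset A, Φ x := by ring
      rw [h2]
      refine (abs_add_le _ _).trans ?_
      rw [abs_mul, abs_of_nonneg (hδ01 e).1]
      have h3 : δ e * |∑ x ∈ Fintype.piFinset A, ∏ e' ∈ G', F e' x - (∏ e' ∈ G', δ e') * ∏ i, ((A i).card : ℝ)|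
          ≤ 1 * (n * (ε' * T)) := mul_le_mul (hδ01 e).2 h1 (abs_nonneg _) (by norm_num)
      push_cast
      linarith
  have h1 := hind E.card E (Subset.refl E) rfl
  rw [hF] at h1
  refine h1.trans ?_
  rw [← hT]
  have h2 : (E.card : ℝ) ≤ 2 ^ k := by
    have h3 : E.card ≤ Fintype.card (Finset ι) := card_le_univ E
    rw [Fintype.card_finset, ← hk] at h3
    exact_mod_cast h3
  calc (E.card : ℝ) * (ε' * T) ≤ 2 ^ k * (ε' * T) := mul_le_mul_of_nonneg_right h2 (by positivity)
    _ = ε * T := by rw [hε']; field_simp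

end Pool.Agent.U596.TP
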