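import Pool.Agent.U596.TP1
import Pool.Agent.W41.MU22

/-! The mean square over a cell along a sifted set: explicit form. -/

set_option autoImplicit false

namespace Pool.Agent.U596.TP

open Pool.Agent.H320R2.PD Pool.Agent.H499R2.ND Finset Pool.Agent.H499R2.CO Pool.Agent.W41.FU Pool.Agent.W41
  Pool.Agent.W41.MU Pool.Agent.H376R2.MR

/-- changing the order of summation -/
theorem win_swap {P : Finset ℕ} {J a M : ℕ} (ha : 1 ≤ a) (hJM : J ≤ 2 * M) {Cw : ℝ}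
    (hwin : ∀ t : ℤ, ∑ g ∈ range J, wt P 0 1 (t + (g : ℕ)) ≤ Cw) (g : ℕ → ℝ) (hg : ∀ m, 0 ≤ g m) :
    ∑ b ∈ Ico M (2 * M), ∑ i ∈ range (a * J), wt P 0 1 (b : ℕ) * g (a * b + i)
      ≤ Cw * ∑ m ∈ Ico (a * M) (4 * (a * M)), g m := by
  classical
  have h1 : ∀ b : ℕ, ∑ i ∈ range (a * J), wt P 0 1 (b : ℕ) * g (a * b + i)
      = ∑ m ∈ Ico (a * b) (a * b + a * J), wt P 0 1 (b : ℕ) * g m := by
    intro b
    rw [sum_Ico_eq_sum_range, Nat.add_sub_cancel_left]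
  simp_rw [h1]
  rw [sum_comm' (t' := Ico (a * M) (4 * (a * M)))
    (s' := fun m => (Ico M (2 * M)).filter (fun b => a * b ≤ m ∧ m < a * b + a * J))]
  · rw [mul_sum]
    apply sum_le_sum
    intro m _
    rw [← sum_mul]
    apply mul_le_mul_of_nonneg_right _ (hg m)
    refine le_trans ?_ (hwin ((m / a : ℕ) - (J : ℤ) + 1))
    have h2 : ∑ x ∈ (Ico M (2 * M)).filter (fun b => a * b ≤ m ∧ m < a * b + a * J), wt P 0 1 (x : ℕ)
        = ∑ x ∈ ((Ico M (2 * M)).filter (fun b => a * b ≤ m ∧ m < a * b + a * J)).image (fun x : ℕ => (x : ℤ)), wt P 0 1 x := by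
      rw [sum_image]
      intro x _ y _ hxy
      simpa using hxy
    have h3 : ∑ g ∈ range J, wt P 0 1 (((m / a : ℕ) - (J : ℤ) + 1) + (g : ℕ))
        = ∑ x ∈ (range J).image (fun g : ℕ => ((m / a : ℕ) - (J : ℤ) + 1) + (g : ℕ)), wt P 0 1 x := by
      rw [sum_image]
      intro x _ y _ hxy
      simp only at hxy
      omega
    rw [h2, h3]
    apply sum_le_sum_of_subset_of_nonneg
    · intro x hx
      rw [mem_image] at hx ⊢
      obtain ⟨b, hb, rfl⟩ := hx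
      rw [mem_filter, mem_Ico] at hb
      obtain ⟨-, hb1, hb2⟩ := hb
      have c1 : b ≤ m / a := by rw [Nat.le_div_iff_mul_le (by omega)]; linarith [mul_comm a b]
      have c2 : m / a < b + J := by
        rw [Nat.div_lt_iff_lt_mul (by omega)]
        have : (b + J) * a = a * b + a * J := by ring
        omega
      refine ⟨b + J - 1 - m / a, ?_, ?_⟩
      · rw [mem_range]; omega
      · push_cast [show m / a ≤ b + J - 1 by omega, show 1 ≤ b + J by omega]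
        omega
    · intro x _ _; exact wt_nonneg _ _ _ _
  · intro b m
    simp only [mem_Ico, mem_filter]
    constructor
    · rintro ⟨⟨h2, h3⟩, h4, h5⟩
      refine ⟨⟨⟨h2, h3⟩, h4, h5⟩, (Nat.mul_le_mul_left a h2).trans h4, ?_⟩
      have h6 : a * b + a * J < 4 * (a * M) ∨ a * b + a * J = a * b + a * J := Or.inr rfl
      have h7 : a * (b + 1) ≤ a * (2 * M) := Nat.mul_le_mul_left a h3
      have h8 : a * J ≤ a * (2 * M) := Nat.mul_le_mul_left a hJM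
      have h9 : a * (b + 1) = a * b + a := by ring
      have h10 : a * (2 * M) = 2 * (a * M) := by ring
      omega
    · rintro ⟨⟨⟨h2, h3⟩, h4, h5⟩, _, _⟩
      exact ⟨⟨h2, h3⟩, h4, h5⟩

theorem sq_shift (z z' : ℂ) : ‖z‖ ^ 2 ≤ 2 * ‖z'‖ ^ 2 + 2 * ‖z' - z‖ ^ 2 := by
  have h1 : ‖z‖ ≤ ‖z'‖ + ‖z' - z‖ := by
    have h2 : z = z' - (z' - z) := by ring
    calc ‖z‖ = ‖z' - (z' - z)‖ := by rw [← h2]
      _ ≤ _ := norm_sub_le _ _
  nlinarith [norm_nonneg z, norm_nonneg z', norm_nonneg (z' - z), sq_nonneg (‖z'‖ - ‖z' - z‖)]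

/-- THE MEAN SQUARE OVER A CELL ALONG A SIFTED SET, explicit form. -/
theorem wcore {f : ℤ → ℝ} (hf : ∀ n, |f n| ≤ 1) {H v a M J : ℕ} (ha : 1 ≤ a) (hJ : 1 ≤ J) (hJM : J ≤ 2 * M)
    {P : Finset ℕ} {w : ℕ → ℂ} (hw : ∀ p ∈ cell H v, ‖w p‖ ≤ 1 / p) {B1 B2 Cw : ℝ} (hCw : 0 ≤ Cw)
    (hwin : ∀ t : ℤ, ∑ g ∈ range J, wt P 0 1 (t + (g : ℕ)) ≤ Cw * J)
    (hlc : ∀ p ∈ cell H v, ∀ i : ℕ, i < a * J → ∑ b ∈ Ico M (2 * M), wt P 0 1 (b : ℕ) *
      |f (((p * (a * b) : ℕ) : ℤ) + ((p * i : ℕ) : ℤ)) - f ((p * (a * b) : ℕ) : ℤ)| ≤ B1)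
    (hms : ∑ m ∈ Ico (a * M) (4 * (a * M)), ‖∑ p ∈ cell H v, w p * tw f 0 (((p * m : ℕ) : ℤ))‖ ^ 2 ≤ B2) :
    ∑ b ∈ Ico M (2 * M), wt P 0 1 (b : ℕ) * ‖∑ p ∈ cell H v, w p * tw f 0 (((p * (a * b) : ℕ) : ℤ))‖ ^ 2
      ≤ 2 * Cw * B2 / a + 4 * mm H v ^ 2 * B1 := by
  classical
  set G : ℕ → ℂ := fun m => ∑ p ∈ cell H v, w p * tw f 0 (((p * m : ℕ) : ℤ)) with hG
  have ha0 : (0 : ℝ) < a := by exact_mod_cast ha
  have hJ0 : (0 : ℝ) < J := by exact_mod_cast hJ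
  have hmm0 : 0 ≤ mm H v := sum_nonneg fun p _ => by positivity
  have hGn : ∀ m, ‖G m‖ ≤ mm H v := by
    intro m
    rw [hG]
    refine (norm_sum_le _ _).trans ?_
    unfold mm
    apply sum_le_sum
    intro p hp
    rw [norm_mul]
    calc ‖w p‖ * ‖tw f 0 (((p * m : ℕ) : ℤ))‖ ≤ 1 / p * 1 :=
          mul_le_mul (hw p hp) (tw_norm hf _ _) (norm_nonneg _) (by positivity)
      _ = 1 / p := mul_one _
  have hGd : ∀ b i : ℕ, ‖G (a * b + i) - G (a * b)‖ ^ 2 ≤ 2 * mm H v * ∑ p ∈ cell H v, 1 / (p : ℝ) *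
      |f (((p * (a * b) : ℕ) : ℤ) + ((p * i : ℕ) : ℤ)) - f ((p * (a * b) : ℕ) : ℤ)| := by
    intro b i
    have h1 : ‖G (a * b + i) - G (a * b)‖ ≤ 2 * mm H v := by
      have h2 := norm_sub_le (G (a * b + i)) (G (a * b))
      have h3 := hGn (a * b + i)
      have h4 := hGn (a * b)
      linarith
    have h2 : ‖G (a * b + i) - G (a * b)‖ ≤ ∑ p ∈ cell H v, 1 / (p : ℝ) *
      |f (((p * (a * b) : ℕ) : ℤ) + ((p * i : ℕ) : ℤ)) - f ((p * (a * b) : ℕ) : ℤ)| := by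
      rw [hG]
      simp only
      rw [← sum_sub_distrib]
      refine (norm_sum_le _ _).trans (sum_le_sum fun p hp => ?_)
      rw [← mul_sub, norm_mul]
      apply mul_le_mul (hw p hp) _ (norm_nonneg _) (by positivity)
      have h3 := tw_diff hf 0 ((p * (a * b) : ℕ) : ℤ) ((p * i : ℕ) : ℤ)
      rw [abs_zero, zero_mul, add_zero] at h3
      have e : ((p * (a * b + i) : ℕ) : ℤ) = ((p * (a * b) : ℕ) : ℤ) + ((p * i : ℕ) : ℤ) := by push_cast; ring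
      rw [e]
      exact h3
    rw [sq]
    exact mul_le_mul h1 h2 (norm_nonneg _) (by positivity)
  -- first part
  have hA := win_swap (P := P) (J := J) (a := a) (M := M) ha hJM (Cw := Cw * J) hwin (fun m => ‖G m‖ ^ 2) (fun m => sq_nonneg _)
  have hA' : ∑ b ∈ Ico M (2 * M), ∑ i ∈ range (a * J), wt P 0 1 (b : ℕ) * ‖G (a * b + i)‖ ^ 2 ≤ Cw * J * B2 :=
    hA.trans (mul_le_mul_of_nonneg_left hms (by positivity))
  -- second part
  have hB : ∑ b ∈ Ico M (2 * M), ∑ i ∈ range (a * J), wt P 0 1 (b : ℕ) * ‖G (a * b + i) - G (a * b)‖ ^ 2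
      ≤ a * J * (2 * mm H v ^ 2 * B1) := by
    rw [sum_comm]
    have h1 : ∀ i ∈ range (a * J), ∑ b ∈ Ico M (2 * M), wt P 0 1 (b : ℕ) * ‖G (a * b + i) - G (a * b)‖ ^ 2
        ≤ 2 * mm H v ^ 2 * B1 := by
      intro i hi
      rw [mem_range] at hi
      calc ∑ b ∈ Ico M (2 * M), wt P 0 1 (b : ℕ) * ‖G (a * b + i) - G (a * b)‖ ^ 2
          ≤ ∑ b ∈ Ico M (2 * M), wt P 0 1 (b : ℕ) * (2 * mm H v * ∑ p ∈ cell H v, 1 / (p : ℝ) *
            |f (((p * (a * b) : ℕ) : ℤ) + ((p * i : ℕ) : ℤ)) - f ((p * (a * b) : ℕ) : ℤ)|) :=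
            sum_le_sum fun b _ => mul_le_mul_of_nonneg_left (hGd b i) (wt_nonneg _ _ _ _)
        _ = 2 * mm H v * ∑ p ∈ cell H v, 1 / (p : ℝ) * ∑ b ∈ Ico M (2 * M), wt P 0 1 (b : ℕ) *
            |f (((p * (a * b) : ℕ) : ℤ) + ((p * i : ℕ) : ℤ)) - f ((p * (a * b) : ℕ) : ℤ)| := by
            simp_rw [mul_sum]
            rw [sum_comm]
            apply sum_congr rfl; intro p _
            apply sum_congr rfl; intro b _
            ring
        _ ≤ 2 * mm H v * ∑ p ∈ cell H v, 1 / (p : ℝ) * B1 := by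
            apply mul_le_mul_of_nonneg_left _ (by positivity)
            exact sum_le_sum fun p hp => mul_le_mul_of_nonneg_left (hlc p hp i hi) (by positivity)
        _ = 2 * mm H v ^ 2 * B1 := by
            rw [← sum_mul]
            unfold mm
            ring
    refine (sum_le_sum h1).trans (le_of_eq ?_)
    rw [sum_const, card_range, nsmul_eq_mul]
    push_cast
    ring
  have hC : a * J * ∑ b ∈ Ico M (2 * M), wt P 0 1 (b : ℕ) * ‖G (a * b)‖ ^ 2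
      ≤ 2 * (Cw * J * B2) + 2 * (a * J * (2 * mm H v ^ 2 * B1)) := by
    calc a * J * ∑ b ∈ Ico M (2 * M), wt P 0 1 (b : ℕ) * ‖G (a * b)‖ ^ 2
        = ∑ b ∈ Ico M (2 * M), ∑ i ∈ range (a * J), wt P 0 1 (b : ℕ) * ‖G (a * b)‖ ^ 2 := by
          simp only [sum_const, card_range, nsmul_eq_mul]
          rw [mul_sum]
          push_cast
          rfl
      _ ≤ ∑ b ∈ Ico M (2 * M), ∑ i ∈ range (a * J), (2 * (wt P 0 1 (b : ℕ) * ‖G (a * b + i)‖ ^ 2)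
            + 2 * (wt P 0 1 (b : ℕ) * ‖G (a * b + i) - G (a * b)‖ ^ 2)) := by
          apply sum_le_sum; intro b _
          apply sum_le_sum; intro i _
          have h1 := mul_le_mul_of_nonneg_left (sq_shift (G (a * b)) (G (a * b + i))) (wt_nonneg P 0 1 (b : ℕ))
          linarith
      _ = 2 * (∑ b ∈ Ico M (2 * M), ∑ i ∈ range (a * J), wt P 0 1 (b : ℕ) * ‖G (a * b + i)‖ ^ 2)
          + 2 * (∑ b ∈ Ico M (2 * M), ∑ i ∈ range (a * J), wt P 0 1 (b : ℕ) * ‖G (a * b + i) - G (a * b)‖ ^ 2) := by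
          simp_rw [sum_add_distrib, mul_sum]
      _ ≤ _ := by linarith
  have hfin : ∑ b ∈ Ico M (2 * M), wt P 0 1 (b : ℕ) * ‖G (a * b)‖ ^ 2 ≤ 2 * Cw * B2 / a + 4 * mm H v ^ 2 * B1 := by
    have haJ : (0 : ℝ) < a * J := by positivity
    refine le_of_mul_le_mul_left (hC.trans (le_of_eq ?_)) haJ
    field_simp
    ring
  exact hfin

end Pool.Agent.U596.TP
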