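import Pool.Agent.U596.TP2

/-! The mean square over a cell along a sifted set. -/

set_option autoImplicit false

namespace Pool.Agent.U596.TP

open Pool.Agent.H320R2.PD Pool.Agent.H499R2.ND Finset Pool.Agent.H499R2.CO Pool.Agent.W41.FU Pool.Agent.W41
  Pool.Agent.W41.MU Pool.Agent.H376R2.MR

theorem wt_mono {P P' : Finset ℕ} (h : P' ⊆ P) (A B t : ℤ) : wt P A B t ≤ wt P' A B t := by
  unfold wt
  split_ifs with h1 h2
  · exact le_rfl
  · exact absurd (fun p hp => h1 p (h hp)) h2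
  · norm_num
  · exact le_rfl

theorem one_ndvd {P : Finset ℕ} (hP : ∀ p ∈ P, p.Prime) : ∀ p ∈ P, ¬ (p : ℤ) ∣ 1 := by
  intro p hp hd1
  have h1 := (hP p hp).one_lt
  have h2 : p ∣ 1 := by exact_mod_cast hd1
  have := Nat.dvd_one.1 h2
  omega

/-- THE MEAN SQUARE OVER A CELL ALONG A SIFTED SET. -/
theorem wmain {s : ℤ} (hs : s = 1 ∨ s = -1) : ∃ κ : ℝ, 0 < κ ∧ κ ≤ 1 / 8 ∧
    ∀ ε : ℝ, 0 < ε → ε ≤ 1 → ∀ H : ℕ, 10 ≤ H → ∃ ϑ : ℝ, 0 < ϑ ∧ ϑ ≤ 1 / 32 ∧ ∀ θ1 : ℝ, 0 < θ1 → ∃ X0 : ℝ, 1 ≤ X0 ∧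
    ∀ X : ℝ, X0 ≤ X → ∀ S : Set ℤ, Inv 1 S → ∀ δ : ℝ, HD s S δ →
    ∀ a : ℕ, a % 2 = 1 → (a : ℝ) ≤ X ^ ϑ →
    ∀ v M : ℕ, θ1 * Real.log X ≤ (v : ℝ) / H → ((v : ℝ) + 1) / H ≤ ϑ * Real.log X →
    X ≤ 2 * (a * M * Real.exp ((v : ℝ) / H)) → a * M * Real.exp ((v : ℝ) / H) ≤ 2 * X →
    ∀ P : Finset ℕ, (∀ p ∈ P, p.Prime ∧ (p : ℝ) ≤ X ^ κ) →
    ∀ w : ℕ → ℂ, (∀ p ∈ cell H v, ‖w p‖ ≤ 1 / p) →
    ∑ b ∈ Ico M (2 * M), wt P 0 1 (b : ℕ) * ‖∑ p ∈ cell H v, w p * tw (bal s S δ) 0 (((p * (a * b) : ℕ) : ℤ))‖ ^ 2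
      ≤ ε * (V P * (M * mm H v ^ 2)) := by
  have hodd : Odd s := by rcases hs with rfl | rfl <;> decide
  have hss : s * s = 1 := by rcases hs with rfl | rfl <;> norm_num
  obtain ⟨κ0, hκ0, hκ1, hlcw⟩ := lcw hodd hss
  obtain ⟨K, y2, hK, hy2, hwin⟩ := window (show (0 : ℝ) < 1 by norm_num)
  refine ⟨κ0 / 2, by positivity, by linarith, fun ε hε hε1 H hH => ?_⟩
  have hKR : (1 : ℝ) ≤ K := by exact_mod_cast hK
  have hK0 : (0 : ℝ) < K := by linarith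
  obtain ⟨θ, hθ, hθ1, M0, hM0, hlc⟩ := hlcw (ε / 16) (by positivity) (by linarith)
  obtain ⟨η, hη⟩ : ∃ η : ℝ, η = θ / (32 * K) := ⟨_, rfl⟩
  have hη0 : 0 < η := by rw [hη]; positivity
  have hηθ : η ≤ θ / 32 := by
    rw [hη]
    apply div_le_div_of_nonneg_left hθ.le (by norm_num)
    linarith
  obtain ⟨C, hC1, hC⟩ := V_ratio hη0 (by linarith)
  obtain ⟨ϑ1, hϑ10, hϑ11, hcm⟩ := cellmain hs (ε := ε / (24 * C)) (by positivity) (by
    rw [div_le_one (by positivity)]; linarith) hH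
  have hH0 : (0 : ℝ) < H := by exact_mod_cast (by omega : 0 < H)
  refine ⟨min (ϑ1 / 8) (θ / 16), by positivity, ?_, fun θ1 hθ1 => ?_⟩
  · exact (min_le_left _ _).trans (by linarith)
  obtain ⟨ϑ, hϑ⟩ : ∃ ϑ : ℝ, ϑ = min (ϑ1 / 8) (θ / 16) := ⟨_, rfl⟩
  rw [← hϑ]
  have hϑ0 : 0 < ϑ := by rw [hϑ]; positivity
  have hϑa : ϑ ≤ ϑ1 / 8 := by rw [hϑ]; exact min_le_left _ _
  have hϑb : ϑ ≤ θ / 16 := by rw [hϑ]; exact min_le_right _ _
  obtain ⟨X0, hX0, hX0'⟩ := hcm θ1 hθ1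
  obtain ⟨n0, hn0⟩ : ∃ n0 : ℝ, n0 = (y2 : ℝ) + 3 := ⟨_, rfl⟩
  refine ⟨X0 + (M0 : ℝ) ^ 2 + n0 ^ (1 / η) + Real.exp (1 / θ1) + 4, by
    have h1 : (0 : ℝ) ≤ (M0 : ℝ) ^ 2 := by positivity
    have h2 : (0 : ℝ) ≤ n0 ^ (1 / η) := by rw [hn0]; positivity
    have h3 := Real.exp_pos (1 / θ1)
    linarith, ?_⟩
  intro X hX S hS δ hδ a ha haX v M hv1 hv2 hQ1 hQ2 P hP w hw
  have hn00 : 0 < n0 := by rw [hn0]; positivity
  have t1 : (0 : ℝ) ≤ (M0 : ℝ) ^ 2 := by positivity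
  have t2 : (0 : ℝ) ≤ n0 ^ (1 / η) := by positivity
  have t3 := Real.exp_pos (1 / θ1)
  have hXX0 : X0 ≤ X := by linarith
  have hXM : (M0 : ℝ) ^ 2 ≤ X := by linarith
  have hXn : n0 ^ (1 / η) ≤ X := by linarith
  have hXe : Real.exp (1 / θ1) ≤ X := by linarith
  have hX4 : 4 ≤ X := by linarith
  have hX0p : 0 < X := by linarith
  have hX1 : 1 ≤ X := by linarith
  clear hX t1 t2 t3
  have hnX : n0 ≤ X ^ η := by
    have h1 : (n0 ^ (1 / η)) ^ η ≤ X ^ η := Real.rpow_le_rpow (by positivity) hXn hη0.le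
    rwa [← Real.rpow_mul hn00.le, one_div_mul_cancel hη0.ne', Real.rpow_one] at h1
  obtain ⟨u, hu⟩ : ∃ u : ℝ, u = X ^ η := ⟨_, rfl⟩
  have hu3 : 3 ≤ u := by
    rw [hu]
    have : (0 : ℝ) ≤ y2 := Nat.cast_nonneg _
    linarith
  have huy : (y2 : ℝ) + 3 ≤ u := by rw [hu]; linarith
  have hlX : 0 < Real.log X := Real.log_pos (by linarith)
  -- sizes
  have ha1 : 1 ≤ a := by omega
  have ha0 : (0 : ℝ) < a := by exact_mod_cast ha1
  have hE : Real.exp ((v : ℝ) / H) ≤ X ^ ϑ := by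
    rw [Real.rpow_def_of_pos hX0p]
    apply Real.exp_le_exp.2
    have : (v : ℝ) / H ≤ ((v : ℝ) + 1) / H := div_le_div_of_nonneg_right (by linarith) hH0.le
    linarith
  have hϑ32 : ϑ ≤ 1 / 32 := by linarith
  have hMX : X ^ (1 / 2 : ℝ) ≤ 2 * M := by
    have h1 : X ≤ 2 * (X ^ ϑ * M * X ^ ϑ) := by
      refine hQ1.trans ?_
      have h2 : (a : ℝ) * M ≤ X ^ ϑ * M := mul_le_mul_of_nonneg_right haX (Nat.cast_nonneg _)
      have h3 : a * M * Real.exp ((v : ℝ) / H) ≤ X ^ ϑ * M * X ^ ϑ :=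
        mul_le_mul h2 hE (Real.exp_pos _).le (by positivity)
      linarith
    have h2 : X ^ ϑ * X ^ ϑ ≤ X ^ (1 / 2 : ℝ) := by
      rw [← Real.rpow_add hX0p]
      exact Real.rpow_le_rpow_of_exponent_le hX1 (by linarith)
    have h3 : X ≤ X ^ (1 / 2 : ℝ) * (2 * M) := by
      calc X ≤ 2 * (X ^ ϑ * M * X ^ ϑ) := h1
        _ = (X ^ ϑ * X ^ ϑ) * (2 * M) := by ring
        _ ≤ _ := mul_le_mul_of_nonneg_right h2 (by positivity)
    have h4 : X = X ^ (1 / 2 : ℝ) * X ^ (1 / 2 : ℝ) := by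
      rw [← Real.rpow_add hX0p]; norm_num
    have h5 : X ^ (1 / 2 : ℝ) * X ^ (1 / 2 : ℝ) ≤ X ^ (1 / 2 : ℝ) * (2 * M) := by rw [← h4]; exact h3
    exact le_of_mul_le_mul_left h5 (by positivity)
  have hM1 : (0 : ℝ) < M := by
    have : (0 : ℝ) < X ^ (1 / 2 : ℝ) := by positivity
    linarith
  have h2M : ((2 * M : ℕ) : ℝ) = 2 * M := by push_cast; ring
  have h2M0 : M0 ≤ 2 * M := by
    have h1 : (M0 : ℝ) ≤ X ^ (1 / 2 : ℝ) := by
      have h2 : ((M0 : ℝ) ^ 2) ^ (1 / 2 : ℝ) ≤ X ^ (1 / 2 : ℝ) := Real.rpow_le_rpow (by positivity) hXM (by norm_num)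
      rwa [← Real.rpow_natCast, ← Real.rpow_mul (Nat.cast_nonneg _), show ((2 : ℕ) : ℝ) * (1 / 2) = 1 by norm_num,
        Real.rpow_one] at h2
    have h3 : (M0 : ℝ) ≤ ((2 * M : ℕ) : ℝ) := by rw [h2M]; linarith
    exact_mod_cast h3
  -- the length of the windows
  obtain ⟨J, hJ⟩ : ∃ J : ℕ, J = ⌊X ^ (θ / 8)⌋₊ := ⟨_, rfl⟩
  obtain ⟨z, hz⟩ : ∃ z : ℕ, z = ⌊X ^ (2 * η)⌋₊ := ⟨_, rfl⟩
  have hJ1 : (J : ℝ) ≤ X ^ (θ / 8) := by rw [hJ]; exact Nat.floor_le (by positivity)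
  have hJ2 : X ^ (θ / 8) < (J : ℝ) + 1 := by rw [hJ]; exact Nat.lt_floor_add_one _
  have hz1 : (z : ℝ) ≤ X ^ (2 * η) := by rw [hz]; exact Nat.floor_le (by positivity)
  have hz2 : X ^ (2 * η) < (z : ℝ) + 1 := by rw [hz]; exact Nat.lt_floor_add_one _
  have hu2 : X ^ (2 * η) = u * u := by rw [hu, ← Real.rpow_add hX0p]; congr 1; ring
  have hzu : u ≤ z := by rw [hu2] at hz2; nlinarith only [hz2, hu3]
  have hz3 : 3 ≤ z := by
    have : (3 : ℝ) ≤ z := hu3.trans hzu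
    exact_mod_cast this
  have hzy2 : y2 ≤ z := by
    have : (y2 : ℝ) ≤ z := by linarith
    exact_mod_cast this
  have hzK : z ^ K ≤ J := by
    have h1 : (z : ℝ) ^ K ≤ X ^ (θ / 16) := by
      calc (z : ℝ) ^ K ≤ (X ^ (2 * η)) ^ K := pow_le_pow_left₀ (Nat.cast_nonneg _) hz1 _
        _ = X ^ (2 * η * K) := by rw [← Real.rpow_natCast, ← Real.rpow_mul hX0p.le]
        _ = X ^ (θ / 16) := by
            congr 1
            rw [hη]; field_simp; norm_num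
    have h2 : X ^ (θ / 16) + 1 ≤ X ^ (θ / 8) := by
      have e : X ^ (θ / 8) = X ^ (θ / 16) * X ^ (θ / 16) := by
        rw [← Real.rpow_add hX0p]; congr 1; ring
      have h3 : 3 ≤ X ^ (θ / 16) := by
        refine hu3.trans ?_
        rw [hu]
        exact Real.rpow_le_rpow_of_exponent_le hX1 (by linarith)
      rw [e]; nlinarith only [h3]
    have h4 : (z : ℝ) ^ K < (J : ℝ) + 1 := by linarith
    have h5 : z ^ K < J + 1 := by exact_mod_cast h4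
    omega
  have hJ1' : 1 ≤ J := le_trans (Nat.one_le_pow _ _ (by omega)) hzK
  have hJM : J ≤ 2 * M := by
    have h1 : X ^ (θ / 8) ≤ X ^ (1 / 2 : ℝ) := Real.rpow_le_rpow_of_exponent_le hX1 (by linarith)
    have h3 : (J : ℝ) ≤ ((2 * M : ℕ) : ℝ) := by rw [h2M]; linarith
    exact_mod_cast h3
  have hPp : ∀ p ∈ P, p.Prime := fun p hp => (hP p hp).1
  have hV0 := V_pos hPp
  have hd := HD_mem hs hδ
  have hf : ∀ n, |bal s S δ n| ≤ 1 := fun n => bal_abs hd.1 hd.2 n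
  have hfS := bal_same hs hS hd.1 hd.2
  have hmm0 : 0 ≤ mm H v := sum_nonneg fun p _ => by positivity
  -- windows
  have hwinJ : ∀ t : ℤ, ∑ g ∈ range J, wt P 0 1 (t + (g : ℕ)) ≤ (2 * C * V P) * J := by
    intro t
    obtain ⟨y, hy⟩ : ∃ y : ℕ, y = max z ⌊X ^ (κ0 / 2)⌋₊ := ⟨_, rfl⟩
    have hzy : z ≤ y := by rw [hy]; exact le_max_left _ _
    have hPy : ∀ p ∈ P, p.Prime ∧ p ≤ y := fun p hp =>
      ⟨(hP p hp).1, by rw [hy]; exact (Nat.le_floor (hP p hp).2).trans (le_max_right _ _)⟩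
    have hyX : (y : ℝ) ≤ X := by
      have h1 : (z : ℝ) ≤ X := by
        refine hz1.trans ?_
        calc X ^ (2 * η) ≤ X ^ (1 : ℝ) := Real.rpow_le_rpow_of_exponent_le hX1 (by linarith)
          _ = X := Real.rpow_one _
      have h2 : ((⌊X ^ (κ0 / 2)⌋₊ : ℕ) : ℝ) ≤ X := by
        refine (Nat.floor_le (by positivity)).trans ?_
        calc X ^ (κ0 / 2) ≤ X ^ (1 : ℝ) := Real.rpow_le_rpow_of_exponent_le hX1 (by linarith)
          _ = X := Real.rpow_one _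
      rw [hy]
      push_cast
      exact max_le h1 h2
    have hlogs : η * Real.log y ≤ Real.log z := by
      have h1 : Real.log y ≤ Real.log X := Real.log_le_log (by
        have : (3 : ℝ) ≤ y := by exact_mod_cast (hz3.trans hzy)
        linarith) hyX
      have h2 : η * Real.log X ≤ Real.log z := by
        rw [← Real.log_rpow hX0p, ← hu]
        exact Real.log_le_log (by linarith) hzu
      nlinarith only [h1, h2, hη0]
    have h1 := hC z y hz3 hzy hlogs P hPy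
    have h2 : ∀ g ∈ range J, wt P 0 1 (t + (g : ℕ)) ≤ wt (P.filter (fun p => p ≤ z)) 0 1 (t + (g : ℕ)) :=
      fun g _ => wt_mono (filter_subset _ _) _ _ _
    refine (sum_le_sum h2).trans ?_
    have h3 := hwin z hzy2 J hzK (P.filter (fun p => p ≤ z)) (fun p hp => ⟨hPp p (mem_filter.1 hp).1, (mem_filter.1 hp).2⟩)
      0 1 (one_ndvd fun p hp => hPp p (mem_filter.1 hp).1) t
    rw [abs_le] at h3
    have h4 : (J : ℝ) * V (P.filter (fun p => p ≤ z)) ≤ J * (C * V P) := mul_le_mul_of_nonneg_left h1 (Nat.cast_nonneg _)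
    linarith [h3.2]
  -- local constancy
  have hHv : H ≤ v := by
    have h1 : 1 / θ1 ≤ Real.log X := by
      rw [← Real.log_exp (1 / θ1)]; exact Real.log_le_log (Real.exp_pos _) hXe
    rw [div_le_iff₀ hθ1] at h1
    have h2 : 1 ≤ (v : ℝ) / H := by linarith
    rw [le_div_iff₀ hH0, one_mul] at h2
    exact_mod_cast h2
  have hcodd := cell_odd (show 1 ≤ H by omega) hHv
  have hlcJ : ∀ p ∈ cell H v, ∀ i : ℕ, i < a * J → ∑ b ∈ Ico M (2 * M), wt P 0 1 (b : ℕ) *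
      |bal s S δ (((p * (a * b) : ℕ) : ℤ) + ((p * i : ℕ) : ℤ)) - bal s S δ ((p * (a * b) : ℕ) : ℤ)|
        ≤ ε / 8 * (M * V P) := by
    intro p hp i hi
    have hPl : ∀ q ∈ P, q.Prime ∧ (q : ℝ) ≤ ((2 * M : ℕ) : ℝ) ^ κ0 := by
      intro q hq
      refine ⟨(hP q hq).1, (hP q hq).2.trans ?_⟩
      rw [h2M]
      calc X ^ (κ0 / 2) = (X ^ (1 / 2 : ℝ)) ^ κ0 := by rw [← Real.rpow_mul hX0p.le]; congr 1; ring
        _ ≤ (2 * M : ℝ) ^ κ0 := Real.rpow_le_rpow (by positivity) hMX hκ0.le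
    have hca : ((p * a : ℕ) : ℤ) % 2 = 1 := by
      have h1 := hcodd p hp
      have : (p * a) % 2 = 1 := by rw [Nat.mul_mod, h1, ha]
      omega
    have hsh : |(((p * i : ℕ) : ℤ) : ℝ)| ≤ ((2 * M : ℕ) : ℝ) ^ θ := by
      have h1 : (((p * i : ℕ) : ℤ) : ℝ) = p * i := by push_cast; ring
      rw [h1, abs_of_nonneg (by positivity), h2M]
      have h2 : (p : ℝ) ≤ X ^ ϑ := by
        have h3 := cell_lt hp
        have hp0 : (0 : ℝ) < p := by exact_mod_cast h3.1.pos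
        rw [Real.rpow_def_of_pos hX0p, ← Real.exp_log hp0]
        apply Real.exp_le_exp.2
        linarith [h3.2.2]
      have h3 : (i : ℝ) ≤ X ^ ϑ * X ^ (θ / 8) := by
        have h4 : (i : ℝ) ≤ a * J := by exact_mod_cast hi.le
        refine h4.trans ?_
        exact mul_le_mul haX hJ1 (Nat.cast_nonneg _) (by positivity)
      calc (p : ℝ) * i ≤ X ^ ϑ * (X ^ ϑ * X ^ (θ / 8)) := mul_le_mul h2 h3 (Nat.cast_nonneg _) (by positivity)
        _ = X ^ (ϑ + (ϑ + θ / 8)) := by rw [Real.rpow_add hX0p, Real.rpow_add hX0p]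
        _ ≤ X ^ ((1 / 2 : ℝ) * θ) := Real.rpow_le_rpow_of_exponent_le hX1 (by linarith)
        _ = (X ^ (1 / 2 : ℝ)) ^ θ := by rw [Real.rpow_mul hX0p.le]
        _ ≤ (2 * M : ℝ) ^ θ := Real.rpow_le_rpow (by positivity) hMX hθ.le
    have h1 := hlc (2 * M) h2M0 P hPl (bal s S δ) hfS ((p * a : ℕ) : ℤ) hca 0 ((p * i : ℕ) : ℤ) hsh
    have h2 : ∑ b ∈ Ico M (2 * M), wt P 0 1 (b : ℕ) *
      |bal s S δ (((p * (a * b) : ℕ) : ℤ) + ((p * i : ℕ) : ℤ)) - bal s S δ ((p * (a * b) : ℕ) : ℤ)|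
        ≤ ∑ m ∈ Icc 1 (2 * M), wt P 0 1 (m : ℕ) *
          |bal s S δ (0 + ((p * a : ℕ) : ℤ) * (m : ℕ) + ((p * i : ℕ) : ℤ)) - bal s S δ (0 + ((p * a : ℕ) : ℤ) * (m : ℕ))| := by
      have e : ∀ b : ℕ, ((p * (a * b) : ℕ) : ℤ) = 0 + ((p * a : ℕ) : ℤ) * (b : ℕ) := by intro b; push_cast; ring
      simp_rw [e]
      apply sum_le_sum_of_subset_of_nonneg
      · intro b hb
        rw [mem_Ico] at hb
        rw [mem_Icc]
        have : 0 < M := by exact_mod_cast hM1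
        omega
      · intro b _ _
        exact mul_nonneg (wt_nonneg _ _ _ _) (abs_nonneg _)
    refine h2.trans (h1.trans (le_of_eq ?_))
    rw [h2M]; ring
  -- the mean square
  have hms : ∑ m ∈ Ico (a * M) (4 * (a * M)), ‖∑ p ∈ cell H v, w p * tw (bal s S δ) 0 (((p * m : ℕ) : ℤ))‖ ^ 2
      ≤ 3 * (ε / (24 * C) * (a * M * mm H v ^ 2)) := by
    have hv2' : ((v : ℝ) + 1) / H ≤ ϑ1 / 8 * Real.log X := hv2.trans (mul_le_mul_of_nonneg_right hϑa hlX.le)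
    have c1 := hX0' X hXX0 S hS δ hδ 0 v (a * M) hv1 hv2' (by push_cast; linarith) (by push_cast; linarith) w hw
    have c2 := hX0' X hXX0 S hS δ hδ 0 v (2 * (a * M)) hv1 hv2' (by push_cast; linarith) (by push_cast; linarith) w hw
    have e : Ico (a * M) (4 * (a * M)) = Ico (a * M) (2 * (a * M)) ∪ Ico (2 * (a * M)) (2 * (2 * (a * M))) := by
      rw [Ico_union_Ico_eq_Ico (by omega) (by omega)]
      congr 1; ring
    rw [e, sum_union (Ico_disjoint_Ico_consecutive _ _ _)]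
    push_cast at c1 c2
    calc _ ≤ ε / (24 * C) * (a * M * mm H v ^ 2) + ε / (24 * C) * (2 * (a * M) * mm H v ^ 2) := by
          refine add_le_add (le_trans (le_of_eq ?_) c1) (le_trans (le_of_eq ?_) c2) <;> push_cast <;> rfl
      _ = _ := by ring
  have key := wcore hf (H := H) (v := v) (a := a) (M := M) (J := J) ha1 hJ1' hJM (P := P) (w := w) hw
    (Cw := 2 * C * V P) (by positivity) hwinJ hlcJ hms
  refine key.trans (le_of_eq ?_)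
  field_simp
  ring

end Pool.Agent.U596.TP
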