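import Pool.Agent.U596.TP3

/-! Bilinear sums over a cell: explicit form. -/

set_option autoImplicit false

namespace Pool.Agent.U596.TP

open Pool.Agent.H320R2.PD Pool.Agent.H499R2.ND Finset Pool.Agent.H499R2.CO Pool.Agent.W41.FU Pool.Agent.W41
  Pool.Agent.W41.MU Pool.Agent.H376R2.MR

theorem wt_sq (P : Finset ℕ) (A B t : ℤ) : wt P A B t * wt P A B t = wt P A B t := by
  unfold wt
  split_ifs <;> norm_num

/-- the primes of a cell -/
theorem cell_up {H v q : ℕ} (hH : 10 ≤ H) (hq : q ∈ cell H v) : Real.exp ((v : ℝ) / H) ≤ (q : ℝ) ∧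
    (q : ℝ) ≤ 2 * Real.exp ((v : ℝ) / H) ∧ (q : ℝ) * (1 - 1 / H) ≤ Real.exp ((v : ℝ) / H) := by
  have hH0 : (0 : ℝ) < H := by exact_mod_cast (by omega : 0 < H)
  have hHi : 1 / (H : ℝ) ≤ 1 / 10 := one_div_le_one_div_of_le (by norm_num) (by exact_mod_cast hH)
  obtain ⟨P, hP⟩ : ∃ P : ℝ, P = Real.exp ((v : ℝ) / H) := ⟨_, rfl⟩
  rw [← hP]
  have hP0 : 0 < P := by rw [hP]; exact Real.exp_pos _
  have h1 := cell_lt hq
  have hq0 : (0 : ℝ) < q := by exact_mod_cast h1.1.pos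
  refine ⟨?_, ?_, ?_⟩
  · rw [hP, ← Real.exp_log hq0]
    exact Real.exp_le_exp.2 h1.2.1
  · rw [← Real.exp_log hq0]
    calc Real.exp (Real.log q) ≤ Real.exp (((v : ℝ) + 1) / H) := Real.exp_le_exp.2 h1.2.2.le
      _ = Real.exp (1 / H) * P := by rw [hP, ← Real.exp_add]; congr 1; ring
      _ ≤ Real.exp (9 / 20) * P := by
          apply mul_le_mul_of_nonneg_right _ hP0.le
          apply Real.exp_le_exp.2
          linarith
      _ ≤ 2 * P := mul_le_mul_of_nonneg_right exp_045 hP0.le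
  · have h2 : (q : ℝ) ≤ Real.exp (1 / H) * P := by
      rw [← Real.exp_log hq0]
      calc Real.exp (Real.log q) ≤ Real.exp (((v : ℝ) + 1) / H) := Real.exp_le_exp.2 h1.2.2.le
        _ = Real.exp (1 / H) * P := by rw [hP, ← Real.exp_add]; congr 1; ring
    have h3 : 1 - 1 / (H : ℝ) ≤ Real.exp (-(1 / H)) := by
      have := Real.add_one_le_exp (-(1 / (H : ℝ)))
      linarith
    calc (q : ℝ) * (1 - 1 / H) ≤ q * Real.exp (-(1 / H)) := mul_le_mul_of_nonneg_left h3 hq0.le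
      _ ≤ (Real.exp (1 / H) * P) * Real.exp (-(1 / H)) := mul_le_mul_of_nonneg_right h2 (Real.exp_pos _).le
      _ = P * (Real.exp (1 / H) * Real.exp (-(1 / H))) := by ring
      _ = P := by rw [← Real.exp_add, add_neg_cancel, Real.exp_zero, mul_one]

/-- the number of primes of a cell -/
theorem cell_card_le {H v : ℕ} (hH : 10 ≤ H) : ((cell H v).card : ℝ) ≤ 2 * Real.exp ((v : ℝ) / H) * mm H v := by
  obtain ⟨P, hP⟩ : ∃ P : ℝ, P = Real.exp ((v : ℝ) / H) := ⟨_, rfl⟩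
  have hP0 : 0 < P := by rw [hP]; exact Real.exp_pos _
  rw [← hP]
  have h1 : (cell H v).card * (1 / (2 * P)) ≤ mm H v := by
    have h2 : ∑ p ∈ cell H v, 1 / (2 * P) ≤ ∑ p ∈ cell H v, 1 / (p : ℝ) := by
      apply sum_le_sum
      intro p hp
      have hp0 : (0 : ℝ) < p := by exact_mod_cast (cell_lt hp).1.pos
      apply one_div_le_one_div_of_le hp0
      rw [hP]
      exact (cell_up hH hp).2.1
    rw [sum_const, nsmul_eq_mul] at h2
    exact h2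
  rw [mul_one_div, div_le_iff₀ (by positivity)] at h1
  linarith

/-- one block -/
theorem blockb {f : ℤ → ℝ} {H v a M : ℕ} {E : ℝ} (hE : E = Real.exp ((v : ℝ) / H)) (hH : 10 ≤ H)
    {P : Finset ℕ} {α : ℕ → ℂ} (hα : ∀ p, ‖α p‖ ≤ 1) {W ε3 : ℝ} (hW : 0 ≤ W) (hε3 : 0 ≤ ε3)
    (h1 : ∑ b ∈ Ico M (2 * M), wt P 0 1 (b : ℕ) ≤ 2 * M * W)
    (h2 : ∀ w : ℕ → ℂ, (∀ p ∈ cell H v, ‖w p‖ ≤ 1 / p) → ∑ b ∈ Ico M (2 * M), wt P 0 1 (b : ℕ) *
      ‖∑ p ∈ cell H v, w p * tw f 0 (((p * (a * b) : ℕ) : ℤ))‖ ^ 2 ≤ ε3 ^ 2 * (W * (M * mm H v ^ 2))) :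
    ∑ b ∈ Ico M (2 * M), wt P 0 1 (b : ℕ) * ‖∑ p ∈ cell H v, α p * tw f 0 (((p * (a * b) : ℕ) : ℤ))‖
      ≤ 3 * ε3 * (E * (W * (M * mm H v))) := by
  have hE0 : 0 < E := by rw [hE]; exact Real.exp_pos _
  have hmm0 : 0 ≤ mm H v := sum_nonneg fun p _ => by positivity
  have h2E : ((2 * E : ℝ) : ℂ) ≠ 0 := by rw [Complex.ofReal_ne_zero]; positivity
  have hw : ∀ p ∈ cell H v, ‖α p / ((2 * E : ℝ) : ℂ)‖ ≤ 1 / p := by
    intro p hp
    have hp0 : (0 : ℝ) < p := by exact_mod_cast (cell_lt hp).1.pos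
    rw [norm_div, Complex.norm_real, Real.norm_eq_abs, abs_of_pos (by positivity : 0 < 2 * E)]
    apply div_le_div₀ (by norm_num) (hα p) hp0
    rw [hE]
    exact (cell_up hH hp).2.1
  have h3 := h2 (fun p => α p / ((2 * E : ℝ) : ℂ)) hw
  have e1 : ∀ b : ℕ, ‖∑ p ∈ cell H v, α p * tw f 0 (((p * (a * b) : ℕ) : ℤ))‖
      = 2 * E * ‖∑ p ∈ cell H v, α p / ((2 * E : ℝ) : ℂ) * tw f 0 (((p * (a * b) : ℕ) : ℤ))‖ := by
    intro b
    have e2 : ∑ p ∈ cell H v, α p * tw f 0 (((p * (a * b) : ℕ) : ℤ))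
        = ((2 * E : ℝ) : ℂ) * ∑ p ∈ cell H v, α p / ((2 * E : ℝ) : ℂ) * tw f 0 (((p * (a * b) : ℕ) : ℤ)) := by
      rw [mul_sum]
      apply sum_congr rfl; intro p _
      field_simp
    rw [e2, norm_mul, Complex.norm_real, Real.norm_eq_abs, abs_of_pos (by positivity : 0 < 2 * E)]
  simp_rw [e1]
  obtain ⟨g, hg⟩ : ∃ g : ℕ → ℝ, g = fun b => ‖∑ p ∈ cell H v, α p / ((2 * E : ℝ) : ℂ) * tw f 0 (((p * (a * b) : ℕ) : ℤ))‖ :=
    ⟨_, rfl⟩
  have h4 : (∑ b ∈ Ico M (2 * M), wt P 0 1 (b : ℕ) * g b) ^ 2 ≤ 2 * ε3 ^ 2 * (W * (M * mm H v)) ^ 2 := by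
    have e3 : ∑ b ∈ Ico M (2 * M), wt P 0 1 (b : ℕ) * g b = ∑ b ∈ Ico M (2 * M), wt P 0 1 (b : ℕ) * (wt P 0 1 (b : ℕ) * g b) := by
      apply sum_congr rfl; intro b _
      rw [← mul_assoc, wt_sq]
    rw [e3]
    refine (sum_mul_sq_le_sq_mul_sq _ _ _).trans ?_
    have e4 : ∑ b ∈ Ico M (2 * M), wt P 0 1 (b : ℕ) ^ 2 = ∑ b ∈ Ico M (2 * M), wt P 0 1 (b : ℕ) := by
      apply sum_congr rfl; intro b _
      rw [sq, wt_sq]
    have e5 : ∑ b ∈ Ico M (2 * M), (wt P 0 1 (b : ℕ) * g b) ^ 2 = ∑ b ∈ Ico M (2 * M), wt P 0 1 (b : ℕ) * g b ^ 2 := by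
      apply sum_congr rfl; intro b _
      rw [mul_pow, sq (wt P 0 1 (b : ℕ)), wt_sq]
    rw [e4, e5]
    have h5 : ∑ b ∈ Ico M (2 * M), wt P 0 1 (b : ℕ) * g b ^ 2 ≤ ε3 ^ 2 * (W * (M * mm H v ^ 2)) := by
      rw [hg]; exact h3
    calc _ ≤ (2 * M * W) * (ε3 ^ 2 * (W * (M * mm H v ^ 2))) :=
          mul_le_mul h1 h5 (sum_nonneg fun b _ => mul_nonneg (wt_nonneg _ _ _ _) (sq_nonneg _)) (by positivity)
      _ = _ := by ring
  have h6 : ∑ b ∈ Ico M (2 * M), wt P 0 1 (b : ℕ) * g b ≤ 3 / 2 * ε3 * (W * (M * mm H v)) := by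
    apply (abs_le_of_sq_le_sq' (h4.trans ?_) (by positivity)).2
    have h7 : 0 ≤ ε3 ^ 2 * (W * (M * mm H v)) ^ 2 := by positivity
    calc 2 * ε3 ^ 2 * (W * (M * mm H v)) ^ 2 = 2 * (ε3 ^ 2 * (W * (M * mm H v)) ^ 2) := by ring
      _ ≤ 9 / 4 * (ε3 ^ 2 * (W * (M * mm H v)) ^ 2) := by linarith
      _ = _ := by ring
  calc ∑ b ∈ Ico M (2 * M), wt P 0 1 (b : ℕ) * (2 * E * ‖∑ p ∈ cell H v, α p / ((2 * E : ℝ) : ℂ) * tw f 0 (((p * (a * b) : ℕ) : ℤ))‖)
      = 2 * E * ∑ b ∈ Ico M (2 * M), wt P 0 1 (b : ℕ) * g b := by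
        rw [hg, mul_sum]
        apply sum_congr rfl; intro b _
        ring
    _ ≤ 2 * E * (3 / 2 * ε3 * (W * (M * mm H v))) := mul_le_mul_of_nonneg_left h6 (by positivity)
    _ = _ := by ring

/-- dyadic decomposition -/
theorem dyad (g : ℕ → ℝ) (M I : ℕ) : ∑ b ∈ Icc 1 M, g b = ∑ b ∈ Icc 1 (M / 2 ^ I), g b
    + ∑ i ∈ range I, ∑ b ∈ Ioc (M / 2 ^ (i + 1)) (M / 2 ^ i), g b := by
  induction I with
  | zero => simp
  | succ I ih =>
    rw [sum_range_succ, ih]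
    have h1 : M / 2 ^ (I + 1) ≤ M / 2 ^ I := Nat.div_le_div_left (Nat.pow_le_pow_right (by norm_num) (by omega)) (by positivity)
    have h2 : ∑ b ∈ Icc 1 (M / 2 ^ I), g b = ∑ b ∈ Icc 1 (M / 2 ^ (I + 1)), g b + ∑ b ∈ Ioc (M / 2 ^ (I + 1)) (M / 2 ^ I), g b := by
      have e1 : ∀ n : ℕ, Icc 1 n = Ioc 0 n := fun n => by ext; simp [Nat.one_le_iff_ne_zero, Nat.pos_iff_ne_zero]
      rw [e1, e1, ← Ioc_union_Ioc_eq_Ioc (Nat.zero_le (M / 2 ^ (I + 1))) h1,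
        sum_union (Ioc_disjoint_Ioc_of_le le_rfl)]
    rw [h2]
    ring

/-- BILINEAR SUMS OVER A CELL, explicit form. -/
theorem cellbil {f : ℤ → ℝ} (hf : ∀ n, |f n| ≤ 1) {H v a N I L0 : ℕ} {E x : ℝ} (hE : E = Real.exp ((v : ℝ) / H))
    (hH : 10 ≤ H) (ha : 1 ≤ a) (hx : x = N / (a * E)) (hI : (I : ℝ) ≤ x) {P : Finset ℕ} {W ε3 : ℝ} (hW : 0 ≤ W)
    (hε3 : 0 ≤ ε3)
    (hwin : ∀ L : ℕ, L0 ≤ L → ∀ t : ℤ, ∑ g ∈ range L, wt P 0 1 (t + (g : ℕ)) ≤ 2 * L * W)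
    (hL1 : (L0 : ℝ) ≤ x / H) (hL2 : 1 ≤ x / H) (hL3 : (L0 : ℝ) + 1 ≤ x / 2 ^ I)
    (hmain : ∀ i < I, ∀ w : ℕ → ℂ, (∀ p ∈ cell H v, ‖w p‖ ≤ 1 / p) →
      ∑ b ∈ Ico (⌊x⌋₊ / 2 ^ (i + 1) + 1) (2 * (⌊x⌋₊ / 2 ^ (i + 1) + 1)), wt P 0 1 (b : ℕ) *
        ‖∑ p ∈ cell H v, w p * tw f 0 (((p * (a * b) : ℕ) : ℤ))‖ ^ 2
        ≤ ε3 ^ 2 * (W * ((⌊x⌋₊ / 2 ^ (i + 1) + 1 : ℕ) * mm H v ^ 2)))
    {α β : ℕ → ℂ} (hα : ∀ p, ‖α p‖ ≤ 1) (hβ : ∀ b : ℕ, ‖β b‖ ≤ wt P 0 1 (b : ℕ)) :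
    ‖∑ p ∈ cell H v, ∑ b ∈ Icc 1 (N / (a * p)), α p * β b * tw f 0 (((p * (a * b) : ℕ) : ℤ))‖
      ≤ mm H v * (W * (N / a)) * (8 / H + 4 / 2 ^ I + 6 * ε3) := by
  classical
  have hE0 : 0 < E := by rw [hE]; exact Real.exp_pos _
  have ha0 : (0 : ℝ) < a := by exact_mod_cast ha
  have hH0 : (0 : ℝ) < H := by exact_mod_cast (by omega : 0 < H)
  have hmm0 : 0 ≤ mm H v := sum_nonneg fun p _ => by positivity
  have hx0 : 0 < x := by
    have h1 : 0 < x / H := by linarith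
    by_contra hcon
    push Not at hcon
    have := div_nonpos_of_nonpos_of_nonneg hcon hH0.le
    linarith
  have hEx : E * x = N / a := by rw [hx]; field_simp
  have hcard := cell_card_le (v := v) hH
  rw [← hE] at hcard
  have hdiv : ∀ i : ℕ, ((⌊x⌋₊ / 2 ^ i : ℕ) : ℝ) ≤ x / 2 ^ i ∧ x / 2 ^ i < ((⌊x⌋₊ / 2 ^ i : ℕ) : ℝ) + 1 := by
    intro i
    have e1 : ⌊x⌋₊ / 2 ^ i = ⌊x / 2 ^ i⌋₊ := by
      have := Nat.floor_div_natCast x (2 ^ i)
      push_cast at this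
      exact this.symm
    rw [e1]
    exact ⟨Nat.floor_le (by positivity), Nat.lt_floor_add_one _⟩
  -- the range of `b`
  have hNp : ∀ p ∈ cell H v, N / (a * p) ≤ ⌊x⌋₊ := by
    intro p hp
    obtain ⟨u1, u2, u3⟩ := cell_up hH hp
    rw [← hE] at u1
    apply Nat.le_floor
    have h1 : ((N / (a * p) : ℕ) : ℝ) ≤ (N : ℝ) / ((a * p : ℕ) : ℝ) := Nat.cast_div_le
    refine h1.trans ?_
    rw [hx]
    apply div_le_div_of_nonneg_left (Nat.cast_nonneg _) (by positivity)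
    push_cast
    exact mul_le_mul_of_nonneg_left u1 ha0.le
  have hsplit : ∀ p ∈ cell H v, ∑ b ∈ Icc 1 (N / (a * p)), α p * β b * tw f 0 (((p * (a * b) : ℕ) : ℤ))
      = ∑ b ∈ Icc 1 ⌊x⌋₊, α p * β b * tw f 0 (((p * (a * b) : ℕ) : ℤ))
        - ∑ b ∈ Ioc (N / (a * p)) ⌊x⌋₊, α p * β b * tw f 0 (((p * (a * b) : ℕ) : ℤ)) := by
    intro p hp
    have e1 : ∀ n : ℕ, Icc 1 n = Ioc 0 n := fun n => by ext; simp [Nat.one_le_iff_ne_zero, Nat.pos_iff_ne_zero]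
    rw [e1, e1, ← Ioc_union_Ioc_eq_Ioc (Nat.zero_le (N / (a * p))) (hNp p hp),
      sum_union (Ioc_disjoint_Ioc_of_le le_rfl)]
    ring
  rw [sum_congr rfl hsplit, sum_sub_distrib]
  have hT : ∀ p b : ℕ, ‖α p * β b * tw f 0 (((p * (a * b) : ℕ) : ℤ))‖ ≤ wt P 0 1 (b : ℕ) := by
    intro p b
    rw [norm_mul, norm_mul]
    have h1 := hα p
    have h2 := hβ b
    have h3 := tw_norm hf 0 (((p * (a * b) : ℕ) : ℤ))
    calc ‖α p‖ * ‖β b‖ * ‖tw f 0 (((p * (a * b) : ℕ) : ℤ))‖ ≤ 1 * wt P 0 1 (b : ℕ) * 1 := by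
          apply mul_le_mul _ h3 (norm_nonneg _) (mul_nonneg one_pos.le (wt_nonneg _ _ _ _))
          exact mul_le_mul h1 h2 (norm_nonneg _) one_pos.le
      _ = _ := by ring
  -- the boundary
  have hbd : ‖∑ p ∈ cell H v, ∑ b ∈ Ioc (N / (a * p)) ⌊x⌋₊, α p * β b * tw f 0 (((p * (a * b) : ℕ) : ℤ))‖
      ≤ mm H v * (W * (N / a)) * (8 / H) := by
    have h1 : ∀ p ∈ cell H v, ‖∑ b ∈ Ioc (N / (a * p)) ⌊x⌋₊, α p * β b * tw f 0 (((p * (a * b) : ℕ) : ℤ))‖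
        ≤ 4 * (x / H) * W := by
      intro p hp
      obtain ⟨u1, u2, u3⟩ := cell_up hH hp
      rw [← hE] at u1 u2 u3
      have hp0 : (0 : ℝ) < p := by linarith
      have hp1 : 1 ≤ p := (cell_lt hp).1.one_le
      obtain ⟨L, hL⟩ : ∃ L : ℕ, L = ⌊x / H⌋₊ + 1 := ⟨_, rfl⟩
      have hLx : (L : ℝ) ≤ 2 * (x / H) := by
        rw [hL]; push_cast
        have := Nat.floor_le (show 0 ≤ x / H by linarith)
        linarith
      have hL0 : L0 ≤ L := by
        rw [hL]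
        have : L0 ≤ ⌊x / H⌋₊ := Nat.le_floor hL1
        omega
      refine (norm_sum_le _ _).trans ((sum_le_sum fun b _ => hT p b).trans ?_)
      have h2 := hwin L hL0 (⌊x - x / H⌋ + 1)
      refine le_trans ?_ (h2.trans ?_)
      · have e2 : ∑ b ∈ Ioc (N / (a * p)) ⌊x⌋₊, wt P 0 1 (b : ℕ)
            = ∑ b ∈ (Ioc (N / (a * p)) ⌊x⌋₊).image (fun b : ℕ => (b : ℤ)), wt P 0 1 b := by
          rw [sum_image]
          intro y _ y' _ hyy
          simpa using hyy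
        have e3 : ∑ g ∈ range L, wt P 0 1 (⌊x - x / H⌋ + 1 + (g : ℕ))
            = ∑ b ∈ (range L).image (fun g : ℕ => ⌊x - x / H⌋ + 1 + (g : ℤ)), wt P 0 1 b := by
          rw [sum_image]
          intro y _ y' _ hyy
          simp only at hyy
          omega
        rw [e2, e3]
        apply sum_le_sum_of_subset_of_nonneg
        · intro c hc
          rw [mem_image] at hc ⊢
          obtain ⟨b, hb, rfl⟩ := hc
          rw [mem_Ioc] at hb
          have hb1 : x - x / H < b := by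
            have h5 : N < b * (a * p) := by
              rw [← Nat.div_lt_iff_lt_mul (by positivity)]; exact hb.1
            have h6 : (N : ℝ) < b * (a * p) := by exact_mod_cast h5
            have h7 : (N : ℝ) = a * (E * x) := by rw [hEx]; field_simp
            have h8 : x * E < b * p := by
              have h9 : a * (E * x) < a * (b * p) := by rw [← h7]; linarith
              have := lt_of_mul_lt_mul_left h9 ha0.le
              linarith
            have h9 : x * (p * (1 - 1 / H)) ≤ x * E := mul_le_mul_of_nonneg_left u3 hx0.le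
            have h10 : (x - x / H) * p < b * p := by
              calc (x - x / H) * p = x * (p * (1 - 1 / H)) := by ring
                _ ≤ x * E := h9
                _ < _ := h8
            exact lt_of_mul_lt_mul_right h10 hp0.le
          have hb2 : (b : ℝ) ≤ x := (Nat.cast_le.2 hb.2).trans (Nat.floor_le hx0.le)
          have hb3 : ⌊x - x / H⌋ + 1 ≤ (b : ℤ) := by
            have : ⌊x - x / H⌋ < (b : ℤ) := Int.floor_lt.2 (by exact_mod_cast hb1)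
            omega
          refine ⟨((b : ℤ) - (⌊x - x / H⌋ + 1)).toNat, ?_, ?_⟩
          · rw [mem_range]
            have h11 : (b : ℝ) - ((⌊x - x / H⌋ : ℤ) + 1) < x / H + 0 := by
              have := Int.lt_floor_add_one (x - x / H)
              linarith
            have h12 : (((b : ℤ) - (⌊x - x / H⌋ + 1)).toNat : ℝ) ≤ x / H := by
              have h13 : ((((b : ℤ) - (⌊x - x / H⌋ + 1)).toNat : ℤ) : ℝ) = (b : ℝ) - ((⌊x - x / H⌋ : ℤ) + 1) := by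
                rw [Int.toNat_of_nonneg (by omega)]; push_cast; ring
              have h14 : (((b : ℤ) - (⌊x - x / H⌋ + 1)).toNat : ℝ) = (b : ℝ) - ((⌊x - x / H⌋ : ℤ) + 1) := by
                rw [← h13]; push_cast; rfl
              linarith
            have h15 := Nat.le_floor h12
            rw [hL]; omega
          · rw [Int.toNat_of_nonneg (by omega)]
            ring
        · intro c _ _; exact wt_nonneg _ _ _ _
      · have := mul_le_mul_of_nonneg_right hLx hW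
        linarith
    refine (norm_sum_le _ _).trans ((sum_le_sum h1).trans ?_)
    rw [sum_const, nsmul_eq_mul]
    calc ((cell H v).card : ℝ) * (4 * (x / H) * W) ≤ (2 * E * mm H v) * (4 * (x / H) * W) :=
          mul_le_mul_of_nonneg_right hcard (by positivity)
      _ = mm H v * (W * (E * x)) * (8 / H) := by ring
      _ = _ := by rw [hEx]
  -- the main part
  have hmn : ‖∑ p ∈ cell H v, ∑ b ∈ Icc 1 ⌊x⌋₊, α p * β b * tw f 0 (((p * (a * b) : ℕ) : ℤ))‖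
      ≤ mm H v * (W * (N / a)) * (4 / 2 ^ I + 6 * ε3) := by
    obtain ⟨g, hg⟩ : ∃ g : ℕ → ℝ, g = fun b => wt P 0 1 (b : ℕ) *
      ‖∑ p ∈ cell H v, α p * tw f 0 (((p * (a * b) : ℕ) : ℤ))‖ := ⟨_, rfl⟩
    have h1 : ‖∑ p ∈ cell H v, ∑ b ∈ Icc 1 ⌊x⌋₊, α p * β b * tw f 0 (((p * (a * b) : ℕ) : ℤ))‖ ≤ ∑ b ∈ Icc 1 ⌊x⌋₊, g b := by
      rw [sum_comm]
      refine (norm_sum_le _ _).trans (sum_le_sum fun b _ => ?_)
      have e1 : ∑ p ∈ cell H v, α p * β b * tw f 0 (((p * (a * b) : ℕ) : ℤ))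
          = β b * ∑ p ∈ cell H v, α p * tw f 0 (((p * (a * b) : ℕ) : ℤ)) := by
        rw [mul_sum]; apply sum_congr rfl; intro p _; ring
      rw [e1, norm_mul, hg]
      exact mul_le_mul_of_nonneg_right (hβ b) (norm_nonneg _)
    refine h1.trans ?_
    rw [dyad g ⌊x⌋₊ I]
    have h2 : ∑ b ∈ Icc 1 (⌊x⌋₊ / 2 ^ I), g b ≤ mm H v * (W * (N / a)) * (4 / 2 ^ I) := by
      have h3 : ∀ b ∈ Icc 1 (⌊x⌋₊ / 2 ^ I), g b ≤ wt P 0 1 (b : ℕ) * (2 * E * mm H v) := by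
        intro b _
        rw [hg]
        apply mul_le_mul_of_nonneg_left _ (wt_nonneg _ _ _ _)
        refine ((norm_sum_le _ _).trans (sum_le_sum (g := fun _ => (1 : ℝ)) fun p _ => ?_)).trans ?_
        · rw [norm_mul]
          exact mul_le_one₀ (hα p) (norm_nonneg _) (tw_norm hf _ _)
        · rw [sum_const, nsmul_eq_mul, mul_one]; exact hcard
      refine (sum_le_sum h3).trans ?_
      rw [← sum_mul]
      have h4 : ∑ b ∈ Icc 1 (⌊x⌋₊ / 2 ^ I), wt P 0 1 (b : ℕ) ≤ 2 * (x / 2 ^ I) * W := by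
        have h5 : L0 ≤ ⌊x⌋₊ / 2 ^ I := by
          have h6 := (hdiv I).2
          have h7 : (L0 : ℝ) < ((⌊x⌋₊ / 2 ^ I : ℕ) : ℝ) := by linarith
          exact_mod_cast h7.le
        have h6 := hwin (⌊x⌋₊ / 2 ^ I) h5 1
        have e1 : ∑ b ∈ Icc 1 (⌊x⌋₊ / 2 ^ I), wt P 0 1 (b : ℕ) = ∑ g ∈ range (⌊x⌋₊ / 2 ^ I), wt P 0 1 (1 + (g : ℕ)) := by
          have e2 : Icc 1 (⌊x⌋₊ / 2 ^ I) = Ico 1 (⌊x⌋₊ / 2 ^ I + 1) := by ext; simp
          rw [e2, sum_Ico_eq_sum_range, Nat.add_sub_cancel]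
          apply sum_congr rfl; intro g _
          push_cast; rfl
        rw [e1]
        refine h6.trans ?_
        have := mul_le_mul_of_nonneg_right (hdiv I).1 hW
        linarith
      calc _ ≤ 2 * (x / 2 ^ I) * W * (2 * E * mm H v) := mul_le_mul_of_nonneg_right h4 (by positivity)
        _ = mm H v * (W * (E * x)) * (4 / 2 ^ I) := by ring
        _ = _ := by rw [hEx]
    have h3 : ∑ i ∈ range I, ∑ b ∈ Ioc (⌊x⌋₊ / 2 ^ (i + 1)) (⌊x⌋₊ / 2 ^ i), g b ≤ mm H v * (W * (N / a)) * (6 * ε3) := by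
      have h4 : ∀ i ∈ range I, ∑ b ∈ Ioc (⌊x⌋₊ / 2 ^ (i + 1)) (⌊x⌋₊ / 2 ^ i), g b
          ≤ 3 * ε3 * (E * (W * ((x / 2 ^ (i + 1) + 1) * mm H v))) := by
        intro i hi
        rw [mem_range] at hi
        obtain ⟨M', hM'⟩ : ∃ M' : ℕ, M' = ⌊x⌋₊ / 2 ^ (i + 1) + 1 := ⟨_, rfl⟩
        have h5 : ∑ b ∈ Ioc (⌊x⌋₊ / 2 ^ (i + 1)) (⌊x⌋₊ / 2 ^ i), g b ≤ ∑ b ∈ Ico M' (2 * M'), g b := by
          apply sum_le_sum_of_subset_of_nonneg
          · intro b hb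
            rw [mem_Ioc] at hb
            rw [mem_Ico, hM']
            have h6 : ⌊x⌋₊ / 2 ^ (i + 1) = ⌊x⌋₊ / 2 ^ i / 2 := by rw [pow_succ, Nat.div_div_eq_div_mul]
            omega
          · intro b _ _
            rw [hg]
            exact mul_nonneg (wt_nonneg _ _ _ _) (norm_nonneg _)
        refine h5.trans ?_
        have hm2 : (M' : ℝ) ≤ x / 2 ^ (i + 1) + 1 := by
          rw [hM']; push_cast
          have := (hdiv (i + 1)).1
          push_cast at this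
          linarith
        have hm3 : L0 ≤ M' := by
          have h6 := (hdiv (i + 1)).2
          have h7 : x / 2 ^ I ≤ x / 2 ^ (i + 1) := by
            apply div_le_div_of_nonneg_left hx0.le (by positivity)
            exact pow_le_pow_right₀ (by norm_num) (by omega)
          have h8 : (L0 : ℝ) < (M' : ℝ) := by
            rw [hM']
            have : ((⌊x⌋₊ / 2 ^ (i + 1) + 1 : ℕ) : ℝ) = ((⌊x⌋₊ / 2 ^ (i + 1) : ℕ) : ℝ) + 1 := by push_cast; ring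
            rw [this]
            linarith
          exact_mod_cast h8.le
        have h6 : ∑ b ∈ Ico M' (2 * M'), wt P 0 1 (b : ℕ) ≤ 2 * M' * W := by
          have h7 := hwin M' hm3 M'
          have e1 : ∑ b ∈ Ico M' (2 * M'), wt P 0 1 (b : ℕ) = ∑ g ∈ range M', wt P 0 1 ((M' : ℤ) + (g : ℕ)) := by
            rw [sum_Ico_eq_sum_range, show 2 * M' - M' = M' by omega]
            apply sum_congr rfl; intro g _
            push_cast; rfl
          rw [e1]; exact h7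
        have h7 := blockb (f := f) (a := a) hE hH hα hW hε3 h6 (fun w hw => by
          have h8 := hmain i hi w hw
          rw [← hM'] at h8
          exact h8)
        rw [hg]
        refine h7.trans ?_
        apply mul_le_mul_of_nonneg_left _ (by positivity)
        apply mul_le_mul_of_nonneg_left _ hE0.le
        apply mul_le_mul_of_nonneg_left _ hW
        exact mul_le_mul_of_nonneg_right hm2 hmm0
      refine (sum_le_sum h4).trans ?_
      rw [← mul_sum, ← mul_sum, ← mul_sum, ← sum_mul]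
      have h5 : ∑ i ∈ range I, (x / 2 ^ (i + 1) + 1) ≤ 2 * x := by
        rw [sum_add_distrib, sum_const, card_range, nsmul_eq_mul, mul_one]
        have h6 : ∑ i ∈ range I, x / 2 ^ (i + 1) ≤ x := by
          have h7 : ∀ I : ℕ, ∑ i ∈ range I, x / 2 ^ (i + 1) = x - x / 2 ^ I := by
            intro I
            induction I with
            | zero => simp
            | succ I ih => rw [sum_range_succ, ih, pow_succ]; field_simp; ring
          rw [h7]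
          have : 0 < x / 2 ^ I := by positivity
          linarith
        linarith
      calc 3 * ε3 * (E * (W * ((∑ i ∈ range I, (x / 2 ^ (i + 1) + 1)) * mm H v)))
          ≤ 3 * ε3 * (E * (W * ((2 * x) * mm H v))) := by
            apply mul_le_mul_of_nonneg_left _ (by positivity)
            apply mul_le_mul_of_nonneg_left _ hE0.le
            apply mul_le_mul_of_nonneg_left _ hW
            exact mul_le_mul_of_nonneg_right h5 hmm0
        _ = mm H v * (W * (E * x)) * (6 * ε3) := by ring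
        _ = _ := by rw [hEx]
    calc _ ≤ mm H v * (W * (N / a)) * (4 / 2 ^ I) + mm H v * (W * (N / a)) * (6 * ε3) := add_le_add h2 h3
      _ = _ := by ring
  refine (norm_sub_le _ _).trans ((add_le_add hmn hbd).trans (le_of_eq ?_))
  ring

end Pool.Agent.U596.TP
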