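import Pool.Agent.U596.TP4

/-! Bilinear sums over primes in `(N ^ θ, N ^ ϑ]` and sifted sets. -/

set_option autoImplicit false

namespace Pool.Agent.U596.TP

open Pool.Agent.H320R2.PD Pool.Agent.H499R2.ND Finset Pool.Agent.H499R2.CO Pool.Agent.W41.FU Pool.Agent.W41
  Pool.Agent.W41.MU Pool.Agent.H376R2.MR

/-- the primes in `(x, y]` -/
noncomputable def PI (x y : ℝ) : Finset ℕ := by
  classical exact (Icc 1 ⌊y⌋₊).filter (fun p => p.Prime ∧ x < p)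

theorem mem_PI {x y : ℝ} (hy : 0 ≤ y) {p : ℕ} : p ∈ PI x y ↔ p.Prime ∧ x < p ∧ (p : ℝ) ≤ y := by
  classical
  unfold PI
  rw [mem_filter, mem_Icc, Nat.le_floor_iff hy]
  constructor
  · rintro ⟨⟨h1, h2⟩, h3, h4⟩; exact ⟨h3, h4, h2⟩
  · rintro ⟨h1, h2, h3⟩; exact ⟨⟨h1.one_le, h3⟩, h1, h2⟩

theorem mem_cell {H v p : ℕ} : p ∈ cell H v ↔ p.Prime ∧ (v : ℝ) / H ≤ Real.log p ∧ Real.log p < ((v : ℝ) + 1) / H := by
  constructor
  · exact cell_lt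
  · intro h
    unfold cell
    rw [mem_filter, mem_range]
    refine ⟨?_, h⟩
    have hp0 : (0 : ℝ) < p := by exact_mod_cast h.1.pos
    have h1 : (p : ℝ) ≤ Real.exp (((v : ℝ) + 1) / H) := by
      rw [← Real.exp_log hp0]; exact Real.exp_le_exp.2 h.2.2.le
    have := Nat.le_floor h1
    omega

theorem PI_sub {H : ℕ} (hH : 1 ≤ H) {l θ ϑ X Y : ℝ} (hX : X = Real.exp (θ * l)) (hY : Y = Real.exp (ϑ * l)) (hl : 0 ≤ θ * l) :
    PI X Y ⊆ PR H ⌊H * (θ * l)⌋₊ (⌊H * (ϑ * l)⌋₊ + 1) := by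
  intro p hp
  have hY0 : 0 ≤ Y := by rw [hY]; exact (Real.exp_pos _).le
  rw [mem_PI hY0] at hp
  obtain ⟨h1, h2, h3⟩ := hp
  have hp0 : (0 : ℝ) < p := by exact_mod_cast h1.pos
  have hH0 : (0 : ℝ) < H := by exact_mod_cast hH
  have h4 : θ * l < Real.log p := by
    rw [Real.lt_log_iff_exp_lt hp0, ← hX]; exact h2
  have h5 : Real.log p ≤ ϑ * l := by
    rw [Real.log_le_iff_le_exp hp0, ← hY]; exact h3
  have h6 : 0 ≤ Real.log p := by linarith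
  unfold PR
  rw [mem_biUnion]
  refine ⟨⌊H * Real.log p⌋₊, ?_, ?_⟩
  · rw [mem_Ico]
    constructor
    · exact Nat.floor_le_floor (mul_le_mul_of_nonneg_left h4.le hH0.le)
    · have := Nat.floor_le_floor (mul_le_mul_of_nonneg_left h5 hH0.le)
      omega
  · rw [mem_cell]
    refine ⟨h1, ?_, ?_⟩
    · rw [div_le_iff₀ hH0, mul_comm]
      exact Nat.floor_le (by positivity)
    · rw [lt_div_iff₀ hH0, mul_comm]
      exact Nat.lt_floor_add_one _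

/-- BILINEAR SUMS. -/
theorem bilin {s : ℤ} (hs : s = 1 ∨ s = -1) : ∃ κ : ℝ, 0 < κ ∧ κ ≤ 1 / 16 ∧
    ∀ ε : ℝ, 0 < ε → ε ≤ 1 → ∃ ϑ : ℝ, 0 < ϑ ∧ ϑ ≤ 1 / 128 ∧ ∀ θ : ℝ, 0 < θ → θ ≤ ϑ → ∃ N0 : ℕ, 1 ≤ N0 ∧
    ∀ N : ℕ, N0 ≤ N → ∀ S : Set ℤ, Inv 1 S → ∀ δ : ℝ, HD s S δ →
    ∀ a : ℕ, a % 2 = 1 → (a : ℝ) ≤ (N : ℝ) ^ ϑ →
    ∀ P : Finset ℕ, (∀ p ∈ P, p.Prime ∧ (p : ℝ) ≤ (N : ℝ) ^ κ) →
    ∀ α β : ℕ → ℂ, (∀ p, ‖α p‖ ≤ 1) → (∀ b : ℕ, ‖β b‖ ≤ wt P 0 1 (b : ℕ)) →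
    ‖∑ p ∈ PI ((N : ℝ) ^ θ) ((N : ℝ) ^ ϑ), ∑ b ∈ Icc 1 (N / (a * p)), α p * β b * (bal s S δ ((p * (a * b) : ℕ) : ℤ) : ℂ)‖
      ≤ ε * (Real.log (1 / θ) * (V P * (N / a))) := by
  classical
  obtain ⟨κ0, hκ0, hκ1, hwm⟩ := wmain hs
  obtain ⟨K, y0, hK, hy0, hwin⟩ := window (show (0 : ℝ) < 1 by norm_num)
  obtain ⟨CW, hCW0, hCW⟩ := WW_bound
  have hKR : (1 : ℝ) ≤ K := by exact_mod_cast hK
  have hK0 : (0 : ℝ) < K := by linarith
  refine ⟨min (κ0 / 2) (1 / (16 * K)), by positivity, (min_le_left _ _).trans (by linarith), fun ε hε hε1 => ?_⟩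
  obtain ⟨κ, hκ⟩ : ∃ κ : ℝ, κ = min (κ0 / 2) (1 / (16 * K)) := ⟨_, rfl⟩
  rw [← hκ]
  have hκp : 0 < κ := by rw [hκ]; positivity
  have hκa : κ ≤ κ0 / 2 := by rw [hκ]; exact min_le_left _ _
  have hκb : κ ≤ 1 / (16 * K) := by rw [hκ]; exact min_le_right _ _
  -- the parameters
  obtain ⟨ε1, hε1d⟩ : ∃ ε1 : ℝ, ε1 = ε / (1 + CW) := ⟨_, rfl⟩
  have hε10 : 0 < ε1 := by rw [hε1d]; positivity
  have hε11 : ε1 ≤ 1 := by rw [hε1d, div_le_one (by positivity)]; linarith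
  obtain ⟨H, hH⟩ : ∃ H : ℕ, H = ⌈32 / ε1⌉₊ + 10 := ⟨_, rfl⟩
  have hH10 : 10 ≤ H := by omega
  have hH1 : 1 ≤ H := by omega
  have hH0 : (0 : ℝ) < H := by exact_mod_cast (by omega : 0 < H)
  have hHε : 8 / (H : ℝ) ≤ ε1 / 4 := by
    have h1 : 32 / ε1 ≤ H := by
      have h2 : 32 / ε1 ≤ (⌈32 / ε1⌉₊ : ℕ) := Nat.le_ceil _
      have h3 : ((⌈32 / ε1⌉₊ : ℕ) : ℝ) ≤ H := by exact_mod_cast (by omega : ⌈32 / ε1⌉₊ ≤ H)
      linarith
    rw [div_le_iff₀ hε10] at h1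
    rw [div_le_div_iff₀ hH0 (by norm_num)]
    linarith
  obtain ⟨I, hI⟩ := exists_pow_lt_of_lt_one (show (0 : ℝ) < ε1 / 16 by positivity) (show (1 / 2 : ℝ) < 1 by norm_num)
  have hIε : 4 / (2 : ℝ) ^ I ≤ ε1 / 4 := by
    have e : (1 / 2 : ℝ) ^ I = 1 / 2 ^ I := by rw [one_div_pow]
    rw [e] at hI
    have e2 : 4 / (2 : ℝ) ^ I = 4 * (1 / 2 ^ I) := by ring
    rw [e2]; linarith
  obtain ⟨ε3, hε3⟩ : ∃ ε3 : ℝ, ε3 = ε1 / 12 := ⟨_, rfl⟩
  have hε30 : 0 < ε3 := by rw [hε3]; positivity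
  obtain ⟨ϑ0, hϑ00, hϑ01, hwm1⟩ := hwm (ε3 ^ 2) (by positivity) (by rw [hε3]; nlinarith only [hε10, hε11]) H hH10
  obtain ⟨ϑ, hϑ⟩ : ∃ ϑ : ℝ, ϑ = ϑ0 / 4 := ⟨_, rfl⟩
  have hϑ0 : 0 < ϑ := by rw [hϑ]; positivity
  refine ⟨ϑ, hϑ0, by rw [hϑ]; linarith, fun θ hθ hθϑ => ?_⟩
  obtain ⟨X0, hX0, hwm2⟩ := hwm1 (θ / 2) (by positivity)
  -- the size of `N`
  have hlim : ∀ᶠ N : ℕ in Filter.atTop, (2 : ℝ) ^ I * X0 ≤ (N : ℝ) ^ (1 / 2 : ℝ) ∧ 4 / θ * (H : ℝ) ≤ Real.log N ∧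
      (2 : ℝ) ^ I * 2 ^ I ≤ (N : ℝ) ^ (1 / 4 : ℝ) ∧ (H : ℝ) * 2 ^ I * 2 ≤ (N : ℝ) ^ (1 / 8 : ℝ) ∧
      ((y0 : ℝ) ^ K + I + 2 ≤ (N : ℝ) ^ (1 / 8 : ℝ)) := by
    have hp : ∀ r : ℝ, 0 < r → ∀ c : ℝ, ∀ᶠ N : ℕ in Filter.atTop, c ≤ (N : ℝ) ^ r := by
      intro r hr c
      exact ((tendsto_rpow_atTop hr).comp tendsto_natCast_atTop_atTop).eventually_ge_atTop c
    have hl : ∀ c : ℝ, ∀ᶠ N : ℕ in Filter.atTop, c ≤ Real.log N :=
      fun c => (Real.tendsto_log_atTop.comp tendsto_natCast_atTop_atTop).eventually_ge_atTop c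
    exact (hp _ (by norm_num) _).and ((hl _).and ((hp _ (by norm_num) _).and ((hp _ (by norm_num) _).and (hp _ (by norm_num) _))))
  obtain ⟨N0, hN0⟩ := Filter.eventually_atTop.1 hlim
  refine ⟨N0 + 1, by omega, fun N hN S hS δ hδ a ha haN P hP α β hα hβ => ?_⟩
  obtain ⟨n1, n2, n3, n4, n5⟩ := hN0 N (by omega)
  have hN1 : 1 ≤ N := by omega
  have hNR : (1 : ℝ) ≤ N := by exact_mod_cast hN1
  have hNp : (0 : ℝ) < N := by linarith
  obtain ⟨l, hl⟩ : ∃ l : ℝ, l = Real.log N := ⟨_, rfl⟩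
  rw [← hl] at n2
  have hlN : Real.exp l = N := by rw [hl]; exact Real.exp_log hNp
  have hrp : ∀ r : ℝ, (N : ℝ) ^ r = Real.exp (r * l) := fun r => by
    rw [Real.rpow_def_of_pos hNp, ← hl, mul_comm]
  have hHR : (10 : ℝ) ≤ H := by exact_mod_cast hH10
  have hθl : 4 * H ≤ θ * l := by
    have : 4 / θ * (H : ℝ) = 4 * H / θ := by ring
    rw [this, div_le_iff₀ hθ] at n2
    linarith
  have hl0 : 0 < l := by
    by_contra hcon
    push Not at hcon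
    have := mul_nonpos_of_nonneg_of_nonpos hθ.le hcon
    linarith
  have hϑl : θ * l ≤ ϑ * l := mul_le_mul_of_nonneg_right hθϑ hl0.le
  have hPp : ∀ p ∈ P, p.Prime := fun p hp => (hP p hp).1
  have hV0 := V_pos hPp
  have hd := HD_mem hs hδ
  have hf : ∀ n, |bal s S δ n| ≤ 1 := fun n => bal_abs hd.1 hd.2 n
  have ha1 : 1 ≤ a := by omega
  have ha0 : (0 : ℝ) < a := by exact_mod_cast ha1
  have htw : ∀ n : ℤ, tw (bal s S δ) 0 n = (bal s S δ n : ℂ) := by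
    intro n; unfold tw; simp
  -- the windows
  obtain ⟨y, hy⟩ : ∃ y : ℕ, y = max y0 ⌊(N : ℝ) ^ κ⌋₊ := ⟨_, rfl⟩
  have hyy : y0 ≤ y := by rw [hy]; exact le_max_left _ _
  have hPy : ∀ p ∈ P, p.Prime ∧ p ≤ y := fun p hp =>
    ⟨(hP p hp).1, by rw [hy]; exact (Nat.le_floor (hP p hp).2).trans (le_max_right _ _)⟩
  have hyK : ((y ^ K : ℕ) : ℝ) ≤ (N : ℝ) ^ (1 / 8 : ℝ) := by
    push_cast
    rcases le_total y0 ⌊(N : ℝ) ^ κ⌋₊ with h1 | h1
    · rw [hy, max_eq_right h1]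
      have h2 : ((⌊(N : ℝ) ^ κ⌋₊ : ℕ) : ℝ) ≤ (N : ℝ) ^ κ := Nat.floor_le (by positivity)
      calc ((⌊(N : ℝ) ^ κ⌋₊ : ℕ) : ℝ) ^ K ≤ ((N : ℝ) ^ κ) ^ K := pow_le_pow_left₀ (Nat.cast_nonneg _) h2 _
        _ = (N : ℝ) ^ (κ * K) := by rw [← Real.rpow_natCast, ← Real.rpow_mul hNp.le]
        _ ≤ (N : ℝ) ^ (1 / 8 : ℝ) := by
            apply Real.rpow_le_rpow_of_exponent_le hNR
            have h3 : κ * K ≤ 1 / (16 * K) * K := mul_le_mul_of_nonneg_right hκb hK0.le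
            have h4 : 1 / (16 * (K : ℝ)) * K = 1 / 16 := by field_simp
            linarith
    · rw [hy, max_eq_left h1]
      have : (0 : ℝ) ≤ I := Nat.cast_nonneg _
      linarith
  have hwinL : ∀ L : ℕ, y ^ K ≤ L → ∀ t : ℤ, ∑ g ∈ range L, wt P 0 1 (t + (g : ℕ)) ≤ 2 * L * V P := by
    intro L hL t
    have h3 := hwin y hyy L hL P hPy 0 1 (one_ndvd hPp) t
    rw [abs_le] at h3
    linarith [h3.2]
  -- the range of the cells
  obtain ⟨v0, hv0⟩ : ∃ v0 : ℕ, v0 = ⌊H * (θ * l)⌋₊ := ⟨_, rfl⟩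
  obtain ⟨v1, hv1⟩ : ∃ v1 : ℕ, v1 = ⌊H * (ϑ * l)⌋₊ + 1 := ⟨_, rfl⟩
  have hv0a : (H : ℝ) * (θ * l) < v0 + 1 := by rw [hv0]; exact Nat.lt_floor_add_one _
  have hv0b : (v0 : ℝ) ≤ H * (θ * l) := by rw [hv0]; exact Nat.floor_le (by positivity)
  have hv1b : (v1 : ℝ) ≤ H * (ϑ * l) + 1 := by
    rw [hv1]; push_cast
    have := Nat.floor_le (show 0 ≤ (H : ℝ) * (ϑ * l) by positivity)
    linarith
  have hθl1 : 1 ≤ θ * l := by linarith
  have hHθ : (H : ℝ) ≤ H * (θ * l) := by nlinarith only [hθl1, hH0]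
  have hv0h : (H : ℝ) * (θ * l) / 2 ≤ v0 := by linarith
  have hsub : PI ((N : ℝ) ^ θ) ((N : ℝ) ^ ϑ) ⊆ PR H v0 v1 := by
    rw [hv0, hv1]
    exact PI_sub hH1 (hrp θ) (hrp ϑ) (by positivity)
  -- extend by zero
  obtain ⟨α', hα'⟩ : ∃ α' : ℕ → ℂ, α' = fun p => if p ∈ PI ((N : ℝ) ^ θ) ((N : ℝ) ^ ϑ) then α p else 0 := ⟨_, rfl⟩
  have hα'1 : ∀ p, ‖α' p‖ ≤ 1 := by
    intro p; rw [hα']; simp only
    split_ifs
    · exact hα p
    · simp
  have hext : ∑ p ∈ PI ((N : ℝ) ^ θ) ((N : ℝ) ^ ϑ), ∑ b ∈ Icc 1 (N / (a * p)), α p * β b * (bal s S δ ((p * (a * b) : ℕ) : ℤ) : ℂ)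
      = ∑ v ∈ Ico v0 v1, ∑ p ∈ cell H v, ∑ b ∈ Icc 1 (N / (a * p)), α' p * β b * tw (bal s S δ) 0 (((p * (a * b) : ℕ) : ℤ)) := by
    rw [← PR_sum hH1 v0 v1, ← sum_subset hsub]
    · apply sum_congr rfl
      intro p hp
      apply sum_congr rfl
      intro b _
      rw [htw, hα']
      simp only [if_pos hp]
    · intro p _ hp
      apply sum_eq_zero
      intro b _
      rw [hα']
      simp only [if_neg hp, zero_mul]
  rw [hext]
  -- each cell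
  have hcell : ∀ v ∈ Ico v0 v1, ‖∑ p ∈ cell H v, ∑ b ∈ Icc 1 (N / (a * p)), α' p * β b * tw (bal s S δ) 0 (((p * (a * b) : ℕ) : ℤ))‖
      ≤ mm H v * (V P * (N / a) * ε1) := by
    intro v hv
    rw [mem_Ico] at hv
    have hva : (v0 : ℝ) ≤ v := by exact_mod_cast hv.1
    have hvb : (v : ℝ) + 1 ≤ v1 := by exact_mod_cast hv.2
    obtain ⟨E, hE⟩ : ∃ E : ℝ, E = Real.exp ((v : ℝ) / H) := ⟨_, rfl⟩
    obtain ⟨x, hx⟩ : ∃ x : ℝ, x = N / (a * E) := ⟨_, rfl⟩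
    have hE0 : 0 < E := by rw [hE]; exact Real.exp_pos _
    have hvH : (v : ℝ) / H ≤ ϑ * l := by
      rw [div_le_iff₀ hH0]; linarith
    have hEN : E ≤ (N : ℝ) ^ ϑ := by
      rw [hE, hrp]; exact Real.exp_le_exp.2 hvH
    have hϑs : ϑ ≤ 1 / 128 := by rw [hϑ]; linarith
    have haE : a * E ≤ (N : ℝ) ^ (1 / 8 : ℝ) := by
      calc a * E ≤ (N : ℝ) ^ ϑ * (N : ℝ) ^ ϑ := mul_le_mul haN hEN hE0.le (by positivity)
        _ = (N : ℝ) ^ (ϑ + ϑ) := by rw [Real.rpow_add hNp]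
        _ ≤ _ := Real.rpow_le_rpow_of_exponent_le hNR (by linarith)
    have hxN : (N : ℝ) ^ (7 / 8 : ℝ) ≤ x := by
      rw [hx, le_div_iff₀ (by positivity)]
      calc (N : ℝ) ^ (7 / 8 : ℝ) * (a * E) ≤ (N : ℝ) ^ (7 / 8 : ℝ) * (N : ℝ) ^ (1 / 8 : ℝ) :=
            mul_le_mul_of_nonneg_left haE (by positivity)
        _ = N := by rw [← Real.rpow_add hNp]; norm_num
    have hp18 : (1 : ℝ) ≤ (N : ℝ) ^ (1 / 8 : ℝ) := Real.one_le_rpow hNR (by norm_num)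
    have hx78 : (N : ℝ) ^ (1 / 8 : ℝ) * (N : ℝ) ^ (1 / 8 : ℝ) ≤ x := by
      refine le_trans ?_ hxN
      rw [← Real.rpow_add hNp]
      exact Real.rpow_le_rpow_of_exponent_le hNR (by norm_num)
    have h2I : (1 : ℝ) ≤ 2 ^ I := one_le_pow₀ (by norm_num)
    have hIn : (0 : ℝ) ≤ I := Nat.cast_nonneg _
    have hy0n : (0 : ℝ) ≤ (y0 : ℝ) ^ K := by positivity
    have key := cellbil hf (H := H) (v := v) (a := a) (N := N) (I := I) (L0 := y ^ K) (E := E) (x := x) hE hH10 ha1 hx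
      (by nlinarith only [n5, hp18, hx78, hy0n]) (P := P) (W := V P) (ε3 := ε3) hV0.le hε30.le hwinL
      (by
        rw [le_div_iff₀ hH0]
        have h1 : (H : ℝ) ≤ (N : ℝ) ^ (1 / 8 : ℝ) := by nlinarith only [n4, h2I, hH0]
        calc ((y ^ K : ℕ) : ℝ) * H ≤ (N : ℝ) ^ (1 / 8 : ℝ) * (N : ℝ) ^ (1 / 8 : ℝ) :=
              mul_le_mul hyK h1 hH0.le (by positivity)
          _ ≤ x := hx78)
      (by
        rw [le_div_iff₀ hH0, one_mul]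
        have h1 : (H : ℝ) ≤ (N : ℝ) ^ (1 / 8 : ℝ) := by nlinarith only [n4, h2I, hH0]
        nlinarith only [h1, hx78, hp18])
      (by
        rw [le_div_iff₀ (by positivity)]
        have h1 : (2 : ℝ) ^ I * 2 ≤ (N : ℝ) ^ (1 / 8 : ℝ) := by nlinarith only [n4, h2I, hHR]
        calc (((y ^ K : ℕ) : ℝ) + 1) * 2 ^ I ≤ ((N : ℝ) ^ (1 / 8 : ℝ) + (N : ℝ) ^ (1 / 8 : ℝ)) * 2 ^ I := by
              apply mul_le_mul_of_nonneg_right _ (by positivity)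
              linarith
          _ = (N : ℝ) ^ (1 / 8 : ℝ) * (2 ^ I * 2) := by ring
          _ ≤ (N : ℝ) ^ (1 / 8 : ℝ) * (N : ℝ) ^ (1 / 8 : ℝ) := mul_le_mul_of_nonneg_left h1 (by positivity)
          _ ≤ x := hx78)
      (by
        intro i hi w hw
        obtain ⟨X, hX⟩ : ∃ X : ℝ, X = N / 2 ^ (i + 1) := ⟨_, rfl⟩
        have h2i : (2 : ℝ) ^ (i + 1) ≤ 2 ^ I := pow_le_pow_right₀ (by norm_num) (by omega)
        have hXN : X ≤ N := by
          rw [hX]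
          apply div_le_self hNp.le
          exact one_le_pow₀ (by norm_num)
        have hXp : 0 < X := by rw [hX]; positivity
        have hX1 : (N : ℝ) ^ (1 / 2 : ℝ) * ((N : ℝ) ^ (1 / 2 : ℝ) / 2 ^ I) ≤ X := by
          have e : (N : ℝ) ^ (1 / 2 : ℝ) * ((N : ℝ) ^ (1 / 2 : ℝ) / 2 ^ I) = N / 2 ^ I := by
            rw [mul_div_assoc', ← Real.rpow_add hNp]; norm_num
          rw [e, hX]
          exact div_le_div_of_nonneg_left hNp.le (by positivity) h2i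
        have hX2 : X0 ≤ X := by
          have h1 : X0 ≤ (N : ℝ) ^ (1 / 2 : ℝ) / 2 ^ I := by
            rw [le_div_iff₀ (by positivity)]; linarith
          have h2 : (1 : ℝ) ≤ (N : ℝ) ^ (1 / 2 : ℝ) := Real.one_le_rpow hNR (by norm_num)
          nlinarith only [h1, h2, hX1, hX0]
        have hX3 : (N : ℝ) ^ (1 / 2 : ℝ) ≤ X := by
          have h1 : (1 : ℝ) ≤ (N : ℝ) ^ (1 / 2 : ℝ) / 2 ^ I := by
            have h3 : X0 ≤ (N : ℝ) ^ (1 / 2 : ℝ) / 2 ^ I := by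
              rw [le_div_iff₀ (by positivity)]; linarith
            linarith
          have h2 : (0 : ℝ) ≤ (N : ℝ) ^ (1 / 2 : ℝ) := by positivity
          nlinarith only [h1, h2, hX1]
        have hX1' : 1 ≤ X := hX0.trans hX2
        have hlX : l / 2 ≤ Real.log X := by
          have h1 := Real.log_le_log (by positivity) hX3
          rw [Real.log_rpow hNp, ← hl] at h1
          linarith
        have hlX2 : Real.log X ≤ l := by rw [hl]; exact Real.log_le_log hXp hXN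
        have hpow : ∀ r : ℝ, 0 ≤ r → (N : ℝ) ^ (r / 2) ≤ X ^ r := by
          intro r hr
          calc (N : ℝ) ^ (r / 2) = ((N : ℝ) ^ (1 / 2 : ℝ)) ^ r := by rw [← Real.rpow_mul hNp.le]; congr 1; ring
            _ ≤ X ^ r := Real.rpow_le_rpow (by positivity) hX3 hr
        obtain ⟨M', hM'⟩ : ∃ M' : ℕ, M' = ⌊x⌋₊ / 2 ^ (i + 1) + 1 := ⟨_, rfl⟩
        have hEx : a * E * x = N := by rw [hx]; field_simp
        have e1 : ⌊x⌋₊ / 2 ^ (i + 1) = ⌊x / 2 ^ (i + 1)⌋₊ := by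
          have := Nat.floor_div_natCast x (2 ^ (i + 1))
          push_cast at this
          exact this.symm
        have hx0 : 0 < x := by rw [hx]; positivity
        have hM1 : x / 2 ^ (i + 1) ≤ M' := by
          rw [hM', e1]; push_cast
          exact (Nat.lt_floor_add_one _).le
        have hM2 : (M' : ℝ) ≤ x / 2 ^ (i + 1) + 1 := by
          rw [hM', e1]; push_cast
          have := Nat.floor_le (show 0 ≤ x / 2 ^ (i + 1) by positivity)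
          linarith
        have hQ1 : X ≤ a * M' * E := by
          calc X = a * E * (x / 2 ^ (i + 1)) := by rw [hX, ← hEx]; ring
            _ ≤ a * E * M' := mul_le_mul_of_nonneg_left hM1 (by positivity)
            _ = _ := by ring
        have hQ2 : a * M' * E ≤ 2 * X := by
          have h1 : a * E ≤ X := by
            refine haE.trans (le_trans ?_ hX3)
            exact Real.rpow_le_rpow_of_exponent_le hNR (by norm_num)
          calc a * M' * E = a * E * M' := by ring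
            _ ≤ a * E * (x / 2 ^ (i + 1) + 1) := mul_le_mul_of_nonneg_left hM2 (by positivity)
            _ = X + a * E := by rw [hX, ← hEx]; ring
            _ ≤ _ := by linarith
        rw [← hM']
        refine (hwm2 X hX2 S hS δ hδ a ha ?_ v M' ?_ ?_ ?_ ?_ P ?_ w hw).trans (le_of_eq (by ring))
        · refine haN.trans (le_trans ?_ (hpow ϑ0 hϑ00.le))
          exact Real.rpow_le_rpow_of_exponent_le hNR (by rw [hϑ]; linarith)
        · rw [le_div_iff₀ hH0]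
          have h1 : θ / 2 * Real.log X * H ≤ θ / 2 * l * H :=
            mul_le_mul_of_nonneg_right (mul_le_mul_of_nonneg_left hlX2 (by positivity)) hH0.le
          linarith
        · rw [div_le_iff₀ hH0]
          have h1 : ϑ0 * (l / 2) * H ≤ ϑ0 * Real.log X * H :=
            mul_le_mul_of_nonneg_right (mul_le_mul_of_nonneg_left hlX hϑ00.le) hH0.le
          have h2 : ϑ0 * (l / 2) * H = 2 * (H * (ϑ * l)) := by rw [hϑ]; ring
          have h3 : 1 ≤ H * (ϑ * l) := by nlinarith only [hHR, hθl1, hϑl]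
          linarith
        · rw [← hE]; linarith
        · rw [← hE]; exact hQ2
        · intro p hp
          refine ⟨(hP p hp).1, (hP p hp).2.trans (le_trans ?_ (hpow κ0 hκ0.le))⟩
          exact Real.rpow_le_rpow_of_exponent_le hNR hκa)
      hα'1 hβ
    refine key.trans ?_
    have hmm0 : 0 ≤ mm H v := sum_nonneg fun p _ => by positivity
    have h6 : 6 * ε3 = ε1 / 2 := by rw [hε3]; ring
    have h7 : 8 / (H : ℝ) + 4 / 2 ^ I + 6 * ε3 ≤ ε1 := by linarith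
    calc _ ≤ mm H v * (V P * (N / a)) * ε1 := mul_le_mul_of_nonneg_left h7 (by positivity)
      _ = _ := by ring
  refine ((norm_sum_le _ _).trans (sum_le_sum hcell)).trans ?_
  rw [← sum_mul]
  have hWW : ∑ v ∈ Ico v0 v1, mm H v = WW H v0 v1 := rfl
  rw [hWW]
  have hHv0 : H ≤ v0 := by
    have : (H : ℝ) ≤ v0 := by nlinarith only [hv0h, hθl, hHR]
    exact_mod_cast this
  have hv01 : v0 ≤ v1 := by
    rw [hv0, hv1]
    exact (Nat.floor_le_floor (mul_le_mul_of_nonneg_left hϑl hH0.le)).trans (by omega)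
  have h1 := hCW H v0 v1 hH1 hHv0 hv01
  have hv00 : (0 : ℝ) < v0 := by
    have : (H : ℝ) ≤ v0 := by exact_mod_cast hHv0
    linarith
  have hv10 : (0 : ℝ) < v1 := by
    have : (v0 : ℝ) ≤ v1 := by exact_mod_cast hv01
    linarith
  have hrat : (v1 : ℝ) / v0 ≤ 1 / θ := by
    rw [div_le_div_iff₀ hv00 hθ]
    have h2 : (v1 : ℝ) ≤ 2 * (H * (ϑ * l)) := by nlinarith only [hv1b, hHR, hθl1, hϑl]
    have h3 : (v1 : ℝ) * θ ≤ 2 * (H * (ϑ * l)) * θ := mul_le_mul_of_nonneg_right h2 hθ.le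
    have hϑs : ϑ ≤ 1 / 128 := by rw [hϑ]; linarith
    have h4 : 2 * (H * (ϑ * l)) * θ = (4 * ϑ) * (H * (θ * l) / 2) := by ring
    have h5 : (4 * ϑ) * (H * (θ * l) / 2) ≤ 1 * (H * (θ * l) / 2) := by
      apply mul_le_mul_of_nonneg_right _ (by positivity)
      linarith
    linarith
  have hlogr : Real.log ((v1 : ℝ) / v0) ≤ Real.log (1 / θ) := Real.log_le_log (by positivity) hrat
  have hlθ : 1 ≤ Real.log (1 / θ) := by
    have h2 : (4 : ℝ) ≤ 1 / θ := by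
      rw [le_div_iff₀ hθ]
      have hϑs : ϑ ≤ 1 / 128 := by rw [hϑ]; linarith
      linarith
    have h3 : Real.exp 1 ≤ 4 := by
      have := Real.exp_one_lt_d9
      linarith
    calc (1 : ℝ) = Real.log (Real.exp 1) := (Real.log_exp 1).symm
      _ ≤ Real.log (1 / θ) := Real.log_le_log (Real.exp_pos _) (h3.trans h2)
  rw [abs_le] at h1
  have hWb : WW H v0 v1 ≤ (1 + CW) * Real.log (1 / θ) := by nlinarith only [h1.2, hlogr, hlθ, hCW0]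
  calc WW H v0 v1 * (V P * (N / a) * ε1) ≤ ((1 + CW) * Real.log (1 / θ)) * (V P * (N / a) * ε1) :=
        mul_le_mul_of_nonneg_right hWb (by positivity)
    _ = ε * (Real.log (1 / θ) * (V P * (N / a))) := by
        rw [hε1d]; field_simp

end Pool.Agent.U596.TP
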