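import Pool.Agent.U596.TP5

/-! Counting lemmas. -/

set_option autoImplicit false

namespace Pool.Agent.U596.TP

open Finset Pool.Agent.W41 Pool.Agent.W41.MU Pool.Agent.H376R2.MR

theorem PI_sum_eq {x y : ℝ} (hx : 0 ≤ x) (hxy : x ≤ y) : ∑ p ∈ PI x y, 1 / (p : ℝ)
    = ∑ p ∈ (Icc 1 ⌊y⌋₊).filter Nat.Prime, (1 : ℝ) / p - ∑ p ∈ (Icc 1 ⌊x⌋₊).filter Nat.Prime, (1 : ℝ) / p := by
  classical
  have hy : 0 ≤ y := hx.trans hxy
  have hsub : (Icc 1 ⌊x⌋₊).filter Nat.Prime ⊆ (Icc 1 ⌊y⌋₊).filter Nat.Prime := by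
    intro p hp
    rw [mem_filter, mem_Icc] at hp ⊢
    exact ⟨⟨hp.1.1, hp.1.2.trans (Nat.floor_le_floor hxy)⟩, hp.2⟩
  have h3 := sum_sdiff (f := fun p : ℕ => (1 : ℝ) / p) hsub
  have e : PI x y = (Icc 1 ⌊y⌋₊).filter Nat.Prime \ (Icc 1 ⌊x⌋₊).filter Nat.Prime := by
    ext p
    rw [mem_PI hy, Finset.mem_sdiff, mem_filter, mem_Icc, mem_filter, mem_Icc, Nat.le_floor_iff hy, Nat.le_floor_iff hx]
    constructor
    · rintro ⟨h1, h2, h3⟩
      exact ⟨⟨⟨h1.one_le, h3⟩, h1⟩, fun h4 => absurd h4.1.2 (not_le.2 h2)⟩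
    · rintro ⟨⟨⟨h1, h2⟩, h3⟩, h4⟩
      refine ⟨h3, ?_, h2⟩
      by_contra hcon
      exact h4 ⟨⟨h1, not_lt.1 hcon⟩, h3⟩
  rw [e]
  linarith

/-- reciprocal sums -/
theorem PI_sum : ∃ C : ℝ, 1 ≤ C ∧ ∀ (θ ϑ : ℝ) (N : ℕ), 0 < θ → θ ≤ ϑ → 1 ≤ N → 2 ≤ θ * Real.log N →
    |∑ p ∈ PI ((N : ℝ) ^ θ) ((N : ℝ) ^ ϑ), 1 / (p : ℝ) - Real.log (ϑ / θ)| ≤ C := by
  obtain ⟨C0, hC0, hM⟩ := mert_bdd
  refine ⟨2 * C0 + 2, by linarith, fun θ ϑ N hθ hθϑ hN hl => ?_⟩
  have hNp : (0 : ℝ) < N := by exact_mod_cast hN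
  have hrp : ∀ r : ℝ, (N : ℝ) ^ r = Real.exp (r * Real.log N) := fun r => by
    rw [Real.rpow_def_of_pos hNp, mul_comm]
  have hl0 : 0 < Real.log N := by
    by_contra hcon
    push Not at hcon
    have := mul_nonpos_of_nonneg_of_nonpos hθ.le hcon
    linarith
  have hϑl : θ * Real.log N ≤ ϑ * Real.log N := mul_le_mul_of_nonneg_right hθϑ hl0.le
  have hϑ : 0 < ϑ := hθ.trans_le hθϑ
  rw [PI_sum_eq (by positivity) (by rw [hrp, hrp]; exact Real.exp_le_exp.2 hϑl), hrp, hrp]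
  have h1 := mert_loglog (show (1 : ℝ) ≤ θ * Real.log N by linarith)
  have h2 := mert_loglog (show (1 : ℝ) ≤ ϑ * Real.log N by linarith)
  have h3 := hM ⌊Real.exp (θ * Real.log N)⌋₊
  have h4 := hM ⌊Real.exp (ϑ * Real.log N)⌋₊
  have h5 : Real.log (ϑ / θ) = Real.log (ϑ * Real.log N) - Real.log (θ * Real.log N) := by
    rw [Real.log_mul hϑ.ne' hl0.ne', Real.log_mul hθ.ne' hl0.ne', Real.log_div hϑ.ne' hθ.ne']
    ring
  rw [h5]
  rw [abs_le] at h1 h2 h3 h4 ⊢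
  constructor <;> linarith [h1.1, h1.2, h2.1, h2.2, h3.1, h3.2, h4.1, h4.2]

/-- the sifting product over all primes -/
theorem V_up : ∃ C : ℝ, 0 < C ∧ ∀ y : ℕ, 3 ≤ y → V ((Icc 1 y).filter Nat.Prime) ≤ C / Real.log y := by
  obtain ⟨C0, hC0, hM⟩ := mert_bdd
  refine ⟨Real.exp C0, Real.exp_pos _, fun y hy => ?_⟩
  have hy0 : (0 : ℝ) < y := by exact_mod_cast (by omega : 0 < y)
  have hly : 1 < Real.log y := by
    rw [Real.lt_log_iff_exp_lt hy0]
    have h1 : (3 : ℝ) ≤ y := by exact_mod_cast hy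
    have := Real.exp_one_lt_d9
    linarith
  have h1 := hM y
  rw [abs_le] at h1
  calc V ((Icc 1 y).filter Nat.Prime) ≤ ∏ p ∈ (Icc 1 y).filter Nat.Prime, Real.exp (-(1 / (p : ℝ))) := by
        unfold V
        apply prod_le_prod
        · intro p hp
          exact (fac_pos (mem_filter.1 hp).2).le
        · intro p _
          have := Real.add_one_le_exp (-(1 / (p : ℝ)))
          linarith
    _ = Real.exp (-∑ p ∈ (Icc 1 y).filter Nat.Prime, 1 / (p : ℝ)) := by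
        rw [← Real.exp_sum, sum_neg_distrib]
    _ ≤ Real.exp (C0 - Real.log (Real.log y)) := by
        apply Real.exp_le_exp.2
        linarith [h1.1]
    _ = _ := by rw [Real.exp_sub, Real.exp_log (by linarith)]

/-- the number of primes -/
theorem primes_low : ∃ X0 : ℝ, 3 ≤ X0 ∧ ∀ x : ℝ, X0 ≤ x →
    1 / 25 * (x / Real.log x) ≤ (((Icc 1 ⌊x⌋₊).filter Nat.Prime).card : ℝ) := by
  obtain ⟨v0, hv0, hm⟩ := mm_lower (show 1 ≤ 10 by norm_num)
  refine ⟨Real.exp (v0 + 2) + 3, by linarith [Real.exp_pos ((v0 : ℝ) + 2)], fun x hx => ?_⟩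
  have hx0 : 0 < x := by linarith [Real.exp_pos ((v0 : ℝ) + 2)]
  have hv00 : (0 : ℝ) ≤ v0 := Nat.cast_nonneg _
  have hl : (v0 : ℝ) + 2 ≤ Real.log x := by
    rw [Real.le_log_iff_exp_le hx0]; linarith [Real.exp_pos ((v0 : ℝ) + 2)]
  obtain ⟨l, hld⟩ : ∃ l : ℝ, l = Real.log x := ⟨_, rfl⟩
  rw [← hld] at hl ⊢
  have hxl : Real.exp l = x := by rw [hld]; exact Real.exp_log hx0
  obtain ⟨v, hv⟩ : ∃ v : ℕ, v = ⌊10 * l⌋₊ - 1 := ⟨_, rfl⟩
  have h1 : ((⌊10 * l⌋₊ : ℕ) : ℝ) ≤ 10 * l := Nat.floor_le (by linarith)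
  have h2 : 10 * l < ((⌊10 * l⌋₊ : ℕ) : ℝ) + 1 := Nat.lt_floor_add_one _
  have h3 : 1 ≤ ⌊10 * l⌋₊ := by
    apply Nat.le_floor; push_cast; linarith
  have hvR : (v : ℝ) = (⌊10 * l⌋₊ : ℕ) - 1 := by rw [hv]; push_cast [h3]; ring
  have hvv0 : v0 ≤ v := by
    have : (v0 : ℝ) ≤ v := by linarith
    exact_mod_cast this
  obtain ⟨h4, h5⟩ := hm v hvv0
  have hv1 : (0 : ℝ) < v := by linarith
  have hsub : cell 10 v ⊆ (Icc 1 ⌊x⌋₊).filter Nat.Prime := by
    intro p hp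
    have h6 := cell_lt hp
    have hp0 : (0 : ℝ) < p := by exact_mod_cast h6.1.pos
    rw [mem_filter, mem_Icc, Nat.le_floor_iff hx0.le]
    refine ⟨⟨h6.1.one_le, ?_⟩, h6.1⟩
    rw [← hxl, ← Real.exp_log hp0]
    apply Real.exp_le_exp.2
    have h7 := h6.2.2.le
    push_cast at h7
    refine h7.trans ?_
    rw [div_le_iff₀ (by norm_num)]
    linarith
  have h6 : mm 10 v ≤ (cell 10 v).card * Real.exp (-(v / 10 : ℝ)) := by
    unfold mm
    rw [← nsmul_eq_mul, ← sum_const]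
    apply sum_le_sum
    intro p hp
    have h7 := cell_lt hp
    have hp0 : (0 : ℝ) < p := by exact_mod_cast h7.1.pos
    rw [Real.exp_neg, ← one_div]
    apply one_div_le_one_div_of_le (Real.exp_pos _)
    rw [← Real.exp_log hp0]
    apply Real.exp_le_exp.2
    have := h7.2.1
    push_cast at this
    exact this
  have h7 : ((cell 10 v).card : ℝ) ≤ (((Icc 1 ⌊x⌋₊).filter Nat.Prime).card : ℝ) := by
    exact_mod_cast card_le_card hsub
  refine le_trans ?_ h7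
  have h8 : 1 / (2 * v) ≤ (cell 10 v).card * Real.exp (-(v / 10 : ℝ)) := by
    refine le_trans ?_ h6
    rw [div_le_iff₀ (by positivity)]
    linarith
  have h9 : 4 / 5 * x ≤ Real.exp (v / 10 : ℝ) := by
    have h10 : Real.exp (l - 1 / 5) ≤ Real.exp (v / 10 : ℝ) := by
      apply Real.exp_le_exp.2; linarith
    have h11 : Real.exp (l - 1 / 5) = x / Real.exp (1 / 5) := by rw [Real.exp_sub, hxl]
    rw [h11] at h10
    refine le_trans ?_ h10
    rw [le_div_iff₀ (Real.exp_pos _)]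
    have := exp_02
    nlinarith
  have h10 : 1 / (2 * v) * Real.exp (v / 10 : ℝ) ≤ (cell 10 v).card := by
    have h11 := mul_le_mul_of_nonneg_right h8 (Real.exp_pos (v / 10 : ℝ)).le
    have h12 : Real.exp (-(v / 10 : ℝ)) * Real.exp (v / 10 : ℝ) = 1 := by rw [← Real.exp_add]; simp
    rw [mul_assoc, h12, mul_one] at h11
    exact h11
  refine le_trans ?_ h10
  have hl0 : 0 < l := by linarith
  calc 1 / 25 * (x / l) = 1 / (2 * (10 * l)) * (4 / 5 * x) := by field_simp; norm_num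
    _ ≤ 1 / (2 * v) * Real.exp (v / 10 : ℝ) := by
        apply mul_le_mul _ h9 (by positivity) (by positivity)
        apply one_div_le_one_div_of_le (by positivity)
        linarith

/-- products of `j` elements of `I` -/
noncomputable def AA (I : Finset ℕ) : ℕ → Finset ℕ
  | 0 => {1}
  | j + 1 => (I ×ˢ AA I j).image (fun x => x.1 * x.2)

open ArithmeticFunction in
theorem mem_AA {I : Finset ℕ} (hI : ∀ p ∈ I, p.Prime) : ∀ (j a : ℕ), a ∈ AA I j ↔
    a ≠ 0 ∧ cardFactors a = j ∧ ∀ p : ℕ, p.Prime → p ∣ a → p ∈ I := by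
  intro j
  induction j with
  | zero =>
    intro a
    unfold AA
    rw [mem_singleton]
    constructor
    · rintro rfl
      refine ⟨one_ne_zero, by simp, fun p hp hd => ?_⟩
      exact absurd (Nat.dvd_one.1 hd) hp.one_lt.ne'
    · rintro ⟨h1, h2, -⟩
      rcases ArithmeticFunction.cardFactors_eq_zero_iff_eq_zero_or_one.1 h2 with h3 | h3
      · exact absurd h3 h1
      · exact h3
  | succ j ih =>
    intro a
    unfold AA
    rw [mem_image]
    constructor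
    · rintro ⟨⟨p, b⟩, hx, rfl⟩
      rw [mem_product] at hx
      obtain ⟨hp, hb⟩ := hx
      simp only at hp hb ⊢
      obtain ⟨h1, h2, h3⟩ := (ih b).1 hb
      have hpp := hI p hp
      refine ⟨mul_ne_zero hpp.ne_zero h1, ?_, ?_⟩
      · rw [cardFactors_mul hpp.ne_zero h1, cardFactors_apply_prime hpp, h2, add_comm]
      · intro q hq hd
        rcases hq.dvd_mul.1 hd with h4 | h4
        · rw [(Nat.prime_dvd_prime_iff_eq hq hpp).1 h4]; exact hp
        · exact h3 q hq h4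
    · rintro ⟨h1, h2, h3⟩
      have ha1 : a ≠ 1 := by
        rintro rfl
        simp at h2
      have hpp := Nat.minFac_prime ha1
      obtain ⟨b, hb⟩ := Nat.minFac_dvd a
      have hb0 : b ≠ 0 := by
        rintro rfl
        rw [mul_zero] at hb
        exact h1 hb
      refine ⟨(a.minFac, b), ?_, hb.symm⟩
      rw [mem_product]
      refine ⟨h3 _ hpp (Nat.minFac_dvd a), (ih b).2 ⟨hb0, ?_, ?_⟩⟩
      · have h4 : cardFactors (a.minFac * b) = j + 1 := by rw [← hb]; exact h2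
        rw [cardFactors_mul hpp.ne_zero hb0, cardFactors_apply_prime hpp] at h4
        omega
      · intro q hq hd
        apply h3 q hq
        rw [hb]
        exact Dvd.dvd.mul_left hd _

theorem AA_pos {I : Finset ℕ} (hI : ∀ p ∈ I, p.Prime) {j a : ℕ} (h : a ∈ AA I j) : 0 < a :=
  Nat.pos_of_ne_zero ((mem_AA hI j a).1 h).1

/-- elements of `AA` are bounded -/
theorem AA_le {I : Finset ℕ} {y : ℝ} (hy : 1 ≤ y) (hI : ∀ p ∈ I, (p : ℝ) ≤ y) : ∀ (j a : ℕ), a ∈ AA I j → (a : ℝ) ≤ y ^ j := by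
  intro j
  induction j with
  | zero =>
    intro a ha
    unfold AA at ha
    rw [mem_singleton] at ha
    rw [ha]; simp
  | succ j ih =>
    intro a ha
    unfold AA at ha
    rw [mem_image] at ha
    obtain ⟨⟨p, b⟩, hx, rfl⟩ := ha
    rw [mem_product] at hx
    push_cast
    rw [pow_succ, mul_comm]
    exact mul_le_mul (ih b hx.2) (hI p hx.1) (Nat.cast_nonneg _) (by positivity)

/-- upper bound for the reciprocal sums -/
theorem AA_sum_le (I : Finset ℕ) {T : ℝ} (hT : 0 ≤ T) (hI : ∑ p ∈ I, 1 / (p : ℝ) ≤ T) :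
    ∀ j : ℕ, ∑ a ∈ AA I j, 1 / (a : ℝ) ≤ T ^ j := by
  intro j
  induction j with
  | zero => unfold AA; simp
  | succ j ih =>
    unfold AA
    calc ∑ a ∈ (I ×ˢ AA I j).image (fun x : ℕ × ℕ => x.1 * x.2), 1 / ((a : ℕ) : ℝ)
        ≤ ∑ x ∈ I ×ˢ AA I j, 1 / ((x.1 * x.2 : ℕ) : ℝ) :=
          sum_image_le_of_nonneg (f := fun a : ℕ => 1 / (a : ℝ)) (g := fun x : ℕ × ℕ => x.1 * x.2) (fun x _ => by positivity)
      _ = (∑ p ∈ I, 1 / (p : ℝ)) * ∑ a ∈ AA I j, 1 / (a : ℝ) := by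
          rw [sum_mul_sum, sum_product]
          apply sum_congr rfl; intro p _
          apply sum_congr rfl; intro b _
          push_cast
          rw [one_div_mul_one_div]
      _ ≤ T * T ^ j := mul_le_mul hI ih (sum_nonneg fun _ _ => by positivity) hT
      _ = _ := by ring

open ArithmeticFunction in
/-- the number of representations -/
theorem AA_fiber {I : Finset ℕ} (hI : ∀ p ∈ I, p.Prime) {j b : ℕ} (hb : b ∈ AA I (j + 1)) :
    ((I ×ˢ AA I j).filter (fun x => x.1 * x.2 = b)).card = (I.filter (fun p => p ∣ b)).card := by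
  classical
  obtain ⟨h1, h2, h3⟩ := (mem_AA hI (j + 1) b).1 hb
  apply card_bij (fun x _ => x.1)
  · rintro ⟨p, a⟩ hx
    rw [mem_filter, mem_product] at hx
    rw [mem_filter]
    exact ⟨hx.1.1, ⟨a, hx.2.symm⟩⟩
  · rintro ⟨p, a⟩ hx ⟨p', a'⟩ hx' he
    rw [mem_filter, mem_product] at hx hx'
    simp only at he hx hx'
    subst he
    have hp0 := (hI p hx.1.1).pos
    have h4 : p * a = p * a' := hx.2.trans hx'.2.symm
    rw [Nat.eq_of_mul_eq_mul_left hp0 h4]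
  · intro p hp
    rw [mem_filter] at hp
    obtain ⟨a, ha⟩ := hp.2
    have hpp := hI p hp.1
    have ha0 : a ≠ 0 := by
      rintro rfl
      rw [mul_zero] at ha
      exact h1 ha
    refine ⟨(p, a), ?_, rfl⟩
    rw [mem_filter, mem_product]
    refine ⟨⟨hp.1, (mem_AA hI j a).2 ⟨ha0, ?_, ?_⟩⟩, ha.symm⟩
    · rw [ha, cardFactors_mul hpp.ne_zero ha0, cardFactors_apply_prime hpp] at h2
      omega
    · intro q hq hd
      apply h3 q hq
      rw [ha]
      exact Dvd.dvd.mul_left hd _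

open ArithmeticFunction in
theorem AA_fiber_le {I : Finset ℕ} (hI : ∀ p ∈ I, p.Prime) {j b : ℕ} (hb : b ∈ AA I j) :
    (I.filter (fun p => p ∣ b)).card ≤ j := by
  classical
  obtain ⟨h1, h2, h3⟩ := (mem_AA hI j b).1 hb
  have h4 : I.filter (fun p => p ∣ b) ⊆ b.primeFactorsList.toFinset := by
    intro p hp
    rw [mem_filter] at hp
    rw [List.mem_toFinset, Nat.mem_primeFactorsList h1]
    exact ⟨hI p hp.1, hp.2⟩
  refine (card_le_card h4).trans ((List.toFinset_card_le _).trans ?_)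
  rw [← cardFactors_apply, h2]

/-- sums over products through representations -/
theorem AA_rep {I : Finset ℕ} (j : ℕ) (g : ℕ → ℂ) :
    ∑ x ∈ I ×ˢ AA I j, g (x.1 * x.2)
      = ∑ b ∈ AA I (j + 1), (((I ×ˢ AA I j).filter (fun x => x.1 * x.2 = b)).card : ℂ) * g b := by
  classical
  rw [← sum_fiberwise_of_maps_to (g := fun x : ℕ × ℕ => x.1 * x.2) (t := AA I (j + 1)) (f := fun x => g (x.1 * x.2))]
  · apply sum_congr rfl
    intro b _
    rw [sum_congr rfl (g := fun _ => g b)]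
    · rw [sum_const, nsmul_eq_mul]
    · intro x hx
      rw [(mem_filter.1 hx).2]
  · intro x hx
    unfold AA
    exact mem_image_of_mem (fun x : ℕ × ℕ => x.1 * x.2) hx

/-- lower bound for the reciprocal sums -/
theorem AA_sum_ge {I : Finset ℕ} (hI : ∀ p ∈ I, p.Prime) {T : ℝ} (hT : 0 ≤ T) (hIT : T ≤ ∑ p ∈ I, 1 / (p : ℝ)) :
    ∀ j : ℕ, T ^ j ≤ j.factorial * ∑ a ∈ AA I j, 1 / (a : ℝ) := by
  classical
  intro j
  induction j with
  | zero => unfold AA; simp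
  | succ j ih =>
    have h1 : (∑ p ∈ I, 1 / (p : ℝ)) * ∑ a ∈ AA I j, 1 / (a : ℝ) = ∑ x ∈ I ×ˢ AA I j, 1 / ((x.1 * x.2 : ℕ) : ℝ) := by
      rw [sum_mul_sum, sum_product]
      apply sum_congr rfl; intro p _
      apply sum_congr rfl; intro b _
      push_cast
      rw [one_div_mul_one_div]
    have h2 : ∑ x ∈ I ×ˢ AA I j, 1 / ((x.1 * x.2 : ℕ) : ℝ) ≤ (j + 1) * ∑ b ∈ AA I (j + 1), 1 / (b : ℝ) := by
      rw [← sum_fiberwise_of_maps_to (g := fun x : ℕ × ℕ => x.1 * x.2) (t := AA I (j + 1))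
        (f := fun x => 1 / ((x.1 * x.2 : ℕ) : ℝ))]
      · rw [mul_sum]
        apply sum_le_sum
        intro b hb
        rw [sum_congr rfl (g := fun _ => 1 / (b : ℝ))]
        · rw [sum_const, nsmul_eq_mul]
          apply mul_le_mul_of_nonneg_right _ (by positivity)
          rw [AA_fiber hI hb]
          exact_mod_cast AA_fiber_le hI hb
        · intro x hx
          rw [(mem_filter.1 hx).2]
      · intro x hx
        unfold AA
        exact mem_image_of_mem (fun x : ℕ × ℕ => x.1 * x.2) hx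
    have h3 : 0 ≤ ∑ a ∈ AA I j, 1 / (a : ℝ) := sum_nonneg fun _ _ => by positivity
    rw [Nat.factorial_succ]
    push_cast
    calc T ^ (j + 1) = T * T ^ j := by ring
      _ ≤ T * (j.factorial * ∑ a ∈ AA I j, 1 / (a : ℝ)) := mul_le_mul_of_nonneg_left ih hT
      _ = j.factorial * (T * ∑ a ∈ AA I j, 1 / (a : ℝ)) := by ring
      _ ≤ j.factorial * ((∑ p ∈ I, 1 / (p : ℝ)) * ∑ a ∈ AA I j, 1 / (a : ℝ)) := by
          apply mul_le_mul_of_nonneg_left _ (Nat.cast_nonneg _)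
          exact mul_le_mul_of_nonneg_right hIT h3
      _ ≤ j.factorial * ((j + 1) * ∑ b ∈ AA I (j + 1), 1 / (b : ℝ)) := by
          apply mul_le_mul_of_nonneg_left _ (Nat.cast_nonneg _)
          rw [h1]; exact h2
      _ = _ := by ring

end Pool.Agent.U596.TP
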