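import Pool.Agent.U596.TP6

/-! Integers with exactly `k` prime factors: combinatorics. -/

set_option autoImplicit false

namespace Pool.Agent.U596.TP

open Finset Pool.Agent.W41 Pool.Agent.W41.MU Pool.Agent.H376R2.MR ArithmeticFunction

/-- splitting off the prime factors up to `z` -/
theorem decomp {x z : ℝ} (hz : 0 ≤ z) : ∀ n : ℕ, n ≠ 0 → (∀ p : ℕ, p.Prime → p ∣ n → x < p) →
    ∃ i c b : ℕ, c ∈ AA (PI x z) i ∧ n = c * b ∧ b ≠ 0 ∧ (∀ p : ℕ, p.Prime → p ∣ b → z < p) ∧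
      cardFactors n = i + cardFactors b := by
  classical
  intro n
  induction n using Nat.strong_induction_on with
  | _ n ih =>
    intro hn hx
    by_cases h : ∃ p : ℕ, p.Prime ∧ p ∣ n ∧ (p : ℝ) ≤ z
    · obtain ⟨p, hp, ⟨m, hm⟩, hpz⟩ := h
      have hm0 : m ≠ 0 := by
        rintro rfl
        rw [mul_zero] at hm
        exact hn hm
      have hmn : m < n := by
        rw [hm]
        have := hp.two_le
        have : 0 < m := Nat.pos_of_ne_zero hm0
        nlinarith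
      obtain ⟨i, c, b, h1, h2, h3, h4, h5⟩ := ih m hmn hm0 (fun q hq hd => hx q hq (by rw [hm]; exact Dvd.dvd.mul_left hd _))
      refine ⟨i + 1, p * c, b, ?_, ?_, h3, h4, ?_⟩
      · unfold AA
        rw [mem_image]
        refine ⟨(p, c), ?_, rfl⟩
        rw [mem_product]
        exact ⟨(mem_PI hz).2 ⟨hp, hx p hp (by rw [hm]; exact dvd_mul_right _ _), hpz⟩, h1⟩
      · rw [hm, h2]; ring
      · rw [hm, cardFactors_mul hp.ne_zero hm0, cardFactors_apply_prime hp, h5]; ring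
    · push Not at h
      refine ⟨0, 1, n, ?_, by ring, hn, h, by simp⟩
      unfold AA
      exact mem_singleton_self _

/-- uniqueness of the factorization -/
theorem est_inj {I : Finset ℕ} (hI : ∀ p ∈ I, p.Prime) {w : ℝ} (hIw : ∀ p ∈ I, (p : ℝ) ≤ w) {J b b' q q' : ℕ}
    (hb : b ∈ AA I J) (hb' : b' ∈ AA I J) (hq : q.Prime) (hq' : q'.Prime) (hqw : w < q)
    (h : b * q = b' * q') : b = b' ∧ q = q' := by
  obtain ⟨h1, h2, h3⟩ := (mem_AA hI J b).1 hb
  obtain ⟨h1', h2', h3'⟩ := (mem_AA hI J b').1 hb'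
  have h4 : q ∣ b' * q' := ⟨b, by rw [← h]; ring⟩
  have hqq : q = q' := by
    rcases hq.dvd_mul.1 h4 with h5 | h5
    · exact absurd (hIw q (h3' q hq h5)) (not_le.2 hqw)
    · exact (Nat.prime_dvd_prime_iff_eq hq hq').1 h5
  subst hqq
  exact ⟨Nat.eq_of_mul_eq_mul_right hq.pos h, rfl⟩

/-- products with a repeated factor -/
theorem nonsq {I : Finset ℕ} (hI : ∀ p ∈ I, p.Prime) {y : ℝ} (hy : 0 < y) (hIy : ∀ p ∈ I, y < (p : ℝ)) {T1 : ℝ}
    (hT0 : 0 ≤ T1) (hT1 : ∑ p ∈ I, 1 / (p : ℝ) ≤ T1) (J : ℕ) :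
    ∑ b ∈ (AA I J).filter (fun b => (I.filter (fun p => p ∣ b)).card < J), 1 / (b : ℝ) ≤ T1 ^ (J - 1) / y := by
  classical
  -- a repeated factor
  have hrep : ∀ b ∈ (AA I J).filter (fun b => (I.filter (fun p => p ∣ b)).card < J), ∃ p ∈ I, p * p ∣ b := by
    intro b hb
    rw [mem_filter] at hb
    obtain ⟨h1, h2, h3⟩ := (mem_AA hI J b).1 hb.1
    have hns : ¬ Squarefree b := by
      intro hsq
      have hnd := (Nat.squarefree_iff_nodup_primeFactorsList h1).1 hsq
      have h4 : b.primeFactorsList.toFinset ⊆ I.filter (fun p => p ∣ b) := by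
        intro p hp
        rw [List.mem_toFinset, Nat.mem_primeFactorsList h1] at hp
        rw [mem_filter]
        exact ⟨h3 p hp.1 hp.2, hp.2⟩
      have h5 := card_le_card h4
      rw [List.toFinset_card_of_nodup hnd, ← cardFactors_apply, h2] at h5
      omega
    rw [Nat.squarefree_iff_prime_squarefree] at hns
    push Not at hns
    obtain ⟨p, hp, hpp⟩ := hns
    exact ⟨p, h3 p hp ((dvd_mul_right p p).trans hpp), hpp⟩
  rcases Nat.lt_or_ge J 2 with hJ | hJ
  · -- impossible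
    have hemp : (AA I J).filter (fun b => (I.filter (fun p => p ∣ b)).card < J) = ∅ := by
      rw [eq_empty_iff_forall_notMem]
      intro b hb
      obtain ⟨p, hp, hpp⟩ := hrep b hb
      rw [mem_filter] at hb
      obtain ⟨h1, h2, h3⟩ := (mem_AA hI J b).1 hb.1
      obtain ⟨c, hc⟩ := hpp
      have hpr := hI p hp
      have hc0 : c ≠ 0 := by
        rintro rfl
        rw [mul_zero] at hc
        exact h1 hc
      rw [hc, cardFactors_mul (mul_ne_zero hpr.ne_zero hpr.ne_zero) hc0, cardFactors_mul hpr.ne_zero hpr.ne_zero,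
        cardFactors_apply_prime hpr] at h2
      omega
    rw [hemp, sum_empty]
    positivity
  · obtain ⟨j, rfl⟩ : ∃ j, J = j + 2 := ⟨J - 2, by omega⟩
    have hsub : (AA I (j + 2)).filter (fun b => (I.filter (fun p => p ∣ b)).card < j + 2) ⊆
        (I ×ˢ AA I j).image (fun x : ℕ × ℕ => x.1 * x.1 * x.2) := by
      intro b hb
      obtain ⟨p, hp, ⟨c, hc⟩⟩ := hrep b hb
      rw [mem_filter] at hb
      obtain ⟨h1, h2, h3⟩ := (mem_AA hI (j + 2) b).1 hb.1
      have hpr := hI p hp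
      have hc0 : c ≠ 0 := by
        rintro rfl
        rw [mul_zero] at hc
        exact h1 hc
      rw [mem_image]
      refine ⟨(p, c), ?_, hc.symm⟩
      rw [mem_product]
      refine ⟨hp, (mem_AA hI j c).2 ⟨hc0, ?_, ?_⟩⟩
      · rw [hc, cardFactors_mul (mul_ne_zero hpr.ne_zero hpr.ne_zero) hc0, cardFactors_mul hpr.ne_zero hpr.ne_zero,
          cardFactors_apply_prime hpr] at h2
        omega
      · intro q hq hd
        apply h3 q hq
        rw [hc]
        exact Dvd.dvd.mul_left hd _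
    calc ∑ b ∈ (AA I (j + 2)).filter (fun b => (I.filter (fun p => p ∣ b)).card < j + 2), 1 / (b : ℝ)
        ≤ ∑ b ∈ (I ×ˢ AA I j).image (fun x : ℕ × ℕ => x.1 * x.1 * x.2), 1 / ((b : ℕ) : ℝ) :=
          sum_le_sum_of_subset_of_nonneg hsub fun b _ _ => by positivity
      _ ≤ ∑ x ∈ I ×ˢ AA I j, 1 / ((x.1 * x.1 * x.2 : ℕ) : ℝ) :=
          sum_image_le_of_nonneg (f := fun a : ℕ => 1 / (a : ℝ)) (g := fun x : ℕ × ℕ => x.1 * x.1 * x.2) (fun x _ => by positivity)
      _ ≤ ∑ x ∈ I ×ˢ AA I j, 1 / y * (1 / (x.1 : ℝ) * (1 / (x.2 : ℝ))) := by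
          apply sum_le_sum
          rintro ⟨p, c⟩ hx
          rw [mem_product] at hx
          simp only at hx ⊢
          have hp0 : (0 : ℝ) < p := hy.trans (hIy p hx.1)
          have hc0 : (0 : ℝ) < c := by exact_mod_cast AA_pos hI hx.2
          push_cast
          rw [one_div_mul_one_div, one_div_mul_one_div]
          apply one_div_le_one_div_of_le (by positivity)
          have := mul_le_mul_of_nonneg_right (hIy p hx.1).le (show (0 : ℝ) ≤ p * c by positivity)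
          linarith
      _ = 1 / y * ((∑ p ∈ I, 1 / (p : ℝ)) * ∑ c ∈ AA I j, 1 / (c : ℝ)) := by
          rw [← mul_sum, sum_mul_sum, sum_product]
      _ ≤ 1 / y * (T1 * T1 ^ j) := by
          apply mul_le_mul_of_nonneg_left _ (by positivity)
          exact mul_le_mul hT1 (AA_sum_le I hT0 hT1 j) (sum_nonneg fun _ _ => by positivity) hT0
      _ = T1 ^ (j + 2 - 1) / y := by
          rw [show j + 2 - 1 = j + 1 by omega, pow_succ]; ring

/-- the number of products `c b` with `c` in `AA I i` and `b` free of small prime factors -/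
theorem rough_card {N : ℕ} {I P : Finset ℕ} (hI : ∀ p ∈ I, p.Prime) {T1 W : ℝ} (hT0 : 0 ≤ T1)
    (hT1 : ∑ p ∈ I, 1 / (p : ℝ) ≤ T1) (hW : 0 ≤ W) (i : ℕ)
    (hwin : ∀ c ∈ AA I i, ∑ b ∈ Icc 1 (N / c), wt P 0 1 (b : ℕ) ≤ 2 * (N / c : ℝ) * W) (R : Finset ℕ)
    (hR : ∀ n ∈ R, 1 ≤ n ∧ n ≤ N ∧ ∃ c ∈ AA I i, ∃ b : ℕ, n = c * b ∧ wt P 0 1 (b : ℕ) = 1) :
    (R.card : ℝ) ≤ 2 * N * W * T1 ^ i := by
  classical
  have h1 : R ⊆ ((AA I i).sigma (fun c => (Icc 1 (N / c)).filter (fun b : ℕ => wt P 0 1 (b : ℕ) = 1))).image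
      (fun x => x.1 * x.2) := by
    intro n hn
    obtain ⟨h1, h2, c, hc, b, hb, hw⟩ := hR n hn
    rw [mem_image]
    refine ⟨⟨c, b⟩, ?_, hb.symm⟩
    rw [mem_sigma, mem_filter, mem_Icc]
    have hc0 := AA_pos hI hc
    have hb0 : b ≠ 0 := by
      rintro rfl
      rw [mul_zero] at hb
      omega
    refine ⟨hc, ⟨Nat.pos_of_ne_zero hb0, ?_⟩, hw⟩
    simp only
    rw [Nat.le_div_iff_mul_le hc0, mul_comm, ← hb]
    exact h2
  have h2 : (R.card : ℝ) ≤ ∑ c ∈ AA I i, ∑ b ∈ Icc 1 (N / c), wt P 0 1 (b : ℕ) := by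
    have h3 := (card_le_card h1).trans card_image_le
    rw [card_sigma] at h3
    have h4 : (R.card : ℝ) ≤ ((∑ c ∈ AA I i, ((Icc 1 (N / c)).filter (fun b : ℕ => wt P 0 1 (b : ℕ) = 1)).card : ℕ) : ℝ) := by
      exact_mod_cast h3
    refine h4.trans ?_
    push_cast
    apply sum_le_sum
    intro c _
    rw [card_filter]
    push_cast
    apply sum_le_sum
    intro b _
    split_ifs with h5
    · rw [h5]
    · exact wt_nonneg _ _ _ _
  refine h2.trans ((sum_le_sum hwin).trans ?_)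
  calc ∑ c ∈ AA I i, 2 * ((N : ℝ) / c) * W = 2 * N * W * ∑ c ∈ AA I i, 1 / (c : ℝ) := by
        rw [mul_sum]; apply sum_congr rfl; intro c _; ring
    _ ≤ 2 * N * W * T1 ^ i := mul_le_mul_of_nonneg_left (AA_sum_le I hT0 hT1 i) (by positivity)

end Pool.Agent.U596.TP
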