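import Pool.Agent.U596.TP7

/-! Integers with exactly `k` prime factors: the sums and the covering. -/

set_option autoImplicit false

namespace Pool.Agent.U596.TP

open Finset Pool.Agent.W41 Pool.Agent.W41.MU Pool.Agent.H376R2.MR ArithmeticFunction

/-- sums over products of `j + 1` primes -/
theorem Tsum {I : Finset ℕ} (hI : ∀ p ∈ I, p.Prime) {y : ℝ} (hy : 0 < y) (hIy : ∀ p ∈ I, y < (p : ℝ)) {T1 : ℝ}
    (hT0 : 0 ≤ T1) (hT1 : ∑ p ∈ I, 1 / (p : ℝ) ≤ T1) (j N : ℕ) (g : ℕ → ℂ)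
    (hg : ∀ b ∈ AA I (j + 1), ‖g b‖ ≤ N / b) {B : ℝ} (hB0 : 0 ≤ B) (hB : ∀ c ∈ AA I j, ‖∑ p ∈ I, g (p * c)‖ ≤ B / c) :
    ‖∑ b ∈ AA I (j + 1), g b‖ ≤ B * T1 ^ j + N * T1 ^ j / y := by
  classical
  have h1 := AA_rep (I := I) j g
  have h2 : ∑ x ∈ I ×ˢ AA I j, g (x.1 * x.2) = ∑ c ∈ AA I j, ∑ p ∈ I, g (p * c) := by
    rw [sum_product, sum_comm]
  have h3 : ‖∑ x ∈ I ×ˢ AA I j, g (x.1 * x.2)‖ ≤ B * T1 ^ j := by
    rw [h2]
    refine (norm_sum_le _ _).trans ((sum_le_sum hB).trans ?_)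
    calc ∑ c ∈ AA I j, B / (c : ℝ) = B * ∑ c ∈ AA I j, 1 / (c : ℝ) := by
          rw [mul_sum]; apply sum_congr rfl; intro c _; ring
      _ ≤ _ := mul_le_mul_of_nonneg_left (AA_sum_le I hT0 hT1 j) hB0
  have h4 : ((j + 1 : ℕ) : ℂ) * ∑ b ∈ AA I (j + 1), g b = ∑ x ∈ I ×ˢ AA I j, g (x.1 * x.2)
      + ∑ b ∈ AA I (j + 1), (((j + 1 : ℕ) : ℂ) - ((I.filter (fun p => p ∣ b)).card : ℂ)) * g b := by
    rw [h1, mul_sum, ← sum_add_distrib]
    apply sum_congr rfl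
    intro b hb
    rw [AA_fiber hI hb]
    ring
  have h5 : ‖∑ b ∈ AA I (j + 1), (((j + 1 : ℕ) : ℂ) - ((I.filter (fun p => p ∣ b)).card : ℂ)) * g b‖
      ≤ (j + 1) * (N * T1 ^ j / y) := by
    have h6 : ∀ b ∈ AA I (j + 1), ‖(((j + 1 : ℕ) : ℂ) - ((I.filter (fun p => p ∣ b)).card : ℂ)) * g b‖
        ≤ if (I.filter (fun p => p ∣ b)).card < j + 1 then (j + 1) * N * (1 / (b : ℝ)) else 0 := by
      intro b hb
      have h7 := AA_fiber_le hI hb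
      split_ifs with h8
      · rw [norm_mul]
        have h9 : ‖((j + 1 : ℕ) : ℂ) - ((I.filter (fun p => p ∣ b)).card : ℂ)‖ ≤ j + 1 := by
          rw [← Nat.cast_sub h7, Complex.norm_natCast]
          have : j + 1 - (I.filter (fun p => p ∣ b)).card ≤ j + 1 := Nat.sub_le _ _
          exact_mod_cast this
        calc _ ≤ ((j : ℝ) + 1) * (N / b) := mul_le_mul h9 (hg b hb) (norm_nonneg _) (by positivity)
          _ = _ := by ring
      · have h9 : (I.filter (fun p => p ∣ b)).card = j + 1 := by omega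
        rw [h9, sub_self, zero_mul, norm_zero]
    refine (norm_sum_le _ _).trans ((sum_le_sum h6).trans ?_)
    rw [← sum_filter, ← mul_sum]
    have h10 := nonsq hI hy hIy hT0 hT1 (j + 1)
    rw [Nat.add_sub_cancel] at h10
    calc ((j : ℝ) + 1) * N * ∑ b ∈ (AA I (j + 1)).filter (fun b => (I.filter (fun p => p ∣ b)).card < j + 1), 1 / (b : ℝ)
        ≤ ((j : ℝ) + 1) * N * (T1 ^ j / y) := mul_le_mul_of_nonneg_left h10 (by positivity)
      _ = _ := by ring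
  have h6 : ((j : ℝ) + 1) * ‖∑ b ∈ AA I (j + 1), g b‖ ≤ B * T1 ^ j + (j + 1) * (N * T1 ^ j / y) := by
    have h7 : ‖((j + 1 : ℕ) : ℂ) * ∑ b ∈ AA I (j + 1), g b‖ = ((j : ℝ) + 1) * ‖∑ b ∈ AA I (j + 1), g b‖ := by
      rw [norm_mul, Complex.norm_natCast]; push_cast; rfl
    rw [← h7, h4]
    exact (norm_add_le _ _).trans (add_le_add h3 h5)
  have hj : (0 : ℝ) ≤ j := Nat.cast_nonneg _
  have hBT : 0 ≤ B * T1 ^ j := by positivity
  have h8 : ((j : ℝ) + 1) * ‖∑ b ∈ AA I (j + 1), g b‖ ≤ (j + 1) * (B * T1 ^ j + N * T1 ^ j / y) := by nlinarith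
  exact le_of_mul_le_mul_left h8 (by positivity)

/-- the primes in `(w, N / b]` -/
noncomputable def QQ (w : ℝ) (N b : ℕ) : Finset ℕ := by
  classical exact (Icc 1 (N / b)).filter (fun q => q.Prime ∧ w < q)

/-- products of `J` primes of `I` and a prime above `w` -/
noncomputable def Est (I : Finset ℕ) (J : ℕ) (w : ℝ) (N : ℕ) : Finset ℕ := by
  classical exact ((AA I J).sigma (QQ w N)).image (fun x => x.1 * x.2)

theorem mem_QQ {w : ℝ} {N b q : ℕ} : q ∈ QQ w N b ↔ q.Prime ∧ w < q ∧ q ≤ N / b := by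
  classical
  unfold QQ
  rw [mem_filter, mem_Icc]
  constructor
  · rintro ⟨⟨h1, h2⟩, h3, h4⟩; exact ⟨h3, h4, h2⟩
  · rintro ⟨h1, h2, h3⟩; exact ⟨⟨h1.one_le, h3⟩, h1, h2⟩

theorem Est_sum {E : Type*} [AddCommMonoid E] {I : Finset ℕ} (hI : ∀ p ∈ I, p.Prime) {w : ℝ} (hIw : ∀ p ∈ I, (p : ℝ) ≤ w)
    {J N : ℕ} (f : ℕ → E) : ∑ n ∈ Est I J w N, f n = ∑ b ∈ AA I J, ∑ q ∈ QQ w N b, f (b * q) := by
  classical
  unfold Est
  rw [sum_image, sum_sigma]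
  rintro ⟨b, q⟩ hx ⟨b', q'⟩ hx' he
  rw [mem_coe, mem_sigma, mem_QQ] at hx hx'
  simp only at hx hx' he
  obtain ⟨h1, h2⟩ := est_inj hI hIw hx.1 hx'.1 hx.2.1 hx'.2.1 hx.2.2.1 he
  subst h1 h2
  rfl

/-- integers up to `N` with exactly `k` prime factors, all greater than `N ^ θ` -/
noncomputable def EE (k : ℕ) (θ : ℝ) (N : ℕ) : Finset ℕ := by
  classical exact (Icc 1 N).filter (fun n => cardFactors n = k ∧ ∀ p : ℕ, p.Prime → p ∣ n → (N : ℝ) ^ θ < p)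

theorem mem_EE {k : ℕ} {θ : ℝ} {N n : ℕ} : n ∈ EE k θ N ↔ 1 ≤ n ∧ n ≤ N ∧ cardFactors n = k ∧
    ∀ p : ℕ, p.Prime → p ∣ n → (N : ℝ) ^ θ < p := by
  classical
  unfold EE
  rw [mem_filter, mem_Icc]
  tauto

theorem Est_sub {N J : ℕ} {θ z w : ℝ} (hz : 0 ≤ z) (hθw : (N : ℝ) ^ θ ≤ w) :
    Est (PI ((N : ℝ) ^ θ) z) J w N ⊆ EE (J + 1) θ N := by
  classical
  intro n hn
  unfold Est at hn
  rw [mem_image] at hn
  obtain ⟨⟨b, q⟩, hx, rfl⟩ := hn
  rw [mem_sigma, mem_QQ] at hx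
  simp only at hx ⊢
  obtain ⟨hb, hq, hwq, hqN⟩ := hx
  have hI : ∀ p ∈ PI ((N : ℝ) ^ θ) z, p.Prime := fun p hp => ((mem_PI hz).1 hp).1
  obtain ⟨h1, h2, h3⟩ := (mem_AA hI J b).1 hb
  have hb0 := AA_pos hI hb
  rw [mem_EE]
  refine ⟨Nat.mul_pos hb0 hq.pos, ?_, ?_, ?_⟩
  · rw [Nat.le_div_iff_mul_le hb0] at hqN
    linarith [mul_comm q b]
  · rw [cardFactors_mul h1 hq.ne_zero, h2, cardFactors_apply_prime hq]
  · intro p hp hd
    rcases hp.dvd_mul.1 hd with h4 | h4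
    · exact ((mem_PI hz).1 (h3 p hp h4)).2.1
    · rw [(Nat.prime_dvd_prime_iff_eq hp hq).1 h4]
      linarith

/-- the covering -/
theorem EE_cover {N j : ℕ} {θ z w Y : ℝ} (hz : 1 ≤ z) (hw : 1 ≤ w) (hY : z ^ (j + 2) * w ≤ Y) {n : ℕ}
    (hn : n ∈ EE (j + 2) θ N) (hn2 : n ∉ Est (PI ((N : ℝ) ^ θ) z) (j + 1) w N) :
    (n : ℝ) ≤ Y ∨ ∃ i ≤ j, ∃ c ∈ AA (PI ((N : ℝ) ^ θ) z) i, ∃ b : ℕ, n = c * b ∧
      wt ((Icc 1 ⌊z⌋₊).filter Nat.Prime) 0 1 (b : ℕ) = 1 := by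
  classical
  have hz0 : 0 ≤ z := by linarith
  rw [mem_EE] at hn
  obtain ⟨h1, h2, h3, h4⟩ := hn
  obtain ⟨i, c, b, hc, hcb, hb0, hb, hΩ⟩ := decomp hz0 n (by omega) h4
  have hI : ∀ p ∈ PI ((N : ℝ) ^ θ) z, p.Prime := fun p hp => ((mem_PI hz0).1 hp).1
  have hIz : ∀ p ∈ PI ((N : ℝ) ^ θ) z, (p : ℝ) ≤ z := fun p hp => ((mem_PI hz0).1 hp).2.2
  have hcz := AA_le hz hIz i c hc
  rw [h3] at hΩ
  have hi2 : i ≤ j + 2 := by omega
  have hzi : z ^ i ≤ z ^ (j + 2) := pow_le_pow_right₀ hz hi2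
  have hc0 := AA_pos hI hc
  rcases Nat.lt_or_ge (cardFactors b) 2 with hb2 | hb2
  · left
    have h01 : cardFactors b = 0 ∨ cardFactors b = 1 := by omega
    rcases h01 with h5 | h5
    · have hb1 : b = 1 := by
        rcases ArithmeticFunction.cardFactors_eq_zero_iff_eq_zero_or_one.1 h5 with h6 | h6
        · exact absurd h6 hb0
        · exact h6
      rw [hcb, hb1, mul_one]
      refine le_trans (hcz.trans hzi) (le_trans ?_ hY)
      exact le_mul_of_one_le_right (by positivity) hw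
    · have hbp : b.Prime := ArithmeticFunction.cardFactors_eq_one_iff_prime.1 h5
      have hi : i = j + 1 := by omega
      have hbw : (b : ℝ) ≤ w := by
        by_contra hcon
        push Not at hcon
        apply hn2
        unfold Est
        rw [mem_image]
        refine ⟨⟨c, b⟩, ?_, hcb.symm⟩
        rw [mem_sigma, mem_QQ]
        refine ⟨hi ▸ hc, hbp, hcon, ?_⟩
        simp only
        rw [Nat.le_div_iff_mul_le hc0, mul_comm, ← hcb]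
        exact h2
      rw [hcb]
      push_cast
      refine le_trans ?_ hY
      exact mul_le_mul (hcz.trans hzi) hbw (Nat.cast_nonneg _) (by positivity)
  · right
    refine ⟨i, by omega, c, hc, b, hcb, ?_⟩
    unfold wt
    rw [if_pos]
    intro p hp hd
    rw [mem_filter, mem_Icc] at hp
    have h5 : p ∣ b := by
      have h6 : (p : ℤ) ∣ (b : ℤ) := by simpa using hd
      exact_mod_cast h6
    have h6 := hb p hp.2 h5
    have h7 : (p : ℝ) ≤ z := (Nat.le_floor_iff hz0).1 hp.1.2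
    linarith

end Pool.Agent.U596.TP
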