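import Pool.Agent.U596.TP8

/-! Invariant sets and integers with exactly `k` prime factors. -/

set_option autoImplicit false

namespace Pool.Agent.U596.TP

open Pool.Agent.H499R2.ND Finset Pool.Agent.W41 Pool.Agent.W41.FU Pool.Agent.W41.MU Pool.Agent.H376R2.MR ArithmeticFunction

theorem ev_pow {r : ℝ} (hr : 0 < r) (c : ℝ) : ∀ᶠ N : ℕ in Filter.atTop, c ≤ (N : ℝ) ^ r :=
  ((tendsto_rpow_atTop hr).comp tendsto_natCast_atTop_atTop).eventually_ge_atTop c

theorem ev_log {r : ℝ} (hr : 0 < r) {c : ℝ} (hc : 0 ≤ c) : ∀ᶠ N : ℕ in Filter.atTop, c * Real.log N ≤ (N : ℝ) ^ r := by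
  filter_upwards [ev_pow (half_pos hr) (2 * c / r), Filter.eventually_ge_atTop 1] with N hN hN1
  have hN0 : (0 : ℝ) < N := by exact_mod_cast hN1
  have h1 := Real.log_le_rpow_div hN0.le (half_pos hr)
  calc c * Real.log N ≤ c * ((N : ℝ) ^ (r / 2) / (r / 2)) := mul_le_mul_of_nonneg_left h1 hc
    _ = (2 * c / r) * (N : ℝ) ^ (r / 2) := by field_simp
    _ ≤ (N : ℝ) ^ (r / 2) * (N : ℝ) ^ (r / 2) := mul_le_mul_of_nonneg_right hN (by positivity)
    _ = (N : ℝ) ^ r := by rw [← Real.rpow_add hN0]; congr 1; ring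

/-- primes in `(w, N / b]`, lower bound -/
theorem QQ_low {X0 : ℝ} (hX0 : ∀ x : ℝ, X0 ≤ x → 1 / 25 * (x / Real.log x) ≤ (((Icc 1 ⌊x⌋₊).filter Nat.Prime).card : ℝ))
    {w : ℝ} (hw : 0 ≤ w) {N b : ℕ} (hx : X0 ≤ (N : ℝ) / b) :
    1 / 25 * ((N / b : ℝ) / Real.log (N / b : ℝ)) - w ≤ ((QQ w N b).card : ℝ) := by
  classical
  have h1 := hX0 _ hx
  rw [Nat.floor_div_eq_div] at h1
  have h2 : (Icc 1 (N / b)).filter Nat.Prime ⊆ QQ w N b ∪ Icc 1 ⌊w⌋₊ := by
    intro q hq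
    rw [mem_filter, mem_Icc] at hq
    rw [mem_union, mem_QQ, mem_Icc, Nat.le_floor_iff hw]
    rcases le_or_gt (q : ℝ) w with h | h
    · exact Or.inr ⟨hq.1.1, h⟩
    · exact Or.inl ⟨hq.2, h, hq.1.2⟩
  have h3 : (((Icc 1 (N / b)).filter Nat.Prime).card : ℝ) ≤ (QQ w N b).card + w := by
    have h4 := (card_le_card h2).trans (card_union_le _ _)
    rw [Nat.card_Icc, Nat.add_sub_cancel] at h4
    have h5 : (((Icc 1 (N / b)).filter Nat.Prime).card : ℝ) ≤ (QQ w N b).card + (⌊w⌋₊ : ℕ) := by exact_mod_cast h4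
    linarith [Nat.floor_le hw]
  linarith

theorem log_floor {x : ℝ} (hx : 4 ≤ x) : Real.log x / 2 ≤ Real.log ⌊x⌋₊ := by
  have h1 : x < (⌊x⌋₊ : ℕ) + 1 := Nat.lt_floor_add_one _
  have h2 : (0 : ℝ) < (⌊x⌋₊ : ℕ) := by linarith
  have h3 : x ≤ ((⌊x⌋₊ : ℕ) : ℝ) ^ 2 := by nlinarith
  have h4 := Real.log_le_log (by linarith) h3
  rw [Real.log_pow] at h4
  push_cast at h4
  linarith

/-- INVARIANT SETS AND INTEGERS WITH EXACTLY `k` PRIME FACTORS. -/
theorem kprimes {s : ℤ} (hs : s = 1 ∨ s = -1) (j : ℕ) : ∃ c1 : ℝ, 0 < c1 ∧ ∀ ε : ℝ, 0 < ε → ε ≤ 1 →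
    ∃ θ0 : ℝ, 0 < θ0 ∧ θ0 ≤ 1 / 2 ∧ ∀ θ : ℝ, 0 < θ → θ ≤ θ0 → ∃ N0 : ℕ, 1 ≤ N0 ∧ ∀ N : ℕ, N0 ≤ N →
    c1 * (N / Real.log N) ≤ ((EE (j + 2) θ N).card : ℝ) ∧
    ∀ S : Set ℤ, Inv 1 S → ∀ δ : ℝ, HD s S δ →
      |∑ n ∈ EE (j + 2) θ N, bal s S δ ((n : ℕ) : ℤ)| ≤ ε * (EE (j + 2) θ N).card := by
  classical
  obtain ⟨κ, hκ, hκ1, hbil⟩ := bilin hs
  obtain ⟨K, y0, hK, hy0, hwin⟩ := window (show (0 : ℝ) < 1 by norm_num)
  obtain ⟨C0, hC0, hPI⟩ := PI_sum
  obtain ⟨CV, hCV, hV⟩ := V_up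
  obtain ⟨X1, hX1, hlow⟩ := primes_low
  have hKR : (1 : ℝ) ≤ K := by exact_mod_cast hK
  have hK0 : (0 : ℝ) < K := by linarith
  obtain ⟨D, hD⟩ : ∃ D : ℝ, D = 50 * ((j + 1).factorial : ℝ) := ⟨_, rfl⟩
  have hfac : (1 : ℝ) ≤ ((j + 1).factorial : ℝ) := by exact_mod_cast Nat.factorial_pos (j + 1)
  have hD0 : 0 < D := by rw [hD]; positivity
  have hD1 : 1 ≤ D := by rw [hD]; linarith
  refine ⟨1 / D, by positivity, fun ε hε hε1 => ?_⟩
  -- the parameters
  obtain ⟨ε1, hε1d⟩ : ∃ ε1 : ℝ, ε1 = min 1 (ε * κ / (16 * CV * 4 ^ j * D)) := ⟨_, rfl⟩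
  have hε10 : 0 < ε1 := by rw [hε1d]; positivity
  have hε11 : ε1 ≤ 1 := by rw [hε1d]; exact min_le_left _ _
  have hε12 : ε1 ≤ ε * κ / (16 * CV * 4 ^ j * D) := by rw [hε1d]; exact min_le_right _ _
  obtain ⟨ϑ, hϑ, hϑ1, hbil1⟩ := hbil ε1 hε10 hε11
  obtain ⟨ϑ1, hϑ1d⟩ : ∃ ϑ1 : ℝ, ϑ1 = min (ϑ / (j + 2)) (min κ (1 / (4 * (j + 2) * K))) := ⟨_, rfl⟩
  have hjR : (0 : ℝ) ≤ j := Nat.cast_nonneg _
  have hϑ10 : 0 < ϑ1 := by rw [hϑ1d]; positivity
  have hϑ1a : ϑ1 * (j + 2) ≤ ϑ := by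
    have h1 : ϑ1 ≤ ϑ / (j + 2) := by rw [hϑ1d]; exact min_le_left _ _
    rwa [le_div_iff₀ (by positivity)] at h1
  have hϑ1b : ϑ1 ≤ κ := by rw [hϑ1d]; exact (min_le_right _ _).trans (min_le_left _ _)
  have hϑ1c' : ϑ1 * (4 * (j + 2) * K) ≤ 1 := by
    have h1 : ϑ1 ≤ 1 / (4 * (j + 2) * K) := by rw [hϑ1d]; exact (min_le_right _ _).trans (min_le_right _ _)
    rwa [le_div_iff₀ (by positivity)] at h1
  have hϑ1c : ϑ1 * (j + 2) ≤ 1 / 4 := by nlinarith [mul_pos hϑ10 (show (0 : ℝ) < j + 2 by positivity)]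
  have hϑ1d' : ϑ1 * K ≤ 1 / 4 := by nlinarith [mul_pos hϑ10 hK0]
  have hϑ1e : ϑ1 ≤ ϑ := by nlinarith
  have hϑ1f : ϑ1 ≤ 1 := by linarith
  obtain ⟨G, hG⟩ : ∃ G : ℝ, G = (4 * CV * (j + 1) / ϑ1) * 4 ^ j * (4 * D) / ε := ⟨_, rfl⟩
  have hG0 : 0 < G := by rw [hG]; positivity
  have hlϑ : 0 ≤ Real.log (1 / ϑ1) := Real.log_nonneg (by rw [le_div_iff₀ hϑ10]; linarith)
  obtain ⟨L0, hL0⟩ : ∃ L0 : ℝ, L0 = 2 * (Real.log (1 / ϑ1) + C0) + 2 + 2 * G := ⟨_, rfl⟩
  refine ⟨Real.exp (-L0), Real.exp_pos _, ?_, fun θ hθ hθ0 => ?_⟩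
  · have h1 : Real.exp (-L0) ≤ Real.exp (-1) := Real.exp_le_exp.2 (by linarith)
    have h2 : Real.exp (-1) ≤ 1 / 2 := by
      rw [Real.exp_neg, inv_le_comm₀ (Real.exp_pos _) (by norm_num)]
      have := Real.add_one_le_exp (1 : ℝ)
      norm_num
      linarith
    linarith
  -- logarithms
  obtain ⟨lam, hlam⟩ : ∃ lam : ℝ, lam = Real.log (1 / θ) := ⟨_, rfl⟩
  have hlamL : L0 ≤ lam := by
    rw [hlam, one_div, Real.log_inv]
    have h1 := Real.log_le_log hθ hθ0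
    rw [Real.log_exp] at h1
    linarith
  have hratio : Real.log (ϑ1 / θ) = lam - Real.log (1 / ϑ1) := by
    rw [hlam, Real.log_div hϑ10.ne' hθ.ne', one_div, one_div, Real.log_inv, Real.log_inv]; ring
  obtain ⟨T0, hT0⟩ : ∃ T0 : ℝ, T0 = lam - Real.log (1 / ϑ1) - C0 := ⟨_, rfl⟩
  obtain ⟨T1, hT1⟩ : ∃ T1 : ℝ, T1 = lam - Real.log (1 / ϑ1) + C0 := ⟨_, rfl⟩
  have hT0a : lam ≤ 2 * T0 := by rw [hT0]; linarith
  have hT0b : 1 ≤ T0 := by rw [hT0]; linarith
  have hT0c : G ≤ T0 := by rw [hT0]; linarith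
  have hT1a : T1 ≤ 4 * T0 := by rw [hT1]; linarith
  have hT1b : 1 ≤ T1 := by rw [hT1]; linarith
  have hθϑ1 : θ ≤ ϑ1 := by
    have h1 : 0 ≤ Real.log (ϑ1 / θ) := by rw [hratio]; linarith
    by_contra hcon
    push Not at hcon
    have h2 : Real.log (ϑ1 / θ) < 0 := Real.log_neg (by positivity) (by rw [div_lt_one hθ]; exact hcon)
    linarith
  obtain ⟨Nb, hNb, hbil2⟩ := hbil1 θ hθ (hθϑ1.trans hϑ1e)
  -- the size of `N`
  have hlim : ∀ᶠ N : ℕ in Filter.atTop, ((Nb : ℝ) ≤ N ∧ 2 / θ ≤ Real.log N) ∧ (9 ≤ (N : ℝ) ^ κ ∧ (y0 : ℝ) + 9 ≤ (N : ℝ) ^ ϑ1) ∧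
      (X1 ≤ (N : ℝ) ^ (3 / 4 : ℝ) ∧ 50 * Real.log N ≤ (N : ℝ) ^ (1 / 2 : ℝ)) ∧
      (T1 ^ j * (4 * D) / ε * Real.log N ≤ (N : ℝ) ^ θ ∧ (4 * D) / ε * Real.log N ≤ (N : ℝ) ^ (1 / 2 : ℝ)) := by
    have hl : ∀ c : ℝ, ∀ᶠ N : ℕ in Filter.atTop, c ≤ Real.log N :=
      fun c => (Real.tendsto_log_atTop.comp tendsto_natCast_atTop_atTop).eventually_ge_atTop c
    have hn : ∀ᶠ N : ℕ in Filter.atTop, (Nb : ℝ) ≤ N := tendsto_natCast_atTop_atTop.eventually_ge_atTop _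
    exact (hn.and (hl _)).and (((ev_pow hκ _).and (ev_pow hϑ10 _)).and (((ev_pow (by norm_num) _).and
      (ev_log (by norm_num) (by norm_num))).and ((ev_log hθ (by positivity)).and (ev_log (by norm_num) (by positivity)))))
  obtain ⟨N0, hN0⟩ := Filter.eventually_atTop.1 hlim
  refine ⟨N0 + 3, by omega, fun N hN => ?_⟩
  obtain ⟨⟨n1, n2⟩, ⟨n3, n4⟩, ⟨n5, n6⟩, ⟨n7, n8⟩⟩ := hN0 N (by omega)
  have hN3 : 3 ≤ N := by omega
  have hNR : (3 : ℝ) ≤ N := by exact_mod_cast hN3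
  have hN1 : (1 : ℝ) ≤ N := by linarith
  have hNp : (0 : ℝ) < N := by linarith
  obtain ⟨l, hl⟩ : ∃ l : ℝ, l = Real.log N := ⟨_, rfl⟩
  have hl1 : 1 < l := by
    rw [hl, Real.lt_log_iff_exp_lt hNp]
    have := Real.exp_one_lt_d9
    linarith
  have hl0 : 0 < l := by linarith
  have hθl : 2 ≤ θ * Real.log N := by
    rw [div_le_iff₀ hθ] at n2
    linarith
  rw [← hl] at n6 n7 n8
  -- the thresholds
  obtain ⟨w, hw⟩ : ∃ w : ℝ, w = (N : ℝ) ^ κ := ⟨_, rfl⟩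
  obtain ⟨z, hz⟩ : ∃ z : ℝ, z = (N : ℝ) ^ ϑ1 := ⟨_, rfl⟩
  obtain ⟨y, hy⟩ : ∃ y : ℝ, y = (N : ℝ) ^ θ := ⟨_, rfl⟩
  have hw9 : 9 ≤ w := by rw [hw]; exact n3
  have hz9 : (y0 : ℝ) + 9 ≤ z := by rw [hz]; exact n4
  have hy0R : (0 : ℝ) ≤ y0 := Nat.cast_nonneg _
  have hz1 : 1 ≤ z := by linarith
  have hz0 : 0 ≤ z := by linarith
  have hyp : 0 < y := by rw [hy]; positivity
  have hyw : (N : ℝ) ^ θ ≤ w := by
    rw [hw]; exact Real.rpow_le_rpow_of_exponent_le hN1 (hθϑ1.trans hϑ1b)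
  have hzw : z ≤ w := by rw [hz, hw]; exact Real.rpow_le_rpow_of_exponent_le hN1 hϑ1b
  have hzpow : ∀ i : ℕ, i ≤ j + 2 → z ^ i ≤ (N : ℝ) ^ (1 / 4 : ℝ) := by
    intro i hi
    have h1 : z ^ i ≤ z ^ (j + 2) := pow_le_pow_right₀ hz1 hi
    refine h1.trans ?_
    rw [hz, ← Real.rpow_natCast, ← Real.rpow_mul hNp.le]
    apply Real.rpow_le_rpow_of_exponent_le hN1
    push_cast
    exact hϑ1c
  obtain ⟨I, hI⟩ : ∃ I : Finset ℕ, I = PI ((N : ℝ) ^ θ) z := ⟨_, rfl⟩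
  have hIp : ∀ p ∈ I, p.Prime := fun p hp => by rw [hI, mem_PI hz0] at hp; exact hp.1
  have hIy : ∀ p ∈ I, y < (p : ℝ) := fun p hp => by rw [hI, mem_PI hz0] at hp; rw [hy]; exact hp.2.1
  have hIz : ∀ p ∈ I, (p : ℝ) ≤ z := fun p hp => by rw [hI, mem_PI hz0] at hp; exact hp.2.2
  have hIw : ∀ p ∈ I, (p : ℝ) ≤ w := fun p hp => (hIz p hp).trans hzw
  have hIs := hPI θ ϑ1 N hθ hθϑ1 (by omega) hθl
  rw [← hz, ← hI, hratio, abs_le] at hIs
  have hIT0 : T0 ≤ ∑ p ∈ I, 1 / (p : ℝ) := by rw [hT0]; linarith [hIs.1]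
  have hIT1 : ∑ p ∈ I, 1 / (p : ℝ) ≤ T1 := by rw [hT1]; linarith [hIs.2]
  have hT10 : 0 ≤ T1 := by linarith
  -- elements of `AA` are odd and small
  have hAA : ∀ i ≤ j + 2, ∀ c ∈ AA I i, 0 < c ∧ c % 2 = 1 ∧ (c : ℝ) ≤ (N : ℝ) ^ (1 / 4 : ℝ) := by
    intro i hi c hc
    refine ⟨AA_pos hIp hc, ?_, (AA_le hz1 hIz i c hc).trans (hzpow i hi)⟩
    by_contra hcon
    have h2 : 2 ∣ c := by omega
    have h3 := ((mem_AA hIp i c).1 hc).2.2 2 Nat.prime_two h2
    have h4 := hIy 2 h3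
    have h5 : (2 : ℝ) < y := by
      rw [hy, Real.rpow_def_of_pos hNp]
      have h6 : 2 ≤ Real.log N * θ := by linarith
      have h7 := Real.add_one_le_exp (Real.log N * θ)
      linarith
    push_cast at h4
    linarith
  -- the sets
  have hEsub : Est I (j + 1) w N ⊆ EE (j + 2) θ N := by
    rw [hI]; exact Est_sub hz0 hyw
  have hcardE : ((Est I (j + 1) w N).card : ℝ) = ∑ b ∈ AA I (j + 1), ((QQ w N b).card : ℝ) := by
    have h1 := Est_sum hIp hIw (J := j + 1) (N := N) (fun _ => (1 : ℝ))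
    rw [sum_const, nsmul_eq_mul, mul_one] at h1
    rw [h1]
    apply sum_congr rfl; intro b _
    rw [sum_const, nsmul_eq_mul, mul_one]
  -- the main lower bound
  obtain ⟨Z, hZ⟩ : ∃ Z : ℝ, Z = T0 ^ (j + 1) * (N / l) / D := ⟨_, rfl⟩
  have hZ0 : 0 < Z := by rw [hZ]; positivity
  have hcardZ : Z ≤ (Est I (j + 1) w N).card := by
    rw [hcardE]
    have h1 : ∀ b ∈ AA I (j + 1), 1 / 50 * (N / l) * (1 / (b : ℝ)) ≤ ((QQ w N b).card : ℝ) := by
      intro b hb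
      obtain ⟨hb0, -, hbN⟩ := hAA (j + 1) (by omega) b hb
      have hb0R : (0 : ℝ) < b := by exact_mod_cast hb0
      have hx : (N : ℝ) ^ (3 / 4 : ℝ) ≤ N / b := by
        rw [le_div_iff₀ hb0R]
        calc (N : ℝ) ^ (3 / 4 : ℝ) * b ≤ (N : ℝ) ^ (3 / 4 : ℝ) * (N : ℝ) ^ (1 / 4 : ℝ) :=
              mul_le_mul_of_nonneg_left hbN (by positivity)
          _ = N := by rw [← Real.rpow_add hNp]; norm_num
      have h2 := QQ_low hlow (show 0 ≤ w by linarith) (N := N) (b := b) (n5.trans hx)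
      have hx3 : (1 : ℝ) < N / b := by linarith
      have hxl : Real.log (N / b : ℝ) ≤ l := by
        rw [hl]
        apply Real.log_le_log (by linarith)
        exact div_le_self hNp.le (by exact_mod_cast hb0)
      have hxl0 : 0 < Real.log (N / b : ℝ) := Real.log_pos hx3
      have h3 : (N / b : ℝ) / l ≤ (N / b : ℝ) / Real.log (N / b : ℝ) :=
        div_le_div_of_nonneg_left (by positivity) hxl0 hxl
      have h4 : w ≤ 1 / 50 * ((N / b : ℝ) / l) := by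
        have h5 : w * (50 * l) ≤ N / b := by
          calc w * (50 * l) ≤ (N : ℝ) ^ (1 / 4 : ℝ) * (N : ℝ) ^ (1 / 2 : ℝ) := by
                apply mul_le_mul _ n6 (by positivity) (by positivity)
                rw [hw]
                exact Real.rpow_le_rpow_of_exponent_le hN1 (by linarith)
            _ = (N : ℝ) ^ (3 / 4 : ℝ) := by rw [← Real.rpow_add hNp]; norm_num
            _ ≤ _ := hx
        rw [mul_div_assoc', le_div_iff₀ hl0]
        linarith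
      calc 1 / 50 * (N / l) * (1 / (b : ℝ)) = 1 / 25 * ((N / b : ℝ) / l) - 1 / 50 * ((N / b : ℝ) / l) := by
            field_simp; ring
        _ ≤ 1 / 25 * ((N / b : ℝ) / Real.log (N / b : ℝ)) - w := by
            apply sub_le_sub _ h4
            exact mul_le_mul_of_nonneg_left h3 (by norm_num)
        _ ≤ _ := h2
    refine le_trans ?_ (sum_le_sum h1)
    rw [← mul_sum]
    have h2 := AA_sum_ge hIp (by linarith : 0 ≤ T0) hIT0 (j + 1)
    have hfp : (0 : ℝ) < ((j + 1).factorial : ℝ) := by linarith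
    have h3 : T0 ^ (j + 1) / ((j + 1).factorial : ℝ) ≤ ∑ a ∈ AA I (j + 1), 1 / (a : ℝ) := by
      rw [div_le_iff₀ hfp]; linarith
    calc Z = 1 / 50 * (N / l) * (T0 ^ (j + 1) / ((j + 1).factorial : ℝ)) := by
          rw [hZ, hD]; field_simp
      _ ≤ _ := mul_le_mul_of_nonneg_left h3 (by positivity)
  have hcardEE : ((Est I (j + 1) w N).card : ℝ) ≤ ((EE (j + 2) θ N).card : ℝ) := by
    exact_mod_cast card_le_card hEsub
  have hT0p : (1 : ℝ) ≤ T0 ^ (j + 1) := one_le_pow₀ hT0b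
  constructor
  · refine le_trans ?_ (hcardZ.trans hcardEE)
    rw [hZ, ← hl]
    have h1 : 0 ≤ (N : ℝ) / l := by positivity
    calc 1 / D * (N / l) = 1 * (N / l) / D := by ring
      _ ≤ _ := by
        apply div_le_div_of_nonneg_right _ hD0.le
        exact mul_le_mul_of_nonneg_right hT0p h1
  intro S hS δ hδ
  have hd := HD_mem hs hδ
  have hf : ∀ n, |bal s S δ n| ≤ 1 := fun n => bal_abs hd.1 hd.2 n
  -- the exceptional part
  have hrest : (((EE (j + 2) θ N) \ Est I (j + 1) w N).card : ℝ) ≤ ε / 2 * Z := by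
    -- sifting
    obtain ⟨zn, hzn⟩ : ∃ zn : ℕ, zn = ⌊z⌋₊ := ⟨_, rfl⟩
    have hzn1 : (zn : ℝ) ≤ z := by rw [hzn]; exact Nat.floor_le hz0
    have hzn2 : z < (zn : ℝ) + 1 := by rw [hzn]; exact Nat.lt_floor_add_one _
    have hzny : y0 ≤ zn := by
      have : (y0 : ℝ) ≤ zn := by linarith
      exact_mod_cast this
    have hzn3 : 3 ≤ zn := by
      have : (3 : ℝ) ≤ zn := by linarith
      exact_mod_cast this
    obtain ⟨Pz, hPz⟩ : ∃ Pz : Finset ℕ, Pz = (Icc 1 zn).filter Nat.Prime := ⟨_, rfl⟩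
    have hPzp : ∀ p ∈ Pz, p.Prime ∧ p ≤ zn := by
      intro p hp
      rw [hPz, mem_filter, mem_Icc] at hp
      exact ⟨hp.2, hp.1.2⟩
    have hVz : V Pz ≤ 2 * CV / (ϑ1 * l) := by
      have h1 := hV zn hzn3
      rw [← hPz] at h1
      have h2 : ϑ1 * l / 2 ≤ Real.log zn := by
        have h3 := log_floor (show 4 ≤ z by linarith)
        rw [← hzn] at h3
        have h4 : Real.log z = ϑ1 * l := by rw [hz, Real.log_rpow hNp, hl]
        rw [h4] at h3
        exact h3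
      refine h1.trans ?_
      calc CV / Real.log zn ≤ CV / (ϑ1 * l / 2) := div_le_div_of_nonneg_left hCV.le (by positivity) h2
        _ = _ := by field_simp
    have hVz0 : 0 < V Pz := V_pos fun p hp => (hPzp p hp).1
    have hznK : ((zn ^ K : ℕ) : ℝ) ≤ (N : ℝ) ^ (1 / 4 : ℝ) := by
      push_cast
      calc (zn : ℝ) ^ K ≤ z ^ K := pow_le_pow_left₀ (Nat.cast_nonneg _) hzn1 _
        _ = (N : ℝ) ^ (ϑ1 * K) := by rw [hz, ← Real.rpow_natCast, ← Real.rpow_mul hNp.le]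
        _ ≤ _ := Real.rpow_le_rpow_of_exponent_le hN1 hϑ1d'
    obtain ⟨R, hR⟩ : ∃ R : ℕ → Finset ℕ, R = fun i => (Icc 1 N).filter (fun n => ∃ c ∈ AA I i, ∃ b : ℕ, n = c * b ∧
      wt Pz 0 1 (b : ℕ) = 1) := ⟨_, rfl⟩
    have hRc : ∀ i ∈ range (j + 1), ((R i).card : ℝ) ≤ 2 * N * V Pz * T1 ^ j := by
      intro i hi
      rw [mem_range] at hi
      have h1 : ((R i).card : ℝ) ≤ 2 * N * V Pz * T1 ^ i := by
        apply rough_card (P := Pz) hIp hT10 hIT1 hVz0.le i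
        · intro c hc
          obtain ⟨hc0, -, hcN⟩ := hAA i (by omega) c hc
          have hc0R : (0 : ℝ) < c := by exact_mod_cast hc0
          have h2 : zn ^ K ≤ N / c := by
            rw [Nat.le_div_iff_mul_le hc0]
            have h3 : (((zn ^ K * c : ℕ)) : ℝ) ≤ N := by
              push_cast at hznK ⊢
              calc (zn : ℝ) ^ K * c ≤ (N : ℝ) ^ (1 / 4 : ℝ) * (N : ℝ) ^ (1 / 4 : ℝ) :=
                    mul_le_mul hznK hcN hc0R.le (by positivity)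
                _ = (N : ℝ) ^ (1 / 2 : ℝ) := by rw [← Real.rpow_add hNp]; norm_num
                _ ≤ (N : ℝ) ^ (1 : ℝ) := Real.rpow_le_rpow_of_exponent_le hN1 (by norm_num)
                _ = N := Real.rpow_one _
            exact_mod_cast h3
          have h3 := hwin zn hzny (N / c) h2 Pz hPzp 0 1 (one_ndvd fun p hp => (hPzp p hp).1) 1
          rw [abs_le] at h3
          have e1 : ∑ b ∈ Icc 1 (N / c), wt Pz 0 1 (b : ℕ) = ∑ g ∈ range (N / c), wt Pz 0 1 (1 + (g : ℕ)) := by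
            have e2 : Icc 1 (N / c) = Ico 1 (N / c + 1) := by ext; simp
            rw [e2, sum_Ico_eq_sum_range, Nat.add_sub_cancel]
            apply sum_congr rfl; intro g _
            push_cast; rfl
          rw [e1]
          have h4 : ((N / c : ℕ) : ℝ) ≤ N / c := Nat.cast_div_le
          have h5 : ((N / c : ℕ) : ℝ) * V Pz ≤ N / c * V Pz := mul_le_mul_of_nonneg_right h4 hVz0.le
          linarith [h3.2]
        · intro n hn
          rw [hR] at hn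
          simp only [mem_filter, mem_Icc] at hn
          exact ⟨hn.1.1, hn.1.2, hn.2⟩
      refine h1.trans ?_
      apply mul_le_mul_of_nonneg_left _ (by positivity)
      exact pow_le_pow_right₀ hT1b (by omega)
    have hcov : (EE (j + 2) θ N) \ Est I (j + 1) w N ⊆ Icc 1 ⌊(N : ℝ) ^ (1 / 2 : ℝ)⌋₊ ∪ (range (j + 1)).biUnion R := by
      intro n hn
      rw [Finset.mem_sdiff] at hn
      have hn1 := mem_EE.1 hn.1
      have hYb : z ^ (j + 2) * w ≤ (N : ℝ) ^ (1 / 2 : ℝ) := by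
        calc z ^ (j + 2) * w ≤ (N : ℝ) ^ (1 / 4 : ℝ) * (N : ℝ) ^ (1 / 4 : ℝ) := by
              apply mul_le_mul (hzpow _ le_rfl) _ (by linarith) (by positivity)
              rw [hw]
              exact Real.rpow_le_rpow_of_exponent_le hN1 (by linarith)
          _ = _ := by rw [← Real.rpow_add hNp]; norm_num
      rw [hI] at hn
      rcases EE_cover hz1 (by linarith) hYb hn.1 hn.2 with h1 | ⟨i, hi, c, hc, b, hcb, hb⟩
      · rw [mem_union, mem_Icc]
        exact Or.inl ⟨hn1.1, Nat.le_floor h1⟩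
      · rw [mem_union, mem_biUnion]
        right
        refine ⟨i, mem_range.2 (by omega), ?_⟩
        rw [hR]
        simp only [mem_filter, mem_Icc]
        refine ⟨⟨hn1.1, hn1.2.1⟩, c, ?_, b, hcb, ?_⟩
        · rw [hI]; exact hc
        · rw [hPz, hzn]; exact hb
    have h1 : (((EE (j + 2) θ N) \ Est I (j + 1) w N).card : ℝ) ≤ (N : ℝ) ^ (1 / 2 : ℝ) + (j + 1) * (2 * N * V Pz * T1 ^ j) := by
      have h2 := (card_le_card hcov).trans (card_union_le _ _)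
      have h3 : ((range (j + 1)).biUnion R).card ≤ ∑ i ∈ range (j + 1), (R i).card := card_biUnion_le
      rw [Nat.card_Icc, Nat.add_sub_cancel] at h2
      have h4 : (((EE (j + 2) θ N) \ Est I (j + 1) w N).card : ℝ) ≤ (⌊(N : ℝ) ^ (1 / 2 : ℝ)⌋₊ : ℕ)
          + ∑ i ∈ range (j + 1), ((R i).card : ℝ) := by
        exact_mod_cast h2.trans (Nat.add_le_add_left h3 _)
      have h5 : ((⌊(N : ℝ) ^ (1 / 2 : ℝ)⌋₊ : ℕ) : ℝ) ≤ (N : ℝ) ^ (1 / 2 : ℝ) := Nat.floor_le (by positivity)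
      have h6 := sum_le_sum hRc
      rw [sum_const, card_range, nsmul_eq_mul] at h6
      push_cast at h6
      linarith
    have h2 : (N : ℝ) ^ (1 / 2 : ℝ) ≤ ε / 4 * Z := by
      have h3 : 4 * D * l ≤ ε * (N : ℝ) ^ (1 / 2 : ℝ) := by
        have h4 : (4 * D) / ε * l = 4 * D * l / ε := by ring
        rw [h4, div_le_iff₀ hε] at n8
        linarith
      have h4 : (N : ℝ) ^ (1 / 2 : ℝ) * (N : ℝ) ^ (1 / 2 : ℝ) = N := by rw [← Real.rpow_add hNp]; norm_num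
      have h5 : (N : ℝ) ^ (1 / 2 : ℝ) * (4 * D * l) ≤ ε * N := by
        calc (N : ℝ) ^ (1 / 2 : ℝ) * (4 * D * l) ≤ (N : ℝ) ^ (1 / 2 : ℝ) * (ε * (N : ℝ) ^ (1 / 2 : ℝ)) :=
              mul_le_mul_of_nonneg_left h3 (by positivity)
          _ = ε * ((N : ℝ) ^ (1 / 2 : ℝ) * (N : ℝ) ^ (1 / 2 : ℝ)) := by ring
          _ = _ := by rw [h4]
      calc (N : ℝ) ^ (1 / 2 : ℝ) ≤ ε * N / (4 * D * l) := by
            rw [le_div_iff₀ (by positivity)]; exact h5
        _ = ε / 4 * (1 * (N / l) / D) := by field_simp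
        _ ≤ ε / 4 * (T0 ^ (j + 1) * (N / l) / D) := by
            apply mul_le_mul_of_nonneg_left _ (by positivity)
            apply div_le_div_of_nonneg_right _ hD0.le
            exact mul_le_mul_of_nonneg_right hT0p (by positivity)
        _ = _ := by rw [hZ]
    have h3 : (j + 1) * (2 * N * V Pz * T1 ^ j) ≤ ε / 4 * Z := by
      have h4 : T1 ^ j ≤ (4 * T0) ^ j := pow_le_pow_left₀ hT10 hT1a _
      calc (j + 1) * (2 * N * V Pz * T1 ^ j) ≤ (j + 1) * (2 * N * (2 * CV / (ϑ1 * l)) * (4 * T0) ^ j) := by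
            apply mul_le_mul_of_nonneg_left _ (by positivity)
            apply mul_le_mul _ h4 (by positivity) (by positivity)
            exact mul_le_mul_of_nonneg_left hVz (by positivity)
        _ = G * (ε / 4) / D * T0 ^ j * (N / l) := by
            rw [hG, mul_pow]; field_simp; norm_num
        _ ≤ T0 * (ε / 4) / D * T0 ^ j * (N / l) := by
            apply mul_le_mul_of_nonneg_right _ (by positivity)
            apply mul_le_mul_of_nonneg_right _ (by positivity)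
            apply div_le_div_of_nonneg_right _ hD0.le
            exact mul_le_mul_of_nonneg_right hT0c (by positivity)
        _ = _ := by rw [hZ, pow_succ]; ring
    linarith
  -- the main part
  have hmainT : |∑ n ∈ Est I (j + 1) w N, bal s S δ ((n : ℕ) : ℤ)| ≤ ε / 2 * Z := by
    obtain ⟨wn, hwn⟩ : ∃ wn : ℕ, wn = ⌊w⌋₊ := ⟨_, rfl⟩
    have hw0 : 0 ≤ w := by linarith
    have hwn1 : (wn : ℝ) ≤ w := by rw [hwn]; exact Nat.floor_le hw0
    have hwn2 : w < (wn : ℝ) + 1 := by rw [hwn]; exact Nat.lt_floor_add_one _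
    have hwn3 : 3 ≤ wn := by
      have : (3 : ℝ) ≤ wn := by linarith
      exact_mod_cast this
    obtain ⟨P, hP⟩ : ∃ P : Finset ℕ, P = (Icc 1 wn).filter Nat.Prime := ⟨_, rfl⟩
    have hPp : ∀ p ∈ P, p.Prime ∧ (p : ℝ) ≤ (N : ℝ) ^ κ := by
      intro p hp
      rw [hP, mem_filter, mem_Icc] at hp
      refine ⟨hp.2, ?_⟩
      rw [← hw]
      exact le_trans (by exact_mod_cast hp.1.2) hwn1
    have hV0 : 0 < V P := V_pos fun p hp => (hPp p hp).1
    have hVP : V P ≤ 2 * CV / (κ * l) := by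
      have h1 := hV wn hwn3
      rw [← hP] at h1
      have h2 : κ * l / 2 ≤ Real.log wn := by
        have h3 := log_floor (show 4 ≤ w by linarith)
        rw [← hwn] at h3
        have h4 : Real.log w = κ * l := by rw [hw, Real.log_rpow hNp, hl]
        rw [h4] at h3
        exact h3
      refine h1.trans ?_
      calc CV / Real.log wn ≤ CV / (κ * l / 2) := div_le_div_of_nonneg_left hCV.le (by positivity) h2
        _ = _ := by field_simp
    -- the coefficients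
    obtain ⟨α, hα⟩ : ∃ α : ℕ → ℂ, α = fun p => if p ∈ I then 1 else 0 := ⟨_, rfl⟩
    obtain ⟨β, hβ⟩ : ∃ β : ℕ → ℂ, β = fun q : ℕ => if q.Prime ∧ w < q then 1 else 0 := ⟨_, rfl⟩
    have hα1 : ∀ p, ‖α p‖ ≤ 1 := by
      intro p; rw [hα]; simp only; split_ifs <;> simp
    have hβ1 : ∀ b : ℕ, ‖β b‖ ≤ wt P 0 1 (b : ℕ) := by
      intro b; rw [hβ]; simp only
      split_ifs with h1
      · rw [norm_one]
        unfold wt
        rw [if_pos]
        intro p hp hd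
        have h2 : p ∣ b := by
          have h3 : (p : ℤ) ∣ (b : ℤ) := by simpa using hd
          exact_mod_cast h3
        have h3 := (Nat.prime_dvd_prime_iff_eq (hPp p hp).1 h1.1).1 h2
        rw [h3, hP, mem_filter, mem_Icc] at hp
        have h4 : (b : ℝ) ≤ wn := by exact_mod_cast hp.1.2
        linarith [h1.2]
      · rw [norm_zero]; exact wt_nonneg _ _ _ _
    obtain ⟨g, hg⟩ : ∃ g : ℕ → ℂ, g = fun b => ∑ q ∈ QQ w N b, (bal s S δ ((b * q : ℕ) : ℤ) : ℂ) := ⟨_, rfl⟩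
    have hgb : ∀ b ∈ AA I (j + 1), ‖g b‖ ≤ N / b := by
      intro b hb
      rw [hg]
      refine (norm_sum_le _ _).trans ((sum_le_sum (g := fun _ => (1 : ℝ)) fun q _ => ?_).trans ?_)
      · rw [Complex.norm_real, Real.norm_eq_abs]; exact hf _
      · rw [sum_const, nsmul_eq_mul, mul_one]
        have h1 : (QQ w N b).card ≤ N / b := by
          unfold QQ
          refine (card_filter_le _ _).trans ?_
          rw [Nat.card_Icc, Nat.add_sub_cancel]
        exact le_trans (by exact_mod_cast h1) (Nat.cast_div_le (α := ℝ))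
    have hgc : ∀ c ∈ AA I j, ‖∑ p ∈ I, g (p * c)‖ ≤ (ε1 * (lam * (V P * N))) / c := by
      intro c hc
      obtain ⟨hc0, hc2, hcN⟩ := hAA j (by omega) c hc
      have hcϑ : (c : ℝ) ≤ (N : ℝ) ^ ϑ := by
        refine (AA_le hz1 hIz j c hc).trans ?_
        rw [hz, ← Real.rpow_natCast, ← Real.rpow_mul hNp.le]
        apply Real.rpow_le_rpow_of_exponent_le hN1
        refine le_trans ?_ hϑ1a
        apply mul_le_mul_of_nonneg_left _ hϑ10.le
        linarith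
      have h1 := hbil2 N (by exact_mod_cast n1) S hS δ hδ c hc2 hcϑ P hPp α β hα1 hβ1
      rw [← hlam] at h1
      have hIsub : I ⊆ PI ((N : ℝ) ^ θ) ((N : ℝ) ^ ϑ) := by
        intro p hp
        rw [mem_PI (by positivity)]
        refine ⟨hIp p hp, ?_, (hIz p hp).trans ?_⟩
        · rw [← hy]; exact hIy p hp
        · rw [hz]; exact Real.rpow_le_rpow_of_exponent_le hN1 hϑ1e
      have h2 : ∑ p ∈ I, g (p * c) = ∑ p ∈ PI ((N : ℝ) ^ θ) ((N : ℝ) ^ ϑ), ∑ b ∈ Icc 1 (N / (c * p)), α p * β b *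
          (bal s S δ ((p * (c * b) : ℕ) : ℤ) : ℂ) := by
        rw [← sum_subset hIsub]
        · apply sum_congr rfl
          intro p hp
          rw [hg, hα]
          simp only [if_pos hp, one_mul]
          unfold QQ
          rw [sum_filter, mul_comm p c]
          apply sum_congr rfl
          intro b _
          rw [hβ]
          simp only
          split_ifs with h3
          · rw [one_mul]
            congr 3
            push_cast; ring
          · rw [zero_mul]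
        · intro p _ hp
          apply sum_eq_zero
          intro b _
          rw [hα]
          simp only [if_neg hp, zero_mul]
      rw [h2]
      refine h1.trans (le_of_eq ?_)
      ring
    have hlam0 : 0 ≤ lam := by linarith
    have h1 := Tsum hIp hyp hIy hT10 hIT1 j N g hgb (B := ε1 * (lam * (V P * N))) (by positivity) hgc
    have h2 : ∑ b ∈ AA I (j + 1), g b = ((∑ n ∈ Est I (j + 1) w N, bal s S δ ((n : ℕ) : ℤ) : ℝ) : ℂ) := by
      rw [Est_sum hIp hIw]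
      push_cast
      rw [hg]
      rfl
    rw [h2, Complex.norm_real, Real.norm_eq_abs] at h1
    refine h1.trans ?_
    have h3 : ε1 * (lam * (V P * N)) * T1 ^ j ≤ ε / 4 * Z := by
      have h4 : T1 ^ j ≤ (4 * T0) ^ j := pow_le_pow_left₀ hT10 hT1a _
      calc ε1 * (lam * (V P * N)) * T1 ^ j
          ≤ (ε * κ / (16 * CV * 4 ^ j * D)) * ((2 * T0) * ((2 * CV / (κ * l)) * N)) * (4 * T0) ^ j := by
            apply mul_le_mul _ h4 (by positivity) (by positivity)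
            apply mul_le_mul hε12 _ (by positivity) (by positivity)
            apply mul_le_mul hT0a _ (by positivity) (by positivity)
            exact mul_le_mul_of_nonneg_right hVP hNp.le
        _ = _ := by rw [hZ, mul_pow, pow_succ]; field_simp; ring
    have h4 : N * T1 ^ j / y ≤ ε / 4 * Z := by
      have h5 : T1 ^ j * (4 * D) * l ≤ ε * y := by
        have h6 : T1 ^ j * (4 * D) / ε * l = T1 ^ j * (4 * D) * l / ε := by ring
        rw [h6, div_le_iff₀ hε, ← hy] at n7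
        linarith
      calc N * T1 ^ j / y ≤ ε / 4 * (1 * (N / l) / D) := by
            rw [div_le_iff₀ hyp]
            have e : ε / 4 * (1 * (N / l) / D) * y = (ε * y) * (N / (4 * D * l)) := by field_simp
            rw [e]
            calc N * T1 ^ j = (T1 ^ j * (4 * D) * l) * (N / (4 * D * l)) := by field_simp
              _ ≤ _ := mul_le_mul_of_nonneg_right h5 (by positivity)
        _ ≤ ε / 4 * (T0 ^ (j + 1) * (N / l) / D) := by
            apply mul_le_mul_of_nonneg_left _ (by positivity)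
            apply div_le_div_of_nonneg_right _ hD0.le
            exact mul_le_mul_of_nonneg_right hT0p (by positivity)
        _ = _ := by rw [hZ]
    linarith
  -- conclusion
  have hsplit : ∑ n ∈ EE (j + 2) θ N, bal s S δ ((n : ℕ) : ℤ) = ∑ n ∈ (EE (j + 2) θ N) \ Est I (j + 1) w N, bal s S δ ((n : ℕ) : ℤ)
      + ∑ n ∈ Est I (j + 1) w N, bal s S δ ((n : ℕ) : ℤ) := (sum_sdiff hEsub).symm
  rw [hsplit]
  refine (abs_add_le _ _).trans ?_
  have h1 : |∑ n ∈ (EE (j + 2) θ N) \ Est I (j + 1) w N, bal s S δ ((n : ℕ) : ℤ)|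
      ≤ (((EE (j + 2) θ N) \ Est I (j + 1) w N).card : ℝ) := by
    refine (abs_sum_le_sum_abs _ _).trans ((sum_le_sum fun n _ => hf _).trans (le_of_eq ?_))
    rw [sum_const, nsmul_eq_mul, mul_one]
  have h2 : ε * Z ≤ ε * (EE (j + 2) θ N).card := mul_le_mul_of_nonneg_left (hcardZ.trans hcardEE) hε.le
  linarith

end Pool.Agent.U596.TP
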