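import Pool.Agent.U596.TR1
import Pool.Agent.U596.TP9

/-! Bilinear sums over primes in two dyadic ranges, for functions constant on coalescing trajectories
above a fixed height. -/

set_option autoImplicit false

namespace Pool.Agent.U596.TR

open Finset Pool.Agent.H320R2.PD Pool.Agent.H499R2.ND Pool.Agent.H499R2.CO Pool.Agent.H376R2.MR
  Pool.Agent.W41.FU Pool.Agent.W41 Pool.Agent.W41.MU Pool.Agent.TH926.BL Pool.Agent.Y964.LW Pool.Agent.U596.TP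
open scoped Classical

/-- one cell -/
theorem cell_pbilR {f : ℤ → ℝ} {v a M1 M2 : ℕ} {c1 c2 c3 ε2 : ℝ} (hM1 : 1 ≤ M1) (ha : 1 ≤ a)
    (hc3 : 0 ≤ c3) (hε2 : 0 ≤ ε2) (hc2 : 0 ≤ c2) (hcard : ((Pr M2).card : ℝ) ≤ 18 * c2)
    (hmain : ∀ w : ℕ → ℝ, (∀ p ∈ cell 10 v, |w p| ≤ 1 / p) →
      ∑ m ∈ BB Set.univ a (a * M2), GS f w 10 v m ^ 2 ≤ c1)
    (hc1 : 18 * c1 ≤ 9 * ε2 ^ 2 * (c2 * c3 ^ 2))
    {α β : ℕ → ℝ} (hα : ∀ p, |α p| ≤ 1) (hα0 : ∀ p, p ∉ Pr M1 → α p = 0) (hβ : ∀ b, |β b| ≤ 1) :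
    |∑ p ∈ cell 10 v, ∑ b ∈ Pr M2, α p * β b * f ((p * (a * b) : ℕ) : ℤ)| ≤ 6 * ε2 * (M1 * c3 * c2) := by
  have hM0 : (0 : ℝ) < M1 := by exact_mod_cast (by omega : 0 < M1)
  obtain ⟨w, hw⟩ : ∃ w : ℕ → ℝ, w = fun p => α p / (2 * M1) := ⟨_, rfl⟩
  have hw1 : ∀ p ∈ cell 10 v, |w p| ≤ 1 / p := by
    intro p _
    rw [hw]; simp only
    by_cases hp : p ∈ Pr M1
    · have hp1 := mem_Pr.1 hp
      have hp0 : (0 : ℝ) < p := by exact_mod_cast hp1.2.2.pos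
      rw [abs_div, abs_of_pos (by positivity : 0 < 2 * (M1 : ℝ))]
      apply div_le_div₀ (by norm_num) (hα p) hp0
      have := hp1.2.1
      exact_mod_cast this.le
    · rw [hα0 p hp, zero_div, abs_zero]; positivity
  have h1 := hmain w hw1
  obtain ⟨g, hg⟩ : ∃ g : ℕ → ℝ, g = fun b => |GS f w 10 v (a * b)| := ⟨_, rfl⟩
  have h2 : ∑ b ∈ Pr M2, g b ^ 2 ≤ c1 := by
    refine le_trans ?_ h1
    have h3 : ∑ b ∈ Pr M2, g b ^ 2 = ∑ m ∈ (Pr M2).image (fun b => a * b), GS f w 10 v m ^ 2 := by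
      rw [sum_image (fun x _ y _ hxy => Nat.eq_of_mul_eq_mul_left (by omega) hxy)]
      apply sum_congr rfl; intro b _
      rw [hg]; simp only [sq_abs]
    rw [h3]
    apply sum_le_sum_of_subset_of_nonneg
    · intro m hm
      rw [mem_image] at hm
      obtain ⟨b, hb, rfl⟩ := hm
      have hb' := mem_Pr.1 hb
      unfold BB
      rw [mem_filter, mem_Ico]
      refine ⟨⟨Nat.mul_le_mul_left _ hb'.1, ?_⟩, b, hb'.2.2, Set.mem_univ _, rfl⟩
      have : a * b < a * (2 * M2) := Nat.mul_lt_mul_of_pos_left hb'.2.1 (by omega)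
      calc a * b < a * (2 * M2) := this
        _ = 2 * (a * M2) := by ring
    · intro m _ _
      exact sq_nonneg _
  have h3 : (∑ b ∈ Pr M2, g b) ^ 2 ≤ (3 * ε2 * (c2 * c3)) ^ 2 := by
    have h4 : (∑ b ∈ Pr M2, g b) ^ 2 ≤ (Pr M2).card * ∑ b ∈ Pr M2, g b ^ 2 := sq_sum_le_card_mul_sum_sq
    have h5 : 0 ≤ ∑ b ∈ Pr M2, g b ^ 2 := sum_nonneg fun b _ => sq_nonneg _
    calc (∑ b ∈ Pr M2, g b) ^ 2 ≤ (Pr M2).card * ∑ b ∈ Pr M2, g b ^ 2 := h4
      _ ≤ (18 * c2) * c1 := mul_le_mul hcard h2 h5 (by positivity)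
      _ = c2 * (18 * c1) := by ring
      _ ≤ c2 * (9 * ε2 ^ 2 * (c2 * c3 ^ 2)) := mul_le_mul_of_nonneg_left hc1 hc2
      _ = _ := by ring
  have h4 : ∑ b ∈ Pr M2, g b ≤ 3 * ε2 * (c2 * c3) := (abs_le_of_sq_le_sq' h3 (by positivity)).2
  have h5 : ∑ p ∈ cell 10 v, ∑ b ∈ Pr M2, α p * β b * f ((p * (a * b) : ℕ) : ℤ)
      = ∑ b ∈ Pr M2, β b * (2 * M1 * GS f w 10 v (a * b)) := by
    rw [sum_comm]
    apply sum_congr rfl; intro b _
    unfold GS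
    rw [mul_sum, mul_sum]
    apply sum_congr rfl; intro p _
    rw [hw]
    field_simp
  rw [h5]
  refine (abs_sum_le_sum_abs _ _).trans ?_
  calc ∑ b ∈ Pr M2, |β b * (2 * M1 * GS f w 10 v (a * b))|
      ≤ ∑ b ∈ Pr M2, 2 * M1 * g b := by
        apply sum_le_sum; intro b _
        rw [abs_mul, abs_mul, abs_of_pos (by positivity : 0 < 2 * (M1 : ℝ)), hg]
        have h6 : 0 ≤ 2 * (M1 : ℝ) * |GS f w 10 v (a * b)| := by positivity
        exact mul_le_of_le_one_left h6 (hβ b)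
    _ = 2 * M1 * ∑ b ∈ Pr M2, g b := by rw [mul_sum]
    _ ≤ 2 * M1 * (3 * ε2 * (c2 * c3)) := mul_le_mul_of_nonneg_left h4 (by positivity)
    _ = _ := by ring

/-- BILINEAR SUMS OVER PRIMES IN TWO DYADIC RANGES. -/
theorem pbilR (R : ℕ) {s : ℤ} (hs : s = 1 ∨ s = -1) : ∀ ε : ℝ, 0 < ε → ∃ ϑ : ℝ, 0 < ϑ ∧ ϑ ≤ 1 / 64 ∧
    ∀ θ : ℝ, 0 < θ → ∃ N0 : ℕ, 10 ≤ N0 ∧ ∃ μ : ℝ, 0 < μ ∧ ∀ M1 M2 : ℕ, N0 ≤ M1 → N0 ≤ M2 → (M2 : ℝ) ^ θ ≤ M1 →
    ∀ a : ℕ, a % 2 = 1 → (M1 : ℝ) * a ≤ (M2 : ℝ) ^ ϑ → ∀ f ∈ SameR R s,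
    (∀ n : ℕ, (n : ℝ) ≤ 64 * (a * M1 * M2) → |∑ m ∈ Icc 1 n, f (m : ℕ)| ≤ μ * (a * M1 * M2)) →
    ∀ α β : ℕ → ℝ, (∀ p, |α p| ≤ 1) → (∀ b, |β b| ≤ 1) →
    |∑ p ∈ Pr M1, ∑ b ∈ Pr M2, α p * β b * f ((p * (a * b) : ℕ) : ℤ)|
      ≤ ε * ((Pr M1).card * (Pr M2).card) := by
  intro ε hε
  obtain ⟨ε2, hε2⟩ : ∃ ε2 : ℝ, ε2 = ε / 86400 := ⟨_, rfl⟩
  have hε20 : 0 < ε2 := by rw [hε2]; positivity
  obtain ⟨ε1, hε1⟩ : ∃ ε1 : ℝ, ε1 = min 1 (ε2 ^ 2 / 320) := ⟨_, rfl⟩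
  have hε10 : 0 < ε1 := by rw [hε1]; positivity
  have hε11 : ε1 ≤ 1 := by rw [hε1]; exact min_le_left _ _
  have hε12 : ε1 * 320 ≤ ε2 ^ 2 := by
    have h1 : ε1 ≤ ε2 ^ 2 / 320 := by rw [hε1]; exact min_le_right _ _
    linarith
  obtain ⟨ϑ0, hϑ00, hϑ01, hwm1⟩ := ms_PR R hs hε10 hε11 (H := 10) le_rfl
  obtain ⟨ϑ, hϑ⟩ : ∃ ϑ : ℝ, ϑ = ϑ0 / 2 := ⟨_, rfl⟩
  have hϑ0 : 0 < ϑ := by rw [hϑ]; positivity
  have hϑ1 : ϑ ≤ 1 / 64 := by rw [hϑ]; linarith
  refine ⟨ϑ, hϑ0, hϑ1, fun θ hθ => ?_⟩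
  obtain ⟨X0, hX0, μ0, hμ00, hμ01, hwm2⟩ := hwm1 (θ / 4) (by positivity)
  obtain ⟨Ma, hMa, hmm⟩ := mm_bd
  obtain ⟨Mb, hMb, hcd⟩ := Pr_card
  have hlim : ∀ᶠ N : ℕ in Filter.atTop, X0 ≤ N := tendsto_natCast_atTop_atTop.eventually_ge_atTop X0
  obtain ⟨Nc, hNc⟩ := Filter.eventually_atTop.1 hlim
  refine ⟨Ma + Mb + Nc, by omega, μ0 / 2, by positivity, fun M1 M2 hM1 hM2 hθM a ha haM f hf hmean α β hα hβ => ?_⟩
  have n1 := hNc M2 (by omega)
  have hM1p : (0 : ℝ) < M1 := by exact_mod_cast (by omega : 0 < M1)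
  have hM2p : (0 : ℝ) < M2 := by exact_mod_cast (by omega : 0 < M2)
  have hM2R : (10 : ℝ) ≤ M2 := by exact_mod_cast (by omega : 10 ≤ M2)
  obtain ⟨b1, b2, b3, b4, b5⟩ := v_bds (show 10 ≤ M1 by omega)
  obtain ⟨-, -, -, -, b6⟩ := v_bds (show 10 ≤ M2 by omega)
  obtain ⟨c1, c2⟩ := hcd M1 (by omega)
  obtain ⟨c3, c4⟩ := hcd M2 (by omega)
  have ha1 : 1 ≤ a := by omega
  have ha0 : (1 : ℝ) ≤ a := by exact_mod_cast ha1
  obtain ⟨L1, hL1⟩ : ∃ L1 : ℝ, L1 = Real.log M1 := ⟨_, rfl⟩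
  obtain ⟨L2, hL2⟩ : ∃ L2 : ℝ, L2 = Real.log M2 := ⟨_, rfl⟩
  have hE1 : Real.exp L1 = M1 := by rw [hL1]; exact Real.exp_log hM1p
  have hE2 : Real.exp L2 = M2 := by rw [hL2]; exact Real.exp_log hM2p
  rw [← hL1] at b1 b2 b5 c1 c2
  rw [← hL2] at b6 c3 c4
  have hrp : ∀ r : ℝ, (M2 : ℝ) ^ r = Real.exp (r * L2) := fun r => by
    rw [Real.rpow_def_of_pos hM2p, ← hL2, mul_comm]
  have hL1θ : θ * L2 ≤ L1 := by
    rw [hrp, ← hE1] at hθM
    exact Real.exp_le_exp.1 hθM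
  have hL1ϑ : L1 ≤ ϑ * L2 := by
    have h1 : (M1 : ℝ) ≤ (M2 : ℝ) ^ ϑ := by
      refine le_trans ?_ haM
      exact le_mul_of_one_le_right hM1p.le ha0
    rw [hrp, ← hE1] at h1
    exact Real.exp_le_exp.1 h1
  have haϑ : (a : ℝ) ≤ (M2 : ℝ) ^ ϑ := by
    refine le_trans ?_ haM
    have : (1 : ℝ) ≤ M1 := by exact_mod_cast (by omega : 1 ≤ M1)
    exact le_mul_of_one_le_left (by linarith) this
  -- extend by zero
  obtain ⟨α', hα'⟩ : ∃ α' : ℕ → ℝ, α' = fun p => if p ∈ Pr M1 then α p else 0 := ⟨_, rfl⟩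
  have hα'1 : ∀ p, |α' p| ≤ 1 := by
    intro p; rw [hα']; simp only
    split_ifs
    · exact hα p
    · simp
  have hα'0 : ∀ p, p ∉ Pr M1 → α' p = 0 := by
    intro p hp; rw [hα']; simp only [if_neg hp]
  have hext : ∑ p ∈ Pr M1, ∑ b ∈ Pr M2, α p * β b * f ((p * (a * b) : ℕ) : ℤ)
      = ∑ v ∈ Ico (vlo M1) (vhi M1), ∑ p ∈ cell 10 v, ∑ b ∈ Pr M2, α' p * β b * f ((p * (a * b) : ℕ) : ℤ) := by
    rw [← PR_sum (by norm_num) (vlo M1) (vhi M1), ← sum_subset (Pr_sub (show 10 ≤ M1 by omega))]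
    · apply sum_congr rfl
      intro p hp
      apply sum_congr rfl
      intro b _
      rw [hα']
      simp only [if_pos hp]
    · intro p _ hp
      apply sum_eq_zero
      intro b _
      rw [hα'0 p hp, zero_mul, zero_mul]
  rw [hext]
  have hcell : ∀ v ∈ Ico (vlo M1) (vhi M1), |∑ p ∈ cell 10 v, ∑ b ∈ Pr M2, α' p * β b * f ((p * (a * b) : ℕ) : ℤ)|
      ≤ 6 * ε2 * (M1 * (1 / L1) * (M2 / L2)) := by
    intro v hv
    have hv' := mem_Ico.1 hv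
    have hva : (vlo M1 : ℝ) ≤ v := by exact_mod_cast hv'.1
    have hvb : (v : ℝ) + 1 ≤ vhi M1 := by exact_mod_cast hv'.2
    have hm1 := (hmm M1 (by omega) v hv).1
    rw [← hL1] at hm1
    have hmm0 : 0 ≤ mm 10 v := sum_nonneg fun p _ => by positivity
    obtain ⟨E, hE⟩ : ∃ E : ℝ, E = Real.exp ((v : ℝ) / (10 : ℕ)) := ⟨_, rfl⟩
    have hE0 : 0 < E := by rw [hE]; exact Real.exp_pos _
    have hE1' : 1 ≤ E := by
      rw [hE]; apply Real.one_le_exp; positivity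
    obtain ⟨X, hX⟩ : ∃ X : ℝ, X = a * M2 * E := ⟨_, rfl⟩
    have hXM : (M2 : ℝ) ≤ X := by
      rw [hX]
      calc (M2 : ℝ) = 1 * M2 * 1 := by ring
        _ ≤ a * M2 * E := by
            apply mul_le_mul _ hE1' (by norm_num) (by positivity)
            exact mul_le_mul_of_nonneg_right ha0 hM2p.le
    have hXp : 0 < X := by linarith
    have hX1 : 1 ≤ X := by linarith
    have hEM : E ≤ 3 * M1 := by
      rw [hE]
      calc Real.exp ((v : ℝ) / (10 : ℕ)) ≤ Real.exp (L1 + 0.8) := by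
            apply Real.exp_le_exp.2
            push_cast; linarith
        _ = M1 * Real.exp 0.8 := by rw [Real.exp_add, hE1]
        _ ≤ M1 * 3 := by
            apply mul_le_mul_of_nonneg_left _ hM1p.le
            have h1 := Real.exp_one_lt_d9
            have h2 : Real.exp 0.8 ≤ Real.exp 1 := Real.exp_le_exp.2 (by norm_num)
            linarith
        _ = _ := by ring
    have hME : (M1 : ℝ) ≤ 2 * E := by
      rw [hE, ← hE1]
      calc Real.exp L1 ≤ Real.exp (0.1 + (v : ℝ) / (10 : ℕ)) := by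
            apply Real.exp_le_exp.2
            push_cast; linarith
        _ = Real.exp 0.1 * Real.exp ((v : ℝ) / (10 : ℕ)) := by rw [Real.exp_add]
        _ ≤ 2 * Real.exp ((v : ℝ) / (10 : ℕ)) := by
            apply mul_le_mul_of_nonneg_right _ (Real.exp_pos _).le
            have h1 := Pool.Agent.W41.MU.exp_045
            have h2 : Real.exp (0.1 : ℝ) ≤ Real.exp (9 / 20) := Real.exp_le_exp.2 (by norm_num)
            linarith
    have hXu : X ≤ (M2 : ℝ) ^ (3 : ℝ) := by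
      have h1 : (a : ℝ) * M2 * E ≤ a * M2 * (3 * M1) := mul_le_mul_of_nonneg_left hEM (by positivity)
      have h2 : (a : ℝ) * M2 * (3 * M1) = 3 * (M2 * (M1 * a)) := by ring
      have h3 : (M2 : ℝ) * (M1 * a) ≤ M2 * (M2 : ℝ) ^ ϑ := mul_le_mul_of_nonneg_left haM hM2p.le
      have h4 : (M2 : ℝ) ^ ϑ ≤ (M2 : ℝ) ^ (1 : ℝ) := Real.rpow_le_rpow_of_exponent_le (by linarith) (by linarith)
      rw [Real.rpow_one] at h4
      have h5 : (M2 : ℝ) * (M2 : ℝ) ^ ϑ ≤ M2 * M2 := mul_le_mul_of_nonneg_left h4 hM2p.le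
      have h6 : (M2 : ℝ) ^ (3 : ℝ) = M2 * M2 * M2 := by
        rw [show (3 : ℝ) = ((3 : ℕ) : ℝ) by norm_num, Real.rpow_natCast]; ring
      rw [hX, h6]
      have h7 : 0 < (M2 : ℝ) * M2 := by positivity
      nlinarith only [h1, h2, h3, h5, h7, hM2R]
    have hlX : L2 ≤ Real.log X := by rw [hL2]; exact Real.log_le_log hM2p hXM
    have hlXu : Real.log X ≤ 3 * L2 := by
      have h1 := Real.log_le_log hXp hXu
      rw [Real.log_rpow hM2p, ← hL2] at h1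
      exact h1
    have hL1p : 0 < L1 := by linarith
    have hL2p : 0 < L2 := by linarith
    have hlXp : 0 < Real.log X := by linarith
    have key := cell_pbilR (f := f) (v := v) (a := a) (M1 := M1) (M2 := M2)
      (c1 := ε1 * (640 / (a * Real.log X)) * ((a * M2 : ℕ) * mm 10 v ^ 2)) (c2 := M2 / L2) (c3 := 1 / L1) (ε2 := ε2)
      (by omega) ha1 (by positivity) hε20.le (by positivity) c3 ?_ ?_ hα'1 hα'0 hβ
    · refine key.trans (le_of_eq (by ring))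
    · intro w hw
      refine (hwm2 X (n1.trans hXM) f hf ?_ v (a * M2) ?_ ?_ ?_ ?_ w hw a ha ?_ Set.univ).2
      · intro n hn
        have h16 : 16 * X ≤ 64 * (a * M1 * M2) := by
          have h1 : (a : ℝ) * M2 * E ≤ a * M2 * (3 * M1) := mul_le_mul_of_nonneg_left hEM (by positivity)
          have h2 : 0 < (a : ℝ) * M2 * M1 := by positivity
          rw [hX]
          have e1 : (a : ℝ) * M2 * (3 * M1) = 3 * (a * M2 * M1) := by ring
          have e2 : 64 * ((a : ℝ) * M1 * M2) = 64 * (a * M2 * M1) := by ring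
          linarith
        refine (hmean n (hn.trans h16)).trans ?_
        have h1 : (a : ℝ) * M1 * M2 ≤ 2 * X := by
          rw [hX]
          calc (a : ℝ) * M1 * M2 = a * M2 * M1 := by ring
            _ ≤ a * M2 * (2 * E) := mul_le_mul_of_nonneg_left hME (by positivity)
            _ = _ := by ring
        have h2 := mul_le_mul_of_nonneg_left h1 hμ00.le
        linarith
      · push_cast
        have h1 : θ / 4 * Real.log X ≤ θ / 4 * (3 * L2) := mul_le_mul_of_nonneg_left hlXu (by positivity)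
        linarith
      · push_cast
        have h1 : ϑ0 * L2 ≤ ϑ0 * Real.log X := mul_le_mul_of_nonneg_left hlX hϑ00.le
        have h2 : ϑ0 * L2 = 2 * (ϑ * L2) := by rw [hϑ]; ring
        linarith
      · rw [← hE]; push_cast; rw [← hX]; linarith
      · rw [← hE]; push_cast; rw [← hX]; linarith
      · refine haϑ.trans ((Real.rpow_le_rpow_of_exponent_le (by linarith) (by rw [hϑ]; linarith : ϑ ≤ ϑ0)).trans ?_)
        exact Real.rpow_le_rpow hM2p.le hXM hϑ00.le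
    · have h1 : mm 10 v ^ 2 ≤ (1 / (2 * L1)) ^ 2 := pow_le_pow_left₀ hmm0 hm1 2
      have h2 : 640 / (a * Real.log X) ≤ 640 / (a * L2) := by
        apply div_le_div_of_nonneg_left (by norm_num) (by positivity)
        exact mul_le_mul_of_nonneg_left hlX (by positivity)
      push_cast
      calc 18 * (ε1 * (640 / (a * Real.log X)) * (a * M2 * mm 10 v ^ 2))
          ≤ 18 * (ε1 * (640 / (a * L2)) * (a * M2 * (1 / (2 * L1)) ^ 2)) := by
            apply mul_le_mul_of_nonneg_left _ (by norm_num)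
            apply mul_le_mul
            · exact mul_le_mul_of_nonneg_left h2 hε10.le
            · exact mul_le_mul_of_nonneg_left h1 (by positivity)
            · positivity
            · positivity
        _ = 9 * (ε1 * 320) * (M2 / L2 * (1 / L1) ^ 2) := by field_simp; ring
        _ ≤ 9 * ε2 ^ 2 * (M2 / L2 * (1 / L1) ^ 2) := by
            apply mul_le_mul_of_nonneg_right _ (by positivity)
            linarith
  refine ((abs_sum_le_sum_abs _ _).trans (sum_le_sum hcell)).trans ?_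
  rw [sum_const, nsmul_eq_mul, Nat.card_Ico, Nat.cast_sub b3]
  have hL1p : 0 < L1 := by linarith
  have hL2p : 0 < L2 := by linarith
  calc ((vhi M1 : ℝ) - vlo M1) * (6 * ε2 * (M1 * (1 / L1) * (M2 / L2)))
      ≤ 9 * (6 * ε2 * (M1 * (1 / L1) * (M2 / L2))) := mul_le_mul_of_nonneg_right b4 (by positivity)
    _ = 86400 * ε2 * ((1 / 40 * (M1 / L1)) * (1 / 40 * (M2 / L2))) := by ring
    _ ≤ 86400 * ε2 * ((Pr M1).card * (Pr M2).card) := by
        apply mul_le_mul_of_nonneg_left _ (by positivity)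
        exact mul_le_mul c2 c4 (by positivity) (by positivity)
    _ = _ := by rw [hε2]; ring

end Pool.Agent.U596.TR
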