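import Pool.Agent.U596.TR2
import Pool.Agent.U596.TP13

/-! The counting lemma for products of primes along families of sets, for functions constant on coalescing
trajectories above a fixed height. -/

set_option autoImplicit false

namespace Pool.Agent.U596.TR

open Finset Pool.Agent.H320R2.PD Pool.Agent.H499R2.ND Pool.Agent.H499R2.CO Pool.Agent.H376R2.MR
  Pool.Agent.W41.FU Pool.Agent.W41 Pool.Agent.W41.MU Pool.Agent.Y964.LW Pool.Agent.U596.TP
open scoped Classical

/-- the scale of a product -/
def scale {ι : Type} (c : Finset ι → ℕ) (M : ι → ℕ) (e : Finset ι) : ℕ := c e * ∏ r ∈ e, M r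

/-- THE COUNTING LEMMA. -/
theorem countingR (R : ℕ) {s : ℤ} (hs : s = 1 ∨ s = -1) (ι : Type) [Fintype ι] :
    ∀ ε : ℝ, 0 < ε → ∃ ϑ : ℝ, 0 < ϑ ∧ ϑ ≤ 1 / 64 ∧ ∀ θ : ℝ, 0 < θ →
    ∃ N0 : ℕ, 10 ≤ N0 ∧ ∃ μ : ℝ, 0 < μ ∧ ∀ M : ι → ℕ, (∀ i, N0 ≤ M i) →
    ∀ (c : Finset ι → ℕ) (E : Finset (Finset ι)), Good θ ϑ M c E →
    ∀ A : ι → Finset ℕ, (∀ i, A i ⊆ Pr (M i)) → ∀ (g : Finset ι → ℤ → ℝ) (l : Finset ι → ℝ),
    (∀ e ∈ E, ∀ z, 0 ≤ g e z ∧ g e z ≤ 1) → (∀ e ∈ E, 0 ≤ l e ∧ l e ≤ 1) →
    (∀ e ∈ E, (fun z => g e z - l e) ∈ SameR R s) →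
    (∀ e ∈ E, ∀ n : ℕ, (n : ℝ) ≤ 64 * 2 ^ (Fintype.card ι) * scale c M e →
      |∑ m ∈ Icc 1 n, (g e ((m : ℕ) : ℤ) - l e)| ≤ μ * scale c M e) →
    |∑ x ∈ Fintype.piFinset A, ∏ e ∈ E, g e ((pv c e x : ℕ) : ℤ) - (∏ e ∈ E, l e) * ∏ i, ((A i).card : ℝ)|
      ≤ ε * ∏ i, ((Pr (M i)).card : ℝ) := by
  intro ε hε
  obtain ⟨k, hk⟩ : ∃ k : ℕ, k = Fintype.card ι := ⟨_, rfl⟩
  obtain ⟨ε', hε'⟩ : ∃ ε' : ℝ, ε' = ε / 2 ^ k := ⟨_, rfl⟩
  have hε'0 : 0 < ε' := by rw [hε']; positivity
  obtain ⟨ϑ0, hϑ00, hϑ01, hpb⟩ := pbilR R hs ε' hε'0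
  obtain ⟨ϑ, hϑ⟩ : ∃ ϑ : ℝ, ϑ = ϑ0 / (2 * ((k : ℝ) + 1)) := ⟨_, rfl⟩
  have hk0 : (0 : ℝ) ≤ k := Nat.cast_nonneg _
  have hϑ0 : 0 < ϑ := by rw [hϑ]; positivity
  have hϑ1 : ϑ ≤ 1 / 64 := by
    rw [hϑ, div_le_iff₀ (by positivity)]
    nlinarith only [hϑ01, hk0, hϑ00]
  refine ⟨ϑ, hϑ0, hϑ1, fun θ hθ => ?_⟩
  obtain ⟨N1, hN1, μ, hμ, hpb1⟩ := hpb θ hθ
  obtain ⟨N2, hN2⟩ := Filter.eventually_atTop.1 (ev_pow hϑ0 2)
  refine ⟨N1 + N2, by omega, μ, hμ, fun M hM c E hE A hA g l hg hl hgR hmean => ?_⟩
  obtain ⟨F, hF⟩ : ∃ F : Finset ι → (ι → ℕ) → ℝ, F = fun e x => g e ((pv c e x : ℕ) : ℤ) := ⟨_, rfl⟩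
  have hF01 : ∀ e ∈ E, ∀ x, 0 ≤ F e x ∧ F e x ≤ 1 := by
    intro e he x
    rw [hF]
    exact hg e he _
  have hFc : ∀ e x y, (∀ r ∈ e, x r = y r) → F e x = F e y := by
    intro e x y h
    rw [hF]; simp only
    rw [pv_congr c e h]
  obtain ⟨T, hT⟩ : ∃ T : ℝ, T = ∏ i, ((Pr (M i)).card : ℝ) := ⟨_, rfl⟩
  have hT0 : 0 ≤ T := by rw [hT]; exact prod_nonneg fun i _ => Nat.cast_nonneg _
  -- induction on the subfamily
  have hind : ∀ n : ℕ, ∀ G ⊆ E, G.card = n →
      |∑ x ∈ Fintype.piFinset A, ∏ e ∈ G, F e x - (∏ e ∈ G, l e) * ∏ i, ((A i).card : ℝ)| ≤ n * (ε' * T) := by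
    intro n
    induction n with
    | zero =>
      intro G _ hG
      rw [card_eq_zero] at hG
      rw [hG]
      simp
    | succ n ih =>
      intro G hGE hG
      have hGn : G.Nonempty := by rw [← card_pos]; omega
      obtain ⟨e, he, i, hi, j, hj, hij, hpriv, hsc, hsm, hce, hco⟩ := hE G hGE hGn
      have heE : e ∈ E := hGE he
      obtain ⟨G', hG'⟩ : ∃ G', G' = G.erase e := ⟨_, rfl⟩
      have hGG : G = insert e G' := by rw [hG', insert_erase he]
      have heG' : e ∉ G' := by rw [hG']; exact notMem_erase e G
      have hG'c : G'.card = n := by rw [hG', card_erase_of_mem he, hG]; omega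
      have hG'E : G' ⊆ E := by rw [hG']; exact (erase_subset _ _).trans hGE
      have h1 := ih G' hG'E hG'c
      rw [hGG]
      simp only [prod_insert heG']
      -- the balanced part
      obtain ⟨Φ, hΦ⟩ : ∃ Φ : (ι → ℕ) → ℝ, Φ = fun x => (∏ e' ∈ G', F e' x) * (F e x - l e) := ⟨_, rfl⟩
      have hsplit : ∑ x ∈ Fintype.piFinset A, F e x * ∏ e' ∈ G', F e' x
          = l e * ∑ x ∈ Fintype.piFinset A, ∏ e' ∈ G', F e' x + ∑ x ∈ Fintype.piFinset A, Φ x := by
        rw [mul_sum, ← sum_add_distrib, hΦ]
        apply sum_congr rfl; intro x _; ring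
      have hΦb : |∑ x ∈ Fintype.piFinset A, Φ x| ≤ ε' * T := by
        -- the sum over two variables
        have hbil : ∀ x ∈ Fintype.piFinset A,
            |∑ p ∈ A i, ∑ b ∈ A j, Φ (Function.update (Function.update x i p) j b)|
              ≤ ε' * ((Pr (M i)).card * (Pr (M j)).card) := by
          intro x hx
          rw [Fintype.mem_piFinset] at hx
          obtain ⟨α, hα⟩ : ∃ α : ℕ → ℝ, α = fun p => if p ∈ A i then ∏ e' ∈ G'.filter (fun e' => i ∈ e'), F e' (Function.update x i p)
            else 0 := ⟨_, rfl⟩
          obtain ⟨β, hβ⟩ : ∃ β : ℕ → ℝ, β = fun b => if b ∈ A j then ∏ e' ∈ G'.filter (fun e' => i ∉ e'), F e' (Function.update x j b)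
            else 0 := ⟨_, rfl⟩
          have hα1 : ∀ p, |α p| ≤ 1 := by
            intro p
            rw [hα]
            simp only
            split_ifs
            · rw [abs_of_nonneg (prod_nonneg fun e' he' => (hF01 e' (hG'E (mem_filter.1 he').1) _).1)]
              exact prod_le_one (fun e' he' => (hF01 e' (hG'E (mem_filter.1 he').1) _).1)
                (fun e' he' => (hF01 e' (hG'E (mem_filter.1 he').1) _).2)
            · simp
          have hβ1 : ∀ p, |β p| ≤ 1 := by
            intro p
            rw [hβ]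
            simp only
            split_ifs
            · rw [abs_of_nonneg (prod_nonneg fun e' he' => (hF01 e' (hG'E (mem_filter.1 he').1) _).1)]
              exact prod_le_one (fun e' he' => (hF01 e' (hG'E (mem_filter.1 he').1) _).1)
                (fun e' he' => (hF01 e' (hG'E (mem_filter.1 he').1) _).2)
            · simp
          obtain ⟨a, ha⟩ : ∃ a : ℕ, a = c e * ∏ r ∈ (e.erase i).erase j, x r := ⟨_, rfl⟩
          have hMjp : (0 : ℝ) < M j := by
            have := hM j
            exact_mod_cast (by omega : 0 < M j)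
          have hMj1 : (1 : ℝ) ≤ M j := by
            have := hM j
            exact_mod_cast (by omega : 1 ≤ M j)
          have hodd : a % 2 = 1 := by
            rw [ha, ← Nat.odd_iff]
            apply Odd.mul (Nat.odd_iff.2 hco)
            apply Finset.prod_induction x Odd (fun _ _ => Odd.mul) odd_one
            intro r _
            have h2 := mem_Pr.1 (hA r (hx r))
            rcases h2.2.2.eq_two_or_odd' with h3 | h3
            · have := hM r; omega
            · exact h3
          have hji : j ∈ e.erase i := mem_erase.2 ⟨hij.symm, hj⟩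
          have hasz : (M i : ℝ) * a ≤ (M j : ℝ) ^ ϑ0 := by
            have h2 : ∀ r ∈ (e.erase i).erase j, (x r : ℝ) ≤ (M j : ℝ) ^ (2 * ϑ) := by
              intro r hr
              rw [mem_erase, mem_erase] at hr
              have h3 := mem_Pr.1 (hA r (hx r))
              have h4 := hsm r hr.2.2 hr.1
              have h5 : (x r : ℝ) ≤ 2 * M r := by exact_mod_cast h3.2.1.le
              have h6 : (2 : ℝ) ≤ (M j : ℝ) ^ ϑ := hN2 (M j) (by have := hM j; omega)
              calc (x r : ℝ) ≤ 2 * M r := h5
                _ ≤ (M j : ℝ) ^ ϑ * (M j : ℝ) ^ ϑ := mul_le_mul h6 h4 (Nat.cast_nonneg _) (Real.rpow_nonneg hMjp.le _)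
                _ = _ := by rw [← Real.rpow_add hMjp]; congr 1; ring
            have h3 : ∏ r ∈ (e.erase i).erase j, (x r : ℝ) ≤ ((M j : ℝ) ^ (2 * ϑ)) ^ ((e.erase i).erase j).card := by
              refine (prod_le_prod (fun r _ => Nat.cast_nonneg _) h2).trans ?_
              rw [prod_const]
            have h4 : ((M j : ℝ) ^ (2 * ϑ)) ^ ((e.erase i).erase j).card ≤ ((M j : ℝ) ^ (2 * ϑ)) ^ k := by
              apply pow_le_pow_right₀ (Real.one_le_rpow hMj1 (by positivity))
              rw [hk]
              exact card_le_univ _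
            have h5 : (M i : ℝ) ≤ (M j : ℝ) ^ ϑ := hsm i hi hij
            have h6 : 0 ≤ ∏ r ∈ (e.erase i).erase j, (x r : ℝ) := prod_nonneg fun r _ => Nat.cast_nonneg _
            rw [ha]
            push_cast
            calc (M i : ℝ) * ((c e : ℝ) * ∏ r ∈ (e.erase i).erase j, (x r : ℝ))
                ≤ (M j : ℝ) ^ ϑ * ((M j : ℝ) ^ ϑ * ((M j : ℝ) ^ (2 * ϑ)) ^ k) := by
                  apply mul_le_mul h5 _ (mul_nonneg (Nat.cast_nonneg _) h6) (Real.rpow_nonneg hMjp.le _)
                  exact mul_le_mul hce (h3.trans h4) h6 (Real.rpow_nonneg hMjp.le _)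
              _ = (M j : ℝ) ^ (ϑ + (ϑ + 2 * ϑ * k)) := by
                  rw [← Real.rpow_natCast, ← Real.rpow_mul hMjp.le, ← Real.rpow_add hMjp, ← Real.rpow_add hMjp]
              _ = (M j : ℝ) ^ ϑ0 := by
                  congr 1
                  rw [hϑ]; field_simp; ring
          -- the scale
          have hsc1 : scale c M e = c e * (M i * (M j * ∏ r ∈ (e.erase i).erase j, M r)) := by
            unfold scale
            rw [← mul_prod_erase e _ hi, ← mul_prod_erase (e.erase i) _ hji]
          have hscL : scale c M e ≤ a * M i * M j := by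
            rw [hsc1, ha]
            have h2 : ∏ r ∈ (e.erase i).erase j, M r ≤ ∏ r ∈ (e.erase i).erase j, x r :=
              prod_le_prod' fun r _ => (mem_Pr.1 (hA r (hx r))).1
            calc c e * (M i * (M j * ∏ r ∈ (e.erase i).erase j, M r))
                ≤ c e * (M i * (M j * ∏ r ∈ (e.erase i).erase j, x r)) := by gcongr
              _ = _ := by ring
          have hscU : a * M i * M j ≤ 2 ^ k * scale c M e := by
            rw [hsc1, ha]
            have h2 : ∏ r ∈ (e.erase i).erase j, x r ≤ 2 ^ k * ∏ r ∈ (e.erase i).erase j, M r := by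
              calc ∏ r ∈ (e.erase i).erase j, x r ≤ ∏ r ∈ (e.erase i).erase j, (2 * M r) :=
                    prod_le_prod' fun r _ => (mem_Pr.1 (hA r (hx r))).2.1.le
                _ = 2 ^ ((e.erase i).erase j).card * ∏ r ∈ (e.erase i).erase j, M r := by
                    rw [prod_mul_distrib, prod_const]
                _ ≤ 2 ^ k * ∏ r ∈ (e.erase i).erase j, M r := by
                    apply Nat.mul_le_mul_right
                    apply Nat.pow_le_pow_right (by norm_num)
                    rw [hk]; exact card_le_univ _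
            calc c e * (∏ r ∈ (e.erase i).erase j, x r) * M i * M j
                = c e * (M i * (M j * ∏ r ∈ (e.erase i).erase j, x r)) := by ring
              _ ≤ c e * (M i * (M j * (2 ^ k * ∏ r ∈ (e.erase i).erase j, M r))) := by gcongr
              _ = _ := by ring
          have h2 := hpb1 (M i) (M j) (by have := hM i; omega) (by have := hM j; omega) hsc a hodd hasz
            (fun z => g e z - l e) (hgR e heE) (by
              intro n hn
              have h3 : (n : ℝ) ≤ 64 * 2 ^ (Fintype.card ι) * scale c M e := by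
                have h4 : ((a * M i * M j : ℕ) : ℝ) ≤ ((2 ^ k * scale c M e : ℕ) : ℝ) := by exact_mod_cast hscU
                push_cast at h4
                rw [← hk]
                refine hn.trans ?_
                linarith
              refine (hmean e heE n h3).trans ?_
              apply mul_le_mul_of_nonneg_left _ hμ.le
              exact_mod_cast hscL) α β hα1 hβ1
          have h3 : ∑ p ∈ A i, ∑ b ∈ A j, Φ (Function.update (Function.update x i p) j b)
              = ∑ p ∈ Pr (M i), ∑ b ∈ Pr (M j), α p * β b * (g e ((p * (a * b) : ℕ) : ℤ) - l e) := by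
            have h4 : ∀ p ∈ Pr (M i), p ∉ A i → ∑ b ∈ Pr (M j), α p * β b * (g e ((p * (a * b) : ℕ) : ℤ) - l e) = 0 := by
              intro p _ hp
              apply sum_eq_zero; intro b _
              rw [hα]; simp only [if_neg hp]; ring
            rw [← sum_subset (hA i) h4]
            apply sum_congr rfl
            intro p hp
            have h5 : ∀ b ∈ Pr (M j), b ∉ A j → α p * β b * (g e ((p * (a * b) : ℕ) : ℤ) - l e) = 0 := by
              intro b _ hb
              rw [hβ]; simp only [if_neg hb]; ring
            rw [← sum_subset (hA j) h5]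
            apply sum_congr rfl
            intro b hb
            have hval : pv c e (Function.update (Function.update x i p) j b) = p * (a * b) := by
              unfold pv
              rw [← mul_prod_erase e _ hi, ← mul_prod_erase (e.erase i) _ hji]
              rw [Function.update_self, Function.update_of_ne hij, Function.update_self]
              have h6 : ∏ r ∈ (e.erase i).erase j, Function.update (Function.update x i p) j b r
                  = ∏ r ∈ (e.erase i).erase j, x r := by
                apply prod_congr rfl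
                intro r hr
                rw [mem_erase, mem_erase] at hr
                rw [Function.update_of_ne hr.1, Function.update_of_ne hr.2.1]
              rw [h6, ha]
              ring
            have hFe : F e (Function.update (Function.update x i p) j b) = g e ((p * (a * b) : ℕ) : ℤ) := by
              rw [hF]; simp only
              rw [hval]
            have hprod : ∏ e' ∈ G', F e' (Function.update (Function.update x i p) j b) = α p * β b := by
              rw [hα, hβ]
              simp only [if_pos hp, if_pos hb]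
              rw [← prod_filter_mul_prod_filter_not G' (fun e' => i ∈ e')]
              congr 1
              · apply prod_congr rfl
                intro e' he'
                rw [mem_filter] at he'
                have h6 : e' ∈ G := by rw [hG'] at he'; exact mem_of_mem_erase he'.1
                have h7 : e' ≠ e := by rintro rfl; exact heG' he'.1
                have h8 := hpriv e' h6 h7 he'.2
                apply hFc
                intro r hr
                rw [Function.update_of_ne]
                rintro rfl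
                exact h8 hr
              · apply prod_congr rfl
                intro e' he'
                rw [mem_filter] at he'
                apply hFc
                intro r hr
                by_cases hrj : r = j
                · rw [hrj, Function.update_self, Function.update_self]
                · rw [Function.update_of_ne hrj, Function.update_of_ne hrj, Function.update_of_ne]
                  rintro rfl
                  exact he'.2 hr
            rw [hΦ]
            simp only
            rw [hprod, hFe]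
          rw [h3]
          exact h2
        by_cases hne : (Fintype.piFinset A).Nonempty
        · have hcpos : ∀ r, (0 : ℝ) < (A r).card := by
            intro r
            have h2 := (Fintype.piFinset_nonempty.1 hne) r
            exact_mod_cast card_pos.2 h2
          have h3 := upd_sum2 A hij Φ
          have h4 : (A i).card * ((A j).card * |∑ x ∈ Fintype.piFinset A, Φ x|)
              ≤ (∏ r, ((A r).card : ℝ)) * (ε' * ((Pr (M i)).card * (Pr (M j)).card)) := by
            calc (A i).card * ((A j).card * |∑ x ∈ Fintype.piFinset A, Φ x|)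
                = |(A i).card * ((A j).card * ∑ x ∈ Fintype.piFinset A, Φ x)| := by
                  rw [abs_mul, abs_mul, Nat.abs_cast, Nat.abs_cast]
              _ = |∑ x ∈ Fintype.piFinset A, ∑ p ∈ A i, ∑ b ∈ A j, Φ (Function.update (Function.update x i p) j b)| := by
                  rw [h3]
              _ ≤ ∑ x ∈ Fintype.piFinset A, |∑ p ∈ A i, ∑ b ∈ A j, Φ (Function.update (Function.update x i p) j b)| :=
                  abs_sum_le_sum_abs _ _
              _ ≤ ∑ x ∈ Fintype.piFinset A, ε' * ((Pr (M i)).card * (Pr (M j)).card) := sum_le_sum hbil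
              _ = _ := by
                  rw [sum_const, nsmul_eq_mul, Fintype.card_piFinset]
                  push_cast; rfl
          have hA1 : ∏ r, ((A r).card : ℝ) = (A i).card * ((A j).card * ∏ r ∈ (univ.erase i).erase j, ((A r).card : ℝ)) := by
            rw [← mul_prod_erase univ _ (mem_univ i), ← mul_prod_erase (univ.erase i) _ (mem_erase.2 ⟨hij.symm, mem_univ j⟩)]
          have hT1 : T = (Pr (M i)).card * ((Pr (M j)).card * ∏ r ∈ (univ.erase i).erase j, ((Pr (M r)).card : ℝ)) := by
            rw [hT, ← mul_prod_erase univ _ (mem_univ i), ← mul_prod_erase (univ.erase i) _ (mem_erase.2 ⟨hij.symm, mem_univ j⟩)]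
          have hle : ∏ r ∈ (univ.erase i).erase j, ((A r).card : ℝ) ≤ ∏ r ∈ (univ.erase i).erase j, ((Pr (M r)).card : ℝ) := by
            apply prod_le_prod (fun r _ => Nat.cast_nonneg _)
            intro r _
            exact_mod_cast card_le_card (hA r)
          have h5 : (A i).card * ((A j).card * |∑ x ∈ Fintype.piFinset A, Φ x|)
              ≤ (A i).card * ((A j).card * (ε' * T)) := by
            refine h4.trans ?_
            rw [hA1, hT1]
            have e1 : ((A i).card : ℝ) * ((A j).card * ∏ r ∈ (univ.erase i).erase j, ((A r).card : ℝ)) * (ε' * ((Pr (M i)).card * (Pr (M j)).card))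
                = (A i).card * ((A j).card * (ε' * ((Pr (M i)).card * ((Pr (M j)).card * ∏ r ∈ (univ.erase i).erase j, ((A r).card : ℝ))))) := by ring
            rw [e1]
            apply mul_le_mul_of_nonneg_left _ (Nat.cast_nonneg _)
            apply mul_le_mul_of_nonneg_left _ (Nat.cast_nonneg _)
            apply mul_le_mul_of_nonneg_left _ hε'0.le
            apply mul_le_mul_of_nonneg_left _ (Nat.cast_nonneg _)
            exact mul_le_mul_of_nonneg_left hle (Nat.cast_nonneg _)
          have h6 := le_of_mul_le_mul_left h5 (hcpos i)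
          exact le_of_mul_le_mul_left h6 (hcpos j)
        · rw [not_nonempty_iff_eq_empty] at hne
          rw [hne, sum_empty, abs_zero]
          exact mul_nonneg hε'0.le hT0
      rw [hsplit]
      have h2 : l e * ∑ x ∈ Fintype.piFinset A, ∏ e' ∈ G', F e' x + ∑ x ∈ Fintype.piFinset A, Φ x
          - (l e * ∏ e' ∈ G', l e') * ∏ i, ((A i).card : ℝ)
          = l e * (∑ x ∈ Fintype.piFinset A, ∏ e' ∈ G', F e' x - (∏ e' ∈ G', l e') * ∏ i, ((A i).card : ℝ))
            + ∑ x ∈ Fintype.piFinset A, Φ x := by ring
      rw [h2]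
      refine (abs_add_le _ _).trans ?_
      rw [abs_mul, abs_of_nonneg (hl e heE).1]
      have h3 : l e * |∑ x ∈ Fintype.piFinset A, ∏ e' ∈ G', F e' x - (∏ e' ∈ G', l e') * ∏ i, ((A i).card : ℝ)|
          ≤ 1 * (n * (ε' * T)) := mul_le_mul (hl e heE).2 h1 (abs_nonneg _) (by norm_num)
      push_cast
      linarith
  have h1 := hind E.card E (Subset.refl E) rfl
  rw [hF] at h1
  refine h1.trans ?_
  rw [← hT]
  have h2 : (E.card : ℝ) ≤ 2 ^ k := by
    have h3 : E.card ≤ Fintype.card (Finset ι) := card_le_univ E
    rw [Fintype.card_finset, ← hk] at h3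
    exact_mod_cast h3
  calc (E.card : ℝ) * (ε' * T) ≤ 2 ^ k * (ε' * T) := mul_le_mul_of_nonneg_right h2 (mul_nonneg hε'0.le hT0)
    _ = ε * T := by rw [hε']; field_simp

end Pool.Agent.U596.TR
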