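import Pool.Agent.U596.TR4
import Pool.Agent.Y964.LW.C8

/-! Events: laws of entrance times, invariant sets. -/

set_option autoImplicit false

namespace Pool.Agent.U596.TR

open Finset Filter Topology Pool.Agent.H320R2.PD Pool.Agent.H499R2.ND Pool.Agent.H499R2.CO Pool.Agent.H376R2.MR
  Pool.Agent.W41.FU Pool.Agent.W41 Pool.Agent.W41.MU Pool.Agent.Y964.LW Pool.Agent.U596.TP
open scoped Classical

/-- the laws -/
theorem UEv_fam {s : ℤ} (hs : s = 1 ∨ s = -1) {R : ℕ} {ι : Type} (A : Fam s R ι) (i : ι) (x : ℝ) :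
    UEv R s {((fun n : ℕ => A.E i (thr A.α A.σ x (Real.log n)) n), A.F i x)} := by
  intro K η hη
  obtain ⟨θ, hθ, hc1, hc2⟩ : ∃ θ : ℝ, 0 < θ ∧ |A.F i (x + θ) - A.F i x| ≤ η ∧ |A.F i (x - θ) - A.F i x| ≤ η := by
    obtain ⟨η', hη', h1⟩ := Metric.continuousAt_iff.1 (A.cont i).continuousAt η hη
    refine ⟨η' / 2, by positivity, ?_, ?_⟩
    · have := h1 (x := x + η' / 2) (by rw [Real.dist_eq, add_sub_cancel_left, abs_of_pos (by positivity)]; linarith)
      rw [Real.dist_eq] at this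
      exact this.le
    · have := h1 (x := x - η' / 2) (by
        rw [Real.dist_eq, sub_sub_cancel_left, abs_neg, abs_of_pos (by positivity)]; linarith)
      rw [Real.dist_eq] at this
      exact this.le
  have hK1 : 0 ≤ Real.log ((K : ℝ) + 1) := Real.log_nonneg (by linarith [Nat.cast_nonneg (α := ℝ) K])
  obtain ⟨L1, hL1, t1⟩ := thr_cmp (α := A.α) (σ := A.σ) (x := x + θ) (θ := θ) (D := Real.log ((K : ℝ) + 1))
    (κ := A.σ * θ / 4) A.hσ hθ hK1 rfl
  obtain ⟨L2, hL2, t2⟩ := thr_cmp (α := A.α) (σ := A.σ) (x := x - θ) (θ := θ) (D := Real.log ((K : ℝ) + 1))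
    (κ := A.σ * θ / 4) A.hσ hθ hK1 rfl
  obtain ⟨κ1, hκ1, f1⟩ := fix_law (P := A.E i) (A.mono i) A.hσ (A.cont i) (A.law i) (x + θ) hη K
  obtain ⟨κ2, hκ2, f2⟩ := fix_law (P := A.E i) (A.mono i) A.hσ (A.cont i) (A.law i) (x - θ) hη K
  have hlog : ∀ᶠ N : ℕ in atTop, max L1 L2 ≤ Real.log N :=
    (Real.tendsto_log_atTop.comp tendsto_natCast_atTop_atTop).eventually_ge_atTop _
  obtain ⟨N1, hN1⟩ := eventually_atTop.1 (f1.and (f2.and hlog))
  refine ⟨N1 + 1, fun Y hY P hP => ?_⟩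
  obtain ⟨g1, g2, g3⟩ := hN1 Y (by omega)
  rw [Set.mem_singleton_iff] at hP
  subst hP
  have hF := A.F01 i x
  refine ⟨hF.1, hF.2, fun b => ?_⟩
  have hY0 : (0 : ℝ) < Y := by exact_mod_cast (by omega : 0 < Y)
  have hsq : 0 ≤ Real.sqrt (Real.log Y) := Real.sqrt_nonneg _
  have hcmp : ∀ n : ℕ, 1 ≤ n → Y ≤ n → n ≤ K * Y → 0 ≤ Real.log n ∧ |Real.log n - Real.log Y| ≤ Real.log ((K : ℝ) + 1) := by
    intro n hn1 h1 h2
    have hn0 : (0 : ℝ) < n := by exact_mod_cast hn1
    have h3 : Real.log Y ≤ Real.log n := Real.log_le_log hY0 (by exact_mod_cast h1)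
    have h4 : Real.log n ≤ Real.log ((K : ℝ) + 1) + Real.log Y := by
      rw [← Real.log_mul (by positivity) hY0.ne']
      apply Real.log_le_log hn0
      have h5 : (n : ℝ) ≤ K * Y := by exact_mod_cast h2
      nlinarith
    refine ⟨Real.log_natCast_nonneg _, ?_⟩
    rw [abs_of_nonneg (by linarith)]
    linarith
  cases b with
  | true =>
    have hF' := A.F01 i (x + θ)
    refine ⟨A.E i (thr A.α A.σ (x + θ) (Real.log Y)), A.F i (x + θ), hF'.1, hF'.2, hc1,
      bf_same hs hF'.1 hF'.2 (A.same i _), ?_, ?_⟩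
    · intro n hn
      rw [bf_sum]
      exact g1 _ (by rw [sub_self, abs_zero]; positivity) n hn
    · intro n hn1 h1 h2
      refine ⟨fun _ hPn => ?_, fun h => by simp at h⟩
      obtain ⟨c1, c2⟩ := hcmp n hn1 h1 h2
      have h3 := (t1 (Real.log Y) (Real.log n) ((le_max_left _ _).trans g3) c1 c2).2
      rw [add_sub_cancel_right] at h3
      refine A.mono i _ _ n ?_ hPn
      have : 0 ≤ A.σ * θ / 4 * Real.sqrt (Real.log Y) := by
        have := A.hσ
        positivity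
      linarith
  | false =>
    have hF' := A.F01 i (x - θ)
    refine ⟨A.E i (thr A.α A.σ (x - θ) (Real.log Y)), A.F i (x - θ), hF'.1, hF'.2, hc2,
      bf_same hs hF'.1 hF'.2 (A.same i _), ?_, ?_⟩
    · intro n hn
      rw [bf_sum]
      exact g2 _ (by rw [sub_self, abs_zero]; positivity) n hn
    · intro n hn1 h1 h2
      refine ⟨fun h => by simp at h, fun _ hQn => ?_⟩
      obtain ⟨c1, c2⟩ := hcmp n hn1 h1 h2
      have h3 := (t2 (Real.log Y) (Real.log n) ((le_max_right _ _).trans g3) c1 c2).1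
      rw [sub_add_cancel] at h3
      refine A.mono i _ _ n ?_ hQn
      have : 0 ≤ A.σ * θ / 4 * Real.sqrt (Real.log Y) := by
        have := A.hσ
        positivity
      linarith

/-- finitely many events -/
theorem UEv_finite {R : ℕ} {s : ℤ} {τ : Type} (t : Finset τ) (P : τ → (ℕ → Prop) × ℝ)
    (h : ∀ j ∈ t, UEv R s {P j}) : UEv R s {Q | ∃ j ∈ t, Q = P j} := by
  induction t using Finset.induction_on with
  | empty =>
    intro K η hη
    refine ⟨0, fun Y _ Q hQ => ?_⟩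
    obtain ⟨j, hj, _⟩ := hQ
    simp at hj
  | insert j t hj ih =>
    have h1 := ih (fun j' hj' => h j' (mem_insert_of_mem hj'))
    have h2 := (h j (mem_insert_self j t)).union h1
    have e : {Q : (ℕ → Prop) × ℝ | ∃ j' ∈ insert j t, Q = P j'} = {P j} ∪ {Q | ∃ j' ∈ t, Q = P j'} := by
      ext Q
      simp only [mem_insert, Set.mem_setOf_eq, Set.mem_union, Set.mem_singleton_iff, exists_eq_or_imp]
    rw [e]
    exact h2

/-- the invariant sets -/
theorem UEv_inv (R : ℕ) {s : ℤ} (hs : s = 1 ∨ s = -1) :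
    UEv R s {P | ∃ (S : Set ℤ) (δ : ℝ), Inv 1 S ∧ HD s S δ ∧ P = ((fun n : ℕ => s * (n : ℤ) ∈ S), δ)} := by
  intro K η hη
  obtain ⟨N0, hN0⟩ := unif hs (show 0 < η / (K + 1) by positivity)
  obtain ⟨N1, hN1⟩ := exists_nat_ge ((N0 : ℝ) / η)
  refine ⟨N1 + N0 + 1, fun Y hY P hP => ?_⟩
  obtain ⟨S, δ, hS, hδ, rfl⟩ := hP
  have hd := HD_mem hs hδ
  refine ⟨hd.1, hd.2, fun b => ⟨fun n : ℕ => s * (n : ℤ) ∈ S, δ, hd.1, hd.2, ?_, ?_, ?_, ?_⟩⟩
  · rw [sub_self, abs_zero]; exact hη.le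
  · apply bf_same hs hd.1 hd.2
    intro j x y _ _ h1 _ _ hx
    rw [inv_iter hS j, side_iter hs] at hx ⊢
    rw [← h1]; exact hx
  · intro n hn
    rw [bf_sum]
    have e1 : cnt (fun n : ℕ => s * (n : ℤ) ∈ S) n = (cF s S n : ℝ) := by
      rw [cnt_eq]
      unfold cF
      congr 1
    rw [e1]
    have hn' : (n : ℝ) ≤ K * Y := by exact_mod_cast hn
    rcases Nat.lt_or_ge n N0 with h1 | h1
    · have h2 : (cF s S n : ℝ) ≤ n := by
        unfold cF
        have : ((Icc 1 n).filter (fun m : ℕ => s * (m : ℤ) ∈ S)).card ≤ n := by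
          refine (card_filter_le _ _).trans ?_
          rw [Nat.card_Icc]; omega
        exact_mod_cast this
      have h3 : (0 : ℝ) ≤ cF s S n := Nat.cast_nonneg _
      have h4 : δ * n ≤ n := mul_le_of_le_one_left (Nat.cast_nonneg _) hd.2
      have h5 : 0 ≤ δ * n := mul_nonneg hd.1 (Nat.cast_nonneg _)
      have h6 : (n : ℝ) ≤ N0 := by exact_mod_cast h1.le
      have h7 : (N0 : ℝ) ≤ η * Y := by
        rw [div_le_iff₀ hη] at hN1
        have h8 : (N1 : ℝ) ≤ Y := by exact_mod_cast (by omega : N1 ≤ Y)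
        nlinarith
      rw [abs_le]
      constructor <;> linarith
    · refine (hN0 S hS δ hδ n h1).trans ?_
      calc η / (K + 1) * n ≤ η / (K + 1) * (K * Y) := mul_le_mul_of_nonneg_left hn' (by positivity)
        _ ≤ η / (K + 1) * ((K + 1) * Y) := by
            apply mul_le_mul_of_nonneg_left _ (by positivity)
            apply mul_le_mul_of_nonneg_right _ (Nat.cast_nonneg _)
            linarith
        _ = η * Y := by field_simp
  · intro n _ _ _
    exact ⟨fun _ h => h, fun _ h => h⟩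

end Pool.Agent.U596.TR
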