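import Pool.Agent.U596.TR5
import Pool.Agent.Y964.LW.C4

/-! Events given by the total stopping time. -/

set_option autoImplicit false

namespace Pool.Agent.U596.TR

open Finset Filter Topology
open Pool.Agent.Y964.LW
open Pool.Agent.H499R2.CO (Tz)
open Pool.Agent.H499R2.ND (Dn Tn Td Phi Phi_continuous phi_cdf Bas CC BasC)
open Pool.Agent.H499R2.LT (odn od od_nat Td_nat law_one law_oneC ocn oC_nat Dn_sum Dn_iff)
open Pool.Agent.H499R2.HL (H H_two H_of_two H_unique odn_two bk bo nu rr nu_pos rr_pos sqrt_rr law_k law_o)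
open scoped Classical

theorem UEv_congr {R : ℕ} {s : ℤ} {P P' : ℕ → Prop} {l l' : ℝ} (h : UEv R s {(P, l)}) (hP : ∀ n, 1 ≤ n → (P' n ↔ P n))
    (hl : l' = l) : UEv R s {(P', l')} := by
  subst hl
  intro K η hη
  obtain ⟨N1, h1⟩ := h K η hη
  refine ⟨N1, fun Y hY Q hQ => ?_⟩
  rw [Set.mem_singleton_iff] at hQ
  subst hQ
  obtain ⟨g1, g2, g3⟩ := h1 Y hY (P, l') rfl
  refine ⟨g1, g2, fun b => ?_⟩
  obtain ⟨Q, l, u1, u2, u3, u4, u5, u6⟩ := g3 b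
  refine ⟨Q, l, u1, u2, u3, u4, u5, fun n hn h2 h3 => ?_⟩
  obtain ⟨v1, v2⟩ := u6 n hn h2 h3
  exact ⟨fun hb hP' => v1 hb ((hP n hn).1 hP'), fun hb hQ => (hP n hn).2 (v2 hb hQ)⟩

theorem laws : ∃ δ : ℝ, 0 < δ ∧ δ ≤ 1 ∧ (δ = 1 ↔ ∀ n : ℕ, 1 ≤ n → ∃ k : ℕ, Tn^[k] n = 1) ∧
    Dn (fun n => ∃ k : ℕ, Tn^[k] n = 1) δ ∧
    ∀ (m : ℕ) (a b : ℤ) (x : ℝ), 1 ≤ m →
      UEv 2 1 {((fun n : ℕ => ∃ k, H k n ∧ ((k : ℝ) ≤ bk x (Real.log n) ∧ (k : ℤ) ≡ a [ZMOD m] ∧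
        (odn k n : ℤ) ≡ b [ZMOD m])), δ / (m : ℝ) ^ 2 * Phi x)} ∧
      UEv 2 1 {((fun n : ℕ => ∃ k, H k n ∧ (((k + odn k n : ℕ) : ℝ) ≤ bc x (Real.log n) ∧
        ((k + odn k n : ℕ) : ℤ) ≡ a [ZMOD m] ∧ (odn k n : ℤ) ≡ b [ZMOD m])), δ / (m : ℝ) ^ 2 * Phi x)} ∧
      UEv 2 1 {((fun n : ℕ => ∃ k, H k n ∧ ((odn k n : ℝ) ≤ bo x (Real.log n) ∧ (odn k n : ℤ) ≡ b [ZMOD m])),
        δ / (m : ℝ) * Phi x)} := by
  obtain ⟨δ, h0, h1, h2, h3, h4⟩ := law_one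
  obtain ⟨δ1, _, _, _, h31, h41⟩ := law_k
  obtain ⟨δ2, _, _, _, h32, h42⟩ := law_oneC
  have e1 : δ1 = δ := tendsto_nhds_unique h31 h3
  have e2 : δ2 = δ := by
    refine tendsto_nhds_unique (Dn_iff (fun n _ => ?_) h32) h3
    exact (BasC n).symm
  rw [e1] at h41
  rw [e2] at h42
  have hnu := nu_pos
  have hrr := rr_pos
  have hl2 : 0 < Real.log 2 := Real.log_pos (by norm_num)
  have hl3 : 0 < Real.log 3 := Real.log_pos (by norm_num)
  have hl6 : 0 < Real.log 6 := Real.log_pos (by norm_num)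
  have s1 : (1 : ℤ) = 1 ∨ (1 : ℤ) = -1 := Or.inl rfl
  refine ⟨δ, h0, h1, h2, h3, fun m a b x hm => ⟨?_, ?_, ?_⟩⟩
  · have h5 := UEv_fam s1 (mkFam (ι := ℤ × ℤ) (fun i τ k o => (k : ℝ) ≤ τ ∧ (k : ℤ) ≡ i.1 [ZMOD m] ∧ (o : ℤ) ≡ i.2 [ZMOD m])
      (fun i => (i.1 - 1, i.2)) 1 (2 / Real.log (4 / 3)) (Real.log 3 * rr) (fun _ x => δ / (m : ℝ) ^ 2 * Phi x)
      zero_le_one (by positivity)
      (fun _ _ _ _ _ h1 h => ⟨h.1.trans h1, h.2⟩) (fun i τ k o => by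
        rw [mod_succ, le_sub_iff_add_le]; push_cast; rfl) (fun _ _ => rfl)
      (fun _ x => mul01 (div_sq_le h0 h1 hm) (phi01 x))
      (fun _ => Phi_continuous.const_mul _)
      (fun i x => by
        have h6 := (h4 m i.1 i.2 hm).2 x
        have e : δ * ProbabilityTheory.cdf (ProbabilityTheory.gaussianReal 0 1) x / (m : ℝ) ^ 2
            = δ / m ^ 2 * Phi x := by rw [phi_cdf]; ring
        rw [e] at h6
        refine Dn_iff (fun n _ => exists_congr fun k => ?_) h6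
        rw [← bk_thr]
        unfold bk H
        tauto)) (a, b) x
    refine UEv_congr h5 (fun n _ => ?_) rfl
    rw [bk_thr]
    exact Iff.rfl
  · have h5 := UEv_fam s1 (mkFam (ι := ℤ × ℤ) (fun i τ k o => ((k + o : ℕ) : ℝ) ≤ τ ∧ ((k + o : ℕ) : ℤ) ≡ i.1 [ZMOD m] ∧
        (o : ℤ) ≡ i.2 [ZMOD m])
      (fun i => (i.1 - 1, i.2)) 1 (3 / Real.log (4 / 3)) (Real.log 6 * rr) (fun _ x => δ / (m : ℝ) ^ 2 * Phi x)
      zero_le_one (by positivity)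
      (fun _ _ _ _ _ h1 h => ⟨h.1.trans h1, h.2⟩) (fun i τ k o => by
        rw [show k + 1 + o = (k + o) + 1 by ring, mod_succ, le_sub_iff_add_le]; push_cast; rfl) (fun _ _ => rfl)
      (fun _ x => mul01 (div_sq_le h0 h1 hm) (phi01 x))
      (fun _ => Phi_continuous.const_mul _)
      (fun i x => by
        have h6 := h42 m i.1 i.2 hm x
        have e : δ * ProbabilityTheory.cdf (ProbabilityTheory.gaussianReal 0 1) x / (m : ℝ) ^ 2
            = δ / m ^ 2 * Phi x := by rw [phi_cdf]; ring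
        rw [e] at h6
        refine Dn_iff (fun n hn => ?_) h6
        rw [← bc_thr]
        constructor
        · rintro ⟨l, g1, g2, g3, g4⟩
          obtain ⟨k, hk, rfl⟩ := (hitC hn).1 g2
          rw [ocn_run] at g4
          exact ⟨k, hk, g1, g3, g4⟩
        · rintro ⟨k, hk, g1, g3, g4⟩
          exact ⟨k + odn k n, g1, (hitC hn).2 ⟨k, hk, rfl⟩, g3, by rw [ocn_run]; exact g4⟩)) (a, b) x
    refine UEv_congr h5 (fun n _ => ?_) rfl
    rw [bc_thr]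
    exact Iff.rfl
  · have h5 := UEv_fam s1 (mkFam (ι := ℤ) (fun i τ _ o => (o : ℝ) ≤ τ ∧ (o : ℤ) ≡ i [ZMOD m])
      id 0 (1 / Real.log (4 / 3)) (Real.log 2 * rr) (fun _ x => δ / (m : ℝ) * Phi x)
      le_rfl (by positivity)
      (fun _ _ _ _ _ h1 h => ⟨h.1.trans h1, h.2⟩) (fun i τ k o => by
        rw [sub_zero]; rfl) (fun _ _ => rfl)
      (fun _ x => mul01 (div_le' h0 h1 hm) (phi01 x))
      (fun _ => Phi_continuous.const_mul _)
      (fun i x => by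
        refine Dn_iff (fun n _ => exists_congr fun k => ?_) (law_o (h41 m i hm).2 x)
        rw [← bo_thr]
        tauto)) b x
    refine UEv_congr h5 (fun n _ => ?_) rfl
    rw [bo_thr]
    exact Iff.rfl

end Pool.Agent.U596.TR
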